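import Pool.Agent.LibCL48.Rec

/-!
Elementary relations in nondeterministic polynomial time.
-/

namespace Pool.Agent.LibCL48

open Function Pool.Agent.LibNexp

variable {O : List Bool → Bool}

/-- Substitution into a marked pair: `z` is the image of `x`, then the word `w`, then the
image of `y`. -/
theorem pt_subst (c d : Bool → List Bool) (w : List Bool) :
    PT O fun e : Fin 3 → List Bool => e 2 = (e 0).flatMap c ++ w ++ (e 1).flatMap d := by
  obtain ⟨K, hK⟩ : ∃ K, ∀ b, (c b).length ≤ K ∧ (d b).length ≤ K := by
    refine ⟨(c false).length + (c true).length + (d false).length + (d true).length, fun b => ?_⟩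
    cases b
    · constructor <;> omega
    · constructor <;> omega
  refine pt_of_prog (.seq (matching 0 2 c) (.seq (popW 2 w) (.seq (matching 1 2 d) (.empty 2))))
    (T := fun n => (2 * (K + 1)) * n + (w.length + 3))
    (((PolyB.const _).mul PolyB.id).add (PolyB.const _)) ?_ ?_
  · rintro e t σ' ⟨t1, t2, τ1, -, h1, t3, t4, τ2, -, h2, t5, t6, τ3, -, h3, -, h4, rfl⟩
    obtain ⟨a1, a2, a3⟩ := matching_sound (by norm_num) h1
    obtain ⟨b1, b2⟩ := popW_sound h2
    obtain ⟨c1, c2, c3⟩ := matching_sound (by norm_num) h3
    rw [init2, init0, b1, c1, h4, List.append_nil, b2 1 (by norm_num),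
      a3 1 (by norm_num) (by norm_num), init1] at a1
    rw [a1, List.append_assoc]
  · intro e he
    have h0 : init e 2 = (init e 0).flatMap c ++ (w ++ (e 1).flatMap d) := by
      rw [init2, init0, he, List.append_assoc]
    obtain ⟨t1, ht1, h1⟩ := matching_complete (O := O) (by norm_num) (fun b => (hK b).1) h0
    have h2 := popW_complete (O := O) (r := 2) (w := w) (l := (e 1).flatMap d)
      (σ := update (update (init e) 0 []) 2 (w ++ (e 1).flatMap d)) (by rw [update_self])
    rw [update_idem] at h2
    obtain ⟨t3, ht3, h3⟩ := matching_complete (O := O) (x := 1) (z := 2) (by norm_num)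
      (fun b => (hK b).2) (l := []) (σ := update (update (init e) 0 []) 2 ((e 1).flatMap d))
      (by rw [update_self, update_of_ne (by norm_num), update_of_ne (by norm_num), init1,
        List.append_nil])
    have h4 : Run O (.seq (matching 0 2 c) (.seq (popW 2 w) (.seq (matching 1 2 d) (.empty 2))))
        (t1 + (w.length + (t3 + 1))) (init e) _ :=
      ⟨_, _, _, rfl, h1, _, _, _, rfl, h2, _, _, _, rfl, h3, rfl, by rw [update_self], rfl⟩
    refine ⟨_, _, ?_, h4⟩
    rw [init0] at ht1
    rw [update_of_ne (by norm_num), update_of_ne (by norm_num), init1] at ht3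
    have e1 := len_le_size e 0
    have e2 := len_le_size e 1
    have e3 : (K + 1) * (e 0).length ≤ (K + 1) * size e := Nat.mul_le_mul_left _ e1
    have e4 : (K + 1) * (e 1).length ≤ (K + 1) * size e := Nat.mul_le_mul_left _ e2
    have e5 : 2 * (K + 1) * size e = (K + 1) * size e + (K + 1) * size e := by ring
    omega

/-- A relation between two lengths. -/
theorem pt_len (p q r s : ℕ) : PT O fun e : Fin 2 → List Bool =>
    ∃ k, (e 0).length = p * k + r ∧ (e 1).length = q * k + s := by
  refine pt_of_prog (.seq (.star (.seq (popN 0 p) (popN 1 q))) (.seq (popN 0 r)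
    (.seq (popN 1 s) (.seq (.empty 0) (.empty 1)))))
    (T := fun n => 2 * (n + 1)) ((PolyB.const _).mul PolyB.id.succ) ?_ ?_
  · rintro e t σ' ⟨t1, t2, τ1, -, h1, t3, t4, τ2, -, h2, t5, t6, τ3, -, h3, t7, t8, τ4, -,
      ⟨-, h4, rfl⟩, -, h5, rfl⟩
    obtain ⟨a1, a2⟩ := popN_sound h2
    obtain ⟨b1, b2⟩ := popN_sound h3
    have c1 : (τ1 0).length = r := by
      rw [a1, ← b2 0 (by norm_num), h4]; simp
    have c2 : (τ1 1).length = s := by
      rw [← a2 1 (by norm_num), b1, h5]; simp
    have := iter_back (J := fun σ => ∃ k, (σ 0).length = p * k + r ∧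
      (σ 1).length = q * k + s) (by
        rintro t σ τ ⟨t1, t2, υ, -, h6, h7⟩ ⟨k, h8, h9⟩
        obtain ⟨d1, d2⟩ := popN_sound h6
        obtain ⟨f1, f2⟩ := popN_sound h7
        refine ⟨k + 1, ?_, ?_⟩
        · rw [d1, ← f2 0 (by norm_num), h8]; ring
        · rw [← d2 1 (by norm_num), f1, h9]; ring) h1 ⟨0, by simpa using c1, by simpa using c2⟩
    rwa [init0, init1] at this
  · rintro e ⟨k, hk0, hk1⟩
    suffices H : ∀ (k : ℕ) (σ : State), (σ 0).length = p * k + r → (σ 1).length = q * k + s →
        (∃ t, t ≤ p * k + q * k ∧ Iter (Run O (.seq (popN 0 p) (popN 1 q))) t σ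
          (update (update σ 0 ((σ 0).drop (p * k))) 1 ((σ 1).drop (q * k)))) by
      obtain ⟨t, ht, h1⟩ := H k (init e) (by rw [init0]; exact hk0) (by rw [init1]; exact hk1)
      rw [init0, init1] at h1
      set τ1 := update (update (init e) 0 (List.drop (p * k) (e 0))) 1 (List.drop (q * k) (e 1))
        with hτ1
      have l0 : (τ1 0).length = r := by
        rw [hτ1, update_of_ne (by norm_num), update_self, List.length_drop, hk0]; omega
      have l1 : (τ1 1).length = s := by
        rw [hτ1, update_self, List.length_drop, hk1]; omega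
      have h2 := popN_complete (O := O) (r := 0) (n := r) (σ := τ1) (by omega)
      set τ2 := update τ1 0 (List.drop r (τ1 0)) with hτ2
      have l2 : (τ2 1).length = s := by rw [hτ2, update_of_ne (by norm_num), l1]
      have h3 := popN_complete (O := O) (r := 1) (n := s) (σ := τ2) (by omega)
      set τ3 := update τ2 1 (List.drop s (τ2 1)) with hτ3
      have l3 : τ3 1 = [] := by
        rw [hτ3, update_self]; exact List.drop_eq_nil_of_le (by omega)
      have l4 : τ3 0 = [] := by
        rw [hτ3, update_of_ne (by norm_num), hτ2, update_self]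
        exact List.drop_eq_nil_of_le (by omega)
      refine ⟨t + (r + (s + (1 + 1))), τ3, ?_, _, _, _, rfl, h1, _, _, _, rfl, h2, _, _, _, rfl, h3,
        _, _, _, rfl, ⟨rfl, l4, rfl⟩, rfl, l3, rfl⟩
      have e0 := len_le_size e 0
      have e1 := len_le_size e 1
      show _ ≤ 2 * (size e + 1)
      omega
    intro k
    induction k with
    | zero => intro σ _ _; exact ⟨0, by simp, by simpa using Iter.nil _⟩
    | succ k ih =>
      intro σ h0 h1
      rw [mul_add, mul_one] at h0 h1
      have a1 := popN_complete (O := O) (r := 0) (n := p) (σ := σ) (by omega)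
      set τ1 := update σ 0 (List.drop p (σ 0)) with hτ1
      have a2 := popN_complete (O := O) (r := 1) (n := q) (σ := τ1) (by
        rw [hτ1, update_of_ne (by norm_num)]; omega)
      set τ2 := update τ1 1 (List.drop q (τ1 1)) with hτ2
      have b0 : τ2 0 = List.drop p (σ 0) := by
        rw [hτ2, update_of_ne (by norm_num), hτ1, update_self]
      have b1 : τ2 1 = List.drop q (σ 1) := by
        rw [hτ2, update_self, hτ1, update_of_ne (by norm_num)]
      obtain ⟨t, ht, h3⟩ := ih τ2 (by rw [b0, List.length_drop]; omega)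
        (by rw [b1, List.length_drop]; omega)
      refine ⟨p + q + t, by rw [mul_add, mul_add, mul_one, mul_one]; omega, ?_⟩
      have h4 := Iter.cons (R := Run O (.seq (popN 0 p) (popN 1 q))) ⟨p, q, τ1, rfl, a1, a2⟩ h3
      convert h4 using 1
      rw [b0, b1, List.drop_drop, List.drop_drop]
      funext s
      by_cases hs : s = 1
      · subst hs
        rw [update_self, update_self]
        congr 1
        ring
      · rw [update_of_ne hs, update_of_ne hs]
        by_cases hs' : s = 0
        · subst hs'
          rw [update_self, update_self]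
          congr 1
          ring
        · rw [update_of_ne hs', update_of_ne hs', hτ2, update_of_ne hs, hτ1, update_of_ne hs']

/-- Multiplication of lengths. -/
theorem pt_mul : PT O fun e : Fin 3 → List Bool =>
    (e 2).length = (e 0).length * (e 1).length := by
  refine pt_of_prog (.seq (.star (.seq (popAny 0) (copy 1 3 4))) (.seq (.empty 0)
    (.seq (.star (pop2 2 3)) (.seq (.empty 2) (.empty 3)))))
    (T := fun n => n * (5 * n + 3) + (2 * n + 3))
    ((PolyB.id.mul (((PolyB.const 5).mul PolyB.id).add (PolyB.const 3))).add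
      (((PolyB.const 2).mul PolyB.id).add (PolyB.const 3))) ?_ ?_
  · rintro e t σ' ⟨t1, t2, τ1, -, h1, t3, t4, τ2, -, ⟨-, h2, rfl⟩, t5, t6, τ3, -, h3,
      t7, t8, τ4, -, ⟨-, h4, rfl⟩, -, h5, rfl⟩
    have hinv := iter_inv (P := fun σ => σ 4 = [] ∧ σ 1 = e 1 ∧ σ 2 = e 2 ∧
      (σ 3).length + (σ 0).length * (e 1).length = (e 0).length * (e 1).length) (by
        rintro t σ τ ⟨t1, t2, υ, -, h6, h7⟩ ⟨i1, i2, i3, i4⟩
        obtain ⟨b, l, h8, -, rfl⟩ := run_popAny.1 h6
        rw [run_copy (by norm_num) (by norm_num) (by norm_num)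
          (by rw [update_of_ne (by norm_num)]; exact i1)] at h7
        obtain ⟨-, rfl⟩ := h7
        have u0 : update σ 0 l 1 = σ 1 := update_of_ne (by norm_num) _ _
        have u1 : update σ 0 l 3 = σ 3 := update_of_ne (by norm_num) _ _
        rw [u0, u1]
        refine ⟨?_, ?_, ?_, ?_⟩
        · rw [update_of_ne (by norm_num), update_of_ne (by norm_num)]; exact i1
        · rw [update_of_ne (by norm_num), u0]; exact i2
        · rw [update_of_ne (by norm_num), update_of_ne (by norm_num)]; exact i3
        · rw [update_self, update_of_ne (by norm_num), update_self, List.length_append, i2]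
          rw [h8, List.length_cons] at i4
          rw [← i4]
          ring) h1 ⟨init_ge e (by norm_num), init1 e, init2 e, by
            rw [init0, init_ge e (r := 3) le_rfl]; simp⟩
    obtain ⟨i1, i2, i3, i4⟩ := hinv
    obtain ⟨j1, -⟩ := iter_pop2_sound (by norm_num) h3
    rw [h4, h5, i3] at j1
    rw [h2] at i4
    simp only [List.length_nil, zero_mul, add_zero, zero_add] at i4 j1
    rw [j1, i4]
  · intro e he
    suffices H : ∀ (w : List Bool) (σ : State), σ 0 = w → σ 4 = [] → ∃ s : List Bool,
        s.length = w.length * (σ 1).length + (σ 3).length ∧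
        Iter (Run O (.seq (popAny 0) (copy 1 3 4))) (w.length * (5 * (σ 1).length + 3)) σ
          (update (update σ 0 []) 3 s) by
      obtain ⟨s, hs, h1⟩ := H (e 0) (init e) (init0 e) (init_ge e (by norm_num))
      rw [init1, init_ge e (r := 3) le_rfl, List.length_nil, add_zero] at hs
      rw [init1] at h1
      set τ1 := update (update (init e) 0 []) 3 s with hτ1
      have a0 : τ1 0 = [] := by rw [hτ1, update_of_ne (by norm_num), update_self]
      have a2 : τ1 2 = e 2 := by
        rw [hτ1, update_of_ne (by norm_num), update_of_ne (by norm_num), init2]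
      have a3 : τ1 3 = s := by rw [hτ1, update_self]
      have h2 := iter_pop2_complete (O := O) (r := 2) (s := 3) (by norm_num) (e 2).length τ1
        (by rw [a2]) (by rw [a3, hs, he])
      set τ2 := update (update τ1 2 []) 3 [] with hτ2
      have b2 : τ2 2 = [] := by rw [hτ2, update_of_ne (by norm_num), update_self]
      have b3 : τ2 3 = [] := by rw [hτ2, update_self]
      refine ⟨(e 0).length * (5 * (e 1).length + 3) + (1 + (2 * (e 2).length + (1 + 1))), τ2, ?_,
        _, _, _, rfl, h1, _, _, _, rfl, ⟨rfl, a0, rfl⟩, _, _, _, rfl, h2, _, _, _, rfl,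
        ⟨rfl, b2, rfl⟩, rfl, b3, rfl⟩
      have e0 := len_le_size e 0
      have e1 := len_le_size e 1
      have e2 := len_le_size e 2
      have e3 : (e 0).length * (5 * (e 1).length + 3) ≤ size e * (5 * size e + 3) :=
        Nat.mul_le_mul e0 (by omega)
      show _ ≤ size e * (5 * size e + 3) + (2 * size e + 3)
      omega
    intro w
    induction w with
    | nil =>
      intro σ h0 h4
      refine ⟨σ 3, by simp, ?_⟩
      have e1 : update σ 0 [] = σ := by rw [← h0]; simp
      rw [e1]
      simpa using Iter.nil σ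
    | cons b w ih =>
      intro σ h0 h4
      have h5 : Run O (popAny 0) 1 σ (update σ 0 w) := run_popAny.2 ⟨b, w, h0, rfl, rfl⟩
      have u0 : update σ 0 w 1 = σ 1 := update_of_ne (by norm_num) _ _
      have u1 : update σ 0 w 3 = σ 3 := update_of_ne (by norm_num) _ _
      have u2 : update σ 0 w 4 = [] := by rw [update_of_ne (by norm_num)]; exact h4
      have h6 : Run O (copy 1 3 4) (5 * (σ 1).length + 2) (update σ 0 w)
          (update (update σ 0 w) 3 (σ 1 ++ σ 3)) := by
        rw [run_copy (by norm_num) (by norm_num) (by norm_num) u2, u0, u1]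
        exact ⟨rfl, rfl⟩
      obtain ⟨s, hs, h7⟩ := ih (update (update σ 0 w) 3 (σ 1 ++ σ 3))
        (by rw [update_of_ne (by norm_num), update_self])
        (by rw [update_of_ne (by norm_num)]; exact u2)
      have v1 : update (update σ 0 w) 3 (σ 1 ++ σ 3) 1 = σ 1 := by
        rw [update_of_ne (by norm_num), u0]
      rw [v1, update_self, List.length_append] at hs
      rw [v1] at h7
      refine ⟨s, by rw [hs, List.length_cons]; ring, ?_⟩
      have h8 : Run O (.seq (popAny 0) (copy 1 3 4)) (1 + (5 * (σ 1).length + 2)) σ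
          (update (update σ 0 w) 3 (σ 1 ++ σ 3)) := ⟨_, _, _, rfl, h5, h6⟩
      have h9 := Iter.cons h8 h7
      convert h9 using 1
      · rw [List.length_cons]; ring
      · funext u
        by_cases hu : u = 3
        · subst hu; simp
        · by_cases hu' : u = 0
          · subst hu'; simp
          · simp [hu, hu']

/-- Powers of lengths. -/
theorem pt_pow (K : ℕ) : PT O fun e : Fin 2 → List Bool =>
    (e 1).length = (e 0).length ^ K := by
  induction K with
  | zero =>
    refine ((pt_len (O := O) 0 0 1 1).reindex ![1, 1]).congr fun e => ?_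
    simp
  | succ K ih =>
    refine (PT.exists (R := fun e : Fin 3 → List Bool => (e 2).length = (e 0).length ^ K ∧
      (e 1).length = (e 2).length * (e 0).length)
      (((ih.reindex ![0, 2]).congr fun e => ?_).and
        (((pt_mul (O := O)).reindex ![2, 0, 1]).congr fun e => ?_))
      (g := fun n => n ^ K) (PolyB.id.pow K) ?_).congr fun e => ?_
    · simp
    · simp
    · rintro e z ⟨h, -⟩
      simp only [(app2 e z).1, (app2 e z).2.2] at h
      rw [h]
      exact Nat.pow_le_pow_left (len_le_size e 0) K
    · simp only [fun z => (app2 e z).1, fun z => (app2 e z).2.1, fun z => (app2 e z).2.2]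
      constructor
      · rintro ⟨z, h1, h2⟩
        rw [h2, h1, pow_succ]
      · intro h
        refine ⟨List.replicate ((e 0).length ^ K) true, by simp, ?_⟩
        rw [h, List.length_replicate, pow_succ]

/-- Comparison of lengths. -/
theorem pt_le : PT O fun e : Fin 2 → List Bool => (e 0).length ≤ (e 1).length := by
  refine pt_of_prog (.seq (.star (pop2 0 1)) (.seq (.empty 0) (.star (popAny 1))))
    (T := fun n => 2 * n + 1) (((PolyB.const 2).mul PolyB.id).add (PolyB.const 1)) ?_ ?_
  · rintro e t σ' ⟨t1, t2, τ1, -, h1, t3, t4, τ2, -, ⟨-, h2, rfl⟩, -⟩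
    obtain ⟨h3, -⟩ := iter_pop2_sound (by norm_num) h1
    rw [init0, init1, h2] at h3
    simp only [List.length_nil, zero_add] at h3
    omega
  · intro e he
    suffices H : ∀ (n : ℕ) (σ : State), (σ 0).length = n → n ≤ (σ 1).length →
        ∃ σ', Iter (Run O (pop2 0 1)) (2 * n) σ σ' ∧ σ' 0 = [] by
      obtain ⟨σ', h1, h2⟩ := H (e 0).length (init e) (by rw [init0]) (by rw [init1]; exact he)
      refine ⟨2 * (e 0).length + (1 + 0), σ', ?_, _, _, _, rfl, h1, _, _, _, rfl,
        ⟨rfl, h2, rfl⟩, Iter.nil _⟩
      have := len_le_size e 0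
      show _ ≤ 2 * size e + 1
      omega
    intro n
    induction n with
    | zero =>
      intro σ h1 _
      exact ⟨σ, Iter.nil _, List.length_eq_zero_iff.1 h1⟩
    | succ n ih =>
      intro σ h1 h2
      obtain ⟨b, l, hl⟩ : ∃ b l, σ 0 = b :: l := by
        cases h : σ 0 with
        | nil => rw [h] at h1; simp at h1
        | cons b l => exact ⟨b, l, rfl⟩
      obtain ⟨b', l', hl'⟩ : ∃ b l, σ 1 = b :: l := by
        cases h : σ 1 with
        | nil => rw [h] at h2; simp at h2
        | cons b l => exact ⟨b, l, rfl⟩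
      obtain ⟨σ', h3, h4⟩ := ih (update (update σ 0 l) 1 l')
        (by rw [update_of_ne (by norm_num), update_self]; rw [hl] at h1; simpa using h1)
        (by rw [update_self]; rw [hl'] at h2; simpa using h2)
      refine ⟨σ', ?_, h4⟩
      have h5 : Run O (pop2 0 1) 2 σ (update (update σ 0 l) 1 l') :=
        ⟨1, 1, _, rfl, run_popAny.2 ⟨b, l, hl, rfl, rfl⟩,
          run_popAny.2 ⟨b', l', by rw [update_of_ne (by norm_num)]; exact hl', rfl, rfl⟩⟩
      have h6 := Iter.cons h5 h3
      convert h6 using 1
      ring

theorem pt_pairRel : PT O fun e : Fin 3 → List Bool => e 2 = pair (e 0) (e 1) := by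
  refine (pt_subst (O := O) (fun b => [b, b]) (fun b => [b]) [true, false]).congr fun e => ?_
  unfold pair
  have : (e 1).flatMap (fun b => [b]) = e 1 := by simp
  rw [this]

theorem pt_cat : PT O fun e : Fin 3 → List Bool => e 2 = e 0 ++ e 1 := by
  refine (pt_subst (O := O) (fun b => [b]) (fun b => [b]) []).congr fun e => ?_
  simp

end Pool.Agent.LibCL48
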