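import Pool.Agent.LibTA48.Coding

/-!
Oracles which code the complements of nondeterministic languages, with test languages for
many exponents: the completion of a finite part.
-/

namespace Pool.Agent.LibCL48

open Function Pool.Agent.LibNexp
open Pool.Agent.LibSpec4 hiding cd cd_injective length_cd length_lt_cd AccN qlen wl IsCode Val comp Good stage
open Pool.Agent.LibTA48 (cd cd_injective length_cd length_lt_cd)

/-- The data of the coding: for every index a program, its clock, the length of the witnesses and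
the number of bits of the key, as functions of the length of the input. -/
structure Data where
  prog : ℕ → Prog
  clock : ℕ → ℕ → ℕ
  wl : ℕ → ℕ → ℕ
  kl : ℕ → ℕ → ℕ
  lt_wl : ∀ N m, m + 2 ^ clock N m < wl N m

/-- A bound for the length of the strings asked by program number `N` on inputs of length `m`. -/
def Data.q (D : Data) (N m : ℕ) : ℕ := m + 2 ^ D.clock N m

theorem Data.q_lt_wl (D : Data) (N m : ℕ) : D.q N m < D.wl N m := D.lt_wl N m

/-- Program number `N` accepts `x` in its time. -/
def AccN (D : Data) (O : List Bool → Bool) (N : ℕ) (x : List Bool) : Prop :=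
  Acc O (D.prog N) (2 ^ D.clock N x.length) x

/-- The test strings. -/
def ts (i : ℕ) (x w : List Bool) : List Bool :=
  true :: (List.replicate i true ++ false :: pair x w)

/-- The test languages. -/
def Tst (i : ℕ) (O : List Bool → Bool) : Lang := {x | ∃ w, O (ts i x w) = true}

theorem ts_injective {i i' : ℕ} {x x' w w' : List Bool} (h : ts i x w = ts i' x' w') :
    i = i' ∧ x = x' ∧ w = w' := by
  unfold ts at h
  simp only [List.cons.injEq, true_and] at h
  obtain ⟨h1, h2⟩ := unary_injective h
  obtain ⟨h3, h4⟩ := pair_injective h2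
  exact ⟨h1, h3, h4⟩

theorem length_ts (i : ℕ) (x w : List Bool) :
    (ts i x w).length = i + 2 * x.length + w.length + 4 := by
  unfold ts
  rw [List.length_cons, List.length_append, List.length_cons, length_pair, List.length_replicate]
  ring

theorem ts_ne_cd {i N : ℕ} {x w x' r w' : List Bool} : ts i x w ≠ cd N x' r w' := by
  intro h
  simp [ts, cd, ask] at h

/-- Code strings of the right length. -/
def IsCode (D : Data) (s : List Bool) : Prop :=
  ∃ N x r w, s = cd N x r w ∧ w.length = D.wl N x.length ∧ r.length = D.kl N x.length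

/-- Test strings of the right length. -/
def IsTs (e : ℕ → ℕ → ℕ) (s : List Bool) : Prop :=
  ∃ i x w, s = ts i x w ∧ w.length = 2 ^ e i x.length

/-- Oracles coding all complements correctly. -/
structure Good (D : Data) (e : ℕ → ℕ → ℕ) (ρ : ℕ → ℕ → ℕ) (O : List Bool → Bool) : Prop where
  sound : ∀ N x w, w.length = D.wl N x.length →
    O (cd N x (dg (D.kl N x.length) (ρ N x.length)) w) = true → ¬ AccN D O N x
  complete : ∀ N x, ¬ AccN D O N x → ∃ w : List Bool, w.length = D.wl N x.length ∧
    O (cd N x (dg (D.kl N x.length) (ρ N x.length)) w) = true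
  codes : ∀ s, O (false :: s) = true → IsCode D (false :: s)
  tests : ∀ s, O (true :: s) = true → IsTs e (true :: s)

variable {D : Data} {e : ℕ → ℕ → ℕ}

theorem accN_agree {O O' : List Bool → Bool} {N : ℕ} {x : List Bool}
    (h : ∀ s, s.length ≤ D.q N x.length → O s = O' s) : AccN D O N x ↔ AccN D O' N x :=
  ⟨fun h1 => acc_agree h h1, fun h1 => acc_agree (fun s hs => (h s hs).symm) h1⟩

/-- The setting of one stage: the oracle built so far, its keys, the level, the small facts,
the values of the census at which the coding started. -/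
structure Ctx (D : Data) (e : ℕ → ℕ → ℕ) where
  O₀ : List Bool → Bool
  ρ₀ : ℕ → ℕ → ℕ
  good : Good D e ρ₀ O₀
  i : ℕ
  n : ℕ
  hn : 1 ≤ n
  Sm : ℕ → ℕ → Prop

variable (c : Ctx D e)

/-- The level. -/
def Ctx.ℓ : ℕ := c.i + 2 * c.n + 2 ^ e c.i c.n + 4

/-- The strings whose values are fixed: the short ones and the codes of the facts decided by
the short ones. -/
def Ctx.Fx (s : List Bool) : Prop :=
  s.length < c.ℓ ∨ ∃ N x r w, s = cd N x r w ∧ D.q N x.length < c.ℓ

open Classical in
/-- The keys at depth `θ` when the census is `J`. -/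
noncomputable def Ctx.κ (base : ℕ → ℕ → ℕ) (θ J N m : ℕ) : ℕ :=
  if D.q N m < c.ℓ then c.ρ₀ N m else if c.Sm N m ∨ θ < D.wl N m then 0 else J - base N m

/-- Admissible finite parts: `F` is the set of frozen strings, `v` gives their values, `J` is a
bound for the census, `Tab` is the set of accepted inputs of small facts. -/
structure Fz (base : ℕ → ℕ → ℕ) (θ : ℕ) (F : Finset (List Bool)) (v : List Bool → Bool) (J : ℕ)
    (Tab : Set (ℕ × List Bool)) : Prop where
  len : ∀ s ∈ F, s.length ≤ θ
  fixed : ∀ s ∈ F, c.Fx s → v s = c.O₀ s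
  cens : ∀ j, j < 2 ^ (c.n - 1) → ∀ w, ts c.i (xs c.n j) w ∈ F →
    v (ts c.i (xs c.n j) w) = true → j < J
  codes : ∀ s, false :: s ∈ F → v (false :: s) = true → IsCode D (false :: s)
  tests : ∀ s, true :: s ∈ F → v (true :: s) = true → IsTs e (true :: s)
  fresh : ∀ N x w j, cd N x (dg (D.kl N x.length) j) w ∈ F →
    v (cd N x (dg (D.kl N x.length) j) w) = true → w.length = D.wl N x.length →
    j < 2 ^ D.kl N x.length → c.ℓ ≤ D.q N x.length → ¬ c.Sm N x.length → j < J - base N x.length
  small : ∀ N x w, cd N x (dg (D.kl N x.length) 0) w ∈ F →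
    v (cd N x (dg (D.kl N x.length) 0) w) = true → w.length = D.wl N x.length →
    c.ℓ ≤ D.q N x.length → c.Sm N x.length → (N, x) ∉ Tab
  acc : ∀ N x, (N, x) ∈ Tab → ∀ O' : List Bool → Bool, (∀ s ∈ F, O' s = v s) → AccN D O' N x

/-- Oracles continuing a finite part, legal up to depth `θ`, with census at most `J`. -/
structure Leg (base : ℕ → ℕ → ℕ) (θ : ℕ) (F : Finset (List Bool)) (v : List Bool → Bool) (J : ℕ)
    (O : List Bool → Bool) : Prop where
  fixed : ∀ s, c.Fx s → O s = c.O₀ s
  ext : ∀ s ∈ F, O s = v s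
  cens : ∀ j, j < 2 ^ (c.n - 1) → ∀ w, O (ts c.i (xs c.n j) w) = true → j < J
  codes : ∀ s, O (false :: s) = true → IsCode D (false :: s)
  tests : ∀ s, O (true :: s) = true → IsTs e (true :: s)
  sound : ∀ N x w, w.length = D.wl N x.length → D.wl N x.length ≤ θ →
    O (cd N x (dg (D.kl N x.length) (c.κ base θ J N x.length)) w) = true → ¬ AccN D O N x
  fresh : ∀ N x w j, w.length = D.wl N x.length → D.wl N x.length ≤ θ → c.ℓ ≤ D.q N x.length →
    ¬ c.Sm N x.length → j < 2 ^ D.kl N x.length → J - base N x.length < j →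
    O (cd N x (dg (D.kl N x.length) j) w) = false

variable {c}

theorem κ_eq {base : ℕ → ℕ → ℕ} {θ θ' J N m : ℕ} (h : D.wl N m ≤ θ) (h' : D.wl N m ≤ θ') :
    c.κ base θ J N m = c.κ base θ' J N m := by
  classical
  have h1 : (c.Sm N m ∨ θ < D.wl N m) ↔ (c.Sm N m ∨ θ' < D.wl N m) := by
    constructor
    · rintro (h1 | h1)
      · exact Or.inl h1
      · omega
    · rintro (h1 | h1)
      · exact Or.inl h1
      · omega
  unfold Ctx.κ
  exact if_congr Iff.rfl rfl (if_congr h1 rfl rfl)

theorem Leg.mono {base : ℕ → ℕ → ℕ} {θ θ' : ℕ} {F F' : Finset (List Bool)} {v v' : List Bool → Bool}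
    {J : ℕ} {O : List Bool → Bool} (h : Leg c base θ F v J O) (hθ : θ' ≤ θ) (hF : F' ⊆ F)
    (hv : ∀ s ∈ F', v' s = v s) : Leg c base θ' F' v' J O where
  fixed := h.fixed
  ext s hs := by rw [h.ext s (hF hs), hv s hs]
  cens := h.cens
  codes := h.codes
  tests := h.tests
  sound N x w hw hθ' hO := by
    rw [κ_eq hθ' (le_trans hθ' hθ)] at hO
    exact h.sound N x w hw (le_trans hθ' hθ) hO
  fresh N x w j hw hθ' := h.fresh N x w j hw (le_trans hθ' hθ)

theorem Leg.base {base base' : ℕ → ℕ → ℕ} {θ : ℕ} {F : Finset (List Bool)} {v : List Bool → Bool}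
    {J : ℕ} {O : List Bool → Bool} (h : Leg c base θ F v J O)
    (hb : ∀ N m, D.wl N m ≤ θ → base' N m = base N m) : Leg c base' θ F v J O where
  fixed := h.fixed
  ext := h.ext
  cens := h.cens
  codes := h.codes
  tests := h.tests
  sound N x w hw hθ' hO := by
    have : c.κ base' θ J N x.length = c.κ base θ J N x.length := by
      unfold Ctx.κ
      rw [hb _ _ hθ']
    rw [this] at hO
    exact h.sound N x w hw hθ' hO
  fresh N x w j hw hθ' h1 h2 h3 h4 := h.fresh N x w j hw hθ' h1 h2 h3 (by rwa [hb _ _ hθ'] at h4)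

theorem Fx_of_short {s : List Bool} (h : s.length < c.ℓ) : c.Fx s := Or.inl h

theorem fx_cd {N : ℕ} {x r w : List Bool} (h : D.q N x.length < c.ℓ) : c.Fx (cd N x r w) :=
  Or.inr ⟨N, x, r, w, rfl, h⟩

theorem not_fx_cd {N : ℕ} {x r w : List Bool} (hw : w.length = D.wl N x.length)
    (h : c.ℓ ≤ D.q N x.length) : ¬ c.Fx (cd N x r w) := by
  rintro (h1 | ⟨N', x', r', w', h1, h2⟩)
  · have := length_lt_cd N x r w
    have := D.q_lt_wl N x.length
    omega
  · obtain ⟨rfl, rfl, -, -⟩ := cd_injective h1
    omega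

theorem length_ts_lev {j : ℕ} {w : List Bool} (hw : w.length = 2 ^ e c.i c.n) :
    (ts c.i (xs c.n j) w).length = c.ℓ := by
  rw [length_ts, length_xs c.hn, hw]
  rfl

theorem not_fx_ts {j : ℕ} {w : List Bool} (hw : w.length = 2 ^ e c.i c.n) :
    ¬ c.Fx (ts c.i (xs c.n j) w) := by
  rintro (h1 | ⟨N', x', r', w', h1, h2⟩)
  · rw [length_ts_lev hw] at h1
    exact lt_irrefl _ h1
  · exact ts_ne_cd h1

/-- The completion of an admissible finite part. -/
theorem build {base : ℕ → ℕ → ℕ} {θ : ℕ} {F : Finset (List Bool)} {v : List Bool → Bool} {J : ℕ}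
    {Tab : Set (ℕ × List Bool)} (hF : Fz c base θ F v J Tab) (hJ : J ≤ 2 ^ (c.n - 1))
    (hstab : ∀ N x, c.Sm N x.length → c.ℓ ≤ D.q N x.length → D.wl N x.length ≤ θ →
      ∃ θ' < D.wl N x.length, ∀ O, Leg c base θ' F v J O → AccN D O N x → (N, x) ∈ Tab)
    (hcap : ∀ N m, c.ℓ ≤ D.q N m → ¬ c.Sm N m → D.wl N m ≤ θ → J - base N m < 2 ^ D.kl N m)
    (hcard : F.card < 2 ^ (2 ^ e c.i c.n)) :
    ∃ O, Leg c base θ F v J O ∧ Good D e (c.κ base θ J) O ∧ ∀ j < J, xs c.n j ∈ Tst c.i O := by
  classical
  -- the witnesses of the test strings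
  have hW : ∀ j, ∃ w : List Bool, w.length = 2 ^ e c.i c.n ∧ ts c.i (xs c.n j) w ∉ F := by
    intro j
    by_contra hcon
    push Not at hcon
    have hc := Finset.card_le_card_of_injOn (s := strs (2 ^ e c.i c.n)) (t := F)
      (fun w => ts c.i (xs c.n j) w) (fun w hw => hcon w (mem_strs.1 hw))
      (fun w _ w' _ h => (ts_injective h).2.2)
    rw [card_strs] at hc
    omega
  choose W hW1 hW2 using hW
  set P : List Bool → Bool := fun s => if c.Fx s then c.O₀ s else if s ∈ F then v s else
    decide (∃ j < J, s = ts c.i (xs c.n j) (W j)) with hP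
  set Val : (List Bool → Bool) → List Bool → Prop := fun O s =>
    ∃ N x w, s = cd N x (dg (D.kl N x.length) (c.κ base θ J N x.length)) w ∧ ¬ AccN D O N x with hVal
  set Fr : List Bool → Prop := fun s => c.Fx s ∨ s ∈ F ∨ ¬ IsCode D s with hFr
  obtain ⟨O, hO⟩ := Pool.Agent.LibSpec4.exists_fix (fun O s => if Fr s then P s else decide (Val O s)) (by
    intro O O' s h
    by_cases h1 : Fr s
    · simp only [if_pos h1]
    · simp only [if_neg h1]
      have hcode : IsCode D s := by
        by_contra hc
        exact h1 (Or.inr (Or.inr hc))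
      obtain ⟨N, x, r, w, rfl, hw, hr⟩ := hcode
      have hag : ∀ u : List Bool, u.length ≤ D.q N x.length → O u = O' u := fun u hu => h u (by
        have := length_lt_cd N x r w
        have := D.q_lt_wl N x.length
        omega)
      refine decide_eq_decide.2 ⟨?_, ?_⟩
      · rintro ⟨N', x', w', h2, h3⟩
        obtain ⟨rfl, rfl, rfl, rfl⟩ := cd_injective h2
        exact ⟨N, x, w, rfl, by rwa [accN_agree hag] at h3⟩
      · rintro ⟨N', x', w', h2, h3⟩
        obtain ⟨rfl, rfl, rfl, rfl⟩ := cd_injective h2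
        exact ⟨N, x, w, rfl, by rwa [← accN_agree hag] at h3⟩)
  have hO1 : ∀ s, Fr s → O s = P s := fun s hs => by
    have := congrFun hO s
    simp only [if_pos hs] at this
    exact this.symm
  have hO2 : ∀ s, ¬ Fr s → (O s = true ↔ Val O s) := fun s hs => by
    have := congrFun hO s
    simp only [if_neg hs] at this
    rw [← this, decide_eq_true_iff]
  have hfix : ∀ s, c.Fx s → O s = c.O₀ s := fun s hs => by
    rw [hO1 s (Or.inl hs)]
    simp only [hP, if_pos hs]
  have hext : ∀ s ∈ F, O s = v s := fun s hs => by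
    by_cases h1 : c.Fx s
    · rw [hfix s h1, hF.fixed s hs h1]
    · rw [hO1 s (Or.inr (Or.inl hs))]
      simp only [hP, if_neg h1, if_pos hs]
  have hother : ∀ s, ¬ c.Fx s → s ∉ F → ¬ IsCode D s →
      (O s = true ↔ ∃ j < J, s = ts c.i (xs c.n j) (W j)) := fun s h1 h2 h3 => by
    rw [hO1 s (Or.inr (Or.inr h3))]
    simp only [hP, if_neg h1, if_neg h2, decide_eq_true_iff]
  have hnc : ∀ s : List Bool, ¬ IsCode D (true :: s) := by
    rintro s ⟨N, x, r, w, h, -⟩
    simp [cd, ask] at h
  have htsC : ∀ (i : ℕ) (x w : List Bool), ¬ IsCode D (ts i x w) := fun i x w => hnc _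
  have hcens : ∀ j, j < 2 ^ (c.n - 1) → ∀ w, O (ts c.i (xs c.n j) w) = true → j < J := by
    intro j hj w h
    by_cases h1 : c.Fx (ts c.i (xs c.n j) w)
    · exfalso
      rw [hfix _ h1] at h
      obtain ⟨i', x', w', h2, h3⟩ := c.good.tests _ (show c.O₀ (true :: _) = true from h)
      obtain ⟨rfl, rfl, rfl⟩ := ts_injective (show ts c.i (xs c.n j) w = ts i' x' w' from h2)
      rw [length_xs c.hn] at h3
      exact not_fx_ts h3 h1
    · by_cases h2 : ts c.i (xs c.n j) w ∈ F
      · rw [hext _ h2] at h
        exact hF.cens j hj w h2 h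
      · obtain ⟨j', hj', h3⟩ := (hother _ h1 h2 (htsC _ _ _)).1 h
        have h4 := (ts_injective h3).2.1
        have := xs_injective hj (by omega) h4
        omega
  have hcodes : ∀ s, O (false :: s) = true → IsCode D (false :: s) := by
    intro s h
    by_contra hc
    by_cases h1 : c.Fx (false :: s)
    · rw [hfix _ h1] at h
      exact hc (c.good.codes s h)
    · by_cases h2 : false :: s ∈ F
      · rw [hext _ h2] at h
        exact hc (hF.codes s h2 h)
      · obtain ⟨j', hj', h3⟩ := (hother _ h1 h2 hc).1 h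
        simp [ts] at h3
  have htests : ∀ s, O (true :: s) = true → IsTs e (true :: s) := by
    intro s h
    by_cases h1 : c.Fx (true :: s)
    · rw [hfix _ h1] at h
      exact c.good.tests s h
    · by_cases h2 : true :: s ∈ F
      · rw [hext _ h2] at h
        exact hF.tests s h2 h
      · obtain ⟨j', hj', h3⟩ := (hother _ h1 h2 (hnc s)).1 h
        exact ⟨_, _, _, h3, by rw [hW1, length_xs c.hn]⟩
  -- facts below the level
  have hlow : ∀ N x, D.q N x.length < c.ℓ → (AccN D O N x ↔ AccN D c.O₀ N x) := fun N x h =>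
    accN_agree fun s hs => hfix s (Or.inl (by omega))
  have hκlow : ∀ N m, D.q N m < c.ℓ → ∀ θ', c.κ base θ' J N m = c.ρ₀ N m := fun N m h θ' => by
    unfold Ctx.κ
    rw [if_pos h]
  have hκ0 : ∀ N m, c.ℓ ≤ D.q N m → c.Sm N m → ∀ θ', c.κ base θ' J N m = 0 := fun N m h h' θ' => by
    unfold Ctx.κ
    rw [if_neg (by omega), if_pos (Or.inl h')]
  have hκ1 : ∀ N m, c.ℓ ≤ D.q N m → ¬ c.Sm N m → ∀ θ', D.wl N m ≤ θ' →
      c.κ base θ' J N m = J - base N m := fun N m h h' θ' h2 => by
    unfold Ctx.κ
    rw [if_neg (by omega), if_neg (by rintro (h3 | h3) <;> first | exact h' h3 | omega)]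
  -- freshness
  have hfresh : ∀ N x w j, w.length = D.wl N x.length → D.wl N x.length ≤ θ → c.ℓ ≤ D.q N x.length →
      ¬ c.Sm N x.length → j < 2 ^ D.kl N x.length → J - base N x.length < j →
      O (cd N x (dg (D.kl N x.length) j) w) = false := by
    intro N x w j hw hθ hq hs hj hJj
    by_contra hne
    rw [Bool.not_eq_false] at hne
    by_cases h2 : cd N x (dg (D.kl N x.length) j) w ∈ F
    · rw [hext _ h2] at hne
      have := hF.fresh N x w j h2 hne hw hj hq hs
      omega
    · have h3 : ¬ Fr (cd N x (dg (D.kl N x.length) j) w) := by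
        rintro (h | h | h)
        · exact not_fx_cd hw hq h
        · exact h2 h
        · exact h ⟨N, x, _, w, rfl, hw, length_dg _ _⟩
      obtain ⟨N', x', w', h4, -⟩ := (hO2 _ h3).1 hne
      obtain ⟨rfl, rfl, h5, -⟩ := cd_injective h4
      rw [hκ1 N x.length hq hs θ hθ] at h5
      have := dg_injective hj (hcap N x.length hq hs hθ) h5
      omega
  -- soundness, by induction on the depth
  have hsound : ∀ d N x w, D.wl N x.length ≤ d → w.length = D.wl N x.length → 
      O (cd N x (dg (D.kl N x.length) (c.κ base θ J N x.length)) w) = true → ¬ AccN D O N x := by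
    intro d
    induction d using Nat.strong_induction_on with
    | _ d ih =>
      intro N x w hd hw hO'
      by_cases hq : D.q N x.length < c.ℓ
      · rw [hfix _ (fx_cd hq), hκlow N x.length hq θ] at hO'
        rw [hlow N x hq]
        exact c.good.sound N x w hw hO'
      · push Not at hq
        by_cases h2 : cd N x (dg (D.kl N x.length) (c.κ base θ J N x.length)) w ∈ F
        · have hlen := hF.len _ h2
          have hwθ : D.wl N x.length ≤ θ := by
            have := length_lt_cd N x (dg (D.kl N x.length) (c.κ base θ J N x.length)) w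
            omega
          rw [hext _ h2] at hO'
          by_cases hs : c.Sm N x.length
          · obtain ⟨θ', hθ', hst⟩ := hstab N x hs hq hwθ
            rw [hκ0 N x.length hq hs θ] at h2 hO'
            have hnot := hF.small N x w h2 hO' hw hq hs
            intro hacc
            refine hnot (hst O ⟨hfix, hext, hcens, hcodes, htests, ?_, ?_⟩ hacc)
            · intro N' x' w' hw' hθ'' hO''
              rw [κ_eq (θ' := θ) hθ'' (by omega)] at hO''
              exact ih (D.wl N' x'.length) (by omega) N' x' w' le_rfl hw' hO''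
            · intro N' x' w' j hw' hθ''
              exact hfresh N' x' w' j hw' (by omega)
          · exfalso
            have hc := hcap N x.length hq hs hwθ
            rw [hκ1 N x.length hq hs θ hwθ] at h2 hO'
            have := hF.fresh N x w _ h2 hO' hw hc hq hs
            omega
        · have h3 : ¬ Fr (cd N x (dg (D.kl N x.length) (c.κ base θ J N x.length)) w) := by
            rintro (h | h | h)
            · exact not_fx_cd hw hq h
            · exact h2 h
            · exact h ⟨N, x, _, w, rfl, hw, length_dg _ _⟩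
          obtain ⟨N', x', w', h4, h5⟩ := (hO2 _ h3).1 hO'
          obtain ⟨rfl, rfl, -, rfl⟩ := cd_injective h4
          exact h5
  have hsound' : ∀ N x w, w.length = D.wl N x.length → 
      O (cd N x (dg (D.kl N x.length) (c.κ base θ J N x.length)) w) = true → ¬ AccN D O N x :=
    fun N x w hw => hsound _ N x w le_rfl hw
  refine ⟨O, ⟨hfix, hext, hcens, hcodes, htests, fun N x w hw _ => hsound' N x w hw, hfresh⟩,
    ⟨hsound', ?_, hcodes, htests⟩, ?_⟩
  · -- completeness
    intro N x hN
    by_cases hq : D.q N x.length < c.ℓ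
    · rw [hlow N x hq] at hN
      obtain ⟨w, hw, h⟩ := c.good.complete N x hN
      exact ⟨w, hw, by rw [hfix _ (fx_cd hq), hκlow N x.length hq θ]; exact h⟩
    · push Not at hq
      obtain ⟨w, hw, hwF⟩ : ∃ w : List Bool, w.length = D.wl N x.length ∧
          cd N x (dg (D.kl N x.length) (c.κ base θ J N x.length)) w ∉ F := by
        by_contra hcon
        push Not at hcon
        have hc := Finset.card_le_card_of_injOn (s := strs (D.wl N x.length)) (t := F)
          (fun w => cd N x (dg (D.kl N x.length) (c.κ base θ J N x.length)) w)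
          (fun w hw => hcon w (mem_strs.1 hw)) (fun w _ w' _ h => (cd_injective h).2.2.2)
        rw [card_strs] at hc
        have h1 := D.q_lt_wl N x.length
        have h2 : 2 ^ e c.i c.n ≤ D.wl N x.length := by
          have : 2 ^ e c.i c.n ≤ c.ℓ := by unfold Ctx.ℓ; omega
          omega
        have h3 : 2 ^ (2 ^ e c.i c.n) ≤ 2 ^ D.wl N x.length := Nat.pow_le_pow_right (by norm_num) h2
        omega
      refine ⟨w, hw, (hO2 _ ?_).2 ⟨N, x, w, rfl, hN⟩⟩
      rintro (h | h | h)
      · exact not_fx_cd hw hq h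
      · exact hwF h
      · exact h ⟨N, x, _, w, rfl, hw, length_dg _ _⟩
  · intro j hj
    exact ⟨W j, (hother _ (not_fx_ts (hW1 j)) (hW2 j) (htsC _ _ _)).2 ⟨j, hj, rfl⟩⟩

end Pool.Agent.LibCL48
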