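import Mathlib

/-!
The laws of the relation between time and advice for complementation.
-/

namespace Pool.Agent.LibCL48

/-- The laws. -/
structure Laws (F : ℝ → ℝ → ℝ → Prop) : Prop where
  dom : ∀ a b c, F a b c → 0 < a ∧ a < b ∧ 0 ≤ c ∧ c < 1
  mono : ∀ a b c a' b' c', F a b c → 0 < a' → a' ≤ a → b ≤ b' → c ≤ c' → c' < 1 → F a' b' c'
  opn : ∀ a b c, F a b c → ∃ a' b' c', a < a' ∧ b' < b ∧ (c' < c ∨ c' = 0 ∧ c = 0) ∧ F a' b' c'
  pad : ∀ a b c r, F a b c → 1 ≤ r → r * c < 1 → F (r * a) (r * b) (r * c)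
  self : ∀ a b b' c d g, F a b c → c ≤ g → 0 < g → g < 1 → F (b / g) (b' / g) d →
    F a b' (g * d)

end Pool.Agent.LibCL48
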