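import Pool.Agent.LibCL48.Plan
import Pool.Agent.LibCL48.Laws
import Pool.Agent.LibTA48.Num

/-!
The laws imply that all small facts are short.
-/

namespace Pool.Agent.LibCL48

open Function Filter Pool.Agent.LibNexp
open Pool.Agent.LibTA48 (tendsto_rpow eventually_mul_le)

/-- The conditions for the parameters of a fact. -/
def FCond (F : ℝ → ℝ → ℝ → Prop) (a a1 b c1 c : ℝ) : Prop :=
  0 < a ∧ a < a1 ∧ F a1 b c1 ∧ c < 1 ∧ (c1 < c ∨ c1 = 0 ∧ c = 0)

/-- The conditions for the parameters of a requirement. -/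
def RCond (F : ℝ → ℝ → ℝ → Prop) (α l y c z : ℝ) : Prop :=
  0 < α ∧ α < l ∧ l < y ∧ ¬ F α y z ∧ z < 1 ∧ ((0 < c ∧ c < z) ∨ (c = 0 ∧ z = 0))

/-- The number of bits of advice beaten. -/
noncomputable def uu (c : ℝ) (n : ℕ) : ℕ := if c = 0 then 1 else ⌊(n : ℝ) ^ c⌋₊

/-- The slack. -/
def slack (B k n : ℕ) : ℕ := (B * Nat.size n + 1) * (k + Nat.size n + 2)

/-- The parameters of the facts. -/
structure Par where
  C : ℕ
  a : ℝ
  a1 : ℝ
  b : ℝ
  c1 : ℝ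
  c : ℝ

/-- The data given by programs and parameters. -/
noncomputable def pre (pr : ℕ → Prog) (P : ℕ → Par) : Pre where
  prog := pr
  clock N m := (P N).C * ⌈(m : ℝ) ^ (P N).a⌉₊ + (P N).C
  w N m := (m + 2 ^ ((P N).C * ⌈(m : ℝ) ^ (P N).a⌉₊ + (P N).C)) ^ 2 + 1 +
    2 ^ ⌈((m + 1 : ℕ) : ℝ) ^ (P N).b⌉₊
  kl N m := if (P N).c = 0 then 0 else ⌈((m + 1 : ℕ) : ℝ) ^ (P N).c⌉₊
  lt_w N m := by
    have h1 : m + 2 ^ ((P N).C * ⌈(m : ℝ) ^ (P N).a⌉₊ + (P N).C) ≤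
      (m + 2 ^ ((P N).C * ⌈(m : ℝ) ^ (P N).a⌉₊ + (P N).C)) ^ 2 := Nat.le_self_pow (by norm_num) _
    have h2 := Nat.two_pow_pos ⌈((m + 1 : ℕ) : ℝ) ^ (P N).b⌉₊
    omega

theorem size_le_rpow {ε : ℝ} (hε : 0 < ε) (K : ℝ) (hK : 0 ≤ K) :
    ∀ᶠ n : ℕ in atTop, K * ((Nat.size n : ℝ) + 1) ≤ (n : ℝ) ^ ε := by
  have h1 := (isLittleO_log_rpow_atTop hε).comp_tendsto tendsto_natCast_atTop_atTop
  have h2 := h1.def (c := 1 / (2 * (K + 1) * (1 / Real.log 2))) (by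
    have : 0 < Real.log 2 := Real.log_pos (by norm_num)
    positivity)
  filter_upwards [h2, (tendsto_rpow hε).eventually_ge_atTop (4 * (K + 1)), eventually_ge_atTop 1]
    with n h3 h4 h5
  have hlog2 : 0 < Real.log 2 := Real.log_pos (by norm_num)
  have hn1 : (1 : ℝ) ≤ n := by exact_mod_cast h5
  simp only [Function.comp_apply] at h3
  rw [Real.norm_of_nonneg (Real.log_nonneg hn1), Real.norm_of_nonneg (by positivity)] at h3
  have h6 : (Nat.size n : ℝ) ≤ Real.log n / Real.log 2 + 1 := by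
    have h7 : Nat.size n ≤ Nat.log 2 n + 1 := by
      rw [Nat.size_le]
      exact Nat.lt_pow_succ_log_self (by norm_num) n
    have h8 : (Nat.log 2 n : ℝ) * Real.log 2 ≤ Real.log n := by
      rw [← Real.log_pow]
      refine Real.log_le_log (by positivity) ?_
      exact_mod_cast Nat.pow_log_le_self 2 (by omega)
    have h9 : (Nat.log 2 n : ℝ) ≤ Real.log n / Real.log 2 := by
      rw [le_div_iff₀ hlog2]
      exact h8
    have h10 : (Nat.size n : ℝ) ≤ (Nat.log 2 n : ℝ) + 1 := by exact_mod_cast h7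
    linarith
  have h7 : K * (Real.log n / Real.log 2) ≤ (n : ℝ) ^ ε / 2 := by
    have h8 : Real.log n ≤ (n : ℝ) ^ ε * Real.log 2 / (2 * (K + 1)) := by
      refine le_trans h3 (le_of_eq ?_)
      field_simp
    have h9 : Real.log n / Real.log 2 ≤ (n : ℝ) ^ ε / (2 * (K + 1)) := by
      rw [div_le_iff₀ hlog2]
      refine le_trans h8 (le_of_eq ?_)
      ring
    have h10 : K * (Real.log n / Real.log 2) ≤ K * ((n : ℝ) ^ ε / (2 * (K + 1))) :=
      mul_le_mul_of_nonneg_left h9 hK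
    refine le_trans h10 ?_
    have h11 : (0 : ℝ) ≤ (n : ℝ) ^ ε := by positivity
    rw [mul_div_assoc', div_le_div_iff₀ (by positivity) (by norm_num)]
    nlinarith
  nlinarith

theorem slack_le {ε : ℝ} (hε : 0 < ε) (B k : ℕ) (K : ℝ) (hK : 0 ≤ K) :
    ∀ᶠ n : ℕ in atTop, K * (slack B k n : ℝ) ≤ (n : ℝ) ^ ε := by
  filter_upwards [size_le_rpow (half_pos hε) (K * (B + 1)) (by positivity),
    size_le_rpow (half_pos hε) (k + 2 : ℝ) (by positivity), eventually_ge_atTop 1] with n h1 h2 h3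
  have hn : (0 : ℝ) < n := by exact_mod_cast h3
  have h4 : (n : ℝ) ^ ε = (n : ℝ) ^ (ε / 2) * (n : ℝ) ^ (ε / 2) := by
    rw [← Real.rpow_add hn]
    congr 1
    ring
  rw [h4]
  have hs : (0 : ℝ) ≤ (Nat.size n : ℝ) := by positivity
  have h5 : (slack B k n : ℝ) ≤ ((B + 1) * ((Nat.size n : ℝ) + 1)) * ((k + 2) * ((Nat.size n : ℝ) + 1)) := by
    unfold slack
    push_cast
    have hB : (0 : ℝ) ≤ B := by positivity
    have hk : (0 : ℝ) ≤ k := by positivity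
    refine mul_le_mul ?_ ?_ (by positivity) (by positivity)
    · nlinarith
    · nlinarith
  calc K * (slack B k n : ℝ) ≤ K * (((B + 1) * ((Nat.size n : ℝ) + 1)) * ((k + 2) * ((Nat.size n : ℝ) + 1))) :=
        mul_le_mul_of_nonneg_left h5 hK
    _ = (K * (B + 1) * ((Nat.size n : ℝ) + 1)) * ((k + 2) * ((Nat.size n : ℝ) + 1)) := by ring
    _ ≤ (n : ℝ) ^ (ε / 2) * (n : ℝ) ^ (ε / 2) := mul_le_mul h1 h2 (by positivity) (by positivity)

theorem two_pow_add_le (a b : ℕ) : 2 ^ a + 2 ^ b ≤ 2 ^ (a + b + 1) := by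
  have h1 : 2 ^ a ≤ 2 ^ (a + b) := Nat.pow_le_pow_right (by norm_num) (by omega)
  have h2 : 2 ^ b ≤ 2 ^ (a + b) := Nat.pow_le_pow_right (by norm_num) (by omega)
  rw [pow_succ]
  omega

theorem q_le {pr : ℕ → Prog} {P : ℕ → Par} {H : ℕ → ℕ} (N m : ℕ) :
    ((pre pr P).toData H).q N m ≤
      2 ^ ((P N).C * ⌈(m : ℝ) ^ (P N).a⌉₊ + (P N).C + Nat.size m + 1) := by
  have h1 : m ≤ 2 ^ Nat.size m := (Nat.lt_size_self m).le
  have h2 := two_pow_add_le (Nat.size m) ((P N).C * ⌈(m : ℝ) ^ (P N).a⌉₊ + (P N).C)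
  have h3 : ((pre pr P).toData H).q N m = m + 2 ^ ((P N).C * ⌈(m : ℝ) ^ (P N).a⌉₊ + (P N).C) := rfl
  rw [h3]
  have h4 : Nat.size m + ((P N).C * ⌈(m : ℝ) ^ (P N).a⌉₊ + (P N).C) + 1 =
    (P N).C * ⌈(m : ℝ) ^ (P N).a⌉₊ + (P N).C + Nat.size m + 1 := by ring
  rw [h4] at h2
  omega

/-- Visible inputs are long. -/
theorem vis {pr : ℕ → Prog} {P : ℕ → Par} {H : ℕ → ℕ} {e : ℕ → ℕ → ℕ} {i : ℕ} {α : ℝ}
    (hα : 0 < α) (he : ∀ n : ℕ, (n : ℝ) ^ α ≤ e i n) {N : ℕ} (ha : 0 < (P N).a)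
    (ha1 : (P N).a < (P N).a1) :
    ∀ᶠ n : ℕ in atTop, ∀ m : ℕ, lv e i n ≤ ((pre pr P).toData H).q N m →
      1 ≤ m ∧ 2 * (n : ℝ) ^ α ≤ (m : ℝ) ^ (P N).a1 ∧
      (((pre pr P).toData H).q N m) ^ 2 ≤ 2 ^ ⌊(m : ℝ) ^ (P N).a1⌋₊ := by
  set E : ℕ → ℕ := fun m => (P N).C * ⌈(m : ℝ) ^ (P N).a⌉₊ + (P N).C + Nat.size m + 1 with hE
  have h1 : ∀ᶠ m : ℕ in atTop, 2 * (E m : ℝ) ≤ (m : ℝ) ^ (P N).a1 := by
    have hmid : (P N).a < ((P N).a + (P N).a1) / 2 := by linarith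
    have hmid2 : ((P N).a + (P N).a1) / 2 < (P N).a1 := by linarith
    filter_upwards [eventually_mul_le ha.le ha1 (4 * (P N).C : ℝ) (8 * (P N).C + 4 : ℝ)
      (by positivity), size_le_rpow (show 0 < (P N).a1 by linarith) 4 (by norm_num),
      eventually_ge_atTop 1] with m h2 h3 h4
    have h5 := (Nat.ceil_lt_add_one (show (0 : ℝ) ≤ (m : ℝ) ^ (P N).a by positivity)).le
    simp only [hE]
    push_cast
    have hC : (0 : ℝ) ≤ (P N).C := by positivity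
    nlinarith
  obtain ⟨m₀, hm₀⟩ := eventually_atTop.1 h1
  obtain ⟨K, hK⟩ : ∃ K : ℕ, ∀ m ≤ m₀, E m ≤ K := by
    refine ⟨(Finset.range (m₀ + 1)).sup E, fun m hm => Finset.le_sup (Finset.mem_range.2 (by omega))⟩
  filter_upwards [(tendsto_rpow hα).eventually_gt_atTop (K : ℝ)] with n h2 m hm
  have h3 : e i n ≤ E m := by
    have h4 : 2 ^ e i n ≤ 2 ^ E m := by
      refine le_trans ?_ (le_trans hm (q_le N m))
      unfold lv
      omega
    exact (Nat.pow_le_pow_iff_right (by norm_num)).1 h4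
  have h4 : (n : ℝ) ^ α ≤ (E m : ℝ) := le_trans (he n) (by exact_mod_cast h3)
  have h5 : m₀ < m := by
    by_contra hcon
    push Not at hcon
    have h6 : (E m : ℝ) ≤ (K : ℝ) := by exact_mod_cast hK m hcon
    linarith
  have h6 := hm₀ m h5.le
  refine ⟨by omega, by linarith, ?_⟩
  have h7 : (((pre pr P).toData H).q N m) ^ 2 ≤ (2 ^ E m) ^ 2 := Nat.pow_le_pow_left (q_le N m) 2
  refine le_trans h7 ?_
  rw [← pow_mul]
  refine Nat.pow_le_pow_right (by norm_num) (Nat.le_floor ?_)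
  push_cast
  linarith

theorem pow_lt_wl {pr : ℕ → Prog} {P : ℕ → Par} {H : ℕ → ℕ} (N m : ℕ) {X : ℕ}
    (h : ((pre pr P).toData H).wl N m ≤ 2 ^ X) : ((m : ℕ) : ℝ) ^ (P N).b ≤ X ∨ (P N).b < 0 := by
  by_cases hb : (P N).b < 0
  · exact Or.inr hb
  · push Not at hb
    left
    have h1 : 2 ^ ⌈((m + 1 : ℕ) : ℝ) ^ (P N).b⌉₊ ≤ 2 ^ X := by
      refine le_trans ?_ h
      show _ ≤ (_ ^ 2 + 1 + 2 ^ ⌈((m + 1 : ℕ) : ℝ) ^ (P N).b⌉₊) + H N
      omega
    have h2 : ⌈((m + 1 : ℕ) : ℝ) ^ (P N).b⌉₊ ≤ X := (Nat.pow_le_pow_iff_right (by norm_num)).1 h1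
    have h3 : ((m + 1 : ℕ) : ℝ) ^ (P N).b ≤ X := le_trans (Nat.le_ceil _) (by exact_mod_cast h2)
    refine le_trans (Real.rpow_le_rpow (by positivity) ?_ hb) h3
    push_cast
    linarith

/-- The conditions for a fact which is never visible. -/
def Dummy (P : Par) : Prop := P.C = 0 ∧ P.b = 1 ∧ 0 < P.a ∧ P.a < P.a1

theorem dummy_wl {pr : ℕ → Prog} {P : ℕ → Par} {H : ℕ → ℕ} {N m ℓ X : ℕ} (h : Dummy (P N))
    (hq : ℓ ≤ ((pre pr P).toData H).q N m) (hX : X < ℓ) :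
    2 ^ X < ((pre pr P).toData H).wl N m := by
  obtain ⟨h1, h2, -, -⟩ := h
  have h3 : ((pre pr P).toData H).q N m = m + 2 ^ ((P N).C * ⌈(m : ℝ) ^ (P N).a⌉₊ + (P N).C) := rfl
  rw [h3, h1] at hq
  simp at hq
  have h4 : 2 ^ ⌈((m + 1 : ℕ) : ℝ) ^ (P N).b⌉₊ ≤ ((pre pr P).toData H).wl N m := by
    show _ ≤ (_ ^ 2 + 1 + 2 ^ ⌈((m + 1 : ℕ) : ℝ) ^ (P N).b⌉₊) + H N
    omega
  rw [h2, Real.rpow_one, Nat.ceil_natCast] at h4
  refine lt_of_lt_of_le ?_ h4
  exact Nat.pow_lt_pow_right (by norm_num) (by omega)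

/-- The laws imply that all small facts are short. -/
theorem chain {F : ℝ → ℝ → ℝ → Prop} (hF : Laws F) {pr : ℕ → Prog} {P : ℕ → Par} {H : ℕ → ℕ}
    {e : ℕ → ℕ → ℕ} {i : ℕ} {α l y cc z : ℝ} (hR : RCond F α l y cc z)
    (he : ∀ n : ℕ, (n : ℝ) ^ α ≤ e i n)
    (hP' : ∀ N, FCond F (P N).a (P N).a1 (P N).b (P N).c1 (P N).c ∨ Dummy (P N)) (B k : ℕ) :
    ∃ ρs : ℝ, 0 < ρs ∧ ρs < 1 ∧ ∀ᶠ n : ℕ in atTop, ∀ N m,
      Small ((pre pr P).toData H) k (lv e i n) (3 * n + 2 + 2 ^ ⌈(n : ℝ) ^ l⌉₊) (slack B k n)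
        (uu cc n) N m → (m : ℝ) < (n : ℝ) ^ ρs := by
  obtain ⟨hα, hαl, hly, hnF, hz1, hcz⟩ := hR
  set D := (pre pr P).toData H with hD
  -- the thresholds
  set Q : ℕ → Prop := fun N => FCond F (P N).a (P N).a1 (P N).b (P N).c1 (P N).c with hQ
  have hρ : ∀ N, ∃ ρN : ℝ, 0 < ρN ∧ ρN < 1 ∧ (Q N → ∀ ρ, ρN ≤ ρ → ρ ≤ 1 → α < ρ * (P N).a1 →
      F α (ρ * (P N).b) (ρ * (P N).c1)) := by
    intro N
    by_cases hP : Q N
    swap
    · exact ⟨1 / 2, by norm_num, by norm_num, fun h => absurd h hP⟩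
    obtain ⟨-, -, h3, -, -⟩ := hP
    obtain ⟨a2, b2, c2, h4, h5, h6, h7⟩ := hF.opn _ _ _ h3
    obtain ⟨d1, d2, d3, d4⟩ := hF.dom _ _ _ h3
    obtain ⟨g1, g2, g3, g4⟩ := hF.dom _ _ _ h7
    have hb : 0 < (P N).b := by linarith
    refine ⟨max (max (b2 / (P N).b) (c2 / (P N).c1)) (1 / 2), ?_, ?_, ?_⟩
    · exact lt_of_lt_of_le (by norm_num) (le_max_right _ _)
    · refine max_lt (max_lt ?_ ?_) (by norm_num)
      · rw [div_lt_one hb]; exact h5
      · rcases h6 with h6 | ⟨h6, h8⟩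
        · rw [div_lt_one (by linarith)]; exact h6
        · rw [h8, div_zero]; norm_num
    · intro _ ρ h8 h9 h10
      have h11 : b2 / (P N).b ≤ ρ := le_trans (le_trans (le_max_left _ _) (le_max_left _ _)) h8
      have h12 : c2 / (P N).c1 ≤ ρ := le_trans (le_trans (le_max_right _ _) (le_max_left _ _)) h8
      have hρ0 : 0 < ρ := lt_of_lt_of_le (by norm_num) (le_trans (le_max_right _ _) h8)
      refine hF.mono _ _ _ _ _ _ h7 hα ?_ ?_ ?_ ?_
      · nlinarith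
      · rw [div_le_iff₀ hb] at h11; exact h11
      · rcases h6 with h6 | ⟨h6, h8⟩
        · rw [div_le_iff₀ (by linarith)] at h12; exact h12
        · rw [h6, h8]; simp
      · nlinarith
  choose ρN hρ0 hρ1 hρF using hρ
  obtain ⟨ρs, hρs0, hρs1, hρs⟩ : ∃ ρs : ℝ, 0 < ρs ∧ ρs < 1 ∧ ∀ N < k, ρN N ≤ ρs := by
    clear * - hρ1
    induction k with
    | zero => exact ⟨1 / 2, by norm_num, by norm_num, fun N hN => by omega⟩
    | succ k ih =>
      obtain ⟨ρs, h1, h2, h3⟩ := ih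
      refine ⟨max ρs (ρN k), lt_of_lt_of_le h1 (le_max_left _ _), max_lt h2 (hρ1 k), fun N hN => ?_⟩
      rcases Nat.lt_or_ge N k with h | h
      · exact le_trans (h3 N h) (le_max_left _ _)
      · have : N = k := by omega
        rw [this]
        exact le_max_right _ _
  refine ⟨ρs, hρs0, hρs1, ?_⟩
  -- the estimates for large lengths
  have hvis : ∀ᶠ n : ℕ in atTop, ∀ N ∈ Finset.range k, ∀ m : ℕ, lv e i n ≤ D.q N m →
      1 ≤ m ∧ 2 * (n : ℝ) ^ α ≤ (m : ℝ) ^ (P N).a1 ∧ (D.q N m) ^ 2 ≤ 2 ^ ⌊(m : ℝ) ^ (P N).a1⌋₊ := by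
    rw [Filter.eventually_all_finset]
    intro N _
    have h1 : 0 < (P N).a ∧ (P N).a < (P N).a1 := by
      rcases hP' N with h | h
      · exact ⟨h.1, h.2.1⟩
      · exact ⟨h.2.2.1, h.2.2.2⟩
    exact vis hα he h1.1 h1.2
  have hgain : ∀ᶠ n : ℕ in atTop, ∀ N ∈ Finset.range k, ∀ m : ℕ,
      1 ≤ m → (n : ℝ) ^ α ≤ (m : ℝ) ^ (P N).a1 → 0 < (P N).c → Q N →
      3 * (slack B k n : ℝ) ≤ (m : ℝ) ^ ((P N).c - (P N).c1) := by
    rw [Filter.eventually_all_finset]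
    intro N _
    by_cases hP : Q N
    swap
    · exact Eventually.of_forall fun n m _ _ _ h => absurd h hP
    obtain ⟨d1, d2, d3, d4, d5⟩ := hP
    obtain ⟨g1, g2, g3, g4⟩ := hF.dom _ _ _ d3
    by_cases hc : 0 < (P N).c
    · have hcc : 0 < (P N).c - (P N).c1 := by
        rcases d5 with d5 | ⟨d5, d6⟩
        · linarith
        · linarith
      filter_upwards [slack_le (show 0 < α * (((P N).c - (P N).c1) / (P N).a1) by positivity) B k 3
        (by norm_num), eventually_ge_atTop 1] with n h1 h2 m h3 h4 _ _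
      refine le_trans h1 ?_
      rw [Real.rpow_mul (by positivity)]
      refine le_trans (Real.rpow_le_rpow (by positivity) h4 (by positivity)) ?_
      rw [← Real.rpow_mul (by positivity)]
      refine le_of_eq ?_
      congr 1
      field_simp
    · exact Eventually.of_forall fun n m _ _ h _ => absurd h hc
  have hSle : ∀ᶠ n : ℕ in atTop, ∃ X : ℕ, 3 * n + 2 + 2 ^ ⌈(n : ℝ) ^ l⌉₊ ≤ 2 ^ X ∧ (X : ℝ) ≤ (n : ℝ) ^ y := by
    filter_upwards [eventually_mul_le (show 0 ≤ l by linarith) hly 2 8 (by norm_num),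
      size_le_rpow (show 0 < y by linarith) 2 (by norm_num), eventually_ge_atTop 1] with n h1 h2 h3
    refine ⟨⌈(n : ℝ) ^ l⌉₊ + (Nat.size n + 3) , ?_, ?_⟩
    · have h4 : n < 2 ^ Nat.size n := Nat.lt_size_self n
      have h5 : 3 * n + 2 ≤ 2 ^ (Nat.size n + 2) := by rw [pow_add]; omega
      have h6 := two_pow_add_le (Nat.size n + 2) ⌈(n : ℝ) ^ l⌉₊
      have h7 : Nat.size n + 2 + ⌈(n : ℝ) ^ l⌉₊ + 1 = ⌈(n : ℝ) ^ l⌉₊ + (Nat.size n + 3) := by ring
      rw [h7] at h6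
      omega
    · have h4 := (Nat.ceil_lt_add_one (show (0 : ℝ) ≤ (n : ℝ) ^ l by positivity)).le
      push_cast
      linarith
  have huz : ∀ᶠ n : ℕ in atTop, 0 < z → (slack B k n : ℝ) * ((uu cc n : ℝ) + 1) ≤ (n : ℝ) ^ z := by
    by_cases hz : 0 < z
    · rcases hcz with ⟨h1, h2⟩ | ⟨h1, h2⟩
      · filter_upwards [slack_le (show 0 < (z - cc) / 2 by linarith) B k 1 (by norm_num),
          eventually_mul_le h1.le (show cc < cc + (z - cc) / 2 by linarith) 1 1 (by norm_num),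
          eventually_ge_atTop 1] with n h3 h4 h5 _
        have hn : (0 : ℝ) < n := by exact_mod_cast h5
        have h6 : (n : ℝ) ^ z = (n : ℝ) ^ ((z - cc) / 2) * (n : ℝ) ^ (cc + (z - cc) / 2) := by
          rw [← Real.rpow_add hn]
          congr 1
          ring
        rw [h6]
        have h7 : (uu cc n : ℝ) ≤ (n : ℝ) ^ cc := by
          unfold uu
          rw [if_neg h1.ne']
          exact Nat.floor_le (by positivity)
        exact mul_le_mul (by linarith) (by linarith) (by positivity) (by positivity)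
      · exact Eventually.of_forall fun n h => absurd h (by linarith)
    · exact Eventually.of_forall fun n h => absurd h hz
  have hXl : ∀ᶠ n : ℕ in atTop, ∀ X : ℕ, (X : ℝ) ≤ (n : ℝ) ^ y → X < lv e i n := by
    filter_upwards [size_le_rpow hα (⌈y⌉₊ + 1 : ℝ) (by positivity), eventually_ge_atTop 2] with n h1 h2 X hX
    have hn1 : (1 : ℝ) ≤ n := by exact_mod_cast (by omega : 1 ≤ n)
    have h3 : (n : ℝ) ^ y ≤ (n : ℝ) ^ (⌈y⌉₊ : ℝ) := Real.rpow_le_rpow_of_exponent_le hn1 (Nat.le_ceil _)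
    rw [Real.rpow_natCast] at h3
    have h4 : X ≤ n ^ ⌈y⌉₊ := by exact_mod_cast le_trans hX h3
    have h5 : n ^ ⌈y⌉₊ ≤ 2 ^ (Nat.size n * ⌈y⌉₊) := by
      rw [pow_mul]
      exact Nat.pow_le_pow_left (Nat.lt_size_self n).le _
    have h6 : Nat.size n * ⌈y⌉₊ ≤ e i n := by
      have h7 := he n
      have h8 : ((Nat.size n * ⌈y⌉₊ : ℕ) : ℝ) ≤ (e i n : ℝ) := by
        push_cast
        have h9 : (0 : ℝ) ≤ (Nat.size n : ℝ) := by positivity
        have h10 : (0 : ℝ) ≤ (⌈y⌉₊ : ℝ) := by positivity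
        nlinarith
      exact_mod_cast h8
    have h7 : 2 ^ (Nat.size n * ⌈y⌉₊) ≤ 2 ^ e i n := Nat.pow_le_pow_right (by norm_num) h6
    unfold lv
    omega
  filter_upwards [hvis, hgain, hSle, huz, hXl, eventually_ge_atTop 2] with n h1 h2 h3 h4 hXlv h5
  have hn1 : (1 : ℝ) < n := by exact_mod_cast (by omega : 1 < n)
  have hn0 : (0 : ℝ) < n := by linarith
  obtain ⟨X, hX1, hX2⟩ := h3
  -- real exponents
  have hlog : ∀ {m : ℕ}, 1 ≤ m → ∃ ρ : ℝ, 0 ≤ ρ ∧ (m : ℝ) = (n : ℝ) ^ ρ := by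
    intro m hm
    have hm1 : (1 : ℝ) ≤ m := by exact_mod_cast hm
    refine ⟨Real.logb n m, Real.logb_nonneg hn1 hm1, ?_⟩
    rw [Real.rpow_logb hn0 hn1.ne' (by linarith)]
  have hle : ∀ {u v : ℝ}, (n : ℝ) ^ u ≤ (n : ℝ) ^ v → u ≤ v := fun {u v} h =>
    (Real.rpow_le_rpow_left_iff hn1).1 h
  have hpw : ∀ {m : ℕ} {ρ : ℝ} (u : ℝ), (m : ℝ) = (n : ℝ) ^ ρ → (m : ℝ) ^ u = (n : ℝ) ^ (ρ * u) := by
    intro m ρ u h
    rw [h, ← Real.rpow_mul hn0.le]
  have hbpos : ∀ N, ¬ (P N).b < 0 := fun N h => by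
    rcases hP' N with h' | h'
    · obtain ⟨g1, g2, g3, g4⟩ := hF.dom _ _ _ h'.2.2.1
      linarith
    · rw [h'.2.1] at h
      norm_num at h
  have hPv : ∀ {N m : ℕ}, lv e i n ≤ D.q N m → D.wl N m ≤ 3 * n + 2 + 2 ^ ⌈(n : ℝ) ^ l⌉₊ → Q N := by
    intro N m hq hw
    rcases hP' N with h | h
    · exact h
    · exfalso
      have h9 : 2 ^ X < D.wl N m := dummy_wl h hq (hXlv X hX2)
      omega
  -- the key inequality for the advice
  have hadv : ∀ {N m Y : ℕ}, Q N → N < k → 1 ≤ m → (n : ℝ) ^ α ≤ (m : ℝ) ^ (P N).a1 → 1 ≤ Y →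
      D.kl N m ≤ slack B k n * (Y + 1) → (m : ℝ) ^ (P N).c1 ≤ (Y : ℝ) := by
    intro N m Y hQN hN hm hm2 hY hkl
    obtain ⟨d1, d2, d3, d4, d5⟩ := id hQN
    obtain ⟨g1, g2, g3, g4⟩ := hF.dom _ _ _ d3
    have hm1 : (1 : ℝ) ≤ m := by exact_mod_cast hm
    have hY1 : (1 : ℝ) ≤ Y := by exact_mod_cast hY
    by_cases hc : (P N).c = 0
    · have : (P N).c1 = 0 := by
        rcases d5 with d5 | ⟨d5, d6⟩
        · linarith
        · exact d5
      rw [this, Real.rpow_zero]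
      exact hY1
    · have hc0 : 0 < (P N).c := by
        rcases d5 with d5 | ⟨d5, d6⟩
        · linarith
        · exact absurd d6 hc
      have h6 := h2 N (Finset.mem_range.2 hN) m hm hm2 hc0 hQN
      have h7 : (m : ℝ) ^ (P N).c ≤ (slack B k n : ℝ) * ((Y : ℝ) + 1) := by
        have h8 : D.kl N m = ⌈((m + 1 : ℕ) : ℝ) ^ (P N).c⌉₊ := by
          show (if (P N).c = 0 then 0 else ⌈((m + 1 : ℕ) : ℝ) ^ (P N).c⌉₊) = _
          rw [if_neg hc]
        have h9 : ((m + 1 : ℕ) : ℝ) ^ (P N).c ≤ (D.kl N m : ℝ) := by rw [h8]; exact Nat.le_ceil _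
        have h10 : (m : ℝ) ^ (P N).c ≤ ((m + 1 : ℕ) : ℝ) ^ (P N).c := by
          refine Real.rpow_le_rpow (by positivity) ?_ hc0.le
          push_cast
          linarith
        have h11 : (D.kl N m : ℝ) ≤ ((slack B k n * (Y + 1) : ℕ) : ℝ) := by exact_mod_cast hkl
        push_cast at h11
        linarith
      have h8 : (m : ℝ) ^ (P N).c = (m : ℝ) ^ (P N).c1 * (m : ℝ) ^ ((P N).c - (P N).c1) := by
        rw [← Real.rpow_add (by linarith)]
        congr 1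
        ring
      rw [h8] at h7
      have hc1 : (0 : ℝ) < (m : ℝ) ^ (P N).c1 := by positivity
      have hsl : (0 : ℝ) ≤ (slack B k n : ℝ) := by positivity
      have h9 : (m : ℝ) ^ (P N).c1 * (3 * (slack B k n : ℝ)) ≤ (slack B k n : ℝ) * ((Y : ℝ) + 1) :=
        le_trans (mul_le_mul_of_nonneg_left h6 hc1.le) h7
      have hsl1 : (1 : ℝ) ≤ (slack B k n : ℝ) := by
        have : 1 ≤ slack B k n := by
          unfold slack
          exact Nat.mul_pos (by omega) (by omega)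
        exact_mod_cast this
      have h10 : (m : ℝ) ^ (P N).c1 * 3 ≤ (Y : ℝ) + 1 := by
        have h11 : (slack B k n : ℝ) * ((m : ℝ) ^ (P N).c1 * 3) ≤ (slack B k n : ℝ) * ((Y : ℝ) + 1) := by
          linarith
        exact le_of_mul_le_mul_left h11 (by linarith)
      linarith
  suffices Hmain : ∀ N m, Small D k (lv e i n) (3 * n + 2 + 2 ^ ⌈(n : ℝ) ^ l⌉₊) (slack B k n)
      (uu cc n) N m → ∀ ρ, (m : ℝ) = (n : ℝ) ^ ρ →
      ¬ F α (ρ * (P N).b) (ρ * (P N).c1) ∧ ρ < ρN N by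
    intro N m hs
    obtain ⟨hN, hq, -⟩ := hs.lt
    have hm := (h1 N (Finset.mem_range.2 hN) m hq).1
    obtain ⟨ρ, hρ0', hρe⟩ := hlog hm
    have h6 := (Hmain N m hs ρ hρe).2
    rw [hρe]
    exact Real.rpow_lt_rpow_of_exponent_lt hn1 (lt_of_lt_of_le h6 (hρs N hN))
  -- the threshold for `ρ`
  have hthr : ∀ {N m : ℕ} {ρ : ℝ}, Q N → (m : ℝ) = (n : ℝ) ^ ρ → 2 * (n : ℝ) ^ α ≤ (m : ℝ) ^ (P N).a1 →
      ρ * (P N).c1 < 1 → ¬ F α (ρ * (P N).b) (ρ * (P N).c1) → ρ < ρN N := by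
    intro N m ρ hQN hρe hm2 hc hnot
    by_contra hcon
    push Not at hcon
    have hαlt : α < ρ * (P N).a1 := by
      have h6 : (n : ℝ) ^ α < (n : ℝ) ^ (ρ * (P N).a1) := by
        rw [← hpw (P N).a1 hρe]
        have : (0 : ℝ) < (n : ℝ) ^ α := by positivity
        linarith
      exact (Real.rpow_lt_rpow_left_iff hn1).1 h6
    rcases le_total ρ 1 with h6 | h6
    · exact hnot (hρF N hQN ρ hcon h6 hαlt)
    · have h7 := hF.pad _ _ _ ρ hQN.2.2.1 h6 hc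
      exact hnot (hF.mono _ _ _ _ _ _ h7 hα hαlt.le le_rfl le_rfl hc)
  intro N m hs
  induction hs with
  | @base N m g1 g2 g3 g4 =>
    intro ρ hρe
    obtain ⟨v1, v2, v3⟩ := h1 N (Finset.mem_range.2 g1) m g2
    have hQN := hPv g2 g3
    have hv2 : (n : ℝ) ^ α ≤ (m : ℝ) ^ (P N).a1 := by
      have : (0 : ℝ) < (n : ℝ) ^ α := by positivity
      linarith
    have hb : ρ * (P N).b ≤ y := by
      rcases pow_lt_wl N m (le_trans g3 hX1) with h6 | h6
      · rw [hpw (P N).b hρe] at h6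
        exact hle (le_trans h6 hX2)
      · exact absurd h6 (hbpos N)
    -- the number of bits
    have hcz' : ρ * (P N).c1 ≤ z := by
      rcases hcz with ⟨z1, z2⟩ | ⟨z1, z2⟩
      · -- positive exponent of the advice
        obtain ⟨d1, d2, d3, d4, d5⟩ := id hQN
        obtain ⟨k1, k2, k3, k4⟩ := hF.dom _ _ _ d3
        have hz0 : 0 < z := by linarith
        by_cases hc : (P N).c = 0
        · have : (P N).c1 = 0 := by
            rcases d5 with d5 | ⟨d5, d6⟩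
            · linarith
            · exact d5
          rw [this, mul_zero]
          exact hz0.le
        · have hc0 : 0 < (P N).c := by
            rcases d5 with d5 | ⟨d5, d6⟩
            · linarith
            · exact absurd d6 hc
          have h7 : ((m + 1 : ℕ) : ℝ) ^ (P N).c ≤ (D.kl N m : ℝ) := by
            show _ ≤ (((if (P N).c = 0 then 0 else ⌈((m + 1 : ℕ) : ℝ) ^ (P N).c⌉₊) : ℕ) : ℝ)
            rw [if_neg hc]
            exact Nat.le_ceil _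
          have h8 : (D.kl N m : ℝ) ≤ (slack B k n : ℝ) * ((uu cc n : ℝ) + 1) := by exact_mod_cast g4
          have h9 := h4 hz0
          have hm1 : (1 : ℝ) ≤ m := by exact_mod_cast v1
          have h10 : (m : ℝ) ^ (P N).c1 ≤ ((m + 1 : ℕ) : ℝ) ^ (P N).c := by
            refine le_trans (Real.rpow_le_rpow_of_exponent_le hm1 (show (P N).c1 ≤ (P N).c by
              rcases d5 with d5 | ⟨d5, d6⟩ <;> linarith)) ?_
            refine Real.rpow_le_rpow (by positivity) ?_ hc0.le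
            push_cast
            linarith
          have h11 : (m : ℝ) ^ (P N).c1 ≤ (n : ℝ) ^ z := by linarith
          rw [hpw (P N).c1 hρe] at h11
          exact hle h11
      · -- no advice
        have h6 : uu cc n = 1 := by unfold uu; rw [if_pos z1]
        rw [h6] at g4
        have h7 := hadv hQN g1 v1 hv2 le_rfl g4
        rw [hpw (P N).c1 hρe] at h7
        have h8 : (n : ℝ) ^ (ρ * (P N).c1) ≤ (n : ℝ) ^ (0 : ℝ) := by
          rw [Real.rpow_zero]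
          exact_mod_cast h7
        have := hle h8
        linarith
    have hnot : ¬ F α (ρ * (P N).b) (ρ * (P N).c1) := fun h =>
      hnF (hF.mono _ _ _ _ _ _ h hα le_rfl hb hcz' hz1)
    exact ⟨hnot, hthr hQN hρe v2 (by linarith) hnot⟩
  | @step N m N' m' hs' g1 g2 g3 g5 g4 ih =>
    intro ρ hρe
    obtain ⟨hN', hq', hw'⟩ := hs'.lt
    obtain ⟨v1, v2, v3⟩ := h1 N (Finset.mem_range.2 g1) m g2
    obtain ⟨w1, w2, w3⟩ := h1 N' (Finset.mem_range.2 hN') m' hq'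
    have hQN := hPv g2 g3
    have hQN' := hPv hq' hw'
    have hv2 : (n : ℝ) ^ α ≤ (m : ℝ) ^ (P N).a1 := by
      have : (0 : ℝ) < (n : ℝ) ^ α := by positivity
      linarith
    obtain ⟨ρ', hρ'0, hρ'e⟩ := hlog w1
    obtain ⟨i1, i2⟩ := ih ρ' hρ'e
    have hρ'1 : ρ' < 1 := lt_trans i2 (hρ1 N')
    have hb : ρ * (P N).b ≤ ρ' * (P N').a1 := by
      rcases pow_lt_wl N m (le_trans g5 w3) with h6 | h6
      · have h7 : ((⌊(m' : ℝ) ^ (P N').a1⌋₊ : ℕ) : ℝ) ≤ (m' : ℝ) ^ (P N').a1 :=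
          Nat.floor_le (by positivity)
        have h8 := le_trans h6 h7
        rw [hpw (P N).b hρe, hpw (P N').a1 hρ'e] at h8
        exact hle h8
      · exact absurd h6 (hbpos N)
    have hc : ρ * (P N).c1 ≤ ρ' := by
      have h6 := hadv hQN g1 v1 hv2 w1 g4
      rw [hpw (P N).c1 hρe, hρ'e] at h6
      exact hle h6
    have hρ'pos : 0 < ρ' := by
      have h6 : (n : ℝ) ^ α < (n : ℝ) ^ (ρ' * (P N').a1) := by
        rw [← hpw (P N').a1 hρ'e]
        have : (0 : ℝ) < (n : ℝ) ^ α := by positivity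
        linarith
      have h7 := (Real.rpow_lt_rpow_left_iff hn1).1 h6
      by_contra hcon
      have : ρ' = 0 := le_antisymm (not_lt.1 hcon) hρ'0
      rw [this, zero_mul] at h7
      linarith
    have hnot : ¬ F α (ρ * (P N).b) (ρ * (P N).c1) := by
      intro h
      have h6 := hF.mono _ _ _ α (ρ' * (P N').a1) (ρ * (P N).c1) h hα le_rfl hb le_rfl
        (lt_of_le_of_lt hc hρ'1)
      refine i1 (hF.self α (ρ' * (P N').a1) (ρ' * (P N').b) (ρ * (P N).c1) (P N').c1 ρ' h6 hc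
        hρ'pos hρ'1 ?_)
      rw [mul_div_cancel_left₀ _ hρ'pos.ne', mul_div_cancel_left₀ _ hρ'pos.ne']
      exact hQN'.2.2.1
    exact ⟨hnot, hthr hQN hρe v2 (lt_of_le_of_lt hc hρ'1) hnot⟩

end Pool.Agent.LibCL48
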