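import Pool.Agent.LibTA48.Defs

/-!
The relation between time and advice for complementation.
-/

namespace Pool.Agent.LibCL48

open Pool.Agent.LibNexp
open Pool.Agent.LibTA48 (NTLang)

/-- Advice of length `O(n ^ c)`; no advice if `c = 0`. -/
def Adv (c : ℝ) : Set (ℕ → List Bool) :=
  {f | (∃ C : ℕ, ∀ n : ℕ, ((f n).length : ℝ) ≤ C * (n : ℝ) ^ c + C) ∧ (c = 0 → ∀ n, f n = [])}

/-- The complements of all languages in nondeterministic time `2 ^ O(n ^ a)` are in
nondeterministic time `2 ^ O(n ^ b)` with advice in `Adv c`. -/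
def Enough (O : List Bool → Bool) (a b c : ℝ) : Prop :=
  ∀ L ∈ NTLang O a, Lᶜ ∈ WithAdvice (NTLang O b) (Adv c)

/-- The feasible triples of exponents, with an arbitrarily small amount to spare. -/
def Feas (O : List Bool → Bool) (a b c : ℝ) : Prop :=
  0 < a ∧ a < b ∧ 0 ≤ c ∧ c < 1 ∧ ∃ a' b' c' : ℝ, a < a' ∧ b' < b ∧ 0 ≤ c' ∧
    (c' < c ∨ c' = 0 ∧ c = 0) ∧ Enough O a' b' c'

end Pool.Agent.LibCL48
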