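import Pool.Agent.LibCL48.Zeta

/-!
Several existential quantifiers at once.
-/

namespace Pool.Agent.LibCL48

open Function Filter Pool.Agent.LibNexp
open Pool.Agent.LibTA48 (NTLang TB ntLang_of_tb ntLang_mono size_one)

variable {O : List Bool → Bool}

/-- Guess the contents of `w` stacks from stack `k` on. -/
def guesses : ℕ → ℕ → Prog
  | _, 0 => skip
  | k, w + 1 => .seq (guess k) (guesses (k + 1) w)

theorem guesses_sound : ∀ {w k t : ℕ} {σ σ' : State}, Run O (guesses k w) t σ σ' → Quiet k σ →
    Quiet (k + w) σ' ∧ ∀ r < k, σ' r = σ r := by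
  intro w
  induction w with
  | zero =>
    intro k t σ σ' h hq
    rw [run_skip h]
    exact ⟨hq, fun _ _ => rfl⟩
  | succ w ih =>
    rintro k t σ σ' ⟨t1, t2, τ, -, h1, h2⟩ hq
    rw [run_guess] at h1
    obtain ⟨z, -, rfl⟩ := h1
    obtain ⟨h3, h4⟩ := ih h2 (fun r hr => by
      rw [update_of_ne (by omega)]
      exact hq r (by omega))
    refine ⟨fun r hr => h3 r (by omega), fun r hr => ?_⟩
    rw [h4 r (by omega), update_of_ne (by omega)]

theorem guesses_complete : ∀ {w k : ℕ} {σ : State} (z : ℕ → List Bool), Quiet k σ →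
    Run O (guesses k w) (∑ j ∈ Finset.range w, (z j).length) σ
      (fun r => if k ≤ r ∧ r < k + w then z (r - k) else σ r) := by
  intro w
  induction w with
  | zero =>
    intro k σ z hq
    have : (fun r => if k ≤ r ∧ r < k + 0 then z (r - k) else σ r) = σ := by
      funext r
      rw [if_neg (by omega)]
    rw [this]
    exact run_skip' σ
  | succ w ih =>
    intro k σ z hq
    have h1 : Run O (guess k) (z 0).length σ (update σ k (z 0 ++ σ k)) := run_guess.2 ⟨z 0, rfl, rfl⟩
    rw [hq k le_rfl, List.append_nil] at h1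
    have h2 := ih (k := k + 1) (σ := update σ k (z 0)) (fun j => z (j + 1)) (fun r hr => by
      rw [update_of_ne (by omega)]
      exact hq r (by omega))
    refine ⟨(z 0).length, ∑ j ∈ Finset.range w, (z (j + 1)).length, _, ?_, h1, ?_⟩
    · rw [Finset.sum_range_succ', add_comm]
    · have : (fun r => if k + 1 ≤ r ∧ r < k + 1 + w then z (r - (k + 1) + 1) else
          update σ k (z 0) r) = fun r => if k ≤ r ∧ r < k + (w + 1) then z (r - k) else σ r := by
        funext r
        by_cases h3 : k + 1 ≤ r ∧ r < k + 1 + w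
        · rw [if_pos h3, if_pos (by omega)]
          congr 1
          omega
        · rw [if_neg h3]
          by_cases h4 : r = k
          · subst h4
            rw [update_self, if_pos (by omega), Nat.sub_self]
          · rw [update_of_ne h4, if_neg (by omega)]
      rw [this] at h2
      exact h2

/-- Several existential quantifiers. -/
theorem rec_exN {w : ℕ} {R : List Bool → (Fin w → List Bool) → Prop}
    {T : (Fin (w + 1) → List Bool) → ℕ} (h : Rec O T fun e => R (e 0) fun j => e j.succ)
    {τ : List Bool → ℕ} (hb : ∀ e : Fin (w + 1) → List Bool, R (e 0) (fun j => e j.succ) →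
      T e + size e ≤ τ (e 0)) :
    Rec O (fun e : Fin 1 → List Bool => τ (e 0)) fun e => ∃ z : Fin w → List Bool, R (e 0) z := by
  obtain ⟨K, p, hp⟩ := h.test (b := w + 1) (rs := fun j => j) (fun j => j.2)
  refine ⟨.seq (guesses 1 w) p, 1 + 2 * K, fun e => ⟨?_, ?_⟩⟩
  · rintro t σ' ⟨t1, t2, τ', -, h1, h2⟩
    obtain ⟨h3, h4⟩ := guesses_sound h1 (quiet_init e)
    have h5 := ((hp τ' (by rw [add_comm w 1]; exact h3)).1 _ _ h2).2
    refine ⟨fun j => τ' (j.succ : Fin (w + 1)), ?_⟩
    have h6 : τ' ((0 : Fin (w + 1)) : ℕ) = e 0 := by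
      have := h4 0 (by norm_num)
      rw [Fin.val_zero, this, init0]
    have h7 : R (τ' ((0 : Fin (w + 1)) : ℕ)) (fun j => τ' ((j.succ : Fin (w + 1)) : ℕ)) := h5
    rw [h6] at h7
    exact h7
  · rintro ⟨z, hz⟩
    set z' : ℕ → List Bool := fun j => if h : j < w then z ⟨j, h⟩ else [] with hz'
    have h1 := guesses_complete (O := O) (w := w) z' (quiet_init e)
    set ρ : State := fun r => if 1 ≤ r ∧ r < 1 + w then z' (r - 1) else init e r with hρ
    have hρe : (fun j : Fin (w + 1) => ρ j) = Fin.cons (e 0) z := by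
      funext j
      refine Fin.cases ?_ (fun i => ?_) j
      · rw [Fin.cons_zero, Fin.val_zero]
        simp only [hρ]
        rw [if_neg (by omega), init0]
      · rw [Fin.cons_succ, Fin.val_succ]
        simp only [hρ]
        rw [if_pos (by omega)]
        simp [hz']
    have hq : Quiet (w + 1) ρ := by
      intro r hr
      simp only [hρ]
      rw [if_neg (by omega)]
      exact init_ge e (by omega)
    have hR : (fun e : Fin (w + 1) → List Bool => R (e 0) fun j => e j.succ) fun j => ρ j := by
      rw [hρe]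
      exact hz
    obtain ⟨t, ht, h2⟩ := (hp ρ hq).2 hR
    have h3 := hb (Fin.cons (e 0) z) hz
    rw [Fin.cons_zero] at h3
    simp only at ht
    rw [hρe] at ht
    refine ⟨_, _, ?_, _, _, ρ, rfl, h1, h2⟩
    have h4 : ∑ j ∈ Finset.range w, (z' j).length ≤ size (Fin.cons (α := fun _ => List Bool) (e 0) z) := by
      unfold size
      rw [Fin.sum_univ_succ]
      simp only [Fin.cons_succ]
      rw [← Fin.sum_univ_eq_sum_range (fun j => (z' j).length)]
      refine le_trans (Finset.sum_le_sum fun i _ => ?_) (Nat.le_add_left _ _)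
      simp [hz']
    set u := T (Fin.cons (e 0) z)
    set s := size (Fin.cons (α := fun _ => List Bool) (e 0) z)
    have h5 : K * (u + s + 1) ≤ K * (τ (e 0) + size e + 1) := Nat.mul_le_mul_left K (by omega)
    have h6 : (1 + 2 * K) * (τ (e 0) + size e + 1) = (τ (e 0) + size e + 1) +
      (K * (τ (e 0) + size e + 1) + K * (τ (e 0) + size e + 1)) := by ring
    show _ ≤ (1 + 2 * K) * (τ (e 0) + size e + 1)
    omega

/-- Languages defined by existential quantifiers. -/
theorem ntLang_exN {l : ℝ} (hl : 0 < l) {w : ℕ} {R : List Bool → (Fin w → List Bool) → Prop}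
    {T : (Fin (w + 1) → List Bool) → ℕ} (h : Rec O T fun e => R (e 0) fun j => e j.succ)
    (hT : BD (fun e : Fin (w + 1) → List Bool => R (e 0) fun j => e j.succ)
      (fun e => ⌈((e 0).length : ℝ) ^ l⌉₊) T)
    (hs : BD (fun e : Fin (w + 1) → List Bool => R (e 0) fun j => e j.succ)
      (fun e => ⌈((e 0).length : ℝ) ^ l⌉₊) fun e => size e) :
    {x | ∃ z : Fin w → List Bool, R x z} ∈ NTLang O l := by
  obtain ⟨C, hC⟩ := hT.add hs
  exact ntLang_of_rec hl (rec_exN h (τ := fun x => 2 ^ (C * ⌈(x.length : ℝ) ^ l⌉₊ + C)) hC) C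
    fun e _ => le_rfl

end Pool.Agent.LibCL48
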