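import Pool.Agent.LibCL48.Chain

/-!
The plan of a stage exists at all large lengths.
-/

namespace Pool.Agent.LibCL48

open Function Filter Pool.Agent.LibNexp
open Pool.Agent.LibTA48 (tendsto_rpow eventually_mul_le)
open Pool.Agent.LibSpec4 (short mem_short card_short)

theorem ceil_rpow_le {l : ℝ} {n : ℕ} (hn : 1 ≤ n) : ⌈(n : ℝ) ^ l⌉₊ ≤ n ^ ⌈l⌉₊ := by
  refine Nat.ceil_le.2 ?_
  have h1 : (1 : ℝ) ≤ n := by exact_mod_cast hn
  have h2 := Real.rpow_le_rpow_of_exponent_le h1 (Nat.le_ceil l)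
  rw [Real.rpow_natCast] at h2
  push_cast
  exact h2

theorem S_le (l : ℝ) {n : ℕ} (hn : 3 ≤ n) :
    3 * n + 2 + 2 ^ ⌈(n : ℝ) ^ l⌉₊ ≤ 2 ^ (n ^ (⌈l⌉₊ + 2)) := by
  have h1 : ∀ n : ℕ, 3 * n + 3 ≤ 2 ^ (n + 2) := by
    intro n
    induction n with
    | zero => norm_num
    | succ n ih =>
      have : 2 ^ (n + 1 + 2) = 2 * 2 ^ (n + 2) := by rw [pow_succ]; ring
      omega
  have h2 := two_pow_add_le (n + 2) ⌈(n : ℝ) ^ l⌉₊
  have h3 : ⌈(n : ℝ) ^ l⌉₊ ≤ n ^ ⌈l⌉₊ := ceil_rpow_le (by omega)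
  have h4 : n + 2 + ⌈(n : ℝ) ^ l⌉₊ + 1 ≤ n ^ (⌈l⌉₊ + 2) := by
    rw [pow_add]
    have h5 : 1 ≤ n ^ ⌈l⌉₊ := Nat.one_le_pow _ _ (by omega)
    generalize n ^ ⌈l⌉₊ = y at *
    have h6 : n + 4 ≤ n ^ 2 := by nlinarith
    have h7 := Nat.mul_le_mul_left y h6
    have h8 : 1 * n ≤ y * n := Nat.mul_le_mul_right n h5
    rw [Nat.mul_add] at h7
    omega
  have h5 : 2 ^ (n + 2 + ⌈(n : ℝ) ^ l⌉₊ + 1) ≤ 2 ^ (n ^ (⌈l⌉₊ + 2)) :=
    Nat.pow_le_pow_right (by norm_num) h4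
  have := h1 n
  omega

theorem pow_le_size (n M : ℕ) : n ^ M ≤ 2 ^ (M * Nat.size n) := by
  rw [mul_comm, pow_mul]
  exact Nat.pow_le_pow_left (Nat.lt_size_self n).le M

theorem uu_le {cc σ : ℝ} (hσ : cc ≤ σ) (n : ℕ) (hn : 1 ≤ n) :
    (uu cc n : ℝ) ≤ (n : ℝ) ^ σ + 1 := by
  have h1 : (1 : ℝ) ≤ n := by exact_mod_cast hn
  unfold uu
  split_ifs with h
  · have : (0 : ℝ) ≤ (n : ℝ) ^ σ := by positivity
    push_cast
    linarith
  · have h2 := Nat.floor_le (show (0 : ℝ) ≤ (n : ℝ) ^ cc by positivity)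
    have h3 := Real.rpow_le_rpow_of_exponent_le h1 hσ
    linarith

/-- The plan of a stage exists at all large lengths. -/
theorem fits {F : ℝ → ℝ → ℝ → Prop} (hF : Laws F) {pr : ℕ → Prog} {P : ℕ → Par}
    {e : ℕ → ℕ → ℕ} {i : ℕ} {α l y cc z : ℝ} (hR : RCond F α l y cc z)
    (he : ∀ n : ℕ, (n : ℝ) ^ α ≤ e i n)
    (hP' : ∀ N, FCond F (P N).a (P N).a1 (P N).b (P N).c1 (P N).c ∨ Dummy (P N)) (k : ℕ)
    (H : ℕ → ℕ) :
    ∀ᶠ n in atTop, ∃ Sm Θ G τ R U, PlanK ((pre pr P).toData H) e k i n Sm Θ G τ R U ∧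
      (short (uu cc n)).card ≤ U ∧
      ∀ a ∈ short (uu cc n), ∀ x : List Bool, x.length = n →
        (pair x a).length + 2 ^ ⌈(n : ℝ) ^ l⌉₊ ≤ Θ τ := by
  obtain ⟨hα, hαl, hly, hnF, hz1, hcz⟩ := id hR
  obtain ⟨B, hB⟩ : ∃ B, B = ⌈l⌉₊ + 2 := ⟨_, rfl⟩
  obtain ⟨ρs, hρ0, hρ1, hch⟩ := chain hF (pr := pr) (H := H) hR he hP' B k
  have hcc0 : 0 ≤ cc := by rcases hcz with h | h <;> linarith
  have hcc1 : cc < 1 := by rcases hcz with h | h <;> linarith
  set σ := max cc ρs with hσ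
  have hσ0 : 0 < σ := lt_of_lt_of_le hρ0 (le_max_right _ _)
  have hσ1 : σ < 1 := max_lt hcc1 hρ1
  set ε := 1 - σ with hε
  have hε0 : 0 < ε := by linarith
  filter_upwards [hch, slack_le hε0 B k 4 (by norm_num), size_le_rpow hα (B + 1 : ℝ) (by positivity),
    eventually_ge_atTop 4] with n h1 h2 h3 h4
  have hn1 : (1 : ℝ) ≤ n := by exact_mod_cast (by omega : 1 ≤ n)
  have hn4 : (4 : ℝ) ≤ n := by exact_mod_cast h4
  have hnσ : (1 : ℝ) ≤ (n : ℝ) ^ σ := Real.one_le_rpow hn1 hσ0.le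
  set S := 3 * n + 2 + 2 ^ ⌈(n : ℝ) ^ l⌉₊ with hS
  set X := max (uu cc n) ⌊(n : ℝ) ^ ρs⌋₊ with hX
  have hslack : slack B k n = (B * Nat.size n + 1) * (k + Nat.size n + 2) := rfl
  have hu : (uu cc n : ℝ) ≤ (n : ℝ) ^ σ + 1 := uu_le (le_max_left _ _) n (by omega)
  have hXle : (X : ℝ) ≤ (n : ℝ) ^ σ + 1 := by
    rw [hX, Nat.cast_max]
    refine max_le hu ?_
    have h5 := Nat.floor_le (show (0 : ℝ) ≤ (n : ℝ) ^ ρs by positivity)
    have h6 := Real.rpow_le_rpow_of_exponent_le hn1 (show ρs ≤ σ from le_max_right _ _)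
    linarith
  have hρn : (n : ℝ) ^ ρs ≤ n := by
    have := Real.rpow_le_rpow_of_exponent_le hn1 hρ1.le
    rwa [Real.rpow_one] at this
  have hSle : S ≤ 2 ^ (n ^ B) := hB ▸ S_le l (by omega)
  have hE : (B + 1) * (Nat.size n + 1) ≤ e i n := by
    have h5 : (((B + 1) * (Nat.size n + 1) : ℕ) : ℝ) ≤ (e i n : ℝ) := by
      push_cast
      exact le_trans h3 (he n)
    exact_mod_cast h5
  have hfirst : (B * Nat.size n + 1) * (X + (k + Nat.size n + 2)) ≤ n - 1 := by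
    have h5 : (B * Nat.size n + 1) * (X + (k + Nat.size n + 2)) ≤ slack B k n * (X + 1) := by
      rw [hslack, mul_assoc]
      refine Nat.mul_le_mul_left _ ?_
      have : 1 * X ≤ (k + Nat.size n + 2) * X := Nat.mul_le_mul_right _ (by omega)
      rw [Nat.mul_add]
      omega
    have h6 : ((slack B k n * (X + 1) : ℕ) : ℝ) ≤ ((n - 1 : ℕ) : ℝ) := by
      rw [Nat.cast_sub (by omega)]
      push_cast
      have h7 : (n : ℝ) ^ ε * (n : ℝ) ^ σ = n := by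
        rw [← Real.rpow_add (by linarith)]
        simp [hε]
      have h8 : (0 : ℝ) ≤ (slack B k n : ℝ) := by positivity
      have h9 : (slack B k n : ℝ) * ((X : ℝ) + 1) ≤ ((n : ℝ) ^ ε / 4) * (3 * (n : ℝ) ^ σ) :=
        mul_le_mul (by linarith) (by linarith) (by positivity) (by positivity)
      have h10 : ((n : ℝ) ^ ε / 4) * (3 * (n : ℝ) ^ σ) = 3 / 4 * ((n : ℝ) ^ ε * (n : ℝ) ^ σ) := by
        ring
      rw [h7] at h10
      linarith
    have h7 : slack B k n * (X + 1) ≤ n - 1 := by exact_mod_cast h6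
    omega
  obtain ⟨Sm, Θ, G, R, h5, h6⟩ := exists_plan (D := (pre pr P).toData H) (e := e) (k := k) (i := i)
    (n := n) (S := S) (u := uu cc n) (τ := B * Nat.size n) (κ := k + Nat.size n + 2) (X := X)
    (by omega) (by
      have h5 : k * n ≤ 2 ^ k * 2 ^ Nat.size n :=
        Nat.mul_le_mul Nat.lt_two_pow_self.le (Nat.lt_size_self n).le
      have h6 : k + Nat.size n + 2 - 1 = k + Nat.size n + 1 := by omega
      rw [h6, pow_succ, pow_add]
      have := Nat.mul_pos (Nat.two_pow_pos k) (Nat.two_pow_pos (Nat.size n))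
      omega) (by omega) (by
      intro N m
      show (m + 2 ^ ((P N).C * ⌈(m : ℝ) ^ (P N).a⌉₊ + (P N).C)) ^ 2 <
        (m + 2 ^ ((P N).C * ⌈(m : ℝ) ^ (P N).a⌉₊ + (P N).C)) ^ 2 + 1 +
          2 ^ ⌈((m + 1 : ℕ) : ℝ) ^ (P N).b⌉₊ + H N
      have := Nat.two_pow_pos ⌈((m + 1 : ℕ) : ℝ) ^ (P N).b⌉₊
      omega) (by
      intro N m hs
      have h5 := h1 N m hs
      refine ⟨?_, ?_⟩
      · have : (m : ℝ) < n := lt_of_lt_of_le h5 hρn
        exact_mod_cast this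
      · exact le_trans (Nat.le_floor h5.le) (le_max_right _ _)) (le_max_left _ _) (by
      have h5 : n ^ B ≤ 2 ^ (B * Nat.size n) := pow_le_size n B
      have h6 : 2 ≤ lv e i n := by
        have := Nat.two_pow_pos (e i n)
        unfold lv
        omega
      calc S ≤ 2 ^ (n ^ B) := hSle
        _ ≤ 2 ^ (2 ^ (B * Nat.size n)) := Nat.pow_le_pow_right (by norm_num) h5
        _ ≤ (lv e i n) ^ (2 ^ (B * Nat.size n)) := Nat.pow_le_pow_left h6 _) hfirst (by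
      have h5 : n ^ (B + 1) ≤ 2 ^ e i n := by
        refine le_trans (pow_le_size n (B + 1)) (Nat.pow_le_pow_right (by norm_num) ?_)
        refine le_trans ?_ hE
        rw [Nat.mul_add]
        omega
      have h6 : n - 1 + n ^ B < n ^ (B + 1) := by
        rw [pow_succ]
        have h7 : n ≤ n ^ B := Nat.le_self_pow (by omega) n
        generalize n ^ B = w at *
        have : 4 * w ≤ w * n := by rw [mul_comm w n]; exact Nat.mul_le_mul_right _ h4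
        omega
      calc 2 ^ (n - 1) * S ≤ 2 ^ (n - 1) * 2 ^ (n ^ B) := Nat.mul_le_mul_left _ hSle
        _ = 2 ^ (n - 1 + n ^ B) := by rw [pow_add]
        _ < 2 ^ (2 ^ e i n) := Nat.pow_lt_pow_right (by norm_num) (lt_of_lt_of_le h6 h5))
  refine ⟨Sm, Θ, G, _, R, _, h5, (card_short _).le, ?_⟩
  intro a ha x hx
  rw [h6, length_pair, hx]
  have h7 := mem_short.1 ha
  have h8 : uu cc n ≤ n := by
    have h9 : (uu cc n : ℝ) ≤ n := by
      unfold uu
      split_ifs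
      · push_cast; linarith
      · refine le_trans (Nat.floor_le (by positivity)) ?_
        have := Real.rpow_le_rpow_of_exponent_le hn1 hcc1.le
        rwa [Real.rpow_one] at this
    exact_mod_cast h9
  omega

end Pool.Agent.LibCL48
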