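import Pool.Agent.LibCL48.SelfLaw
import Pool.Agent.LibCL48.Laws

/-!
The laws hold for every oracle.
-/

namespace Pool.Agent.LibCL48

open Function Filter Pool.Agent.LibNexp
open Pool.Agent.LibTA48 (NTLang TB ntLang_of_tb ntLang_mono size_one)

variable {O : List Bool → Bool}

theorem Adv.mono {c c' : ℝ} (hc : 0 ≤ c) (h : c ≤ c') : Adv c ⊆ Adv c' := by
  rintro f ⟨⟨C, hC⟩, h0⟩
  refine ⟨⟨2 * C, fun n => ?_⟩, fun h1 => h0 (by linarith)⟩
  have h1 := hC n
  have h2 : (n : ℝ) ^ c ≤ (n : ℝ) ^ c' + 1 := by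
    rcases Nat.eq_zero_or_pos n with rfl | hn
    · have h3 : ((0 : ℕ) : ℝ) ^ c ≤ 1 := by
        rw [Nat.cast_zero]
        exact Real.rpow_le_one le_rfl (by norm_num) hc
      have h4 : (0 : ℝ) ≤ ((0 : ℕ) : ℝ) ^ c' := by positivity
      linarith
    · have h3 : (1 : ℝ) ≤ n := by exact_mod_cast hn
      have := Real.rpow_le_rpow_of_exponent_le h3 h
      linarith
  have h3 : (0 : ℝ) ≤ C := by positivity
  have h4 := mul_le_mul_of_nonneg_left h2 h3
  have h5 : (0 : ℝ) ≤ C * (n : ℝ) ^ c' := by positivity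
  push_cast
  linarith

theorem Enough.mono {a a' b b' c c' : ℝ} (h : Enough O a b c) (ha : a' ≤ a) (hb : b ≤ b')
    (hc : 0 ≤ c) (hcc : c ≤ c') : Enough O a' b' c' := by
  intro L hL
  obtain ⟨B, hB, f, hf, heq⟩ := h L (ntLang_mono ha hL)
  exact ⟨B, ntLang_mono hb hB, f, Adv.mono hc hcc hf, heq⟩

theorem Feas.norm {a b c : ℝ} (h : Feas O a b c) : ∃ a' b' c' : ℝ, a < a' ∧ a' ≤ b' ∧ b' < b ∧
    0 ≤ c' ∧ (c' < c ∨ c' = 0 ∧ c = 0) ∧ Enough O a' b' c' := by
  obtain ⟨h1, h2, h3, h4, a', b', c', h5, h6, h7, h8, h9⟩ := h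
  refine ⟨min a' ((a + b) / 2), max b' ((a + b) / 2), c', lt_min h5 (by linarith),
    le_trans (min_le_right _ _) (le_max_right _ _), max_lt h6 (by linarith), h7, h8,
    h9.mono (min_le_left _ _) (le_max_left _ _) h7 le_rfl⟩

theorem exists_nat_div {x y : ℝ} (hx : 0 ≤ x) (hxy : x < y) :
    ∃ p q : ℕ, 1 ≤ p ∧ 1 ≤ q ∧ x < (p : ℝ) / q ∧ (p : ℝ) / q < y := by
  obtain ⟨t, h1, h2⟩ := exists_rat_btwn hxy
  have ht : (0 : ℝ) < t := by linarith
  have ht' : 0 < t := by exact_mod_cast ht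
  have hnum : 0 < t.num := Rat.num_pos.2 ht'
  have h3 : (t : ℝ) = ((t.num.toNat : ℕ) : ℝ) / (t.den : ℕ) := by
    have h4 : ((t.num.toNat : ℕ) : ℤ) = t.num := Int.toNat_of_nonneg hnum.le
    have h5 : ((t.num.toNat : ℕ) : ℝ) = (t.num : ℝ) := by exact_mod_cast h4
    rw [h5]
    exact Rat.cast_def t
  refine ⟨t.num.toNat, t.den, by omega, t.den_pos, by rw [← h3]; exact h1, by rw [← h3]; exact h2⟩

/-- The laws hold for every oracle. -/
theorem laws_feas (O : List Bool → Bool) : Laws (Feas O) where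
  dom a b c h := ⟨h.1, h.2.1, h.2.2.1, h.2.2.2.1⟩
  mono a b c a' b' c' h ha' haa hbb hcc hc' := by
    obtain ⟨h1, h2, h3, h4, a1, b1, c1, h5, h6, h7, h8, h9⟩ := h
    refine ⟨ha', by linarith, by linarith, hc', a1, b1, c1, by linarith, by linarith, h7, ?_, h9⟩
    rcases h8 with h8 | ⟨h8, h8'⟩
    · exact Or.inl (by linarith)
    · rcases eq_or_lt_of_le (show 0 ≤ c' by linarith) with h10 | h10
      · exact Or.inr ⟨h8, h10.symm⟩
      · exact Or.inl (by linarith)
  opn a b c h := by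
    obtain ⟨h1, h2, h3, h4, a1, b1, c1, h5, h6, h7, h8, h9⟩ := h
    obtain ⟨a2, h10, h11⟩ := exists_between (show a < min a1 ((a + b) / 2) from
      lt_min h5 (by linarith))
    obtain ⟨b2, h12, h13⟩ := exists_between (show max b1 ((a + b) / 2) < b from
      max_lt h6 (by linarith))
    have k1 : a2 < a1 := lt_of_lt_of_le h11 (min_le_left _ _)
    have k2 : a2 < (a + b) / 2 := lt_of_lt_of_le h11 (min_le_right _ _)
    have k3 : b1 < b2 := lt_of_le_of_lt (le_max_left _ _) h12
    have k4 : (a + b) / 2 < b2 := lt_of_le_of_lt (le_max_right _ _) h12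
    rcases h8 with h8 | ⟨h8, h8'⟩
    · obtain ⟨c2, h14, h15⟩ := exists_between h8
      exact ⟨a2, b2, c2, h10, h13, Or.inl h15, by linarith, by linarith, by linarith, by linarith,
        a1, b1, c1, k1, k3, h7, Or.inl h14, h9⟩
    · exact ⟨a2, b2, 0, h10, h13, Or.inr ⟨rfl, h8'⟩, by linarith, by linarith, le_rfl, by linarith,
        a1, b1, c1, k1, k3, h7, Or.inr ⟨h8, rfl⟩, h9⟩
  pad a b c r h hr hrc := by
    obtain ⟨h1, h2, h3, h4, -⟩ := id h
    rcases eq_or_lt_of_le hr with hr1 | hr1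
    · rw [← hr1, one_mul, one_mul, one_mul]
      exact h
    obtain ⟨a1, b1, c1, h5, h6, h7, h8, h9, h10⟩ := h.norm
    have ha1 : 0 < a1 := by linarith
    have h11 : max 1 (r * a / a1) < r := by
      refine max_lt hr1 ?_
      rw [div_lt_iff₀ ha1]
      exact mul_lt_mul_of_pos_left h5 (by linarith)
    obtain ⟨p, q, hp, hq, h12, h13⟩ := exists_nat_div
      (le_trans zero_le_one (le_max_left 1 (r * a / a1))) h11
    have h14 : (1 : ℝ) < (p : ℝ) / q := lt_of_le_of_lt (le_max_left _ _) h12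
    have h15 : r * a / a1 < (p : ℝ) / q := lt_of_le_of_lt (le_max_right _ _) h12
    have hq0 : (0 : ℝ) < q := by exact_mod_cast hq
    have hpq : q ≤ p := by
      rw [lt_div_iff₀ hq0, one_mul] at h14
      exact_mod_cast h14.le
    have h16 := enough_pad hq hpq ha1 (show 0 < b1 by linarith) h8 h10
    refine ⟨mul_pos (by linarith) h1, mul_lt_mul_of_pos_left h2 (by linarith),
      mul_nonneg (by linarith) h3, hrc, _, _, _, ?_, ?_, ?_, ?_, h16⟩
    · rw [div_lt_iff₀ ha1] at h15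
      exact h15
    · calc (p : ℝ) / q * b1 ≤ r * b1 := mul_le_mul_of_nonneg_right h13.le (by linarith)
        _ < r * b := mul_lt_mul_of_pos_left h7 (by linarith)
    · exact mul_nonneg (by linarith) h8
    · rcases h9 with h9 | ⟨h9, h9'⟩
      · left
        calc (p : ℝ) / q * c1 ≤ r * c1 := mul_le_mul_of_nonneg_right h13.le h8
          _ < r * c := mul_lt_mul_of_pos_left h9 (by linarith)
      · right
        rw [h9, h9', mul_zero, mul_zero]
        exact ⟨rfl, rfl⟩
  self a b b' c d g h hcg hg hg1 h' := by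
    obtain ⟨h1, h2, h3, h4, -⟩ := id h
    obtain ⟨k1, k2, k3, k4, -⟩ := id h'
    obtain ⟨a1, b1, c1, h5, h6, h7, h8, h9, h10⟩ := h.norm
    obtain ⟨A, B', d1, k5, k6, k7, k8, k9, k10⟩ := h'.norm
    have hA0 : 0 < A := by linarith
    have hB0 : 0 < B' := by linarith
    have hbb : b < b' := by
      rw [div_lt_div_iff_of_pos_right hg] at k2
      exact k2
    have hgB : g * B' < b' := by
      rw [lt_div_iff₀ hg] at k7
      linarith
    obtain ⟨v, hv1, hv2⟩ : ∃ v : ℝ, g < v ∧ (d1 = 0 ∨ v * d1 ≤ g * d) := by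
      rcases eq_or_lt_of_le k8 with h0 | h0
      · exact ⟨g + 1, by linarith, Or.inl h0.symm⟩
      · have hd : d1 < d := by
          rcases k9 with k9 | ⟨k9, -⟩
          · exact k9
          · linarith
        refine ⟨g * d / d1, ?_, Or.inr ?_⟩
        · rw [lt_div_iff₀ h0]
          exact mul_lt_mul_of_pos_left hd hg
        · rw [div_mul_cancel₀ _ h0.ne']
    have h11 : g < min (min 1 v) (b' / B') := by
      refine lt_min (lt_min hg1 hv1) ?_
      rw [lt_div_iff₀ hB0]
      exact hgB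
    obtain ⟨p, q, hp, hq, h12, h13⟩ := exists_nat_div hg.le h11
    have h14 : (p : ℝ) / q < 1 := lt_of_lt_of_le h13 (le_trans (min_le_left _ _) (min_le_left _ _))
    have h15 : (p : ℝ) / q < v := lt_of_lt_of_le h13 (le_trans (min_le_left _ _) (min_le_right _ _))
    have h16 : (p : ℝ) / q < b' / B' := lt_of_lt_of_le h13 (min_le_right _ _)
    have hq0 : (0 : ℝ) < q := by exact_mod_cast hq
    have hp0 : (0 : ℝ) < p := by exact_mod_cast hp
    have hpq : p ≤ q := by
      rw [div_lt_one hq0] at h14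
      exact_mod_cast h14.le
    have hr0 : 0 < (p : ℝ) / q := div_pos hp0 hq0
    have hc1g : c1 ≤ (p : ℝ) / q := by
      have : c1 ≤ c := by rcases h9 with h9 | ⟨h9, h9'⟩ <;> linarith
      linarith
    have h17 : (q : ℝ) / p * b1 ≤ A := by
      have h18 : (q : ℝ) / p ≤ 1 / g := by
        rw [div_le_div_iff₀ hp0 hg, one_mul]
        rw [lt_div_iff₀ hq0] at h12
        linarith
      have h19 : (q : ℝ) / p * b1 ≤ 1 / g * b1 := mul_le_mul_of_nonneg_right h18 (by linarith)
      have h20 : 1 / g * b1 ≤ b / g := by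
        rw [one_div_mul_eq_div]
        exact div_le_div_of_nonneg_right h7.le hg.le
      linarith
    have hd1 : d1 ≤ 1 := by rcases k9 with k9 | ⟨k9, -⟩ <;> linarith
    have h18 := enough_self hp hpq (show 0 < a1 by linarith) h6 h8 hc1g hB0 k8 hd1 h10
      (k10.mono h17 le_rfl k8 le_rfl) (m := max b1 ((p : ℝ) / q * B')) (le_max_left _ _)
      (le_max_right _ _)
    refine ⟨h1, by linarith, mul_nonneg hg.le k3, ?_, _, _, _, h5, ?_, mul_nonneg hr0.le k8, ?_, h18⟩
    · calc g * d ≤ 1 * d := mul_le_mul_of_nonneg_right hg1.le k3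
        _ < 1 := by linarith
    · refine max_lt (by linarith) ?_
      rw [lt_div_iff₀ hB0] at h16
      exact h16
    · rcases k9 with k9 | ⟨k9, k9'⟩
      · left
        rcases hv2 with hv2 | hv2
        · rw [hv2, mul_zero]
          exact mul_pos hg (by linarith)
        · rcases eq_or_lt_of_le k8 with h0 | h0
          · rw [← h0, mul_zero]
            exact mul_pos hg (by linarith)
          · exact lt_of_lt_of_le (mul_lt_mul_of_pos_right h15 h0) hv2
      · right
        rw [k9, k9', mul_zero, mul_zero]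
        exact ⟨rfl, rfl⟩

end Pool.Agent.LibCL48
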