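import Pool.Agent.LibCL48.Stage

/-!
The limit of the stages.
-/

namespace Pool.Agent.LibCL48

open Function Filter Pool.Agent.LibNexp
open Pool.Agent.LibSpec4 hiding cd cd_injective length_cd length_lt_cd AccN qlen wl IsCode Val comp Good stage exists_oracle exists_good engine tb sb
open Pool.Agent.LibTA48 (cd cd_injective length_cd length_lt_cd)

/-- The level of a stage. -/
def lv (e : ℕ → ℕ → ℕ) (i n : ℕ) : ℕ := i + 2 * n + 2 ^ e i n + 4

/-- The hypotheses of a stage for the first `k` facts. -/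
structure PlanK (D : Data) (e : ℕ → ℕ → ℕ) (k i n : ℕ) (Sm : ℕ → ℕ → Prop) (Θ : ℕ → ℕ)
    (G : ℕ → Finset (ℕ × ℕ)) (τ : ℕ) (R : ℕ → ℕ) (U : ℕ) : Prop where
  pos : 1 ≤ n
  mono : ∀ t < τ, Θ t ≤ Θ (t + 1)
  grp : ∀ t < τ, ∀ N m, (N, m) ∈ G t → N < k ∧ D.q N m ≤ Θ t ∧ Θ t < D.wl N m
  smk : ∀ N m, Sm N m → N < k
  cover : ∀ N m, Sm N m → lv e i n ≤ D.q N m → D.wl N m ≤ Θ τ → ∃ t < τ, (N, m) ∈ G t
  step : ∀ t < τ, ((∑ f ∈ G t, 2 ^ f.2) + 1) * (R (t + 1) + 1) ≤ R t + 1
  last : U ≤ R τ
  first : R 0 ≤ 2 ^ (n - 1)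
  cap : ∀ t ≤ τ, ∀ N m, N < k → lv e i n ≤ D.q N m → ¬ Sm N m → D.wl N m ≤ Θ t →
    (∀ t' < t, Θ t' < D.wl N m) → R t < 2 ^ D.kl N m
  count : 2 ^ (n - 1) * Θ τ < 2 ^ (2 ^ e i n)

theorem PlanK.toPlan {D D' : Data} {e : ℕ → ℕ → ℕ} {k i n : ℕ} {Sm : ℕ → ℕ → Prop} {Θ : ℕ → ℕ}
    {G : ℕ → Finset (ℕ × ℕ)} {τ : ℕ} {R : ℕ → ℕ} {U : ℕ} (h : PlanK D e k i n Sm Θ G τ R U)
    (hq : ∀ N m, D'.clock N m = D.clock N m) (hk : ∀ N m, D'.kl N m = D.kl N m)
    (hw : ∀ N < k, ∀ m, D'.wl N m = D.wl N m) (hbig : ∀ N, k ≤ N → ∀ m, Θ τ < D'.wl N m)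
    {ρ₀ : ℕ → ℕ → ℕ} {O₀ : List Bool → Bool} (hg : Good D' e ρ₀ O₀) :
    Plan (⟨O₀, ρ₀, hg, i, n, h.pos, Sm⟩ : Ctx D' e) Θ G τ R U := by
  have hqq : ∀ N m, D'.q N m = D.q N m := fun N m => by unfold Data.q; rw [hq]
  have hmono : ∀ t ≤ τ, Θ t ≤ Θ τ := by
    intro t ht
    induction τ, ht using Nat.le_induction with
    | base => exact le_rfl
    | succ b hab ih =>
      have h1 : ∀ b', t ≤ b' → b' ≤ b + 1 → Θ t ≤ Θ b' := by
        intro b' h1
        induction b', h1 using Nat.le_induction with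
        | base => intro _; exact le_rfl
        | succ b' hb' ih' => intro h2; exact le_trans (ih' (by omega)) (h.mono b' (by omega))
      exact h1 (b + 1) (by omega) le_rfl
  refine ⟨h.mono, ?_, ?_, h.step, h.last, h.first, ?_, h.count⟩
  · intro t ht N m hNm
    obtain ⟨h1, h2, h3⟩ := h.grp t ht N m hNm
    rw [hqq, hw N h1]
    exact ⟨h2, h3⟩
  · intro N m hs h1 h2
    have h3 := h.smk N m hs
    rw [hw N h3] at h2
    rw [hqq] at h1
    exact h.cover N m hs h1 h2
  · intro t ht N m h1 h2 h3 h4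
    have h5 : N < k := by
      by_contra hcon
      have := hbig N (by omega) m
      have := hmono t ht
      omega
    rw [hqq] at h1
    rw [hw N h5] at h3
    rw [hk]
    exact h.cap t ht N m h5 h1 h2 h3 fun t' ht' => by rw [← hw N h5]; exact h4 t' ht'

theorem exists_good (D : Data) (e : ℕ → ℕ → ℕ) : ∃ ρ O, Good D e ρ O := by
  classical
  set Val : (List Bool → Bool) → List Bool → Prop := fun O s =>
    ∃ N x w, s = cd N x (dg (D.kl N x.length) 0) w ∧ w.length = D.wl N x.length ∧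
      ¬ AccN D O N x with hVal
  have hval : ∀ {O O' : List Bool → Bool} {s : List Bool},
      (∀ u : List Bool, u.length < s.length → O u = O' u) → Val O s → Val O' s := by
    rintro O O' s h ⟨N, x, w, rfl, hw, h2⟩
    refine ⟨N, x, w, rfl, hw, ?_⟩
    rwa [← accN_agree fun u hu => h u (by
      have := length_lt_cd N x (dg (D.kl N x.length) 0) w
      have := D.q_lt_wl N x.length
      omega)]
  obtain ⟨O, hO⟩ := Pool.Agent.LibSpec4.exists_fix (fun O s => decide (Val O s)) (by
    intro O O' s h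
    exact decide_eq_decide.2 ⟨hval h, hval fun u hu => (h u hu).symm⟩)
  have hO2 : ∀ s, O s = true ↔ Val O s := fun s => by
    have := congrFun hO s
    rw [← this, decide_eq_true_iff]
  refine ⟨fun _ _ => 0, O, ⟨?_, ?_, ?_, ?_⟩⟩
  · intro N x w hw h
    obtain ⟨N', x', w', h1, -, h2⟩ := (hO2 _).1 h
    obtain ⟨rfl, rfl, -, rfl⟩ := cd_injective h1
    exact h2
  · intro N x hN
    exact ⟨List.replicate (D.wl N x.length) false, by simp, (hO2 _).2
      ⟨N, x, _, rfl, by simp, hN⟩⟩
  · intro s h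
    obtain ⟨N', x', w', h1, h3, h2⟩ := (hO2 _).1 h
    exact ⟨N', x', _, w', h1, h3, length_dg _ _⟩
  · intro s h
    obtain ⟨N', x', w', h1, h3, h2⟩ := (hO2 _).1 h
    simp [cd, ask] at h1

theorem tst_agree {O O' : List Bool → Bool} {e : ℕ → ℕ → ℕ} {i : ℕ} {x : List Bool}
    (h1 : ∀ s, O (true :: s) = true → IsTs e (true :: s))
    (h2 : ∀ s, O' (true :: s) = true → IsTs e (true :: s))
    (h : ∀ s : List Bool, s.length ≤ lv e i x.length → O s = O' s) : x ∈ Tst i O ↔ x ∈ Tst i O' := by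
  have key : ∀ {O O' : List Bool → Bool}, (∀ s, O (true :: s) = true → IsTs e (true :: s)) →
      (∀ s : List Bool, s.length ≤ lv e i x.length → O s = O' s) → x ∈ Tst i O → x ∈ Tst i O' := by
    rintro O O' h1 h ⟨w, hw⟩
    refine ⟨w, ?_⟩
    rw [← h]
    · exact hw
    · obtain ⟨i', x', w', h3, h4⟩ := h1 _ (show O (true :: _) = true from hw)
      obtain ⟨rfl, rfl, rfl⟩ := ts_injective (show ts i x w = ts i' x' w' from h3)
      rw [length_ts, h4]
      unfold lv
      omega
  exact ⟨key h1 h, key h2 fun s hs => (h s hs).symm⟩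

/-- The limit oracle. -/
theorem exists_oracle {D : Data} {e : ℕ → ℕ → ℕ} {i n S : ℕ → ℕ} {p : ℕ → Prog} {T : ℕ → ℕ}
    {A : ℕ → Finset (List Bool)}
    (hst : ∀ k ρ₀ O₀, Good D e ρ₀ O₀ → ∃ ρ O, Good D e ρ O ∧
      (∀ N m, D.q N m < lv e (i k) (n k) → ρ N m = ρ₀ N m) ∧
      (∀ s : List Bool, s.length < lv e (i k) (n k) → O s = O₀ s) ∧
      ∀ a ∈ A k, Wrong (i k) O (p k) (T k) (n k) a)
    (hAS : ∀ k, ∀ a ∈ A k, ∀ x : List Bool, x.length = n k → (pair x a).length + T k ≤ S k)
    (hS : ∀ k, S k < lv e (i (k + 1)) (n (k + 1)))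
    (hlt : ∀ k, lv e (i k) (n k) < lv e (i (k + 1)) (n (k + 1))) :
    ∃ ρ O, Good D e ρ O ∧ ∀ k, ∀ a ∈ A k, Wrong (i k) O (p k) (T k) (n k) a := by
  set lev : ℕ → ℕ := fun k => lv e (i k) (n k) with hlev
  have lev_mono : ∀ {k k' : ℕ}, k ≤ k' → lev k ≤ lev k' := fun {k k'} h => by
    induction k', h using Nat.le_induction with
    | base => exact le_rfl
    | succ k' _ ih => exact le_trans ih (hlt k').le
  have le_lev : ∀ k, k ≤ lev k := fun k => by
    induction k with
    | zero => exact Nat.zero_le _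
    | succ k ih => have := hlt k; simp only [hlev] at ih ⊢; omega
  have hstep : ∀ (k : ℕ) (X₀ : {X : (ℕ → ℕ → ℕ) × (List Bool → Bool) // Good D e X.1 X.2}),
      ∃ X : {X : (ℕ → ℕ → ℕ) × (List Bool → Bool) // Good D e X.1 X.2},
      (∀ N m, D.q N m < lev k → X.1.1 N m = X₀.1.1 N m) ∧
      (∀ s : List Bool, s.length < lev k → X.1.2 s = X₀.1.2 s) ∧
      ∀ a ∈ A k, Wrong (i k) X.1.2 (p k) (T k) (n k) a := by
    intro k X₀
    obtain ⟨ρ, O, h1, h2, h3, h4⟩ := hst k X₀.1.1 X₀.1.2 X₀.2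
    exact ⟨⟨(ρ, O), h1⟩, h2, h3, h4⟩
  choose st hst1 hst2 hst3 using hstep
  obtain ⟨ρb, Ob, hOb⟩ := exists_good D e
  set X : ℕ → {X : (ℕ → ℕ → ℕ) × (List Bool → Bool) // Good D e X.1 X.2} :=
    fun k => Nat.rec ⟨(ρb, Ob), hOb⟩ (fun k prev => st k prev) k with hX
  have hX1 : ∀ k, X (k + 1) = st k (X k) := fun k => rfl
  have hag : ∀ k k', k ≤ k' → (∀ s : List Bool, s.length < lev k → (X k').1.2 s = (X k).1.2 s) ∧
      (∀ N m, D.q N m < lev k → (X k').1.1 N m = (X k).1.1 N m) := by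
    intro k k' h
    induction k', h using Nat.le_induction with
    | base => exact ⟨fun _ _ => rfl, fun _ _ _ => rfl⟩
    | succ k' h ih =>
      refine ⟨fun s hs => ?_, fun N m hq => ?_⟩
      · rw [hX1, hst2 _ _ s (lt_of_lt_of_le hs (lev_mono h)), ih.1 s hs]
      · rw [hX1, hst1 _ _ N m (lt_of_lt_of_le hq (lev_mono h)), ih.2 N m hq]
  set O : List Bool → Bool := fun s => (X (s.length + 1)).1.2 s with hO
  set ρ : ℕ → ℕ → ℕ := fun N m => (X (D.q N m + 1)).1.1 N m with hρ
  have hOX : ∀ k, ∀ s : List Bool, s.length < lev k → O s = (X k).1.2 s := by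
    intro k s hs
    have h1 : s.length < lev (s.length + 1) := by
      have := le_lev (s.length + 1)
      omega
    rcases Nat.le_total k (s.length + 1) with h | h
    · exact (hag _ _ h).1 s hs
    · exact ((hag _ _ h).1 s h1).symm
  have hρX : ∀ k N m, D.q N m < lev k → ρ N m = (X k).1.1 N m := by
    intro k N m hq
    have h1 : D.q N m < lev (D.q N m + 1) := by
      have := le_lev (D.q N m + 1)
      omega
    rcases Nat.le_total k (D.q N m + 1) with h | h
    · exact (hag _ _ h).2 N m hq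
    · exact ((hag _ _ h).2 N m h1).symm
  have hcodes : ∀ s, O (false :: s) = true → IsCode D (false :: s) := fun s hs =>
    (X ((false :: s).length + 1)).2.codes s hs
  have htests : ∀ s, O (true :: s) = true → IsTs e (true :: s) := fun s hs =>
    (X ((true :: s).length + 1)).2.tests s hs
  refine ⟨ρ, O, ⟨?_, ?_, hcodes, htests⟩, ?_⟩
  · intro N x w hw h1
    set s := cd N x (dg (D.kl N x.length) (ρ N x.length)) w with hs
    set K := s.length + 1 with hK
    have hlen : s.length < lev K := by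
      have := le_lev K
      omega
    have hqs : D.q N x.length < lev K := by
      have h2 := length_lt_cd N x (dg (D.kl N x.length) (ρ N x.length)) w
      rw [← hs] at h2
      have := D.q_lt_wl N x.length
      omega
    rw [hOX K s hlen, hs, hρX K N x.length hqs] at h1
    rw [accN_agree (O' := (X K).1.2) fun s' hs' => hOX K s' (by omega)]
    exact (X K).2.sound N x w hw h1
  · intro N x hN
    set K := N + 4 * x.length + 2 * D.kl N x.length + D.q N x.length + D.wl N x.length + 9 with hK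
    have hlevK := le_lev K
    have hqs : D.q N x.length < lev K := by omega
    rw [accN_agree (O' := (X K).1.2) fun s' hs' => hOX K s' (by omega)] at hN
    obtain ⟨w, hw, h1⟩ := (X K).2.complete N x hN
    refine ⟨w, hw, ?_⟩
    rw [hρX K N x.length hqs, hOX K]
    · exact h1
    · rw [length_cd, hw, length_dg]
      omega
  · intro k a ha
    have h1 := hst3 k (X k) a ha
    rw [← hX1] at h1
    have h2 : ∀ s : List Bool, s.length < lev (k + 1) → (X (k + 1)).1.2 s = O s :=
      fun s hs => (hOX _ s hs).symm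
    obtain ⟨x, hx, h3⟩ := h1
    refine ⟨x, hx, fun h4 => h3 ?_⟩
    have e1 : x ∈ Tst (i k) (X (k + 1)).1.2 ↔ x ∈ Tst (i k) O :=
      tst_agree (X (k + 1)).2.tests htests fun s hs => h2 s (by
        rw [hx] at hs
        have := hlt k
        simp only [hlev]
        omega)
    have e2 : Acc (X (k + 1)).1.2 (p k) (T k) (pair x a) ↔ Acc O (p k) (T k) (pair x a) := by
      have h5 : ∀ s : List Bool, s.length ≤ (pair x a).length + T k →
          (X (k + 1)).1.2 s = O s := fun s hs => h2 s (by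
        have := hAS k a ha x hx
        have := hS k
        simp only [hlev]
        omega)
      exact ⟨acc_agree h5, acc_agree fun s hs => (h5 s hs).symm⟩
    rw [e1, e2]
    exact h4

/-- Data up to a shift of the lengths of the witnesses. -/
structure Pre where
  prog : ℕ → Prog
  clock : ℕ → ℕ → ℕ
  w : ℕ → ℕ → ℕ
  kl : ℕ → ℕ → ℕ
  lt_w : ∀ N m, m + 2 ^ clock N m < w N m

/-- The data. -/
def Pre.toData (P : Pre) (H : ℕ → ℕ) : Data where
  prog := P.prog
  clock := P.clock
  wl N m := P.w N m + H N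
  kl := P.kl
  lt_wl N m := lt_of_lt_of_le (P.lt_w N m) (Nat.le_add_right _ _)

/-- The construction for all requirements. -/
theorem engine {ι : Type} [Countable ι] [Nonempty ι] (P : Pre) (e : ℕ → ℕ → ℕ) (p : ι → Prog)
    (i : ι → ℕ) (T : ι → ℕ → ℕ) (A : ι → ℕ → Finset (List Bool))
    (hfit : ∀ r k H, ∀ᶠ n in atTop, ∃ Sm Θ G τ R U, PlanK (P.toData H) e k (i r) n Sm Θ G τ R U ∧
      (A r n).card ≤ U ∧
      ∀ a ∈ A r n, ∀ x : List Bool, x.length = n → (pair x a).length + T r n ≤ Θ τ) :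
    ∃ H ρ O, Good (P.toData H) e ρ O ∧
      ∀ r, ∃ᶠ n in atTop, ∀ a ∈ A r n, Wrong (i r) O (p r) (T r n) n a := by
  classical
  obtain ⟨rq, hrq⟩ := exists_surjective_nat (ι × ℕ)
  have hex : ∀ k (H : ℕ → ℕ) (M : ℕ), ∃ n S, M ≤ n ∧ ∃ Sm Θ G τ R U, Θ τ = S ∧
      PlanK (P.toData H) e k (i (rq k).1) n Sm Θ G τ R U ∧ (A (rq k).1 n).card ≤ U ∧
      ∀ a ∈ A (rq k).1 n, ∀ x : List Bool, x.length = n →
        (pair x a).length + T (rq k).1 n ≤ Θ τ := by
    intro k H M
    obtain ⟨n, h1, h2⟩ := ((hfit (rq k).1 k H).and (eventually_ge_atTop M)).exists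
    obtain ⟨Sm, Θ, G, τ, R, U, h3⟩ := h1
    exact ⟨n, Θ τ, h2, Sm, Θ, G, τ, R, U, rfl, h3⟩
  choose fn fS hM hpl using hex
  -- the sequence of the shifts and of the lower bounds
  set X : ℕ → (ℕ → ℕ) × ℕ := fun k => Nat.rec ((fun _ => 0), 0) (fun k X =>
    ((fun N => if N < k then X.1 N else max (X.1 N) (fS k X.1 X.2)),
      fS k X.1 X.2 + lv e (i (rq k).1) (fn k X.1 X.2) + 1)) k with hX
  have hX1 : ∀ k, X (k + 1) = ((fun N => if N < k then (X k).1 N else
      max ((X k).1 N) (fS k (X k).1 (X k).2)),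
      fS k (X k).1 (X k).2 + lv e (i (rq k).1) (fn k (X k).1 (X k).2) + 1) := fun k => rfl
  set n : ℕ → ℕ := fun k => fn k (X k).1 (X k).2 with hn
  set S : ℕ → ℕ := fun k => fS k (X k).1 (X k).2 with hS
  set H : ℕ → ℕ := fun N => (X (N + 1)).1 N with hH
  have hH1 : ∀ k N, N < k → (X k).1 N = H N := by
    intro k
    induction k with
    | zero => intro N hN; omega
    | succ k ih =>
      intro N hN
      rcases Nat.lt_or_ge N k with h | h
      · rw [hX1]
        simp only [if_pos h]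
        exact ih N h
      · have : N = k := by omega
        subst this
        rfl
  have hH2 : ∀ k N, k ≤ N → ∀ j, k < j → j ≤ N + 1 → S k ≤ (X j).1 N := by
    intro k N hk j hj
    induction j, hj using Nat.le_induction with
    | base =>
      intro _
      rw [hX1]
      simp only [if_neg (show ¬ N < k by omega)]
      exact le_max_right _ _
    | succ j hj ih =>
      intro hjN
      rw [hX1]
      simp only [if_neg (show ¬ N < j by omega)]
      exact le_trans (ih (by omega)) (le_max_left _ _)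
  have hge : ∀ k, S k + lv e (i (rq k).1) (n k) + 1 ≤ n (k + 1) := fun k => hM (k + 1) _ _
  have hlvn : ∀ k, n k ≤ lv e (i (rq k).1) (n k) := fun k => by
    have := Nat.two_pow_pos (e (i (rq k).1) (n k))
    unfold lv
    omega
  obtain ⟨ρ, O, hO, hreq⟩ := exists_oracle (D := P.toData H) (e := e) (i := fun k => i (rq k).1)
    (n := n) (S := S) (p := fun k => p (rq k).1) (T := fun k => T (rq k).1 (n k))
    (A := fun k => A (rq k).1 (n k)) (by
      intro k ρ₀ O₀ hg
      obtain ⟨Sm, Θ, G, τ, R, U, h1, h2, h3, h4⟩ := hpl k (X k).1 (X k).2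
      have hplan := h2.toPlan (D' := P.toData H) (fun _ _ => rfl) (fun _ _ => rfl)
        (fun N hN m => by
          show P.w N m + H N = P.w N m + (X k).1 N
          rw [hH1 k N hN])
        (fun N hN m => by
          show Θ τ < P.w N m + H N
          have h5 := hH2 k N hN (N + 1) (by omega) le_rfl
          have h6 := P.lt_w N m
          have h9 := Nat.two_pow_pos (P.clock N m)
          have h7 : Θ τ = S k := h1
          have h8 : S k ≤ H N := h5
          omega) hg
      exact stage hplan h3 (by have := h2.last; omega) h4)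
    (by
      intro k a ha x hx
      obtain ⟨Sm, Θ, G, τ, R, U, h1, h2, h3, h4⟩ := hpl k (X k).1 (X k).2
      have := h4 a ha x hx
      have h7 : Θ τ = S k := h1
      rw [← h7]
      exact this)
    (fun k => by
      have := hge k
      have := hlvn (k + 1)
      omega)
    (fun k => by
      have := hge k
      have := hlvn (k + 1)
      omega)
  refine ⟨H, ρ, O, hO, fun r => ?_⟩
  rw [frequently_atTop]
  intro M
  have hnmono : ∀ k, k ≤ n k := by
    intro k
    induction k with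
    | zero => exact Nat.zero_le _
    | succ k ih =>
      have := hge k
      have := hlvn k
      omega
  have hk : ∃ k, M ≤ k ∧ (rq k).1 = r := by
    by_contra hcon
    push Not at hcon
    choose g hg using fun j : ℕ => hrq (r, j)
    have hginj : Injective g := by
      intro j j' h
      have h1 := hg j
      rw [h, hg j'] at h1
      simpa using h1.symm
    have hlt : ∀ j, g j < M := by
      intro j
      by_contra hge
      push Not at hge
      exact hcon (g j) hge (by rw [hg j])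
    have hc := Finset.card_le_card_of_injOn (s := Finset.range (M + 1)) (t := Finset.range M) g
      (fun j _ => Finset.mem_coe.2 (Finset.mem_range.2 (hlt j))) (fun j _ j' _ h => hginj h)
    rw [Finset.card_range, Finset.card_range] at hc
    omega
  obtain ⟨k, hk, rfl⟩ := hk
  exact ⟨n k, le_trans hk (hnmono k), fun a ha => hreq k a ha⟩

end Pool.Agent.LibCL48
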