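import Pool.Agent.LibCL48.Step
import Pool.Agent.LibBHN.Long

/-!
Long iterations of the step relation, with a clock.
-/

namespace Pool.Agent.LibCL48

open Function Pool.Agent.LibNexp
open Pool.Agent.LibBHN (repl repl_sound repl_complete)

variable {O : List Bool → Bool}

/-- One step of the universal simulation. -/
def Step (O : List Bool → Bool) (s s' : List Bool) : Prop :=
  (StepSeq s s' ∨ StepAlt s s' ∨ StepStar s s') ∨
  (∃ b, StepOp [false, false, false, b] (fun v v' => v' = b :: v) s s') ∨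
  (∃ b, StepOp [false, false, true, b] (fun v v' => v = b :: v') s s') ∨
  (∃ b, StepOp [false, true, false, b] (fun v v' => O v = b ∧ v = v') s s') ∨
  StepOp [false, true, true, false] (fun v v' => v = [] ∧ v' = []) s s'

theorem PT.exBool {k : ℕ} {R : Bool → (Fin k → List Bool) → Prop} (h : ∀ b, PT O (R b)) :
    PT O fun e => ∃ b, R b e := by
  refine ((h false).or (h true)).congr fun e => ?_
  simp

theorem pt_step : PT O fun e : Fin 2 → List Bool => Step O (e 0) (e 1) := by
  refine ((pt_stepSeq (O := O)).or ((pt_stepAlt (O := O)).or (pt_stepStar (O := O)))).or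
    (PT.or (PT.exBool fun b => pt_stepOp _ ?_) (PT.or (PT.exBool fun b => pt_stepOp _ ?_)
      (PT.or (PT.exBool fun b => pt_stepOp _ ?_) (pt_stepOp _ ?_))))
  · exact (pt_prefix (O := O) [b]).reindex ![1, 0]
  · exact pt_prefix (O := O) [b]
  · exact ((pt_query (O := O) b).reindex ![0]).and (pt_eq (O := O))
  · exact ((pt_const (O := O) []).reindex ![0]).and ((pt_const (O := O) []).reindex ![1])

theorem pt_lt2 : PT O fun e : Fin 2 → List Bool => (e 1).length < 2 ^ (e 0).length := by
  have h1 : PT O fun e : Fin 2 → List Bool => ∃ β : List Bool, β.length = 1 * (e 0).length + 0 ∧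
      val β + (e 1).length + 1 = 2 ^ β.length := by
    refine PT.ex (R := fun (e : Fin 2 → List Bool) β => β.length = 1 * (e 0).length + 0 ∧
      val β + (e 1).length + 1 = 2 ^ β.length) (g := fun n => n) ?_ PolyB.id ?_
    · have h2 : PT O fun e : Fin 2 → List Bool => (e 1).length = 1 * (e 0).length + 0 :=
        ((pt_len (O := O) 1 1 0 0)).congr fun e => ⟨fun ⟨k, h1, h2⟩ => by omega,
          fun h => ⟨(e 0).length, by omega, by omega⟩⟩
      exact (h2.reindex (m := 3) ![0, 2]).and ((pt_val (O := O)).reindex (m := 3) ![2, 1])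
    · rintro e β ⟨h, -⟩
      have := len_le_size e 0
      omega
  refine h1.congr fun e => ⟨?_, fun h => ?_⟩
  · rintro ⟨β, h2, h3⟩
    have h4 : β.length = (e 0).length := by omega
    rw [h4] at h3
    omega
  · obtain ⟨β, h2, h3⟩ := exists_val h
    exact ⟨β, by omega, by rw [h2]; exact h3⟩

/-- Paths of a given length. -/
inductive PathN (S : List Bool → List Bool → Prop) : ℕ → List Bool → List Bool → Prop
  | nil (a : List Bool) : PathN S 0 a a
  | cons {n : ℕ} {a b c : List Bool} : S a b → PathN S n b c → PathN S (n + 1) a c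

theorem PathN.single {S : List Bool → List Bool → Prop} {a b : List Bool} (h : S a b) :
    PathN S 1 a b := PathN.cons h (PathN.nil b)

theorem PathN.trans {S : List Bool → List Bool → Prop} {n m : ℕ} {a b c : List Bool}
    (h : PathN S n a b) (h' : PathN S m b c) : PathN S (n + m) a c := by
  induction h with
  | nil a => rwa [Nat.zero_add]
  | cons h1 _ ih =>
    rw [Nat.add_right_comm]
    exact PathN.cons h1 (ih h')

/-- Steps to strings which are not too long. -/
def SM (O : List Bool → Bool) (M : ℕ) (s s' : List Bool) : Prop := Step O s s' ∧ s'.length < M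

/-- The accepting strings. -/
def Fin0 (a : List Bool) : Prop := ∃ S, a = pair [] S

theorem pt_fin0 : PT O fun e : Fin 1 → List Bool => Fin0 (e 0) := by
  have h1 : PT O fun e : Fin 1 → List Bool => ∃ S : List Bool, e 0 = [true, false] ++ S := by
    refine PT.ex (R := fun (e : Fin 1 → List Bool) S => e 0 = [true, false] ++ S)
      (g := fun n => n) ?_ PolyB.id ?_
    · exact (pt_prefix (O := O) [true, false]).reindex (m := 2) ![0, 1]
    · intro e S h
      have h2 := congrArg List.length h
      rw [List.length_append] at h2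
      have := len_le_size e 0
      omega
  refine h1.congr fun e => ?_
  rfl

/-- The test of a step. -/
theorem pt_test : PT O fun e : Fin 3 → List Bool => SM O (2 ^ (e 1).length) (e 0) (e 2) :=
  ((pt_step (O := O)).reindex (m := 3) ![0, 2]).and ((pt_lt2 (O := O)).reindex (m := 3) ![1, 2])

/-- The arguments of the test. -/
def tr : Fin 3 → ℕ := ![0, 1, 3]

theorem tr_lt (j : Fin 3) : tr j < 4 := by
  fin_cases j <;> simp [tr]

theorem loop_sound {p : Prog} {Tt : State → ℕ}
    (hp : IsTest O 4 (fun σ => SM O (2 ^ (σ 1).length) (σ 0) (σ 3)) Tt p) {t : ℕ} {σ σ' : State}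
    (h : Iter (Run O (.seq inc (repl 0 3 p))) t σ σ') : Quiet 3 σ →
    ∃ N, PathN (SM O (2 ^ (σ 1).length)) N (σ 0) (σ' 0) ∧ val (σ' 2) = val (σ 2) + N ∧
      (σ' 2).length = (σ 2).length ∧ σ' 1 = σ 1 ∧ Quiet 3 σ' := by
  induction h with
  | nil σ => intro hq; exact ⟨0, PathN.nil _, rfl, rfl, rfl, hq⟩
  | @cons t t' σ τ σ' h1 _ ih =>
    intro hq
    obtain ⟨t1, t2, υ, -, h2, h3⟩ := h1
    obtain ⟨a1, a2, a3, a4⟩ := inc_sound (hq 4 (by norm_num)) h2
    have hq' : Quiet 3 υ := by
      intro r hr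
      by_cases h4 : r = 4
      · rw [h4]; exact a3
      · rw [a4 r (by omega) h4]; exact hq r hr
    obtain ⟨z, h5, rfl⟩ := repl_sound (by norm_num) hp hq' h3
    have e0 : υ 0 = σ 0 := a4 0 (by norm_num) (by norm_num)
    have e1 : υ 1 = σ 1 := a4 1 (by norm_num) (by norm_num)
    rw [update_self, update_of_ne (by norm_num), update_of_ne (by norm_num), e0, e1] at h5
    obtain ⟨N, b1, b2, b3, b4, b5⟩ := ih (by
      intro r hr
      rw [update_of_ne (by omega)]
      exact hq' r hr)
    rw [update_self, update_of_ne (by norm_num), e1] at b1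
    rw [update_of_ne (by norm_num), a1] at b2
    rw [update_of_ne (by norm_num), a2] at b3
    rw [update_of_ne (by norm_num), e1] at b4
    refine ⟨N + 1, PathN.cons h5 b1, ?_, b3, b4, b5⟩
    rw [b2]
    ring

theorem loop_complete {p : Prog} {Tt : State → ℕ}
    (hp : IsTest O 4 (fun σ => SM O (2 ^ (σ 1).length) (σ 0) (σ 3)) Tt p) {Y B M : ℕ}
    (hB : ∀ σ : State, (σ 0).length ≤ Y → (σ 3).length ≤ Y → (σ 1).length ≤ Y → Tt σ ≤ B)
    {N : ℕ} {s a : List Bool} (h : PathN (SM O M) N s a) :
    ∀ σ : State, Quiet 3 σ → σ 0 = s → M = 2 ^ (σ 1).length → (σ 0).length ≤ Y → M ≤ Y →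
      (σ 1).length ≤ Y → (σ 2).length ≤ Y → val (σ 2) + N < 2 ^ (σ 2).length →
      ∃ t σ', t ≤ N * (12 * Y + B + 7) ∧ Iter (Run O (.seq inc (repl 0 3 p))) t σ σ' ∧
        σ' 0 = a ∧ Quiet 3 σ' ∧ (σ' 0).length ≤ Y := by
  induction h with
  | nil a => intro σ hq h0 _ h1 _ _ _ _; exact ⟨0, σ, by simp, Iter.nil σ, h0, hq, h1⟩
  | @cons n a b c h1 _ ih =>
    intro σ hq h0 hM hY0 hYM hY1 hY2 hv
    obtain ⟨t1, υ, ht1, h2⟩ := inc_complete (O := O) (hq 4 (by norm_num)) (by omega)
    obtain ⟨a1, a2, a3, a4⟩ := inc_sound (hq 4 (by norm_num)) h2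
    have hq' : Quiet 3 υ := by
      intro r hr
      by_cases h4 : r = 4
      · rw [h4]; exact a3
      · rw [a4 r (by omega) h4]; exact hq r hr
    have e0 : υ 0 = σ 0 := a4 0 (by norm_num) (by norm_num)
    have e1 : υ 1 = σ 1 := a4 1 (by norm_num) (by norm_num)
    have hb : b.length < M := h1.2
    obtain ⟨t2, ht2, h3⟩ := repl_complete (cur := 0) (gs := 3) (by norm_num) hp (z := b) hq' (by
      rw [update_self, update_of_ne (by norm_num), update_of_ne (by norm_num), e0, e1, h0, ← hM]
      exact h1)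
    have hTt : Tt (update υ 3 b) ≤ B := hB _ (by rw [update_of_ne (by norm_num), e0]; exact hY0)
      (by rw [update_self]; omega) (by rw [update_of_ne (by norm_num), e1]; exact hY1)
    rw [e0] at ht2
    obtain ⟨t3, σ', ht3, h4, h5, h6, h7⟩ := ih (update υ 0 b) (by
      intro r hr
      rw [update_of_ne (by omega)]
      exact hq' r hr) (by rw [update_self]) (by rw [update_of_ne (by norm_num), e1]; exact hM)
      (by rw [update_self]; omega) hYM (by rw [update_of_ne (by norm_num), e1]; exact hY1)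
      (by rw [update_of_ne (by norm_num), a2]; exact hY2)
      (by rw [update_of_ne (by norm_num), a1, a2]; omega)
    refine ⟨(t1 + t2) + t3, σ', ?_, Iter.cons ⟨t1, t2, υ, rfl, h2, h3⟩ h4, h5, h6, h7⟩
    rw [Nat.succ_mul]
    omega

/-- The long iteration. -/
def LoopRel (O : List Bool → Bool) (s u c : List Bool) : Prop :=
  ∃ N a, val c + N < 2 ^ c.length ∧ PathN (SM O (2 ^ u.length)) N s a ∧ Fin0 a

theorem rec_loop : ∃ d : ℕ, Rec O (fun e : Fin 3 → List Bool =>
    2 ^ (e 2).length * ((e 0).length + (e 1).length + (e 2).length + 2 ^ (e 1).length + 1) ^ d)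
    fun e => LoopRel O (e 0) (e 1) (e 2) := by
  obtain ⟨c, hc⟩ := pt_test (O := O)
  obtain ⟨K, p, hp⟩ := hc.test (b := 4) (rs := tr) tr_lt
  have hp' : IsTest O 4 (fun σ => SM O (2 ^ (σ 1).length) (σ 0) (σ 3))
      (fun σ => K * (size (fun j => σ (tr j)) ^ c + size (fun j => σ (tr j)) + 1)) p := hp
  obtain ⟨c', hc'⟩ := pt_fin0 (O := O)
  obtain ⟨K', p', hp''⟩ := hc'.test (b := 3) (rs := fun _ => 0) (fun _ => by norm_num)
  have hsz : ∀ σ : State, size (fun j => σ (tr j)) = (σ 0).length + (σ 1).length + (σ 3).length := by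
    intro σ
    simp [size, Fin.sum_univ_three, tr]
  refine ⟨c + c' + 2, .seq (.star (.seq inc (repl 0 3 p))) p',
    7 + 12 + K * (3 ^ c + 4) + (K' + K'), fun e => ⟨?_, ?_⟩⟩
  · rintro t σ' ⟨t1, t2, τ, -, h1, h2⟩
    have hq : Quiet 3 (init e) := quiet_init e
    obtain ⟨N, b1, b2, b3, b4, b5⟩ := loop_sound hp' h1 hq
    have h3 := ((hp'' τ b5).1 _ _ h2).2
    rw [init0] at b1
    rw [init1] at b1
    rw [init2] at b2 b3
    refine ⟨N, τ 0, ?_, b1, h3⟩
    rw [← b2, ← b3]
    exact val_lt _
  · rintro ⟨N, a, h1, h2, h3⟩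
    have hpos := Nat.two_pow_pos (e 1).length
    set Y := (e 0).length + (e 1).length + (e 2).length + 2 ^ (e 1).length + 1 with hY
    set B := K * ((3 * Y) ^ c + 3 * Y + 1) with hB
    have hB' : ∀ σ : State, (σ 0).length ≤ Y → (σ 3).length ≤ Y → (σ 1).length ≤ Y →
        K * (size (fun j => σ (tr j)) ^ c + size (fun j => σ (tr j)) + 1) ≤ B := by
      intro σ g0 g3 g1
      rw [hsz]
      refine Nat.mul_le_mul_left K ?_
      have g4 : (σ 0).length + (σ 1).length + (σ 3).length ≤ 3 * Y := by omega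
      have g5 := Nat.pow_le_pow_left g4 c
      omega
    obtain ⟨t1, τ, ht1, g1, g2, g3, g4⟩ := loop_complete hp' hB' h2 (init e) (quiet_init e) (init0 e)
      (by rw [init1]) (by rw [init0]; omega) (by omega) (by rw [init1]; omega)
      (by rw [init2]; omega) (by rw [init2]; exact h1)
    obtain ⟨t2, ht2, g5⟩ := (hp'' τ g3).2 (show Fin0 (τ 0) by rw [g2]; exact h3)
    refine ⟨t1 + t2, τ, ?_, _, _, _, rfl, g1, g5⟩
    have hsz1 : size (fun _ : Fin 1 => τ 0) = (τ 0).length := by simp [size]
    have ht2' : t2 ≤ K' * ((τ 0).length ^ c' + (τ 0).length + 1) := by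
      simp only at ht2
      rw [hsz1] at ht2
      exact ht2
    have hY1 : 1 ≤ Y := by omega
    have hN : N ≤ 2 ^ (e 2).length := by omega
    -- everything is at most a constant times `2 ^ |e 2| * Y ^ (c + c' + 2)`
    set Z := Y ^ (c + c' + 2) with hZ
    have z1 : Y ≤ Z := Nat.le_self_pow (by omega) Y
    have z2 : Y ^ c ≤ Z := Nat.pow_le_pow_right hY1 (by omega)
    have z3 : Y ^ c' ≤ Z := Nat.pow_le_pow_right hY1 (by omega)
    have hZ1 : 1 ≤ Z := by omega
    have k1 : B ≤ K * (3 ^ c + 4) * Z := by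
      rw [hB, mul_assoc]
      refine Nat.mul_le_mul_left K ?_
      rw [mul_pow]
      have := Nat.mul_le_mul_left (3 ^ c) z2
      nlinarith
    have k2 : 12 * Y + B + 7 ≤ (7 + 12 + K * (3 ^ c + 4)) * Z := by
      nlinarith
    have k3 : t1 ≤ 2 ^ (e 2).length * ((7 + 12 + K * (3 ^ c + 4)) * Z) :=
      le_trans ht1 (Nat.mul_le_mul hN k2)
    have k4 : t2 ≤ K' * (2 * Z) := by
      refine le_trans ht2' (Nat.mul_le_mul_left K' ?_)
      have g6 : (τ 0).length ≤ Y := g4
      have g7 := Nat.pow_le_pow_left g6 c'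
      rcases Nat.eq_zero_or_pos c' with hc0 | hc0
      · subst hc0
        simp only [pow_zero] at *
        have : Y + 2 ≤ 2 * Z := by
          have h5 : Y * Y ≤ Z := by
            rw [hZ]
            calc Y * Y = Y ^ 2 := by ring
              _ ≤ Y ^ (c + 0 + 2) := Nat.pow_le_pow_right hY1 (by omega)
          have h6 : 2 ≤ Y := by
            have := Nat.two_pow_pos (e 1).length
            omega
          nlinarith
        omega
      · have : Y ^ c' + Y + 1 ≤ 2 * Z := by
          have h5 : Y * Y ^ c' ≤ Z := by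
            rw [hZ, ← pow_succ']
            exact Nat.pow_le_pow_right hY1 (by omega)
          have h6 : 2 ≤ Y := by
            have := Nat.two_pow_pos (e 1).length
            omega
          have h7 : Y ≤ Y ^ c' := Nat.le_self_pow (by omega) Y
          nlinarith
        omega
    have k5 : K' * (2 * Z) ≤ 2 ^ (e 2).length * ((K' + K') * Z) := by
      have := Nat.two_pow_pos (e 2).length
      calc K' * (2 * Z) = 1 * ((K' + K') * Z) := by ring
        _ ≤ 2 ^ (e 2).length * ((K' + K') * Z) := Nat.mul_le_mul_right _ this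
    show t1 + t2 ≤ (7 + 12 + K * (3 ^ c + 4) + (K' + K')) * (2 ^ (e 2).length * Z + size e + 1)
    calc t1 + t2 ≤ 2 ^ (e 2).length * ((7 + 12 + K * (3 ^ c + 4)) * Z) +
          2 ^ (e 2).length * ((K' + K') * Z) := by omega
      _ = (7 + 12 + K * (3 ^ c + 4) + (K' + K')) * (2 ^ (e 2).length * Z) := by ring
      _ ≤ _ := Nat.mul_le_mul_left _ (by omega)

/-- The universal language. -/
def UnivLang (O : List Bool → Bool) : Lang :=
  {w | ∃ s u, w = pair s u ∧ ∃ N a, N < 2 ^ u.length ∧ PathN (SM O (2 ^ u.length)) N s a ∧ Fin0 a}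

end Pool.Agent.LibCL48
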