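import Pool.Agent.LibCL48.Fit
import Pool.Agent.LibCL48.Defs
import Pool.Agent.LibTA48.Main

/-!
The languages of coded facts, and the test languages, in nondeterministic time.
-/

namespace Pool.Agent.LibCL48

open Function Filter Pool.Agent.LibNexp
open Pool.Agent.LibTA48 (NTLang TB cd cd_injective length_cd length_lt_cd ntLang_of_tb ntLang_mono
  exists_progNT pairNil size_one tendsto_rpow eventually_mul_le)
open Pool.Agent.LibSpec4 (ask ask_injective CodeLang dg length_dg short mem_short)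

variable {O : List Bool → Bool}

theorem ntime_congr {k : ℕ} {T : ℕ → ℕ} {R R' : (Fin k → List Bool) → Prop} (h : NTime O T R)
    (h' : ∀ e, R e ↔ R' e) : NTime O T R' := by
  have : R = R' := funext fun e => propext (h' e)
  rwa [← this]

/-- Guess a witness and ask the oracle about a string with a fixed prefix. -/
theorem ntime_ask (pre : List Bool) {W : ℕ → ℕ}
    (hW : ∀ z w, O (pre ++ pair z w) = true → w.length ≤ W z.length) :
    NTime O (fun n => W n + (2 + ((2 * n + 1) + ((3 * n + 1) + (pre.length + 1)))))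
      fun e : Fin 1 → List Bool => ∃ w, O (pre ++ pair (e 0) w) = true := by
  have hask : ∀ z w, pre ++ pair z w = pre ++ ((z.flatMap fun b => [b, b]) ++ ([true, false] ++ w)) := by
    intro z w
    simp [pair]
  refine ⟨.seq (guess 1) (.seq (LibSpec4.pushW 1 [true, false]) (.seq (mv 0 2)
      (.seq (LibSpec4.dbl 2 1) (.seq (LibSpec4.pushW 1 pre) (.query 1 true))))),
      fun e => ⟨?_, ?_⟩⟩
  · rintro t σ' ⟨t3, t4, τ2, -, h3, t1, t2, τ1, -, h2, t5, t6, τ3, -, h4, t7, t8, τ4, -, h5,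
      t9, t10, τ5, -, h6, -, h7, rfl⟩
    rw [run_guess] at h3
    obtain ⟨w, -, rfl⟩ := h3
    rw [LibSpec4.pushW_sound h2] at h4
    rw [run_mv (by norm_num)] at h4
    obtain ⟨-, rfl⟩ := h4
    rw [LibSpec4.run_dbl (by norm_num)] at h5
    obtain ⟨-, rfl⟩ := h5
    rw [LibSpec4.pushW_sound h6] at h7
    refine ⟨w, ?_⟩
    rw [hask]
    have a2 : init e 2 = [] := init_ge e (r := 2) (by norm_num)
    have a1 : init e 1 = [] := init_ge e (r := 1) le_rfl
    have a0 : init e 0 = e 0 := init0 e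
    simpa [a2, a1, a0] using h7
  · rintro ⟨w, hw⟩
    have hwl : w.length ≤ W (size e) := by
      rw [size_one]
      exact hW _ _ hw
    have h3 : Run O (guess 1) w.length (init e) (update (init e) 1 (w ++ init e 1)) :=
      run_guess.2 ⟨w, rfl, rfl⟩
    set τ1 := update (init e) 1 (w ++ init e 1) with hτ1
    have a0 : τ1 0 = e 0 := by rw [hτ1, update_of_ne (by norm_num), init0]
    have a1 : τ1 1 = w := by
      rw [hτ1, update_self, init_ge e (r := 1) le_rfl, List.append_nil]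
    have a2 : τ1 2 = [] := by
      rw [hτ1, update_of_ne (by norm_num), init_ge e (r := 2) (by norm_num)]
    have h4 := LibSpec4.pushW_complete (O := O) (r := 1) [true, false] τ1
    set τ2 := update τ1 1 ([true, false] ++ τ1 1) with hτ2
    have b0 : τ2 0 = e 0 := by rw [hτ2, update_of_ne (by norm_num), a0]
    have b1 : τ2 1 = [true, false] ++ w := by rw [hτ2, update_self, a1]
    have b2 : τ2 2 = [] := by rw [hτ2, update_of_ne (by norm_num), a2]
    have h5 : Run O (mv 0 2) (2 * (e 0).length + 1) τ2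
        (update (update τ2 0 []) 2 (e 0).reverse) :=
      (run_mv (by norm_num)).2 ⟨by rw [b0], by rw [b0, b2, List.append_nil]⟩
    set τ3 := update (update τ2 0 []) 2 (e 0).reverse with hτ3
    have c1 : τ3 1 = [true, false] ++ w := by
      rw [hτ3, update_of_ne (by norm_num), update_of_ne (by norm_num), b1]
    have c2 : τ3 2 = (e 0).reverse := by rw [hτ3, update_self]
    have h6 : Run O (LibSpec4.dbl 2 1) (3 * (e 0).length + 1) τ3
        (update (update τ3 2 []) 1 (((e 0).flatMap fun b => [b, b]) ++ ([true, false] ++ w))) :=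
      (LibSpec4.run_dbl (by norm_num)).2 ⟨by rw [c2, List.length_reverse], by
        rw [c2, c1, List.reverse_reverse]⟩
    set τ4 := update (update τ3 2 []) 1 (((e 0).flatMap fun b => [b, b]) ++ ([true, false] ++ w))
      with hτ4
    have d1 : τ4 1 = ((e 0).flatMap fun b => [b, b]) ++ ([true, false] ++ w) := by
      rw [hτ4, update_self]
    have h7 := LibSpec4.pushW_complete (O := O) (r := 1) pre τ4
    refine ⟨w.length + (2 + ((2 * (e 0).length + 1) + ((3 * (e 0).length + 1) +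
      (pre.length + 1)))), _, ?_, _, _, _, rfl, h3, _, _, _, rfl, h4, _, _, _, rfl, h5,
      _, _, _, rfl, h6, _, _, _, rfl, h7, rfl, ?_, rfl⟩
    · have e0 := len_le_size e 0
      refine Nat.add_le_add hwl ?_
      omega
    · rw [update_self, d1, ← hask]
      exact hw

theorem TB.of_eventually {l : ℝ} {T : ℕ → ℕ} {C : ℕ}
    (h : ∀ᶠ n : ℕ in atTop, T n ≤ 2 ^ (C * ⌈(n : ℝ) ^ l⌉₊ + C)) : TB l T := by
  obtain ⟨m, hm⟩ := eventually_atTop.1 h
  refine ⟨C + (Finset.range m).sup T, fun n => ?_⟩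
  rcases Nat.lt_or_ge n m with h1 | h1
  · have h2 : T n ≤ (Finset.range m).sup T := Finset.le_sup (Finset.mem_range.2 h1)
    refine le_trans h2 (le_trans Nat.lt_two_pow_self.le (Nat.pow_le_pow_right (by norm_num) ?_))
    omega
  · refine le_trans (hm n h1) (Nat.pow_le_pow_right (by norm_num) ?_)
    nlinarith [Nat.zero_le (⌈(n : ℝ) ^ l⌉₊), Nat.zero_le ((Finset.range m).sup T * ⌈(n : ℝ) ^ l⌉₊)]

theorem TB.lin' {l : ℝ} (hl : 0 < l) (c d : ℕ) : TB l fun n => c * n + d := by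
  refine TB.of_eventually (C := c + d + 1) ?_
  filter_upwards [size_le_rpow hl 1 (by norm_num)] with n h1
  have h2 : Nat.size n + 1 ≤ ⌈(n : ℝ) ^ l⌉₊ := by
    have h3 : ((Nat.size n + 1 : ℕ) : ℝ) ≤ (⌈(n : ℝ) ^ l⌉₊ : ℝ) := by
      refine le_trans ?_ (Nat.le_ceil _)
      push_cast
      linarith
    exact_mod_cast h3
  have h3 : n < 2 ^ ⌈(n : ℝ) ^ l⌉₊ :=
    lt_of_lt_of_le (Nat.lt_size_self n) (Nat.pow_le_pow_right (by norm_num) (by omega))
  have h4 : c * n + d ≤ (c + d) * 2 ^ ⌈(n : ℝ) ^ l⌉₊ := by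
    have h5 := Nat.mul_le_mul_left c h3.le
    have h6 : d * 1 ≤ d * 2 ^ ⌈(n : ℝ) ^ l⌉₊ := Nat.mul_le_mul_left d Nat.one_le_two_pow
    rw [Nat.add_mul]
    omega
  have h5 : (c + d) * 2 ^ ⌈(n : ℝ) ^ l⌉₊ ≤ 2 ^ (c + d) * 2 ^ ⌈(n : ℝ) ^ l⌉₊ :=
    Nat.mul_le_mul_right _ Nat.lt_two_pow_self.le
  rw [← pow_add] at h5
  refine le_trans h4 (le_trans h5 (Nat.pow_le_pow_right (by norm_num) ?_))
  nlinarith [Nat.zero_le ((c + d) * ⌈(n : ℝ) ^ l⌉₊)]

theorem TB.mul {l : ℝ} {T T' : ℕ → ℕ} (h : TB l T) (h' : TB l T') : TB l fun n => T n * T' n := by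
  obtain ⟨C, hC⟩ := h
  obtain ⟨C', hC'⟩ := h'
  refine ⟨C + C', fun n => ?_⟩
  refine le_trans (Nat.mul_le_mul (hC n) (hC' n)) ?_
  rw [← pow_add]
  refine Nat.pow_le_pow_right (by norm_num) (le_of_eq ?_)
  ring

theorem ceil_mono {l l' : ℝ} (h : l ≤ l') (n : ℕ) : ⌈(n : ℝ) ^ l⌉₊ ≤ ⌈(n : ℝ) ^ l'⌉₊ + 1 := by
  rcases Nat.eq_zero_or_pos n with rfl | hn
  · refine Nat.ceil_le.2 ?_
    have h2 : ((0 : ℕ) : ℝ) ^ l ≤ 1 := by
      rcases eq_or_ne l 0 with rfl | h0
      · simp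
      · rw [Nat.cast_zero, Real.zero_rpow h0]
        norm_num
    push_cast at h2 ⊢
    have : (0 : ℝ) ≤ (⌈(0 : ℝ) ^ l'⌉₊ : ℝ) := by positivity
    linarith
  · have h2 : (1 : ℝ) ≤ n := by exact_mod_cast hn
    exact le_trans (Nat.ceil_le_ceil (Real.rpow_le_rpow_of_exponent_le h2 h)) (Nat.le_succ _)

theorem TB.up {l l' : ℝ} (h : l ≤ l') {T : ℕ → ℕ} (hT : TB l T) : TB l' T := by
  obtain ⟨C, hC⟩ := hT
  refine ⟨2 * C, fun n => le_trans (hC n) (Nat.pow_le_pow_right (by norm_num) ?_)⟩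
  nlinarith [Nat.mul_le_mul_left C (ceil_mono h n)]

/-- The language of coded facts is in nondeterministic time `2 ^ O(n ^ b)`. -/
theorem code_ntLang {pr : ℕ → Prog} {P : ℕ → Par} {H : ℕ → ℕ}
    (hcodes : ∀ s, O (false :: s) = true → IsCode ((pre pr P).toData H) (false :: s)) {N : ℕ}
    (ha : 0 < (P N).a) (hab : (P N).a ≤ (P N).b) : CodeLang O N ∈ NTLang O (P N).b := by
  have hb : 0 < (P N).b := lt_of_lt_of_le ha hab
  set W : ℕ → ℕ := fun n => ((pre pr P).toData H).wl N n with hW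
  have hWmono : ∀ m n, m ≤ n → W m ≤ W n := by
    intro m n h
    have hr : (m : ℝ) ≤ n := by exact_mod_cast h
    have hr' : ((m + 1 : ℕ) : ℝ) ≤ ((n + 1 : ℕ) : ℝ) := by exact_mod_cast Nat.succ_le_succ h
    have h1 : ⌈(m : ℝ) ^ (P N).a⌉₊ ≤ ⌈(n : ℝ) ^ (P N).a⌉₊ :=
      Nat.ceil_le_ceil (Real.rpow_le_rpow (by positivity) hr ha.le)
    have h2 : ⌈((m + 1 : ℕ) : ℝ) ^ (P N).b⌉₊ ≤ ⌈((n + 1 : ℕ) : ℝ) ^ (P N).b⌉₊ :=
      Nat.ceil_le_ceil (Real.rpow_le_rpow (by positivity) hr' hb.le)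
    show (m + 2 ^ ((P N).C * ⌈(m : ℝ) ^ (P N).a⌉₊ + (P N).C)) ^ 2 + 1 +
        2 ^ ⌈((m + 1 : ℕ) : ℝ) ^ (P N).b⌉₊ + H N ≤
      (n + 2 ^ ((P N).C * ⌈(n : ℝ) ^ (P N).a⌉₊ + (P N).C)) ^ 2 + 1 +
        2 ^ ⌈((n + 1 : ℕ) : ℝ) ^ (P N).b⌉₊ + H N
    refine Nat.add_le_add_right (Nat.add_le_add (Nat.add_le_add_right (Nat.pow_le_pow_left ?_ 2) 1)
      (Nat.pow_le_pow_right (by norm_num) h2)) _
    exact Nat.add_le_add h (Nat.pow_le_pow_right (by norm_num)
      (Nat.add_le_add_right (Nat.mul_le_mul_left _ h1) _))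
  have h1 := ntime_ask (O := O) (false :: (List.replicate N true ++ [false])) (W := W) (by
    intro z w hw
    have h3 : (false :: (List.replicate N true ++ [false])) ++ pair z w = ask N z w := by
      simp [ask]
    rw [h3] at hw
    obtain ⟨N', x', r', w', h4, h5, -⟩ := hcodes _ hw
    have h6 : ask N z w = ask N' (pair x' r') w' := h4
    obtain ⟨rfl, hz, rfl⟩ := ask_injective h6
    rw [h5]
    refine hWmono _ _ ?_
    rw [hz, length_pair]
    omega)
  have h2 : NTime O (fun n => W n + (2 + ((2 * n + 1) + ((3 * n + 1) +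
      ((false :: (List.replicate N true ++ [false])).length + 1)))))
      fun e : Fin 1 → List Bool => e 0 ∈ CodeLang O N := by
    refine ntime_congr h1 fun e => ?_
    show (∃ w, O _ = true) ↔ ∃ w, O (ask N (e 0) w) = true
    have h3 : ∀ w, (false :: (List.replicate N true ++ [false])) ++ pair (e 0) w = ask N (e 0) w := by
      intro w
      simp [ask]
    simp only [h3]
  refine ntLang_of_tb ?_ h2
  have hA : TB (P N).b fun m => m + 2 ^ ((P N).C * ⌈(m : ℝ) ^ (P N).a⌉₊ + (P N).C) :=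
    ((TB.lin' hb 1 0).mono fun n => by omega).add (TB.up hab ⟨(P N).C, fun _ => le_rfl⟩)
  have hB : TB (P N).b fun m => 2 ^ ⌈((m + 1 : ℕ) : ℝ) ^ (P N).b⌉₊ :=
    (LibTA48.TB.rpow hb.le le_rfl 1 1 1).mono fun n => by
      refine Nat.pow_le_pow_right (by norm_num) ?_
      simp
  have hWT : TB (P N).b W := by
    have := (((TB.mul hA hA).add (TB.const 1)).add hB).add (TB.const (H N))
    refine this.mono fun m => le_of_eq ?_
    show (m + 2 ^ ((P N).C * ⌈(m : ℝ) ^ (P N).a⌉₊ + (P N).C)) ^ 2 + 1 +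
        2 ^ ⌈((m + 1 : ℕ) : ℝ) ^ (P N).b⌉₊ + H N = _
    rw [sq]
  exact hWT.add ((TB.const 2).add ((TB.lin' hb 2 1).add ((TB.lin' hb 3 1).add (TB.const _))))

/-- The key of a fact. -/
def key (D : Data) (ρ : ℕ → ℕ → ℕ) (N m : ℕ) : List Bool := dg (D.kl N m) (ρ N m)

/-- Complements in the language of coded facts. -/
theorem compl_codeLang {D : Data} {e ρ : ℕ → ℕ → ℕ} (hO : Good D e ρ O) {L : Lang} {N : ℕ}
    (hLN : ∀ x, x ∈ L ↔ AccN D O N x) (x : List Bool) :
    x ∈ Lᶜ ↔ pair x (key D ρ N x.length) ∈ CodeLang O N := by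
  rw [Set.mem_compl_iff, hLN]
  constructor
  · intro h
    obtain ⟨w, -, hw⟩ := hO.complete N x h
    exact ⟨w, hw⟩
  · rintro ⟨w, h2⟩
    obtain ⟨N', x', r', w', h4, h5, -⟩ := hO.codes _ h2
    obtain ⟨rfl, rfl, h6, rfl⟩ := cd_injective (show cd N x _ w = cd N' x' r' w' from h4)
    exact hO.sound N x w h5 h2

/-- The test languages are in nondeterministic time `2 ^ O(n ^ α)`. -/
theorem tst_ntLang {e : ℕ → ℕ → ℕ} (htests : ∀ s, O (true :: s) = true → IsTs e (true :: s)) {i : ℕ}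
    {α : ℝ} (hα : 0 < α) (he : ∀ n : ℕ, e i n = ⌈(n : ℝ) ^ α⌉₊) : Tst i O ∈ NTLang O α := by
  have h1 := ntime_ask (O := O) (true :: (List.replicate i true ++ [false]))
    (W := fun n => 2 ^ ⌈(n : ℝ) ^ α⌉₊) (by
    intro z w hw
    have h3 : (true :: (List.replicate i true ++ [false])) ++ pair z w = ts i z w := by
      simp [ts]
    rw [h3] at hw
    obtain ⟨i', x', w', h4, h5⟩ := htests _ hw
    obtain ⟨rfl, rfl, rfl⟩ := ts_injective (show ts i z w = ts i' x' w' from h4)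
    rw [h5, he])
  have h2 : NTime O (fun n => 2 ^ ⌈(n : ℝ) ^ α⌉₊ + (2 + ((2 * n + 1) + ((3 * n + 1) +
      ((true :: (List.replicate i true ++ [false])).length + 1)))))
      fun e : Fin 1 → List Bool => e 0 ∈ Tst i O := by
    refine ntime_congr h1 fun e => ?_
    show (∃ w, O _ = true) ↔ ∃ w, O (ts i (e 0) w) = true
    have h3 : ∀ w, (true :: (List.replicate i true ++ [false])) ++ pair (e 0) w = ts i (e 0) w := by
      intro w
      simp [ts]
    simp only [h3]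
  refine ntLang_of_tb ?_ h2
  have hA : TB α fun n => 2 ^ ⌈(n : ℝ) ^ α⌉₊ := ⟨1, fun n => Nat.pow_le_pow_right (by norm_num) (by omega)⟩
  exact hA.add ((TB.const 2).add ((TB.lin' hα 2 1).add ((TB.lin' hα 3 1).add (TB.const _))))

/-- A program for a language with an exact clock. -/
theorem exists_progA {a : ℝ} {L : Lang} (hL : L ∈ NTLang O a) :
    ∃ (p : Prog) (C : ℕ), ∀ z, z ∈ L ↔ Acc O p (2 ^ (C * ⌈(z.length : ℝ) ^ a⌉₊ + C)) z := by
  obtain ⟨c, p, hp⟩ := hL
  refine ⟨p, c, fun z => ⟨fun hz => ?_, fun hz => ?_⟩⟩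
  · obtain ⟨t, σ', ht, h⟩ := (hp fun _ => z).2 hz
    rw [size_one] at ht
    exact ⟨t, σ', ht, h⟩
  · obtain ⟨t, σ', -, h⟩ := hz
    exact (hp fun _ => z).1 _ _ h

end Pool.Agent.LibCL48
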