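import Pool.Agent.LibCL48.Val
import Pool.Agent.LibCL48.Pos

/-!
Membership in languages of nondeterministic time with a real exponent, as relations.
-/

namespace Pool.Agent.LibCL48

open Function Filter Pool.Agent.LibNexp
open Pool.Agent.LibTA48 (NTLang TB ntLang_of_tb ntLang_mono size_one)

variable {O : List Bool → Bool}

/-! ### Existential quantifiers -/

theorem Rec.monoR {k : ℕ} {T T' : (Fin k → List Bool) → ℕ} {R : (Fin k → List Bool) → Prop}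
    (h : Rec O T R) (M : ℕ) (hT : ∀ e, R e → T e ≤ M * (T' e + size e + 1)) : Rec O T' R := by
  obtain ⟨p, K, hp⟩ := h
  refine ⟨p, K * (M + 1), fun e => ⟨(hp e).1, fun he => ?_⟩⟩
  obtain ⟨t, σ', ht, h1⟩ := (hp e).2 he
  refine ⟨t, σ', le_trans ht ?_, h1⟩
  have h2 : T e + size e + 1 ≤ (M + 1) * (T' e + size e + 1) := by
    have := hT e he
    nlinarith [Nat.zero_le (T' e)]
  rw [mul_assoc]
  exact Nat.mul_le_mul_left K h2

theorem Rec.ex {k : ℕ} {R : (Fin k → List Bool) → List Bool → Prop}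
    {T : (Fin (k + 1) → List Bool) → ℕ}
    (h : Rec O T fun e : Fin (k + 1) → List Bool => R (fun j => e j.castSucc) (e (Fin.last k)))
    {T' : (Fin k → List Bool) → ℕ} (M : ℕ)
    (hb : ∀ e z, R e z → z.length ≤ M * (T' e + size e + 1) ∧
      T (app e z) ≤ M * (T' e + size e + 1)) : Rec O T' fun e => ∃ z, R e z := by
  have hR : ∀ (e : Fin k → List Bool) (z : List Bool),
      R (fun j => app e z j.castSucc) (app e z (Fin.last k)) ↔ R e z := by
    intro e z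
    have h1 : (fun j : Fin k => app e z j.castSucc) = e := by
      funext j
      exact Fin.snoc_castSucc (α := fun _ => List Bool) z e j
    have h2 : app e z (Fin.last k) = z := Fin.snoc_last (α := fun _ => List Bool) z e
    rw [h1, h2]
  refine (h.exists M fun e z hz => hb e z ((hR e z).1 hz)).congr fun e => ?_
  exact exists_congr fun z => hR e z

theorem PT.ex {k : ℕ} {R : (Fin k → List Bool) → List Bool → Prop}
    (h : PT O fun e : Fin (k + 1) → List Bool => R (fun j => e j.castSucc) (e (Fin.last k)))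
    {g : ℕ → ℕ} (hg : PolyB g) (hb : ∀ e z, R e z → z.length ≤ g (size e)) :
    PT O fun e => ∃ z, R e z := by
  have hR : ∀ (e : Fin k → List Bool) (z : List Bool),
      R (fun j => app e z j.castSucc) (app e z (Fin.last k)) ↔ R e z := by
    intro e z
    have h1 : (fun j : Fin k => app e z j.castSucc) = e := by
      funext j
      exact Fin.snoc_castSucc (α := fun _ => List Bool) z e j
    have h2 : app e z (Fin.last k) = z := Fin.snoc_last (α := fun _ => List Bool) z e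
    rw [h1, h2]
  refine (h.exists hg fun e z hz => hb e z ((hR e z).1 hz)).congr fun e => ?_
  exact exists_congr fun z => hR e z

/-! ### Bounds -/

/-- `T` is bounded by `2 ^ O(E + 1)` on `S`. -/
def BD {ι : Type} (S : ι → Prop) (E T : ι → ℕ) : Prop := ∃ C : ℕ, ∀ i, S i → T i ≤ 2 ^ (C * E i + C)

theorem BD.add {ι : Type} {S : ι → Prop} {E T T' : ι → ℕ} (h : BD S E T) (h' : BD S E T') :
    BD S E fun i => T i + T' i := by
  obtain ⟨C, hC⟩ := h
  obtain ⟨C', hC'⟩ := h'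
  refine ⟨C + C' + 1, fun i hi => ?_⟩
  have h1 := hC i hi
  have h2 := hC' i hi
  have h3 := two_pow_add_le (C * E i + C) (C' * E i + C')
  have h5 : 2 ^ (C * E i + C + (C' * E i + C') + 1) ≤ 2 ^ ((C + C' + 1) * E i + (C + C' + 1)) :=
    Nat.pow_le_pow_right (by norm_num) (by nlinarith [Nat.zero_le (E i)])
  exact le_trans (Nat.add_le_add h1 h2) (le_trans h3 h5)

theorem BD.mul {ι : Type} {S : ι → Prop} {E T T' : ι → ℕ} (h : BD S E T) (h' : BD S E T') :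
    BD S E fun i => T i * T' i := by
  obtain ⟨C, hC⟩ := h
  obtain ⟨C', hC'⟩ := h'
  refine ⟨C + C', fun i hi => ?_⟩
  refine le_trans (Nat.mul_le_mul (hC i hi) (hC' i hi)) ?_
  rw [← pow_add]
  refine Nat.pow_le_pow_right (by norm_num) (le_of_eq ?_)
  ring

theorem BD.const {ι : Type} {S : ι → Prop} {E : ι → ℕ} (a : ℕ) : BD S E fun _ => a :=
  ⟨a, fun _ _ => le_trans Nat.lt_two_pow_self.le (Nat.pow_le_pow_right (by norm_num)
    (Nat.le_add_left _ _))⟩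

theorem BD.mono {ι : Type} {S S' : ι → Prop} {E T T' : ι → ℕ} (h : BD S E T)
    (hS : ∀ i, S' i → S i) (hT : ∀ i, S' i → T' i ≤ T i) : BD S' E T' := by
  obtain ⟨C, hC⟩ := h
  exact ⟨C, fun i hi => le_trans (hT i hi) (hC i (hS i hi))⟩

theorem BD.pow {ι : Type} {S : ι → Prop} {E T : ι → ℕ} (h : BD S E T) (c : ℕ) :
    BD S E fun i => T i ^ c := by
  induction c with
  | zero => simpa using BD.const 1
  | succ c ih => simpa [pow_succ] using ih.mul h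

theorem BD.up {ι : Type} {S : ι → Prop} {E E' T : ι → ℕ} (h : BD S E T)
    (B : ℕ) (hE : ∀ i, S i → E i ≤ B * E' i + B) : BD S E' T := by
  obtain ⟨C, hC⟩ := h
  refine ⟨C * B + C, fun i hi => le_trans (hC i hi) (Nat.pow_le_pow_right (by norm_num) ?_)⟩
  have := Nat.mul_le_mul_left C (hE i hi)
  nlinarith [Nat.zero_le (C * E' i)]

theorem rpow_bound {r b A : ℝ} {m n : ℕ} (hb : 0 ≤ b) (hA : 0 ≤ A)
    (h : (m : ℝ) ≤ A * ((n : ℝ) ^ r + 1)) :
    (m : ℝ) ^ b ≤ (A * 2) ^ b * ((n : ℝ) ^ (r * b) + 1) := by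
  have hn : (0 : ℝ) ≤ (n : ℝ) := by positivity
  have hnr : (0 : ℝ) ≤ (n : ℝ) ^ r := by positivity
  have h3 : (m : ℝ) ≤ (A * 2) * max ((n : ℝ) ^ r) 1 := by
    refine le_trans h ?_
    have h4 := le_max_left ((n : ℝ) ^ r) 1
    have h5 := le_max_right ((n : ℝ) ^ r) 1
    nlinarith
  have h4 : (m : ℝ) ^ b ≤ ((A * 2) * max ((n : ℝ) ^ r) 1) ^ b :=
    Real.rpow_le_rpow (by positivity) h3 hb
  rw [Real.mul_rpow (by positivity) (by positivity)] at h4
  refine le_trans h4 (mul_le_mul_of_nonneg_left ?_ (by positivity))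
  rw [Real.rpow_mul hn]
  rcases max_choice ((n : ℝ) ^ r) 1 with h5 | h5
  · rw [h5]; linarith
  · rw [h5, Real.one_rpow]
    have : (0 : ℝ) ≤ ((n : ℝ) ^ r) ^ b := by positivity
    linarith

/-- Times of simulations. -/
theorem bd_exp {ι : Type} {S : ι → Prop} {m n : ι → ℕ} {r b : ℝ} (hb : 0 < b) (A : ℕ)
    (h : ∀ i, S i → (m i : ℝ) ≤ A * ((n i : ℝ) ^ r + 1)) (C : ℕ) :
    BD S (fun i => ⌈(n i : ℝ) ^ (r * b)⌉₊) fun i => 2 ^ (C * ⌈(m i : ℝ) ^ b⌉₊ + C) := by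
  have h1 : BD S (fun i => ⌈(m i : ℝ) ^ b⌉₊) fun i => 2 ^ (C * ⌈(m i : ℝ) ^ b⌉₊ + C) :=
    ⟨C, fun i _ => le_rfl⟩
  refine h1.up (⌈((A : ℝ) * 2) ^ b⌉₊ + 1) fun i hi => ?_
  have h2 := rpow_bound hb.le (by positivity : (0 : ℝ) ≤ A) (h i hi)
  refine Nat.ceil_le.2 (le_trans h2 ?_)
  have h3 := Nat.le_ceil (((A : ℝ) * 2) ^ b)
  have h4 := Nat.le_ceil ((n i : ℝ) ^ (r * b))
  have h5 : (0 : ℝ) ≤ (n i : ℝ) ^ (r * b) := by positivity
  have h6 : (0 : ℝ) ≤ ((A : ℝ) * 2) ^ b := by positivity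
  push_cast
  nlinarith

/-- Polynomials. -/
theorem bd_lin {ι : Type} {S : ι → Prop} {m n : ι → ℕ} {r l : ℝ} (hl : 0 < l) (A : ℕ)
    (h : ∀ i, S i → (m i : ℝ) ≤ A * ((n i : ℝ) ^ r + 1)) :
    BD S (fun i => ⌈(n i : ℝ) ^ l⌉₊) fun i => m i := by
  obtain ⟨D, hD⟩ := TB.lin' hl 1 1
  have h1 : BD S (fun i => ⌈(n i : ℝ) ^ l⌉₊) fun i => n i + 1 :=
    ⟨D, fun i _ => by simpa using hD (n i)⟩
  refine ((BD.const (2 * A)).mul (h1.pow ⌈r⌉₊)).mono (fun i hi => hi) fun i hi => ?_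
  have h2 : (n i : ℝ) ^ r ≤ ((n i + 1 : ℕ) : ℝ) ^ ⌈r⌉₊ := by
    rcases lt_or_ge r 0 with hr | hr
    · have h3 : (1 : ℝ) ≤ ((n i + 1 : ℕ) : ℝ) ^ ⌈r⌉₊ := one_le_pow₀ (by push_cast; linarith [(n i).cast_nonneg (α := ℝ)])
      refine le_trans ?_ h3
      rcases Nat.eq_zero_or_pos (n i) with h4 | h4
      · rw [h4, Nat.cast_zero, Real.zero_rpow hr.ne]; norm_num
      · exact Real.rpow_le_one_of_one_le_of_nonpos (by exact_mod_cast h4) hr.le
    · have h3 : (n i : ℝ) ^ r ≤ ((n i + 1 : ℕ) : ℝ) ^ r :=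
        Real.rpow_le_rpow (by positivity) (by push_cast; linarith) hr
      refine le_trans h3 ?_
      rw [← Real.rpow_natCast]
      exact Real.rpow_le_rpow_of_exponent_le (by push_cast; linarith [(n i).cast_nonneg (α := ℝ)])
        (Nat.le_ceil r)
  have h3 : (1 : ℝ) ≤ ((n i + 1 : ℕ) : ℝ) ^ ⌈r⌉₊ :=
    one_le_pow₀ (by push_cast; linarith [(n i).cast_nonneg (α := ℝ)])
  have h4 : (m i : ℝ) ≤ ((2 * A * (n i + 1) ^ ⌈r⌉₊ : ℕ) : ℝ) := by
    refine le_trans (h i hi) ?_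
    have hA : (0 : ℝ) ≤ A := by positivity
    push_cast at h2 h3 ⊢
    nlinarith
  exact_mod_cast h4

/-! ### Membership -/

theorem Rec.of_ntLang {l : ℝ} {L : Lang} (hL : L ∈ NTLang O l) : ∃ C : ℕ,
    Rec O (fun e : Fin 1 → List Bool => 2 ^ (C * ⌈((e 0).length : ℝ) ^ l⌉₊ + C)) fun e => e 0 ∈ L := by
  obtain ⟨C, p, hp⟩ := hL
  refine ⟨C, p, 1, fun e => ⟨(hp e).1, fun he => ?_⟩⟩
  obtain ⟨t, σ', ht, h⟩ := (hp e).2 he
  rw [size_one] at ht
  refine ⟨t, σ', ?_, h⟩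
  show t ≤ 1 * (2 ^ (C * ⌈((e 0).length : ℝ) ^ l⌉₊ + C) + size e + 1)
  have ht' : t ≤ 2 ^ (C * ⌈((e 0).length : ℝ) ^ l⌉₊ + C) := ht
  omega

theorem ntLang_of_rec {l : ℝ} (hl : 0 < l) {L : Lang} {T : (Fin 1 → List Bool) → ℕ}
    (h : Rec O T fun e => e 0 ∈ L) (C : ℕ)
    (hT : ∀ e : Fin 1 → List Bool, e 0 ∈ L → T e ≤ 2 ^ (C * ⌈((e 0).length : ℝ) ^ l⌉₊ + C)) :
    L ∈ NTLang O l := by
  obtain ⟨p, K, hp⟩ := h
  have h1 : NTime O (fun n => K * (2 ^ (C * ⌈(n : ℝ) ^ l⌉₊ + C) + n + 1))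
      fun e : Fin 1 → List Bool => e 0 ∈ L := by
    refine ⟨p, fun e => ⟨(hp e).1, fun he => ?_⟩⟩
    obtain ⟨t, σ', ht, h⟩ := (hp e).2 he
    refine ⟨t, σ', le_trans ht (Nat.mul_le_mul_left K ?_), h⟩
    have := hT e he
    rw [size_one]
    omega
  refine ntLang_of_tb ?_ h1
  refine (TB.mul (TB.const K) (T' := fun n => 2 ^ (C * ⌈(n : ℝ) ^ l⌉₊ + C) + n + 1)
    (LibTA48.TB.add (LibTA48.TB.add ⟨C, fun _ => le_rfl⟩ ((TB.lin' hl 1 0).mono fun n => by omega))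
      (TB.const 1)))

theorem rec_pair_mem {l : ℝ} {B : Lang} (hB : B ∈ NTLang O l) : ∃ C : ℕ,
    Rec O (fun e : Fin 2 → List Bool => size e ^ C +
      2 ^ (C * ⌈((pair (e 0) (e 1)).length : ℝ) ^ l⌉₊ + C)) fun e => pair (e 0) (e 1) ∈ B := by
  obtain ⟨C, hC⟩ := Rec.of_ntLang hB
  obtain ⟨c, hc⟩ := pt_pairRel (O := O)
  have h1 := hc.and (hC.reindex (fun _ => (2 : Fin 3)))
  have h2 : Rec O (fun e : Fin 2 → List Bool => (3 * size e + 2 + size e) ^ c +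
      2 ^ (C * ⌈((pair (e 0) (e 1)).length : ℝ) ^ l⌉₊ + C)) fun e => ∃ z, z = pair (e 0) (e 1) ∧ z ∈ B := by
    refine Rec.ex (R := fun e z => z = pair (e 0) (e 1) ∧ z ∈ B) h1 3 ?_
    rintro e z ⟨rfl, -⟩
    have e0 := len_le_size e 0
    have e1 := len_le_size e 1
    have hlen : (pair (e 0) (e 1)).length ≤ 3 * size e + 2 := by rw [length_pair]; omega
    have hpos := Nat.two_pow_pos (C * ⌈((pair (e 0) (e 1)).length : ℝ) ^ l⌉₊ + C)
    constructor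
    · omega
    · show size (app e (pair (e 0) (e 1))) ^ c +
        2 ^ (C * ⌈((pair (e 0) (e 1)).length : ℝ) ^ l⌉₊ + C) ≤ _
      rw [size_app]
      have h3 : (size e + (pair (e 0) (e 1)).length) ^ c ≤ (3 * size e + 2 + size e) ^ c :=
        Nat.pow_le_pow_left (by omega) c
      omega
  obtain ⟨d, hd⟩ : PolyB fun n => (3 * n + 2 + n) ^ c :=
    ((((PolyB.const 3).mul PolyB.id).add (PolyB.const 2)).add PolyB.id).pow c
  refine ⟨C + d, (h2.monoR (d + 1) (T' := fun e : Fin 2 → List Bool => size e ^ (C + d) +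
      2 ^ ((C + d) * ⌈((pair (e 0) (e 1)).length : ℝ) ^ l⌉₊ + (C + d))) fun e _ => ?_).congr fun e => ?_⟩
  · have h3 := hd (size e)
    have h4 : size e ^ d ≤ size e ^ (C + d) + 1 := pow_le_pow_add_one (by omega)
    have h5 : 2 ^ (C * ⌈((pair (e 0) (e 1)).length : ℝ) ^ l⌉₊ + C) ≤
        2 ^ ((C + d) * ⌈((pair (e 0) (e 1)).length : ℝ) ^ l⌉₊ + (C + d)) :=
      Nat.pow_le_pow_right (by norm_num) (by nlinarith [Nat.zero_le ⌈((pair (e 0) (e 1)).length : ℝ) ^ l⌉₊])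
    simp only at h3 ⊢
    generalize 2 ^ (C * ⌈((pair (e 0) (e 1)).length : ℝ) ^ l⌉₊ + C) = u at *
    generalize 2 ^ ((C + d) * ⌈((pair (e 0) (e 1)).length : ℝ) ^ l⌉₊ + (C + d)) = v at *
    generalize size e ^ (C + d) = w at *
    generalize size e ^ d = s at *
    nlinarith [Nat.zero_le (d * v), Nat.zero_le (d * w), Nat.zero_le (d * size e), Nat.zero_le (size e)]
  · constructor
    · rintro ⟨z, rfl, h⟩; exact h
    · intro h; exact ⟨_, rfl, h⟩

end Pool.Agent.LibCL48
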