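import Pool.Agent.LibCL48.Pos

/-!
Every relation obeying the laws is the relation of an oracle.
-/

namespace Pool.Agent.LibCL48

open Function Filter Pool.Agent.LibNexp
open Pool.Agent.LibTA48 (NTLang TB cd cd_injective length_cd length_lt_cd ntLang_of_tb ntLang_mono
  exists_progNT pairNil size_one tendsto_rpow eventually_mul_le)
open Pool.Agent.LibSpec4 (ask ask_injective CodeLang dg length_dg short mem_short)

/-- The parameters of the facts. -/
def FT (F : ℝ → ℝ → ℝ → Prop) : Type :=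
  Prog × ℕ × Option {q : ℚ × ℚ × ℚ × ℚ × ℚ // FCond F q.1 q.2.1 q.2.2.1 q.2.2.2.1 q.2.2.2.2}

instance (F : ℝ → ℝ → ℝ → Prop) : Countable (FT F) := by
  unfold FT
  infer_instance

instance (F : ℝ → ℝ → ℝ → Prop) : Nonempty (FT F) := ⟨(.empty 0, 0, none)⟩

/-- The parameters. -/
noncomputable def FT.par {F : ℝ → ℝ → ℝ → Prop} (t : FT F) : Par :=
  match t with
  | (_, C, some q) => ⟨C, q.1.1, q.1.2.1, q.1.2.2.1, q.1.2.2.2.1, q.1.2.2.2.2⟩
  | (_, _, none) => ⟨0, 1 / 2, 1, 1, 0, 0⟩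

theorem FT.par_spec {F : ℝ → ℝ → ℝ → Prop} (t : FT F) :
    FCond F t.par.a t.par.a1 t.par.b t.par.c1 t.par.c ∨ Dummy t.par := by
  obtain ⟨p, C, _ | q⟩ := t
  · right
    exact ⟨rfl, rfl, by simp only [FT.par]; norm_num, by simp only [FT.par]; norm_num⟩
  · left
    exact q.2

/-- The requirements. -/
def RT (F : ℝ → ℝ → ℝ → Prop) : Type :=
  Prog × {q : ℚ × ℚ × ℚ × ℚ × ℚ // RCond F q.1 q.2.1 q.2.2.1 q.2.2.2.1 q.2.2.2.2}

instance (F : ℝ → ℝ → ℝ → Prop) : Countable (RT F) := by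
  unfold RT
  infer_instance

/-- Every relation obeying the laws is the relation of an oracle. -/
theorem exists_oracle_of_laws {F : ℝ → ℝ → ℝ → Prop} (hF : Laws F) :
    ∃ O : List Bool → Bool, ∀ a b c, Feas O a b c ↔ F a b c := by
  classical
  obtain ⟨en, hen⟩ := exists_surjective_nat (FT F)
  obtain ⟨j, hj⟩ := exists_surjective_nat ℚ
  choose idx hidx using hj
  set e : ℕ → ℕ → ℕ := fun i n => ⌈(n : ℝ) ^ (j i : ℝ)⌉₊ with he
  set pr : ℕ → Prog := fun N => (en N).1 with hpr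
  set P : ℕ → Par := fun N => (en N).par with hP
  have hPs : ∀ N, FCond F (P N).a (P N).a1 (P N).b (P N).c1 (P N).c ∨ Dummy (P N) :=
    fun N => (en N).par_spec
  have heng : ∃ H ρ O, Good ((pre pr P).toData H) e ρ O ∧ ∀ r : RT F, ∃ᶠ n in atTop,
      ∀ a ∈ short (uu (r.2.1.2.2.2.1 : ℝ) n), Wrong (idx r.2.1.1) O r.1
        (2 ^ ⌈(n : ℝ) ^ (r.2.1.2.1 : ℝ)⌉₊) n a := by
    by_cases hne : Nonempty (RT F)
    · refine engine (ι := RT F) (pre pr P) e (fun r => r.1) (fun r => idx r.2.1.1)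
        (fun r n => 2 ^ ⌈(n : ℝ) ^ (r.2.1.2.1 : ℝ)⌉₊) (fun r n => short (uu (r.2.1.2.2.2.1 : ℝ) n)) ?_
      intro r k H
      exact fits hF r.2.2 (fun n => by
        simp only [he, hidx]
        exact Nat.le_ceil _) hPs k H
    · obtain ⟨ρ, O, hO⟩ := exists_good ((pre pr P).toData fun _ => 0) e
      exact ⟨fun _ => 0, ρ, O, hO, fun r => absurd ⟨r⟩ hne⟩
  obtain ⟨H, ρ, O, hO, hreq⟩ := heng
  refine ⟨O, fun a b c => ⟨?_, ?_⟩⟩
  · -- the negative part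
    rintro ⟨h1, h2, h3, h4, a', b', c', h5, h6, h7, h8, h9⟩
    by_contra hnot
    obtain ⟨α, hα1, hα2⟩ := exists_rat_btwn (show a < min a' b from lt_min h5 h2)
    have hαb : (α : ℝ) < b := lt_of_lt_of_le hα2 (min_le_right _ _)
    have hαa : (α : ℝ) < a' := lt_of_lt_of_le hα2 (min_le_left _ _)
    have hα0 : (0 : ℝ) < α := by linarith
    obtain ⟨l, hl1, hl2⟩ := exists_rat_btwn (show max b' α < b from max_lt h6 hαb)
    obtain ⟨y, hy1, hy2⟩ := exists_rat_btwn hl2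
    have hlα : (α : ℝ) < l := lt_of_le_of_lt (le_max_right _ _) hl1
    obtain ⟨cc, z, hz1, hz2, hz3⟩ : ∃ cc z : ℚ, ((0 : ℝ) < cc ∧ (cc : ℝ) < z ∧ c' < cc ∨
        (cc : ℝ) = 0 ∧ (z : ℝ) = 0 ∧ c' = 0) ∧ (z : ℝ) ≤ c ∧ (z : ℝ) < 1 := by
      rcases h8 with h8 | ⟨h8, h8'⟩
      · obtain ⟨cc, k1, k2⟩ := exists_rat_btwn h8
        obtain ⟨z, k3, k4⟩ := exists_rat_btwn k2
        exact ⟨cc, z, Or.inl ⟨by linarith, k3, k1⟩, k4.le, by linarith⟩
      · exact ⟨0, 0, Or.inr ⟨by simp, by simp, h8⟩, by simp [h8'], by simp⟩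
    have hRC : RCond F α l y cc z := by
      refine ⟨hα0, hlα, hy1, fun hFz => hnot ?_, hz3, ?_⟩
      · exact hF.mono _ _ _ _ _ _ hFz h1 hα1.le hy2.le hz2 h4
      · rcases hz1 with ⟨k1, k2, -⟩ | ⟨k1, k2, -⟩
        · exact Or.inl ⟨k1, k2⟩
        · exact Or.inr ⟨k1, k2⟩
    have hTα : Tst (idx α) O ∈ NTLang O α := tst_ntLang hO.tests hα0 fun n => by
      simp only [he, hidx]
    obtain ⟨Bl, hBl, f, ⟨⟨C, hf⟩, hf0⟩, heq⟩ := h9 _ (ntLang_mono hαa.le hTα)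
    obtain ⟨p, hp⟩ := exists_progNT (le_trans hα0.le (le_max_right b' α)) hl1
      (ntLang_mono (le_max_left b' _) hBl)
    have hlen : ∀ᶠ n in atTop, (f n).length < uu cc n ∧ (f n).length ≤ n := by
      rcases hz1 with ⟨k1, k2, k3⟩ | ⟨k1, k2, k3⟩
      · filter_upwards [eventually_mul_le h7 k3 (C : ℝ) (C + 1 : ℝ) (by positivity),
          eventually_ge_atTop 1] with n k4 k5
        have hn1 : (1 : ℝ) ≤ n := by exact_mod_cast k5
        have k6 := hf n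
        have k7 := Nat.lt_floor_add_one ((n : ℝ) ^ (cc : ℝ))
        have k8 : uu cc n = ⌊(n : ℝ) ^ (cc : ℝ)⌋₊ := by unfold uu; rw [if_neg k1.ne']
        have k9 : ((f n).length : ℝ) < (⌊(n : ℝ) ^ (cc : ℝ)⌋₊ : ℝ) := by linarith
        have k10 : (f n).length < ⌊(n : ℝ) ^ (cc : ℝ)⌋₊ := by exact_mod_cast k9
        refine ⟨by rw [k8]; exact k10, ?_⟩
        have k11 := Real.rpow_le_rpow_of_exponent_le hn1 (show (cc : ℝ) ≤ 1 by linarith)
        rw [Real.rpow_one] at k11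
        have k12 : ((f n).length : ℝ) ≤ n := by linarith
        exact_mod_cast k12
      · refine Eventually.of_forall fun n => ?_
        rw [hf0 k3 n]
        unfold uu
        rw [if_pos k1]
        simp
    obtain ⟨n, ⟨h10, h11⟩, h12, h13⟩ := (((hreq (p, ⟨(α, l, y, cc, z), hRC⟩)).and_eventually
      hp).and_eventually hlen).exists
    obtain ⟨x, hx, h14⟩ := h10 (f n) (mem_short.2 h12)
    refine h14 ?_
    rw [← h11 x (f n) hx h13]
    have h15 := Set.ext_iff.1 heq x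
    rw [Set.mem_compl_iff, Set.mem_ofPred_eq, hx] at h15
    exact h15
  · -- the positive part
    intro hFabc
    obtain ⟨h1, h2, h3, h4⟩ := hF.dom _ _ _ hFabc
    obtain ⟨a1, b1, c1, h5, h6, h7, h8⟩ := hF.opn _ _ _ hFabc
    obtain ⟨g1, g2, g3, g4⟩ := hF.dom _ _ _ h8
    obtain ⟨qa1, k1, k2⟩ := exists_rat_btwn h5
    obtain ⟨qa, k3, k4⟩ := exists_rat_btwn k1
    obtain ⟨qb, k5, k6⟩ := exists_rat_btwn h6
    obtain ⟨qc1, qc, m1, m2, m3, m4⟩ : ∃ qc1 qc : ℚ, c1 ≤ qc1 ∧ (qc : ℝ) < 1 ∧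
        ((qc1 : ℝ) < qc ∧ (qc : ℝ) < c ∧ (0 : ℝ) < qc ∨ (qc1 : ℝ) = 0 ∧ (qc : ℝ) = 0 ∧ c = 0) ∧
        (qc1 : ℝ) < 1 := by
      rcases h7 with h7 | ⟨h7, h7'⟩
      · obtain ⟨qc, n1, n2⟩ := exists_rat_btwn h7
        obtain ⟨qc1, n3, n4⟩ := exists_rat_btwn n1
        exact ⟨qc1, qc, n3.le, by linarith, Or.inl ⟨n4, n2, by linarith⟩, by linarith⟩
      · exact ⟨0, 0, by simp [h7], by simp, Or.inr ⟨by simp, by simp, h7'⟩, by simp⟩
    have hFC : FCond F qa qa1 qb qc1 qc := by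
      refine ⟨by linarith, k4, ?_, m2, ?_⟩
      · exact hF.mono _ _ _ _ _ _ h8 (by linarith) k2.le k5.le m1 m4
      · rcases m3 with ⟨m3, -, -⟩ | ⟨m3, m5, -⟩
        · exact Or.inl m3
        · exact Or.inr ⟨m3, m5⟩
    refine ⟨h1, h2, h3, h4, qa, qb, qc, k3, k6, ?_, ?_, ?_⟩
    · rcases m3 with ⟨-, -, m5⟩ | ⟨-, m5, -⟩ <;> linarith
    · rcases m3 with ⟨-, m5, -⟩ | ⟨-, m5, m6⟩
      · exact Or.inl m5
      · exact Or.inr ⟨m5, m6⟩
    · intro L hL
      obtain ⟨p, C, hp⟩ := exists_progA hL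
      obtain ⟨N, hN⟩ := hen (p, C, some ⟨(qa, qa1, qb, qc1, qc), hFC⟩)
      have hPN : P N = ⟨C, qa, qa1, qb, qc1, qc⟩ := by
        simp only [hP, hN]
        rfl
      have hprN : pr N = p := by simp only [hpr, hN]
      have hdom := hF.dom _ _ _ hFC.2.2.1
      have hcode : CodeLang O N ∈ NTLang O (P N).b := code_ntLang hO.codes
        (by rw [hPN]; exact hFC.1) (by rw [hPN]; show (qa : ℝ) ≤ qb; linarith)
      rw [hPN] at hcode
      refine ⟨CodeLang O N, hcode, fun n => key ((pre pr P).toData H) ρ N n, ?_, ?_⟩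
      · have hkl : ∀ m, ((pre pr P).toData H).kl N m =
            if (qc : ℝ) = 0 then 0 else ⌈((m + 1 : ℕ) : ℝ) ^ (qc : ℝ)⌉₊ := by
          intro m
          show (if (P N).c = 0 then 0 else ⌈((m + 1 : ℕ) : ℝ) ^ (P N).c⌉₊) = _
          rw [hPN]
        refine ⟨⟨3, fun n => ?_⟩, fun hc n => ?_⟩
        · unfold key
          rw [length_dg, hkl]
          split_ifs with hc
          · rw [Nat.cast_zero]; positivity
          · have hq0 : 0 ≤ (qc : ℝ) := by rcases m3 with ⟨-, -, m5⟩ | ⟨-, m5, -⟩ <;> linarith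
            have n1 := LibTA48.rpow_lin_le hq0 (le_refl (qc : ℝ)) 1 1 n
            have n2 := (Nat.ceil_lt_add_one
              (show (0 : ℝ) ≤ ((n + 1 : ℕ) : ℝ) ^ (qc : ℝ) by positivity)).le
            have n3 : ((1 + 1 : ℕ) : ℝ) ^ (qc : ℝ) ≤ 2 := by
              calc ((1 + 1 : ℕ) : ℝ) ^ (qc : ℝ) ≤ ((1 + 1 : ℕ) : ℝ) ^ (1 : ℝ) :=
                    Real.rpow_le_rpow_of_exponent_le (by norm_num) m2.le
                _ = 2 := by rw [Real.rpow_one]; norm_num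
            rw [one_mul] at n1
            have n4 : ((n + 1 : ℕ) : ℝ) ^ (qc : ℝ) ≤ 2 * ((n : ℝ) ^ (qc : ℝ) + 1) :=
              le_trans n1 (mul_le_mul_of_nonneg_right n3 (by positivity))
            have n5 : (0 : ℝ) ≤ (n : ℝ) ^ (qc : ℝ) := by positivity
            push_cast at n4 n2 ⊢
            linarith
        · show dg (((pre pr P).toData H).kl N n) (ρ N n) = []
          rw [hkl, if_pos hc]
          rfl
      · refine Set.ext fun x => compl_codeLang hO (fun z => ?_) x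
        rw [hp]
        show _ ↔ Acc O (pr N) (2 ^ ((P N).C * ⌈(z.length : ℝ) ^ (P N).a⌉₊ + (P N).C)) z
        rw [hprN, hPN]

end Pool.Agent.LibCL48
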