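import Pool.Agent.LibCL48.ExN

/-!
Padding.
-/

namespace Pool.Agent.LibCL48

open Function Filter Pool.Agent.LibNexp
open Pool.Agent.LibTA48 (NTLang TB ntLang_of_tb ntLang_mono size_one)

variable {O : List Bool → Bool}

theorem size_three (e : Fin 3 → List Bool) : size e = (e 0).length + (e 1).length + (e 2).length := by
  simp [size, Fin.sum_univ_three]

theorem size_five (e : Fin 5 → List Bool) : size e = (e 0).length + (e 1).length + (e 2).length +
    (e 3).length + (e 4).length := by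
  simp [size, Fin.sum_univ_five]

theorem size_two (e : Fin 2 → List Bool) : size e = (e 0).length + (e 1).length := by
  simp [size]

/-- A linear bound in terms of a larger power. -/
theorem le_rpow_add_one {r : ℝ} (hr : 1 ≤ r) (n : ℕ) : (n : ℝ) ≤ (n : ℝ) ^ r + 1 := by
  rcases Nat.eq_zero_or_pos n with rfl | hn
  · push_cast
    have : (0 : ℝ) ≤ (0 : ℝ) ^ r := by positivity
    linarith
  · have h1 : (1 : ℝ) ≤ n := by exact_mod_cast hn
    have h2 := Real.rpow_le_rpow_of_exponent_le h1 hr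
    rw [Real.rpow_one] at h2
    linarith

theorem pad_mem {a : ℝ} {p q : ℕ} (hq : 1 ≤ q) (ha : 0 < a) {L : Lang}
    (hL : L ∈ NTLang O ((p : ℝ) / q * a)) :
    {w | ∃ z : Fin 2 → List Bool, w = pair (z 0) (z 1) ∧ (z 0).length ^ p ≤ (z 1).length ^ q ∧
      z 0 ∈ L} ∈ NTLang O a := by
  obtain ⟨C, hC⟩ := Rec.of_ntLang hL
  obtain ⟨c1, h1⟩ := (pt_pairRel (O := O)).reindex (m := 3) ![1, 2, 0]
  obtain ⟨c2, h2⟩ := (pt_powle (O := O) p q).reindex (m := 3) ![1, 2]
  have h3 := hC.reindex (m := 3) ![1]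
  refine ntLang_exN ha (w := 2) (R := fun w z => w = pair (z 0) (z 1) ∧
    (z 0).length ^ p ≤ (z 1).length ^ q ∧ z 0 ∈ L) (h1.and (h2.and h3)) ?_ ?_
  · have hsz : BD (fun e : Fin 3 → List Bool => e 0 = pair (e 1) (e 2) ∧
        (e 1).length ^ p ≤ (e 2).length ^ q ∧ e 1 ∈ L) (fun e => ⌈((e 0).length : ℝ) ^ a⌉₊)
        fun e => size e := by
      refine bd_lin (m := fun e => size e) (n := fun e => (e 0).length) (r := 1) ha 2 ?_
      rintro e ⟨h4, -, -⟩
      rw [size_three, h4, length_pair, Real.rpow_one]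
      push_cast
      nlinarith [(e 1).length.cast_nonneg (α := ℝ), (e 2).length.cast_nonneg (α := ℝ)]
    refine (hsz.pow c1).add ((hsz.pow c2).add ?_)
    refine ⟨C, ?_⟩
    rintro e ⟨h4, h5, -⟩
    refine Nat.pow_le_pow_right (by norm_num) (Nat.add_le_add_right (Nat.mul_le_mul_left C
      (Nat.ceil_le_ceil ?_)) C)
    have h6 := rpow_le_of_pow_le hq h5
    show ((e 1).length : ℝ) ^ ((p : ℝ) / q * a) ≤ ((e 0).length : ℝ) ^ a
    rw [Real.rpow_mul (by positivity)]
    refine Real.rpow_le_rpow (by positivity) (le_trans h6 ?_) ha.le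
    have h7 : e 0 = pair (e 1) (e 2) := h4
    have h8 : (e 2).length ≤ (e 0).length := by rw [h7, length_pair]; omega
    exact_mod_cast h8
  · refine bd_lin (m := fun e => size e) (n := fun e => (e 0).length) (r := 1) ha 2 ?_
    rintro e ⟨h4, -, -⟩
    have h7 : e 0 = pair (e 1) (e 2) := h4
    rw [size_three, h7, length_pair, Real.rpow_one]
    push_cast
    nlinarith [(e 1).length.cast_nonneg (α := ℝ), (e 2).length.cast_nonneg (α := ℝ)]

theorem pad_back_mem {b : ℝ} {p q : ℕ} (hq : 1 ≤ q) (hpq : q ≤ p) (hb : 0 < b) {B : Lang}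
    (hB : B ∈ NTLang O b) :
    {w | ∃ z : Fin 4 → List Bool, w = pair (z 0) (z 1) ∧ (z 2).length = zt p q (z 0).length ∧
      z 3 = pair (z 0) (z 2) ∧ pair (z 3) (z 1) ∈ B} ∈ NTLang O ((p : ℝ) / q * b) := by
  have hq0 : (0 : ℝ) < q := by exact_mod_cast hq
  have hr : (1 : ℝ) ≤ (p : ℝ) / q := by
    rw [le_div_iff₀ hq0, one_mul]
    exact_mod_cast hpq
  have hrb : 0 < (p : ℝ) / q * b := mul_pos (by linarith) hb
  obtain ⟨C, hC⟩ := rec_pair_mem hB
  obtain ⟨c1, h1⟩ := (pt_pairRel (O := O)).reindex (m := 5) ![1, 2, 0]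
  obtain ⟨c2, h2⟩ := (pt_zt (O := O) p hq).reindex (m := 5) ![1, 3]
  obtain ⟨c3, h3⟩ := (pt_pairRel (O := O)).reindex (m := 5) ![1, 3, 4]
  have h4 := hC.reindex (m := 5) ![4, 2]
  have hsize : ∀ e : Fin 5 → List Bool, (e 0 = pair (e 1) (e 2) ∧
      (e 3).length = zt p q (e 1).length ∧ e 4 = pair (e 1) (e 3) ∧ pair (e 4) (e 2) ∈ B) →
      (size e : ℝ) ≤ (6 : ℕ) * (((e 0).length : ℝ) ^ ((p : ℝ) / q) + 1) ∧
      ((pair (e 4) (e 2)).length : ℝ) ≤ (12 : ℕ) * (((e 0).length : ℝ) ^ ((p : ℝ) / q) + 1) := by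
    rintro e ⟨g1, g2, g3, -⟩
    have g4 := zt_le_pow (p := p) hq (e 1).length
    rw [← g2] at g4
    have g5 : ((e 1).length : ℝ) ^ ((p : ℝ) / q) ≤ ((e 0).length : ℝ) ^ ((p : ℝ) / q) := by
      refine Real.rpow_le_rpow (by positivity) ?_ (by linarith)
      have : (e 1).length ≤ (e 0).length := by rw [g1, length_pair]; omega
      exact_mod_cast this
    have g6 := le_rpow_add_one hr (e 0).length
    have g7 : (e 0).length = 2 * (e 1).length + (e 2).length + 2 := by rw [g1, length_pair]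
    have g8 : (e 4).length = 2 * (e 1).length + (e 3).length + 2 := by rw [g3, length_pair]
    have g9 : ((e 0).length : ℝ) = 2 * (e 1).length + (e 2).length + 2 := by exact_mod_cast g7
    have g10 : ((e 4).length : ℝ) = 2 * (e 1).length + (e 3).length + 2 := by exact_mod_cast g8
    constructor
    · rw [size_five]
      push_cast
      nlinarith [(e 1).length.cast_nonneg (α := ℝ), (e 2).length.cast_nonneg (α := ℝ)]
    · rw [length_pair]
      push_cast
      nlinarith [(e 1).length.cast_nonneg (α := ℝ), (e 2).length.cast_nonneg (α := ℝ)]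
  have hsz : BD (fun e : Fin 5 → List Bool => e 0 = pair (e 1) (e 2) ∧
      (e 3).length = zt p q (e 1).length ∧ e 4 = pair (e 1) (e 3) ∧ pair (e 4) (e 2) ∈ B)
      (fun e => ⌈((e 0).length : ℝ) ^ ((p : ℝ) / q * b)⌉₊) fun e => size e :=
    bd_lin (m := fun e => size e) (n := fun e => (e 0).length) (r := (p : ℝ) / q) hrb 6
      fun e he => (hsize e he).1
  refine ntLang_exN hrb (w := 4) (R := fun w z => w = pair (z 0) (z 1) ∧
    (z 2).length = zt p q (z 0).length ∧ z 3 = pair (z 0) (z 2) ∧ pair (z 3) (z 1) ∈ B)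
    (h1.and (h2.and (h3.and h4))) ?_ hsz
  refine (hsz.pow c1).add ((hsz.pow c2).add ((hsz.pow c3).add (BD.add ?_ ?_)))
  · refine (((BD.const 2).mul hsz).pow C).mono (fun e he => he) fun e _ => ?_
    refine Nat.pow_le_pow_left ?_ C
    have e0 := len_le_size e 2
    have e1 := len_le_size e 4
    rw [size_two]
    show (e 4).length + (e 2).length ≤ 2 * size e
    omega
  · exact bd_exp (m := fun e : Fin 5 → List Bool => (pair (e 4) (e 2)).length)
      (n := fun e => (e 0).length) (r := (p : ℝ) / q) hb 12 (fun e he => (hsize e he).2) C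

theorem adv_comp {c r : ℝ} (hc : 0 ≤ c) (hr : 0 < r) {f : ℕ → List Bool} (hf : f ∈ Adv c)
    {g : ℕ → ℕ} {A : ℝ} (hA : 0 ≤ A) (hg : ∀ n : ℕ, (g n : ℝ) ≤ A * ((n : ℝ) ^ r + 1)) :
    (fun n => f (g n)) ∈ Adv (r * c) := by
  obtain ⟨⟨C, hC⟩, h0⟩ := hf
  refine ⟨⟨C * ⌈(A * 2) ^ c⌉₊ + C, fun n => ?_⟩, fun hrc n => ?_⟩
  · have h1 := hC (g n)
    have h2 := rpow_bound hc hA (hg n)
    have h3 := Nat.le_ceil ((A * 2) ^ c)
    have h4 : (0 : ℝ) ≤ (n : ℝ) ^ (r * c) := by positivity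
    have h5 : (0 : ℝ) ≤ C := by positivity
    have h6 : ((g n : ℝ)) ^ c ≤ (⌈(A * 2) ^ c⌉₊ : ℝ) * ((n : ℝ) ^ (r * c) + 1) :=
      le_trans h2 (mul_le_mul_of_nonneg_right h3 (by linarith))
    have h7 := mul_le_mul_of_nonneg_left h6 h5
    have h8 : (0 : ℝ) ≤ C * (n : ℝ) ^ (r * c) := by positivity
    push_cast
    linarith
  · refine h0 ?_ _
    rcases mul_eq_zero.1 hrc with h | h
    · exact absurd h hr.ne'
    · exact h

/-- Padding. -/
theorem enough_pad {a b c : ℝ} {p q : ℕ} (hq : 1 ≤ q) (hpq : q ≤ p) (ha : 0 < a) (hb : 0 < b)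
    (hc : 0 ≤ c) (h : Enough O a b c) :
    Enough O ((p : ℝ) / q * a) ((p : ℝ) / q * b) ((p : ℝ) / q * c) := by
  have hq0 : (0 : ℝ) < q := by exact_mod_cast hq
  have hr : (1 : ℝ) ≤ (p : ℝ) / q := by
    rw [le_div_iff₀ hq0, one_mul]
    exact_mod_cast hpq
  intro L hL
  obtain ⟨B, hB, f, hf, heq⟩ := h _ (pad_mem hq ha hL)
  refine ⟨_, pad_back_mem hq hpq hb hB, fun n => f (2 * n + 2 + zt p q n),
    adv_comp hc (by linarith) hf (A := 5) (by norm_num) (fun n => ?_), ?_⟩
  · have h1 := zt_le_pow (p := p) hq n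
    have h2 := le_rpow_add_one hr n
    have h3 : (0 : ℝ) ≤ (n : ℝ) ^ ((p : ℝ) / q) := by positivity
    push_cast
    linarith
  · ext x
    have hx : ∀ y : List Bool, y.length = zt p q x.length → (pair x y ∈
        ({w | ∃ z : Fin 2 → List Bool, w = pair (z 0) (z 1) ∧ (z 0).length ^ p ≤ (z 1).length ^ q ∧
          z 0 ∈ L} : Lang) ↔ x ∈ L) := by
      intro y hy
      constructor
      · rintro ⟨z, h1, -, h2⟩
        rw [(pair_injective h1).1]
        exact h2
      · intro h1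
        refine ⟨![x, y], rfl, ?_, h1⟩
        show x.length ^ p ≤ y.length ^ q
        rw [hy]
        exact zt_spec hq _
    have hlen : ∀ y : List Bool, y.length = zt p q x.length →
        (pair x y).length = 2 * x.length + 2 + zt p q x.length := by
      intro y hy
      rw [length_pair, hy]
      ring
    constructor
    · intro hxL
      set y := List.replicate (zt p q x.length) true with hy
      have hyl : y.length = zt p q x.length := by simp [hy]
      have h1 : pair x y ∈ ({w | ∃ z : Fin 2 → List Bool, w = pair (z 0) (z 1) ∧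
          (z 0).length ^ p ≤ (z 1).length ^ q ∧ z 0 ∈ L} : Lang)ᶜ := fun h2 => hxL ((hx y hyl).1 h2)
      rw [heq, Set.mem_ofPred_eq, hlen y hyl] at h1
      exact ⟨![x, f (2 * x.length + 2 + zt p q x.length), y, pair x y], rfl, hyl, rfl, h1⟩
    · rintro ⟨z, h1, h2, h3, h4⟩ hxL
      obtain ⟨h5, h6⟩ := pair_injective h1
      rw [← h5] at h2 h3
      rw [← h6, h3] at h4
      have h4' : pair (pair x (z 2)) (f (2 * x.length + 2 + zt p q x.length)) ∈ B := h4
      rw [← hlen _ h2] at h4'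
      have h7 : pair x (z 2) ∈ ({w | ∃ z : Fin 2 → List Bool, w = pair (z 0) (z 1) ∧
          (z 0).length ^ p ≤ (z 1).length ^ q ∧ z 0 ∈ L} : Lang)ᶜ := by
        rw [heq]
        exact h4'
      exact h7 ((hx _ h2).2 hxL)

end Pool.Agent.LibCL48
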