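import Pool.Agent.LibCL48.Limit

/-!
The small facts, and the plan of a stage.
-/

namespace Pool.Agent.LibCL48

open Function Filter Pool.Agent.LibNexp

/-- The facts which have to be frozen. -/
inductive Small (D : Data) (k ℓ S L u : ℕ) : ℕ → ℕ → Prop
  | base {N m : ℕ} (h1 : N < k) (h2 : ℓ ≤ D.q N m) (h3 : D.wl N m ≤ S)
      (h4 : D.kl N m ≤ L * (u + 1)) : Small D k ℓ S L u N m
  | step {N m N' m' : ℕ} (h : Small D k ℓ S L u N' m') (h1 : N < k) (h2 : ℓ ≤ D.q N m)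
      (h3 : D.wl N m ≤ S) (h5 : D.wl N m ≤ (D.q N' m') ^ 2)
      (h4 : D.kl N m ≤ L * (m' + 1)) : Small D k ℓ S L u N m

theorem Small.lt {D : Data} {k ℓ S L u N m : ℕ} (h : Small D k ℓ S L u N m) :
    N < k ∧ ℓ ≤ D.q N m ∧ D.wl N m ≤ S := by
  cases h with
  | base h1 h2 h3 _ => exact ⟨h1, h2, h3⟩
  | step _ h1 h2 h3 _ _ => exact ⟨h1, h2, h3⟩

theorem band {ℓ q τ : ℕ} (h1 : ℓ ≤ q) (h2 : q < ℓ ^ (2 ^ τ)) :
    ∃ t < τ, ℓ ^ (2 ^ t) ≤ q ∧ q < ℓ ^ (2 ^ (t + 1)) := by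
  induction τ with
  | zero => simp at h2; omega
  | succ τ ih =>
    by_cases h : q < ℓ ^ (2 ^ τ)
    · obtain ⟨t, ht, h3, h4⟩ := ih h
      exact ⟨t, by omega, h3, h4⟩
    · exact ⟨τ, by omega, by omega, h2⟩

/-- The plan of a stage. -/
theorem exists_plan {D : Data} {e : ℕ → ℕ → ℕ} {k i n S u τ κ X : ℕ} (hn : 1 ≤ n)
    (hκ : k * n + 1 ≤ 2 ^ (κ - 1)) (hκ1 : 1 ≤ κ) (hsq : ∀ N m, (D.q N m) ^ 2 < D.wl N m)
    (hm : ∀ N m, Small D k (lv e i n) S ((τ + 1) * κ) u N m → m < n ∧ m ≤ X) (hu : u ≤ X)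
    (hS : S ≤ (lv e i n) ^ (2 ^ τ)) (hfirst : (τ + 1) * (X + κ) ≤ n - 1)
    (hcount : 2 ^ (n - 1) * S < 2 ^ (2 ^ e i n)) :
    ∃ Sm Θ G R, PlanK D e k i n Sm Θ G τ R (2 ^ u) ∧ Θ τ = S := by
  classical
  set ℓ := lv e i n with hℓ
  have hℓ2 : 2 ≤ ℓ := by
    have := Nat.two_pow_pos (e i n)
    simp only [hℓ, lv]
    omega
  have hS' : S ≤ ℓ ^ (2 ^ τ) := hS
  set Sm : ℕ → ℕ → Prop := Small D k ℓ S ((τ + 1) * κ) u with hSm
  set Θ : ℕ → ℕ := fun t => if t < τ then min (ℓ ^ (2 ^ (t + 1)) - 1) S else S with hΘ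
  set G : ℕ → Finset (ℕ × ℕ) := fun t => ((Finset.range k) ×ˢ (Finset.range n)).filter fun f =>
    Sm f.1 f.2 ∧ ℓ ^ (2 ^ t) ≤ D.q f.1 f.2 ∧ D.q f.1 f.2 < ℓ ^ (2 ^ (t + 1)) with hG
  have hGmem : ∀ {t N m : ℕ}, (N, m) ∈ G t ↔ N < k ∧ m < n ∧ Sm N m ∧ ℓ ^ (2 ^ t) ≤ D.q N m ∧
      D.q N m < ℓ ^ (2 ^ (t + 1)) := by
    intro t N m
    simp only [hG, Finset.mem_filter, Finset.mem_product, Finset.mem_range]
    tauto
  set M : ℕ → ℕ := fun t => ∑ f ∈ G t, 2 ^ f.2 with hM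
  set Rr : ℕ → ℕ := fun h => Nat.rec (2 ^ u) (fun h r => (M (τ - (h + 1)) + 1) * (r + 1)) h with hRr
  have hRr0 : Rr 0 = 2 ^ u := rfl
  have hRr1 : ∀ h, Rr (h + 1) = (M (τ - (h + 1)) + 1) * (Rr h + 1) := fun h => rfl
  have hMle : ∀ t Y, (∀ N m, (N, m) ∈ G t → m ≤ Y) → M t + 1 ≤ 2 ^ (κ - 1) * 2 ^ Y := by
    intro t Y hY
    have h1 : M t ≤ (G t).card * 2 ^ Y := by
      simp only [hM]
      refine le_trans (Finset.sum_le_card_nsmul _ _ (2 ^ Y) fun f hf => ?_) (by simp)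
      exact Nat.pow_le_pow_right (by norm_num) (hY f.1 f.2 hf)
    have h2 : (G t).card ≤ k * n := by
      refine le_trans (Finset.card_filter_le _ _) ?_
      simp
    have h3 : (G t).card * 2 ^ Y ≤ k * n * 2 ^ Y := Nat.mul_le_mul_right _ h2
    have h4 : 1 ≤ 2 ^ Y := Nat.one_le_two_pow
    have h5 : (k * n + 1) * 2 ^ Y ≤ 2 ^ (κ - 1) * 2 ^ Y := Nat.mul_le_mul_right _ hκ
    rw [Nat.add_mul, one_mul] at h5
    omega
  have hbound : ∀ h ≤ τ, ∀ Y, u ≤ Y → (∀ t, τ - h ≤ t → t < τ → ∀ N m, (N, m) ∈ G t → m ≤ Y) →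
      Rr h + 1 ≤ 2 ^ ((h + 1) * (Y + κ)) := by
    intro h
    induction h with
    | zero =>
      intro _ Y hY _
      rw [hRr0]
      have h1 : 2 ^ u + 1 ≤ 2 ^ (u + 1) := by
        have : 1 ≤ 2 ^ u := Nat.one_le_two_pow
        rw [pow_succ]
        omega
      refine le_trans h1 (Nat.pow_le_pow_right (by norm_num) ?_)
      omega
    | succ h ih =>
      intro hh Y hY hY2
      have h1 := ih (by omega) Y hY fun t h1 h2 => hY2 t (by omega) h2
      have h2 := hMle (τ - (h + 1)) Y (hY2 _ le_rfl (by omega))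
      rw [hRr1]
      have h3 : (M (τ - (h + 1)) + 1) * (Rr h + 1) ≤
          (2 ^ (κ - 1) * 2 ^ Y) * 2 ^ ((h + 1) * (Y + κ)) := Nat.mul_le_mul h2 h1
      have h4 : (2 ^ (κ - 1) * 2 ^ Y) * 2 ^ ((h + 1) * (Y + κ)) =
          2 ^ ((κ - 1) + Y + (h + 1) * (Y + κ)) := by rw [pow_add, pow_add]
      have h5 : (h + 1 + 1) * (Y + κ) = (κ - 1) + Y + (h + 1) * (Y + κ) + 1 := by
        have : (h + 1 + 1) * (Y + κ) = (h + 1) * (Y + κ) + (Y + κ) := by ring
        omega
      rw [h5, pow_succ]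
      have h6 : 1 ≤ 2 ^ ((κ - 1) + Y + (h + 1) * (Y + κ)) := Nat.one_le_two_pow
      omega
  have hΘlt : ∀ t < τ, Θ t = min (ℓ ^ (2 ^ (t + 1)) - 1) S := fun t ht => by
    simp only [hΘ, if_pos ht]
  have hΘτ : Θ τ = S := by simp only [hΘ, lt_irrefl, if_false]
  have hΘS : ∀ t, Θ t ≤ S := fun t => by
    simp only [hΘ]
    split_ifs
    · exact min_le_right _ _
    · exact le_rfl
  have hpowmono : ∀ t t', t ≤ t' → ℓ ^ (2 ^ t) ≤ ℓ ^ (2 ^ t') := fun t t' h =>
    Nat.pow_le_pow_right (by omega) (Nat.pow_le_pow_right (by norm_num) h)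
  have hpowsq : ∀ t, ℓ ^ (2 ^ (t + 1)) = (ℓ ^ (2 ^ t)) ^ 2 := fun t => by
    rw [← pow_mul, pow_succ]
  refine ⟨Sm, Θ, G, fun t => Rr (τ - t), ⟨hn, ?_, ?_, ?_, ?_, ?_, ?_, ?_, ?_, ?_⟩, hΘτ⟩
  · intro t ht
    rw [hΘlt t ht]
    rcases Nat.lt_or_ge (t + 1) τ with h | h
    · rw [hΘlt _ h]
      have := hpowmono (t + 1) (t + 1 + 1) (by omega)
      exact min_le_min (by omega) le_rfl
    · have : t + 1 = τ := by omega
      rw [this, hΘτ]
      exact min_le_right _ _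
  · intro t ht N m hNm
    obtain ⟨h1, h2, h3, h4, h5⟩ := hGmem.1 hNm
    have h6 := h3.lt
    have h7 := D.q_lt_wl N m
    have h8 := hsq N m
    refine ⟨h1, ?_, ?_⟩
    · rw [hΘlt t ht]
      exact le_min (by omega) (by omega)
    · rw [hΘlt t ht]
      refine lt_of_le_of_lt (min_le_left _ _) ?_
      have h9 : (ℓ ^ (2 ^ t)) ^ 2 ≤ (D.q N m) ^ 2 := Nat.pow_le_pow_left h4 2
      rw [hpowsq]
      omega
  · intro N m hs
    exact hs.lt.1
  · intro N m hs h1 h2
    have h3 := hm N m hs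
    have h4 := D.q_lt_wl N m
    rw [hΘτ] at h2
    obtain ⟨t, ht, h5, h6⟩ := band (ℓ := ℓ) (τ := τ) h1 (by omega)
    exact ⟨t, ht, hGmem.2 ⟨hs.lt.1, h3.1, hs, h5, h6⟩⟩
  · intro t ht
    obtain ⟨h, hh⟩ : ∃ h, τ - t = h + 1 := ⟨τ - t - 1, by omega⟩
    have h1 : τ - (t + 1) = h := by omega
    have h2 : τ - (h + 1) = t := by omega
    simp only [hh, h1, hRr1, h2]
    exact Nat.le_succ _
  · simp only [Nat.sub_self, hRr0]
    exact le_rfl
  · simp only [Nat.sub_zero]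
    have h1 := hbound τ le_rfl X hu fun t _ _ N m hNm => (hm N m (hGmem.1 hNm).2.2.1).2
    have h2 : 2 ^ ((τ + 1) * (X + κ)) ≤ 2 ^ (n - 1) := Nat.pow_le_pow_right (by norm_num) hfirst
    omega
  · intro t ht N m hN h1 h2 h3 h4
    -- the bound for the relevant inputs
    set Y := (Finset.range τ).sup fun t' => if t ≤ t' then (G t').sup fun f => f.2 else 0 with hY
    have hYG : ∀ t', t ≤ t' → t' < τ → ∀ N m, (N, m) ∈ G t' → m ≤ Y := by
      intro t' h5 h6 N m hNm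
      have h7 : (if t ≤ t' then (G t').sup fun f => f.2 else 0) ≤ Y :=
        Finset.le_sup (f := fun t' => if t ≤ t' then (G t').sup fun f => f.2 else 0)
          (Finset.mem_range.2 h6)
      rw [if_pos h5] at h7
      exact le_trans (Finset.le_sup (f := fun f : ℕ × ℕ => f.2) hNm) h7
    have h5 := hbound (τ - t) (by omega) (max u Y) (le_max_left _ _)
      fun t' h5 h6 N m hNm => le_trans (hYG t' (by omega) h6 N m hNm) (le_max_right _ _)
    have hwS : D.wl N m ≤ S := le_trans h3 (hΘS t)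
    -- the capacity
    have hcap : ∀ Z, Z = u ∨ (∃ t', t ≤ t' ∧ t' < τ ∧ ∃ N' m', (N', m') ∈ G t' ∧ Z = m') →
        (τ + 1) * κ * (Z + 1) < D.kl N m := by
      rintro Z (rfl | ⟨t', h6, h7, N', m', h8, rfl⟩)
      · by_contra hcon
        exact h2 (Small.base hN h1 hwS (by omega))
      · by_contra hcon
        obtain ⟨-, -, h9, h10, -⟩ := hGmem.1 h8
        refine h2 (Small.step h9 hN h1 hwS ?_ (by omega))
        have h11 : D.wl N m ≤ Θ t' := by
          have hmono' : ∀ b, t ≤ b → b < τ → Θ t ≤ Θ b := by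
            intro b hb hbτ
            rw [hΘlt t (by omega), hΘlt b hbτ]
            have := hpowmono (t + 1) (b + 1) (by omega)
            exact min_le_min (by omega) le_rfl
          exact le_trans h3 (hmono' t' h6 h7)
        rw [hΘlt t' h7] at h11
        have h12 := le_trans h11 (min_le_left _ _)
        have h13 : (ℓ ^ (2 ^ t')) ^ 2 ≤ (D.q N' Z) ^ 2 := Nat.pow_le_pow_left h10 2
        rw [← hpowsq] at h13
        omega
    have hZ : (τ + 1) * κ * (max u Y + 1) < D.kl N m := by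
      rcases max_choice u Y with h6 | h6
      · rw [h6]
        exact hcap u (Or.inl rfl)
      · rw [h6]
        by_cases h7 : Y = 0
        · have h8 := hcap u (Or.inl rfl)
          rw [h7] at h6 ⊢
          have : u = 0 := by
            have := le_max_left u 0
            omega
          rw [this] at h8
          exact h8
        · -- the maximum is attained
          have hτ : (Finset.range τ).Nonempty := by
            by_contra hcon
            rw [Finset.not_nonempty_iff_eq_empty] at hcon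
            rw [hY, hcon] at h7
            simp at h7
          obtain ⟨t', h8, h9⟩ := Finset.exists_mem_eq_sup (Finset.range τ) hτ
            fun t' => if t ≤ t' then (G t').sup fun f => f.2 else 0
          rw [← hY] at h9
          by_cases h10 : t ≤ t'
          · rw [if_pos h10] at h9
            have hG' : (G t').Nonempty := by
              by_contra hcon
              rw [Finset.not_nonempty_iff_eq_empty] at hcon
              rw [hcon] at h9
              simp at h9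
              exact h7 h9
            obtain ⟨f, h11, h12⟩ := Finset.exists_mem_eq_sup (G t') hG' fun f => f.2
            rw [h12] at h9
            exact hcap Y (Or.inr ⟨t', h10, Finset.mem_range.1 h8, f.1, f.2, h11, h9⟩)
          · rw [if_neg h10] at h9
            exact absurd h9 h7
    have h6 : (τ - t + 1) * (max u Y + κ) ≤ (τ + 1) * κ * (max u Y + 1) := by
      have h7 : max u Y + κ ≤ κ * (max u Y + 1) := by
        have : 1 * max u Y ≤ κ * max u Y := Nat.mul_le_mul_right _ hκ1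
        rw [Nat.mul_add, mul_one]
        omega
      calc (τ - t + 1) * (max u Y + κ) ≤ (τ + 1) * (κ * (max u Y + 1)) :=
            Nat.mul_le_mul (by omega) h7
        _ = (τ + 1) * κ * (max u Y + 1) := by ring
    have h7 : 2 ^ ((τ - t + 1) * (max u Y + κ)) ≤ 2 ^ D.kl N m :=
      Nat.pow_le_pow_right (by norm_num) (by omega)
    show Rr (τ - t) < 2 ^ D.kl N m
    omega
  · rw [hΘτ]
    exact hcount

end Pool.Agent.LibCL48
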