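import Pool.Agent.LibCL48.ExN

/-!
Languages in nondeterministic polynomial time, and lists of strings.
-/

namespace Pool.Agent.LibCL48

open Function Pool.Agent.LibNexp

variable {O : List Bool → Bool}

/-- Several existential quantifiers, in polynomial time. -/
theorem pt_exN {w : ℕ} {R : List Bool → (Fin w → List Bool) → Prop}
    (h : PT O fun e : Fin (w + 1) → List Bool => R (e 0) fun j => e j.succ)
    {g : ℕ → ℕ} (hg : PolyB g)
    (hb : ∀ e : Fin (w + 1) → List Bool, R (e 0) (fun j => e j.succ) → size e ≤ g (e 0).length) :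
    PT O fun e : Fin 1 → List Bool => ∃ z : Fin w → List Bool, R (e 0) z := by
  obtain ⟨c, hc⟩ := h
  refine PT.of_rec (f := fun n => g n ^ c + g n) ((hg.pow c).add hg)
    (rec_exN hc (τ := fun x => g x.length ^ c + g x.length) fun e he => ?_) fun e => ?_
  · have h1 := hb e he
    exact Nat.add_le_add (Nat.pow_le_pow_left h1 c) h1
  · show g (e 0).length ^ c + g (e 0).length ≤ g (size e) ^ c + g (size e)
    rw [LibTA48.size_one]

/-- A fixed prefix. -/
theorem pt_prefix (τ : List Bool) : PT O fun e : Fin 2 → List Bool => e 0 = τ ++ e 1 := by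
  refine ((pt_subst (O := O) (fun _ => []) (fun b => [b]) τ).reindex (m := 2) ![0, 1, 0]).congr
    fun e => ?_
  show e 0 = (e 0).flatMap (fun _ => []) ++ τ ++ (e 1).flatMap (fun b => [b]) ↔ _
  have h1 : ∀ x : List Bool, x.flatMap (fun b => [b]) = x := fun x => by simp
  have h2 : ∀ x : List Bool, x.flatMap (fun _ => ([] : List Bool)) = [] := fun x => by simp
  rw [h1, h2, List.nil_append]

/-- A fixed string. -/
theorem pt_const (τ : List Bool) : PT O fun e : Fin 1 → List Bool => e 0 = τ := by
  refine ((pt_subst (O := O) (fun _ => []) (fun _ => []) τ).reindex (m := 1) ![0, 0, 0]).congr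
    fun e => ?_
  show e 0 = (e 0).flatMap (fun _ => []) ++ τ ++ (e 0).flatMap (fun _ => []) ↔ _
  have h2 : ∀ x : List Bool, x.flatMap (fun _ => ([] : List Bool)) = [] := fun x => by simp
  rw [h2, List.nil_append, List.append_nil]

/-- Equality. -/
theorem pt_eq : PT O fun e : Fin 2 → List Bool => e 0 = e 1 :=
  (pt_prefix (O := O) []).congr fun e => by simp

/-- An answer of the oracle. -/
theorem pt_query (b : Bool) : PT O fun e : Fin 1 → List Bool => O (e 0) = b := by
  refine pt_of_prog (.query 0 b) (T := fun _ => 1) (PolyB.const 1) ?_ ?_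
  · rintro e t σ' ⟨-, h, -⟩
    rw [init0] at h
    exact h
  · intro e he
    exact ⟨1, init e, le_rfl, rfl, by rw [init0]; exact he, rfl⟩

/-- The header of a pair. -/
def hdr (x : List Bool) : List Bool := (x.flatMap fun b => [b, b]) ++ [true, false]

theorem pair_eq (x y : List Bool) : pair x y = hdr x ++ y := by
  unfold pair hdr
  rfl

theorem length_hdr (x : List Bool) : (hdr x).length = 2 * x.length + 2 := by
  have := length_pair x []
  rw [pair_eq, List.append_nil] at this
  rw [this]
  simp

/-- A list of as many headers as the length of `ρ`. -/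
def Hdrs (ρ A : List Bool) : Prop := ∃ l : List (List Bool), l.length = ρ.length ∧ A = l.flatMap hdr

/-- Pop a header. -/
def popHdr (r : ℕ) : Prog :=
  .seq (.star (.alt (popW r [false, false]) (popW r [true, true]))) (popW r [true, false])

theorem popHdr_sound {r : ℕ} {t : ℕ} {σ σ' : State} (h : Run O (popHdr r) t σ σ') :
    (∃ x, σ r = hdr x ++ σ' r) ∧ ∀ s, s ≠ r → σ' s = σ s := by
  obtain ⟨t1, t2, τ, -, h1, h2⟩ := h
  obtain ⟨h3, h4⟩ := popW_sound h2
  have h5 := iter_back (J := fun σ => (∃ x, σ r = hdr x ++ σ' r) ∧ ∀ s, s ≠ r → σ' s = σ s) (by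
    rintro t σ τ h ⟨⟨x, h6⟩, h7⟩
    rcases h with h | h
    · obtain ⟨h8, h9⟩ := popW_sound h
      refine ⟨⟨false :: x, ?_⟩, fun s hs => by rw [h7 s hs, h9 s hs]⟩
      rw [h8, h6]
      rfl
    · obtain ⟨h8, h9⟩ := popW_sound h
      refine ⟨⟨true :: x, ?_⟩, fun s hs => by rw [h7 s hs, h9 s hs]⟩
      rw [h8, h6]
      rfl) h1 ⟨⟨[], by rw [h3]; rfl⟩, h4⟩
  exact h5

theorem popHdr_complete {r : ℕ} : ∀ (x l : List Bool) (σ : State), σ r = hdr x ++ l →
    Run O (popHdr r) (2 * x.length + 2) σ (update σ r l) := by
  suffices H : ∀ (x l : List Bool) (σ : State), σ r = hdr x ++ l →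
      Iter (Run O (.alt (popW r [false, false]) (popW r [true, true]))) (2 * x.length) σ
        (update σ r ([true, false] ++ l)) by
    intro x l σ h
    have h1 := popW_complete (O := O) (r := r) (w := [true, false]) (l := l)
      (σ := update σ r ([true, false] ++ l)) (by rw [update_self])
    rw [update_idem] at h1
    exact ⟨_, _, _, rfl, H x l σ h, h1⟩
  intro x
  induction x with
  | nil =>
    intro l σ h
    have : update σ r ([true, false] ++ l) = σ := by
      have h2 : σ r = [true, false] ++ l := h
      rw [← h2, update_eq_self]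
    rw [this]
    exact Iter.nil σ
  | cons b x ih =>
    intro l σ h
    have h1 : σ r = [b, b] ++ (hdr x ++ l) := h
    have h2 := popW_complete (O := O) (r := r) (w := [b, b]) (l := hdr x ++ l) (σ := σ) h1
    have h3 : Run O (.alt (popW r [false, false]) (popW r [true, true])) 2 σ
        (update σ r (hdr x ++ l)) := by
      cases b
      · exact Or.inl h2
      · exact Or.inr h2
    have h4 := ih l (update σ r (hdr x ++ l)) (by rw [update_self])
    rw [update_idem] at h4
    have h5 := Iter.cons h3 h4
    have h6 : 2 * (b :: x).length = 2 + 2 * x.length := by rw [List.length_cons]; ring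
    rw [h6]
    exact h5

theorem pt_hdrs : PT O fun e : Fin 2 → List Bool => Hdrs (e 0) (e 1) := by
  refine pt_of_prog (.seq (.star (.seq (popAny 0) (popHdr 1))) (.seq (.empty 0) (.empty 1)))
    (T := fun n => 2 * n + 2) (((PolyB.const 2).mul PolyB.id).add (PolyB.const 2)) ?_ ?_
  · rintro e t σ' ⟨t1, t2, τ1, -, h1, t3, t4, τ2, -, ⟨-, h2, rfl⟩, -, h3, rfl⟩
    have := iter_back (J := fun σ => Hdrs (σ 0) (σ 1)) (by
      rintro t σ τ ⟨t1, t2, υ, -, h4, h5⟩ ⟨l, h6, h7⟩
      obtain ⟨b, l', h8, -, rfl⟩ := run_popAny.1 h4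
      obtain ⟨⟨x, h9⟩, h10⟩ := popHdr_sound h5
      rw [update_of_ne (by norm_num)] at h9
      have h11 := h10 0 (by norm_num)
      rw [update_self] at h11
      refine ⟨x :: l, ?_, ?_⟩
      · rw [h8, List.length_cons, List.length_cons, h6, h11]
      · rw [h9, h7, List.flatMap_cons]) h1 ⟨[], by rw [h2]; rfl, by rw [h3]; rfl⟩
    rwa [init0, init1] at this
  · rintro e ⟨l, hl1, hl2⟩
    suffices H : ∀ (l : List (List Bool)) (σ : State), l.length = (σ 0).length →
        σ 1 = l.flatMap hdr → ∃ t, t ≤ (σ 0).length + (σ 1).length ∧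
          Iter (Run O (.seq (popAny 0) (popHdr 1))) t σ (update (update σ 0 []) 1 []) by
      obtain ⟨t, ht, h1⟩ := H l (init e) (by rw [init0]; exact hl1) (by rw [init1]; exact hl2)
      rw [init0, init1] at ht
      refine ⟨t + (1 + 1), _, ?_, _, _, _, rfl, h1, _, _, _, rfl, ⟨rfl, ?_, rfl⟩, rfl, ?_, rfl⟩
      · have e0 := len_le_size e 0
        have e1 := len_le_size e 1
        show _ ≤ 2 * size e + 2
        omega
      · rw [update_of_ne (by norm_num), update_self]
      · rw [update_self]
    intro l
    induction l with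
    | nil =>
      intro σ h0 h1
      have e0 : σ 0 = [] := List.eq_nil_of_length_eq_zero h0.symm
      have e1 : σ 1 = [] := h1
      have : update (update σ 0 []) 1 [] = σ := by
        funext r
        by_cases hr : r = 1
        · subst hr; rw [update_self, e1]
        · rw [update_of_ne hr]
          by_cases hr' : r = 0
          · subst hr'; rw [update_self, e0]
          · rw [update_of_ne hr']
      rw [this]
      exact ⟨0, by simp, Iter.nil σ⟩
    | cons x l ih =>
      intro σ h0 h1
      obtain ⟨b, l', hl'⟩ : ∃ b l', σ 0 = b :: l' := by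
        cases h : σ 0 with
        | nil => rw [h] at h0; simp at h0
        | cons b l' => exact ⟨b, l', rfl⟩
      rw [List.flatMap_cons] at h1
      have h2 : Run O (popAny 0) 1 σ (update σ 0 l') := run_popAny.2 ⟨b, l', hl', rfl, rfl⟩
      have h3 := popHdr_complete (O := O) (r := 1) x (l.flatMap hdr) (update σ 0 l')
        (by rw [update_of_ne (by norm_num)]; exact h1)
      obtain ⟨t, ht, h4⟩ := ih (update (update σ 0 l') 1 (l.flatMap hdr))
        (by rw [update_of_ne (by norm_num), update_self]; rw [hl'] at h0; simpa using h0)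
        (by rw [update_self])
      rw [update_self, update_of_ne (by norm_num), update_self] at ht
      refine ⟨(1 + (2 * x.length + 2)) + t, ?_, ?_⟩
      · rw [hl', h1, List.length_cons, List.length_append, length_hdr]
        omega
      · have h5 := Iter.cons (R := Run O (.seq (popAny 0) (popHdr 1))) ⟨_, _, _, rfl, h2, h3⟩ h4
        have h6 : update (update (update (update σ 0 l') 1 (l.flatMap hdr)) 0 []) 1 [] =
            update (update σ 0 []) 1 [] := by
          funext r
          by_cases hr : r = 1
          · subst hr; simp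
          · by_cases hr' : r = 0
            · subst hr'; simp
            · simp [hr, hr']
        rw [h6] at h5
        exact h5

end Pool.Agent.LibCL48
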