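import Pool.Agent.LibNexp.Witness

/-!
Relations recognised in nondeterministic time bounded by a function of the arguments, up to
constants, and relations recognised in nondeterministic polynomial time.
-/

namespace Pool.Agent.LibCL48

open Function Pool.Agent.LibNexp

variable {O : List Bool → Bool}

/-- The relation `R` is recognised in nondeterministic time `O(T + size + 1)`. -/
def Rec (O : List Bool → Bool) {k : ℕ} (T : (Fin k → List Bool) → ℕ)
    (R : (Fin k → List Bool) → Prop) : Prop :=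
  ∃ (p : Prog) (K : ℕ), ∀ e : Fin k → List Bool,
    (∀ t σ', Run O p t (init e) σ' → R e) ∧
    (R e → ∃ t σ', t ≤ K * (T e + size e + 1) ∧ Run O p t (init e) σ')

theorem Rec.mono {k : ℕ} {T T' : (Fin k → List Bool) → ℕ} {R : (Fin k → List Bool) → Prop}
    (h : Rec O T R) (M : ℕ) (hT : ∀ e, T e ≤ M * (T' e + size e + 1)) : Rec O T' R := by
  obtain ⟨p, K, hp⟩ := h
  refine ⟨p, K * (M + 1), fun e => ⟨(hp e).1, fun he => ?_⟩⟩
  obtain ⟨t, σ', ht, h1⟩ := (hp e).2 he
  refine ⟨t, σ', le_trans ht ?_, h1⟩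
  have h2 : T e + size e + 1 ≤ (M + 1) * (T' e + size e + 1) := by
    have := hT e
    nlinarith [Nat.zero_le (T' e)]
  rw [mul_assoc]
  exact Nat.mul_le_mul_left K h2

theorem Rec.congr {k : ℕ} {T : (Fin k → List Bool) → ℕ} {R R' : (Fin k → List Bool) → Prop}
    (h : Rec O T R) (hR : ∀ e, R e ↔ R' e) : Rec O T R' := by
  have : R = R' := funext fun e => propext (hR e)
  rwa [← this]

theorem Rec.test {k b : ℕ} {T : (Fin k → List Bool) → ℕ} {R : (Fin k → List Bool) → Prop}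
    (hR : Rec O T R) {rs : Fin k → ℕ} (hrs : ∀ j, rs j < b) :
    ∃ K p, IsTest O b (fun σ => R fun j => σ (rs j))
      (fun σ => K * (T (fun j => σ (rs j)) + size (fun j => σ (rs j)) + 1)) p := by
  obtain ⟨p, K, hp⟩ := hR
  refine ⟨(p.regs + k + 6 + 2 * k) * (K + 1), call b (List.ofFn rs) p, fun σ hq =>
    ⟨fun t σ' h => ?_, fun h => ?_⟩⟩
  · obtain ⟨h1, t', τ, h2⟩ := call_sound hrs hq h
    exact ⟨h1, (hp _).1 _ _ h2⟩
  · obtain ⟨t, τ, ht, h1⟩ := (hp _).2 h
    obtain ⟨t', ht', h2⟩ := call_complete hrs hq h1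
    refine ⟨t', le_trans ht' ?_, h2⟩
    set s := size fun j => σ (rs j) with hs
    set u := T fun j => σ (rs j) with hu
    have e1 : s + t + 1 ≤ (K + 1) * (u + s + 1) := by
      nlinarith [Nat.zero_le u]
    have e2 : (p.regs + k + 6) * (s + t + 1) ≤ (p.regs + k + 6) * ((K + 1) * (u + s + 1)) :=
      Nat.mul_le_mul_left _ e1
    have e3 : 2 * k ≤ 2 * k * ((K + 1) * (u + s + 1)) :=
      Nat.le_mul_of_pos_right _ (Nat.mul_pos (Nat.succ_pos _) (Nat.succ_pos _))
    calc (p.regs + k + 6) * (s + t + 1) + 2 * k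
        ≤ (p.regs + k + 6) * ((K + 1) * (u + s + 1)) + 2 * k * ((K + 1) * (u + s + 1)) :=
          Nat.add_le_add e2 e3
      _ = (p.regs + k + 6 + 2 * k) * (K + 1) * (u + s + 1) := by ring

/-- A test on the input gives recognition. -/
theorem rec_of_test {k : ℕ} {R : (Fin k → List Bool) → Prop} {Q : State → Prop}
    {T : State → ℕ} {p : Prog} (hp : IsTest O k Q T p) (hQ : ∀ e, Q (init e) ↔ R e)
    {T' : (Fin k → List Bool) → ℕ} (K : ℕ)
    (hT : ∀ e : Fin k → List Bool, T (init e) ≤ K * (T' e + size e + 1)) : Rec O T' R := by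
  refine ⟨p, K, fun e => ⟨fun t σ' h => ?_, fun he => ?_⟩⟩
  · exact (hQ e).1 ((hp _ (quiet_init e)).1 _ _ h).2
  · obtain ⟨t, ht, h⟩ := (hp _ (quiet_init e)).2 ((hQ e).2 he)
    exact ⟨t, _, le_trans ht (hT e), h⟩

theorem Rec.and {k : ℕ} {T₁ T₂ : (Fin k → List Bool) → ℕ} {R₁ R₂ : (Fin k → List Bool) → Prop}
    (h₁ : Rec O T₁ R₁) (h₂ : Rec O T₂ R₂) : Rec O (fun e => T₁ e + T₂ e) fun e => R₁ e ∧ R₂ e := by
  obtain ⟨K₁, p₁, hp₁⟩ := h₁.test (b := k) (rs := fun j => j) (fun j => j.2)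
  obtain ⟨K₂, p₂, hp₂⟩ := h₂.test (b := k) (rs := fun j => j) (fun j => j.2)
  refine rec_of_test (hp₁.seq hp₂) (fun e => ?_) (K₁ + K₂) (fun e => ?_)
  · simp only [init_apply]
  · simp only [init_apply]
    nlinarith [Nat.zero_le (K₁ * T₂ e), Nat.zero_le (K₂ * T₁ e)]

theorem Rec.or {k : ℕ} {T₁ T₂ : (Fin k → List Bool) → ℕ} {R₁ R₂ : (Fin k → List Bool) → Prop}
    (h₁ : Rec O T₁ R₁) (h₂ : Rec O T₂ R₂) : Rec O (fun e => T₁ e + T₂ e) fun e => R₁ e ∨ R₂ e := by
  obtain ⟨K₁, p₁, hp₁⟩ := h₁.test (b := k) (rs := fun j => j) (fun j => j.2)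
  obtain ⟨K₂, p₂, hp₂⟩ := h₂.test (b := k) (rs := fun j => j) (fun j => j.2)
  refine rec_of_test (hp₁.alt hp₂) (fun e => ?_) (K₁ + K₂) (fun e => ?_)
  · simp only [init_apply]
  · simp only [init_apply]
    nlinarith [Nat.zero_le (K₁ * T₂ e), Nat.zero_le (K₂ * T₁ e)]

theorem Rec.reindex {k m : ℕ} {T : (Fin k → List Bool) → ℕ} {R : (Fin k → List Bool) → Prop}
    (h : Rec O T R) (f : Fin k → Fin m) :
    Rec O (fun e : Fin m → List Bool => T fun j => e (f j)) fun e => R fun j => e (f j) := by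
  obtain ⟨K, p, hp⟩ := h.test (b := m) (rs := fun j => f j) (fun j => (f j).2)
  refine rec_of_test hp (fun e => ?_) (K * (k + 1)) (fun e => ?_)
  · simp only [init_apply]
  · simp only [init_apply]
    rw [mul_assoc]
    refine Nat.mul_le_mul_left K ?_
    have := size_comp_le e f
    nlinarith [Nat.zero_le (k * T fun j => e (f j))]

theorem Rec.exists {k : ℕ} {T : (Fin (k + 1) → List Bool) → ℕ}
    {R : (Fin (k + 1) → List Bool) → Prop} (h : Rec O T R) {T' : (Fin k → List Bool) → ℕ}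
    (M : ℕ) (hbound : ∀ e z, R (app e z) → z.length ≤ M * (T' e + size e + 1) ∧
      T (app e z) ≤ M * (T' e + size e + 1)) :
    Rec O T' fun e : Fin k → List Bool => ∃ z, R (app e z) := by
  obtain ⟨K, p, hp⟩ := h.test (b := k + 1) (rs := fun j => j) (fun j => j.2)
  refine ⟨.seq (guess k) p, M + K * (2 * M + 1), fun e => ?_⟩
  have hσ : ∀ z, update (init e) k (z ++ init e k) = init (app e z) := by
    intro z
    have : init e k = [] := quiet_init e k le_rfl
    rw [this, List.append_nil, update_init]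
  constructor
  · rintro t σ' ⟨t1, t2, τ, -, h1, h2⟩
    rw [run_guess] at h1
    obtain ⟨z, -, rfl⟩ := h1
    rw [hσ] at h2
    have h3 := (hp _ (quiet_init _)).1 _ _ h2
    refine ⟨z, ?_⟩
    have h4 := h3.2
    simpa only [init_apply] using h4
  · rintro ⟨z, hz⟩
    obtain ⟨hz1, hz2⟩ := hbound e z hz
    obtain ⟨t, ht, h1⟩ := (hp _ (quiet_init (app e z))).2 (by simpa only [init_apply] using hz)
    refine ⟨z.length + t, init (app e z), ?_, z.length, t, init (app e z), rfl, ?_, h1⟩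
    · simp only [init_apply] at ht
      have h3 : size (app e z) = size e + z.length := size_app e z
      have h4 : T (app e z) + size (app e z) + 1 ≤ (2 * M + 1) * (T' e + size e + 1) := by
        rw [h3]
        nlinarith [Nat.zero_le (T' e)]
      have h5 : K * (T (app e z) + size (app e z) + 1) ≤ K * ((2 * M + 1) * (T' e + size e + 1)) :=
        Nat.mul_le_mul_left K h4
      calc z.length + t ≤ M * (T' e + size e + 1) + K * ((2 * M + 1) * (T' e + size e + 1)) :=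
            Nat.add_le_add hz1 (le_trans ht h5)
        _ = (M + K * (2 * M + 1)) * (T' e + size e + 1) := by ring
    · rw [run_guess]
      exact ⟨z, rfl, (hσ z).symm⟩

/-- Nondeterministic polynomial time. -/
def PT (O : List Bool → Bool) {k : ℕ} (R : (Fin k → List Bool) → Prop) : Prop :=
  ∃ c : ℕ, Rec O (fun e => size e ^ c) R

theorem pow_le_pow_add_one {n c d : ℕ} (h : c ≤ d) : n ^ c ≤ n ^ d + 1 := by
  rcases Nat.eq_zero_or_pos n with rfl | hn
  · have : (0 : ℕ) ^ c ≤ 1 := pow_le_one₀ (le_refl _) (by omega)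
    exact le_trans this (Nat.le_add_left _ _)
  · exact le_trans (Nat.pow_le_pow_right hn h) (Nat.le_succ _)

theorem PT.of_rec {k : ℕ} {R : (Fin k → List Bool) → Prop} {T : (Fin k → List Bool) → ℕ}
    {f : ℕ → ℕ} (hf : PolyB f) (h : Rec O T R) (hT : ∀ e, T e ≤ f (size e)) : PT O R := by
  obtain ⟨c, hc⟩ := hf
  refine ⟨c, h.mono (c + 1) fun e => le_trans (hT e) (le_trans (hc _) ?_)⟩
  nlinarith [Nat.zero_le (size e ^ c), Nat.zero_le (c * size e ^ c), Nat.zero_le (c * size e)]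

theorem pt_of_prog {k : ℕ} {R : (Fin k → List Bool) → Prop} (p : Prog) {T : ℕ → ℕ}
    (hT : PolyB T) (h1 : ∀ e t σ', Run O p t (init e) σ' → R e)
    (h2 : ∀ e, R e → ∃ t σ', t ≤ T (size e) ∧ Run O p t (init e) σ') : PT O R := by
  refine PT.of_rec (T := fun e => T (size e)) hT ⟨p, 1, fun e => ⟨h1 e, fun he => ?_⟩⟩ fun e => le_rfl
  obtain ⟨t, σ', ht, h⟩ := h2 e he
  refine ⟨t, σ', ?_, h⟩
  show t ≤ 1 * (T (size e) + size e + 1)
  omega

theorem PT.congr {k : ℕ} {R R' : (Fin k → List Bool) → Prop}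
    (h : PT O R) (hR : ∀ e, R e ↔ R' e) : PT O R' := by
  have : R = R' := funext fun e => propext (hR e)
  rwa [← this]

theorem PT.and {k : ℕ} {R₁ R₂ : (Fin k → List Bool) → Prop} (h₁ : PT O R₁) (h₂ : PT O R₂) :
    PT O fun e => R₁ e ∧ R₂ e := by
  obtain ⟨c₁, h₁⟩ := h₁
  obtain ⟨c₂, h₂⟩ := h₂
  exact PT.of_rec (f := fun n => n ^ c₁ + n ^ c₂) ((PolyB.id.pow c₁).add (PolyB.id.pow c₂))
    (h₁.and h₂) fun e => le_rfl

theorem PT.or {k : ℕ} {R₁ R₂ : (Fin k → List Bool) → Prop} (h₁ : PT O R₁) (h₂ : PT O R₂) :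
    PT O fun e => R₁ e ∨ R₂ e := by
  obtain ⟨c₁, h₁⟩ := h₁
  obtain ⟨c₂, h₂⟩ := h₂
  exact PT.of_rec (f := fun n => n ^ c₁ + n ^ c₂) ((PolyB.id.pow c₁).add (PolyB.id.pow c₂))
    (h₁.or h₂) fun e => le_rfl

theorem PT.reindex {k m : ℕ} {R : (Fin k → List Bool) → Prop} (h : PT O R)
    (f : Fin k → Fin m) : PT O fun e : Fin m → List Bool => R fun j => e (f j) := by
  obtain ⟨c, h⟩ := h
  exact PT.of_rec (f := fun n => (k * n) ^ c) (((PolyB.const k).mul PolyB.id).pow c)
    (h.reindex f) fun e => Nat.pow_le_pow_left (size_comp_le e f) c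

theorem PT.exists {k : ℕ} {R : (Fin (k + 1) → List Bool) → Prop} (h : PT O R)
    {g : ℕ → ℕ} (hg : PolyB g) (hbound : ∀ e z, R (app e z) → z.length ≤ g (size e)) :
    PT O fun e : Fin k → List Bool => ∃ z, R (app e z) := by
  obtain ⟨c, h⟩ := h
  refine PT.of_rec (T := fun e => g (size e) + (size e + g (size e)) ^ c)
    (f := fun n => g n + (n + g n) ^ c) (hg.add ((PolyB.id.add hg).pow c)) (h.exists 1 ?_)
    fun e => le_rfl
  intro e z hz
  have h1 := hbound e z hz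
  have h2 : size (app e z) ≤ size e + g (size e) := by rw [size_app]; omega
  have h3 := Nat.pow_le_pow_left h2 c
  constructor
  · omega
  · show size (app e z) ^ c ≤ _
    omega

end Pool.Agent.LibCL48
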