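import Pool.Agent.LibCL48.Pad

/-!
Advice is correct: the set of the wrong advices is in nondeterministic time, and its complement
can be recognised with less advice.
-/

namespace Pool.Agent.LibCL48

open Function Filter Pool.Agent.LibNexp
open Pool.Agent.LibTA48 (NTLang TB ntLang_of_tb ntLang_mono size_one)

variable {O : List Bool → Bool}

theorem pt_lineq (A B : ℕ) : PT O fun e : Fin 2 → List Bool =>
    (e 1).length = A * (e 0).length + B := by
  refine (pt_len (O := O) 1 A 0 B).congr fun e => ⟨?_, fun h => ⟨(e 0).length, by omega, h⟩⟩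
  rintro ⟨k, h1, h2⟩
  rw [h1, h2]
  ring

theorem pt_linle (A B : ℕ) : PT O fun e : Fin 2 → List Bool =>
    (e 1).length ≤ A * (e 0).length + B := by
  have h1 : PT O fun e : Fin 2 → List Bool => ∃ v : List Bool, v.length = A * (e 0).length + B ∧
      (e 1).length ≤ v.length := by
    refine PT.ex (R := fun (e : Fin 2 → List Bool) v => v.length = A * (e 0).length + B ∧
      (e 1).length ≤ v.length) (g := fun n => A * n + B) ?_
      (((PolyB.const A).mul PolyB.id).add (PolyB.const B)) ?_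
    · exact ((pt_lineq (O := O) A B).reindex (m := 3) ![0, 2]).and
        ((pt_le (O := O)).reindex (m := 3) ![1, 2])
    · rintro e v ⟨h, -⟩
      rw [h]
      exact Nat.add_le_add_right (Nat.mul_le_mul_left A (len_le_size e 0)) B
  refine h1.congr fun e => ⟨?_, fun h => ?_⟩
  · rintro ⟨v, h2, h3⟩
    omega
  · exact ⟨List.replicate (A * (e 0).length + B) true, by simp, by simpa using h⟩

theorem size_six (e : Fin 6 → List Bool) : size e = (e 0).length + (e 1).length + (e 2).length +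
    (e 3).length + (e 4).length + (e 5).length := by
  simp [size, Fin.sum_univ_six]

theorem size_nine (e : Fin 9 → List Bool) : size e = (e 0).length + (e 1).length + (e 2).length +
    (e 3).length + (e 4).length + (e 5).length + (e 6).length + (e 7).length + (e 8).length := by
  simp only [size, Fin.sum_univ_succ, Fin.sum_univ_zero]
  show (e 0).length + ((e 1).length + ((e 2).length + ((e 3).length + ((e 4).length +
    ((e 5).length + ((e 6).length + ((e 7).length + ((e 8).length + 0)))))))) = _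
  omega

theorem le_rpow_of_pow_le {p q n k : ℕ} (hp : 1 ≤ p) (h : n ^ p ≤ k ^ q) :
    (n : ℝ) ≤ (k : ℝ) ^ ((q : ℝ) / p) := by
  have hp0 : (0 : ℝ) < p := by exact_mod_cast hp
  have h1 : ((n : ℝ) ^ p) ≤ (k : ℝ) ^ q := by exact_mod_cast h
  have h2 : ((n : ℝ) ^ p) ^ (1 / (p : ℝ)) ≤ ((k : ℝ) ^ q) ^ (1 / (p : ℝ)) :=
    Real.rpow_le_rpow (by positivity) h1 (by positivity)
  rw [← Real.rpow_natCast, ← Real.rpow_natCast, ← Real.rpow_mul (by positivity),
    ← Real.rpow_mul (by positivity), mul_one_div, mul_one_div, div_self hp0.ne', Real.rpow_one] at h2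
  exact h2

/-- The wrong advices. -/
def WrongAdv (p q : ℕ) (L B : Lang) : Lang :=
  {w | ∃ z : Fin 5 → List Bool, w = pair (z 0) (z 1) ∧ z 1 = pair (z 2) (z 3) ∧
    val (z 0) + (z 4).length + 1 = 2 ^ (z 0).length ∧ (z 4).length ^ p ≤ w.length ^ q ∧
    z 4 ∈ L ∧ pair (z 4) (z 2) ∈ B}

theorem wrongAdv_mem {b : ℝ} {p q : ℕ} (hp : 1 ≤ p) (hpq : p ≤ q) (hb : 0 < b) {L B : Lang}
    (hL : L ∈ NTLang O b) (hB : B ∈ NTLang O b) :
    WrongAdv p q L B ∈ NTLang O ((q : ℝ) / p * b) := by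
  have hp0 : (0 : ℝ) < p := by exact_mod_cast hp
  have hr : (1 : ℝ) ≤ (q : ℝ) / p := by
    rw [le_div_iff₀ hp0, one_mul]
    exact_mod_cast hpq
  have hrb : 0 < (q : ℝ) / p * b := mul_pos (by linarith) hb
  obtain ⟨C, hC⟩ := rec_pair_mem hB
  obtain ⟨C', hC'⟩ := Rec.of_ntLang hL
  obtain ⟨c1, h1⟩ := (pt_pairRel (O := O)).reindex (m := 6) ![1, 2, 0]
  obtain ⟨c2, h2⟩ := (pt_pairRel (O := O)).reindex (m := 6) ![3, 4, 2]
  obtain ⟨c3, h3⟩ := (pt_val (O := O)).reindex (m := 6) ![1, 5]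
  obtain ⟨c4, h4⟩ := (pt_powle (O := O) p q).reindex (m := 6) ![5, 0]
  have h5 := hC'.reindex (m := 6) ![5]
  have h6 := hC.reindex (m := 6) ![5, 3]
  have hsize : ∀ e : Fin 6 → List Bool, (e 0 = pair (e 1) (e 2) ∧ e 2 = pair (e 3) (e 4) ∧
      val (e 1) + (e 5).length + 1 = 2 ^ (e 1).length ∧ (e 5).length ^ p ≤ (e 0).length ^ q ∧
      e 5 ∈ L ∧ pair (e 5) (e 3) ∈ B) →
      (size e : ℝ) ≤ (9 : ℕ) * (((e 0).length : ℝ) ^ ((q : ℝ) / p) + 1) ∧
      ((e 5).length : ℝ) ≤ (9 : ℕ) * (((e 0).length : ℝ) ^ ((q : ℝ) / p) + 1) ∧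
      ((pair (e 5) (e 3)).length : ℝ) ≤ (9 : ℕ) * (((e 0).length : ℝ) ^ ((q : ℝ) / p) + 1) := by
    rintro e ⟨g1, g2, -, g3, -, -⟩
    have g4 : ((e 5).length : ℝ) ≤ ((e 0).length : ℝ) ^ ((q : ℝ) / p) := le_rpow_of_pow_le hp g3
    have g6 := le_rpow_add_one hr (e 0).length
    have g7 : (e 0).length = 2 * (e 1).length + (e 2).length + 2 := by rw [g1, length_pair]
    have g8 : (e 2).length = 2 * (e 3).length + (e 4).length + 2 := by rw [g2, length_pair]
    have g9 : ((e 0).length : ℝ) = 2 * (e 1).length + (e 2).length + 2 := by exact_mod_cast g7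
    have g10 : ((e 2).length : ℝ) = 2 * (e 3).length + (e 4).length + 2 := by exact_mod_cast g8
    have k1 := (e 1).length.cast_nonneg (α := ℝ)
    have k3 := (e 3).length.cast_nonneg (α := ℝ)
    have k4 := (e 4).length.cast_nonneg (α := ℝ)
    refine ⟨?_, ?_, ?_⟩
    · rw [size_six]
      push_cast
      linarith
    · push_cast
      linarith
    · rw [length_pair]
      push_cast
      linarith
  have hsz : BD (fun e : Fin 6 → List Bool => e 0 = pair (e 1) (e 2) ∧ e 2 = pair (e 3) (e 4) ∧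
      val (e 1) + (e 5).length + 1 = 2 ^ (e 1).length ∧ (e 5).length ^ p ≤ (e 0).length ^ q ∧
      e 5 ∈ L ∧ pair (e 5) (e 3) ∈ B)
      (fun e => ⌈((e 0).length : ℝ) ^ ((q : ℝ) / p * b)⌉₊) fun e => size e :=
    bd_lin (m := fun e => size e) (n := fun e => (e 0).length) (r := (q : ℝ) / p) hrb 9
      fun e he => (hsize e he).1
  refine ntLang_exN hrb (w := 5) (R := fun w z => w = pair (z 0) (z 1) ∧ z 1 = pair (z 2) (z 3) ∧
    val (z 0) + (z 4).length + 1 = 2 ^ (z 0).length ∧ (z 4).length ^ p ≤ w.length ^ q ∧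
    z 4 ∈ L ∧ pair (z 4) (z 2) ∈ B)
    (h1.and (h2.and (h3.and (h4.and (h5.and h6))))) ?_ hsz
  refine (hsz.pow c1).add ((hsz.pow c2).add ((hsz.pow c3).add ((hsz.pow c4).add
    (BD.add ?_ (BD.add ?_ ?_)))))
  · exact bd_exp (m := fun e : Fin 6 → List Bool => (e 5).length)
      (n := fun e => (e 0).length) (r := (q : ℝ) / p) hb 9 (fun e he => (hsize e he).2.1) C'
  · refine (((BD.const 2).mul hsz).pow C).mono (fun e he => he) fun e _ => ?_
    refine Nat.pow_le_pow_left ?_ C
    have e0 := len_le_size e 5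
    have e1 := len_le_size e 3
    rw [size_two]
    show (e 5).length + (e 3).length ≤ 2 * size e
    omega
  · exact bd_exp (m := fun e : Fin 6 → List Bool => (pair (e 5) (e 3)).length)
      (n := fun e => (e 0).length) (r := (q : ℝ) / p) hb 9 (fun e he => (hsize e he).2.2) C

/-- The relation between the input, the advice, and the guessed strings. -/
def SB (p q K K3 : ℕ) (B B2 : Lang) (w : List Bool) (z : Fin 8 → List Bool) : Prop :=
  w = pair (z 0) (z 1) ∧ (z 2).length = zt p q (z 0).length ∧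
    (z 3).length = K * (z 2).length + K ∧ val (z 3) + (z 0).length + 1 = 2 ^ (z 3).length ∧
    (z 4).length = 2 * K * (z 2).length + (2 * K + 2) ∧ z 4 = pair (z 5) (z 6) ∧
    (z 1).length ≤ K3 * (z 2).length + K3 ∧ z 7 = pair (z 3) (z 4) ∧ pair (z 7) (z 1) ∈ B2 ∧
    pair (z 0) (z 5) ∈ B

theorem selfBack_mem {b b' m : ℝ} {p q : ℕ} (hp : 1 ≤ p) (hpq : p ≤ q) (hb : 0 < b) (hb' : 0 < b')
    (K K3 : ℕ) {B B2 : Lang} (hB : B ∈ NTLang O b) (hB2 : B2 ∈ NTLang O b') (hm1 : b ≤ m)
    (hm2 : (p : ℝ) / q * b' ≤ m) :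
    {w | ∃ z : Fin 8 → List Bool, SB p q K K3 B B2 w z} ∈ NTLang O m := by
  have hq : 1 ≤ q := by omega
  have hp0 : (0 : ℝ) < p := by exact_mod_cast hp
  have hq0 : (0 : ℝ) < q := by exact_mod_cast hq
  have hr : (p : ℝ) / q ≤ 1 := by
    rw [div_le_one hq0]
    exact_mod_cast hpq
  have hr0 : 0 < (p : ℝ) / q := div_pos hp0 hq0
  have hm : 0 < m := lt_of_lt_of_le hb hm1
  obtain ⟨C, hC⟩ := rec_pair_mem hB
  obtain ⟨C', hC'⟩ := rec_pair_mem hB2
  obtain ⟨c1, h1⟩ := (pt_pairRel (O := O)).reindex (m := 9) ![1, 2, 0]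
  obtain ⟨c2, h2⟩ := (pt_zt (O := O) p hq).reindex (m := 9) ![1, 3]
  obtain ⟨c3, h3⟩ := (pt_lineq (O := O) K K).reindex (m := 9) ![3, 4]
  obtain ⟨c4, h4⟩ := (pt_val (O := O)).reindex (m := 9) ![4, 1]
  obtain ⟨c5, h5⟩ := (pt_lineq (O := O) (2 * K) (2 * K + 2)).reindex (m := 9) ![3, 5]
  obtain ⟨c6, h6⟩ := (pt_pairRel (O := O)).reindex (m := 9) ![6, 7, 5]
  obtain ⟨c7, h7⟩ := (pt_linle (O := O) K3 K3).reindex (m := 9) ![3, 2]
  obtain ⟨c8, h8⟩ := (pt_pairRel (O := O)).reindex (m := 9) ![4, 5, 8]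
  have h9 := hC'.reindex (m := 9) ![8, 2]
  have h10 := hC.reindex (m := 9) ![1, 6]
  have hRec := h1.and (h2.and (h3.and (h4.and (h5.and (h6.and (h7.and (h8.and (h9.and h10))))))))
  have hsize : ∀ e : Fin 9 → List Bool, SB p q K K3 B B2 (e 0) (fun j => e j.succ) →
      (size e : ℝ) ≤ (20 * K + 2 * K3 + 30 : ℕ) * (((e 0).length : ℝ) ^ (1 : ℝ) + 1) ∧
      ((pair (e 8) (e 2)).length : ℝ) ≤ (20 * K + 2 * K3 + 30 : ℕ) *
        (((e 0).length : ℝ) ^ ((p : ℝ) / q) + 1) ∧
      ((pair (e 1) (e 6)).length : ℝ) ≤ (20 * K + 2 * K3 + 30 : ℕ) *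
        (((e 0).length : ℝ) ^ (1 : ℝ) + 1) := by
    rintro e ⟨g1, g2, g3, -, g4, g5, g6, g7, -, -⟩
    have g1' : e 0 = pair (e 1) (e 2) := g1
    have g2' : (e 3).length = zt p q (e 1).length := g2
    have g3' : (e 4).length = K * (e 3).length + K := g3
    have g4' : (e 5).length = 2 * K * (e 3).length + (2 * K + 2) := g4
    have g5' : e 5 = pair (e 6) (e 7) := g5
    have g6' : (e 2).length ≤ K3 * (e 3).length + K3 := g6
    have g7' : e 8 = pair (e 4) (e 5) := g7
    have k0 : (e 0).length = 2 * (e 1).length + (e 2).length + 2 := by rw [g1', length_pair]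
    have k5 : (e 5).length = 2 * (e 6).length + (e 7).length + 2 := by
      conv_lhs => rw [g5', length_pair]
    have k8 : (e 8).length = 2 * (e 4).length + (e 5).length + 2 := by rw [g7', length_pair]
    have k3 := zt_le_pow (p := p) hq (e 1).length
    rw [← g2'] at k3
    have k4 : ((e 1).length : ℝ) ^ ((p : ℝ) / q) ≤ ((e 0).length : ℝ) ^ ((p : ℝ) / q) := by
      refine Real.rpow_le_rpow (by positivity) ?_ hr0.le
      have : (e 1).length ≤ (e 0).length := by omega
      exact_mod_cast this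
    have k6 : ((e 0).length : ℝ) ^ ((p : ℝ) / q) ≤ ((e 0).length : ℝ) ^ (1 : ℝ) := by
      have : 1 ≤ (e 0).length := by omega
      exact Real.rpow_le_rpow_of_exponent_le (by exact_mod_cast this) hr
    rw [Real.rpow_one] at k6 ⊢
    set W : ℝ := ((e 0).length : ℝ) with hW
    set V : ℝ := W ^ ((p : ℝ) / q) with hV
    have kW : (W : ℝ) = 2 * ((e 1).length : ℝ) + (e 2).length + 2 := by
      rw [hW, k0]; push_cast; ring
    have j3 : ((e 3).length : ℝ) ≤ V + 1 := by linarith
    have j4 : ((e 4).length : ℝ) = K * (e 3).length + K := by exact_mod_cast g3'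
    have j5 : ((e 5).length : ℝ) = 2 * K * (e 3).length + (2 * K + 2) := by exact_mod_cast g4'
    have j5' : ((e 5).length : ℝ) = 2 * (e 6).length + (e 7).length + 2 := by exact_mod_cast k5
    have j2 : ((e 2).length : ℝ) ≤ K3 * (e 3).length + K3 := by exact_mod_cast g6'
    have j8 : ((e 8).length : ℝ) = 2 * (e 4).length + (e 5).length + 2 := by exact_mod_cast k8
    have n1 := (e 1).length.cast_nonneg (α := ℝ)
    have n2 := (e 2).length.cast_nonneg (α := ℝ)
    have n3 := (e 3).length.cast_nonneg (α := ℝ)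
    have n6 := (e 6).length.cast_nonneg (α := ℝ)
    have n7 := (e 7).length.cast_nonneg (α := ℝ)
    have nK : (0 : ℝ) ≤ K := by positivity
    have nK3 : (0 : ℝ) ≤ K3 := by positivity
    have nV : 0 ≤ V := by positivity
    have i1 : (K : ℝ) * (e 3).length ≤ K * (V + 1) := mul_le_mul_of_nonneg_left j3 nK
    have i2 : (K3 : ℝ) * (e 3).length ≤ K3 * (V + 1) := mul_le_mul_of_nonneg_left j3 nK3
    have i3 : (K : ℝ) * (V + 1) ≤ K * (W + 1) := mul_le_mul_of_nonneg_left (by linarith) nK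
    have i4 : (K3 : ℝ) * (V + 1) ≤ K3 * (W + 1) := mul_le_mul_of_nonneg_left (by linarith) nK3
    have nKV : 0 ≤ (K : ℝ) * V := by positivity
    have nKW : 0 ≤ (K : ℝ) * W := by positivity
    have nK3V : 0 ≤ (K3 : ℝ) * V := by positivity
    have nK3W : 0 ≤ (K3 : ℝ) * W := by positivity
    refine ⟨?_, ?_, ?_⟩
    · rw [size_nine]
      push_cast
      nlinarith
    · rw [length_pair]
      push_cast
      nlinarith
    · rw [length_pair]
      push_cast
      nlinarith
  have hsz : BD (fun e : Fin 9 → List Bool => SB p q K K3 B B2 (e 0) (fun j => e j.succ))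
      (fun e => ⌈((e 0).length : ℝ) ^ m⌉₊) fun e => size e :=
    bd_lin (m := fun e => size e) (n := fun e => (e 0).length) (r := 1) hm _
      fun e he => (hsize e he).1
  refine ntLang_exN hm (w := 8) (R := SB p q K K3 B B2) hRec ?_ hsz
  refine (hsz.pow c1).add ((hsz.pow c2).add ((hsz.pow c3).add ((hsz.pow c4).add ((hsz.pow c5).add
    ((hsz.pow c6).add ((hsz.pow c7).add ((hsz.pow c8).add (BD.add (BD.add ?_ ?_)
    (BD.add ?_ ?_)))))))))
  · refine (((BD.const 2).mul hsz).pow C').mono (fun e he => he) fun e _ => ?_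
    refine Nat.pow_le_pow_left ?_ C'
    have e0 := len_le_size e 8
    have e1 := len_le_size e 2
    rw [size_two]
    show (e 8).length + (e 2).length ≤ 2 * size e
    omega
  · refine (bd_exp (m := fun e : Fin 9 → List Bool => (pair (e 8) (e 2)).length)
      (n := fun e => (e 0).length) (r := (p : ℝ) / q) hb' _ (fun e he => (hsize e he).2.1) C').up 1
      fun e _ => ?_
    have := ceil_mono hm2 (e 0).length
    omega
  · refine (((BD.const 2).mul hsz).pow C).mono (fun e he => he) fun e _ => ?_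
    refine Nat.pow_le_pow_left ?_ C
    have e0 := len_le_size e 1
    have e1 := len_le_size e 6
    rw [size_two]
    show (e 1).length + (e 6).length ≤ 2 * size e
    omega
  · refine (bd_exp (m := fun e : Fin 9 → List Bool => (pair (e 1) (e 6)).length)
      (n := fun e => (e 0).length) (r := 1) hb _ (fun e he => (hsize e he).2.2) C).up 1
      fun e _ => ?_
    have := ceil_mono (show 1 * b ≤ m by linarith) (e 0).length
    omega

end Pool.Agent.LibCL48
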