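import Pool.Agent.LibCL48.Self

/-!
The law of the correct advice.
-/

namespace Pool.Agent.LibCL48

open Function Filter Pool.Agent.LibNexp
open Pool.Agent.LibTA48 (NTLang TB ntLang_of_tb ntLang_mono size_one)

variable {O : List Bool → Bool}

theorem self_iff {p q K K3 : ℕ} (hp : 1 ≤ p) (hpq : p ≤ q) (hK : q + 1 ≤ K) {L B B2 : Lang}
    {f f2 : ℕ → List Bool}
    (hL : Lᶜ = {x | pair x (f x.length) ∈ B})
    (hU : (WrongAdv p q L B)ᶜ = {x | pair x (f2 x.length) ∈ B2})
    (hf : ∀ n, (f n).length ≤ K * zt p q n + K)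
    (hf2 : ∀ n, (f2 (4 * K * zt p q n + (4 * K + 4))).length ≤ K3 * zt p q n + K3) (x : List Bool) :
    x ∈ Lᶜ ↔ ∃ z : Fin 8 → List Bool,
      SB p q K K3 B B2 (pair x (f2 (4 * K * zt p q x.length + (4 * K + 4)))) z := by
  have hq : 1 ≤ q := by omega
  set n := x.length with hn
  set s := zt p q n with hs
  have hsn : n ^ p ≤ s ^ q := zt_spec hq n
  constructor
  · intro hxL
    have h1 : n < 2 ^ (K * s + K) := by
      have h2 : n ≤ n ^ p := Nat.le_self_pow (by omega) n
      have h3 : s ^ q ≤ (2 ^ s) ^ q := Nat.pow_le_pow_left Nat.lt_two_pow_self.le q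
      rw [← pow_mul] at h3
      have h4 : 2 ^ (s * q) < 2 ^ (K * s + K) := by
        refine Nat.pow_lt_pow_right (by norm_num) ?_
        have : s * q ≤ K * s := by rw [mul_comm]; exact Nat.mul_le_mul_right s (by omega)
        omega
      omega
    obtain ⟨β, hβ1, hβ2⟩ := exists_val h1
    set g := f n with hg
    have hgl : g.length ≤ K * s + K := hf n
    set π := List.replicate (2 * (K * s + K) - 2 * g.length) true with hπ
    have hπl : π.length = 2 * (K * s + K) - 2 * g.length := by simp [hπ]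
    have hxB : pair x g ∈ B := by
      have h5 := hL ▸ hxL
      exact h5
    have hu : (pair g π).length = 2 * K * s + (2 * K + 2) := by
      rw [length_pair, hπl]
      have : 2 * K * s = 2 * (K * s) := by ring
      omega
    have hv : (pair β (pair g π)).length = 4 * K * s + (4 * K + 4) := by
      rw [length_pair, hu, hβ1]
      ring
    have hvU : pair β (pair g π) ∈ (WrongAdv p q L B)ᶜ := by
      rintro ⟨z, h5, h6, h7, h8, h9, h10⟩
      obtain ⟨h11, h12⟩ := pair_injective h5
      rw [← h12] at h6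
      obtain ⟨h13, h14⟩ := pair_injective h6
      rw [← h11, hβ1] at h7
      have h15 : (z 4).length = n := by omega
      have h16 : z 4 ∈ Lᶜ := by
        rw [hL, Set.mem_ofPred_eq, h15]
        rw [← h13] at h10
        exact h10
      exact h16 h9
    rw [hU, Set.mem_ofPred_eq, hv] at hvU
    refine ⟨![x, f2 (4 * K * s + (4 * K + 4)), List.replicate s true, β, pair g π, g, π,
      pair β (pair g π)], rfl, ?_, ?_, ?_, ?_, rfl, ?_, rfl, hvU, hxB⟩
    · show (List.replicate s true).length = zt p q x.length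
      simp [hs, hn]
    · show β.length = K * (List.replicate s true).length + K
      simp [hβ1]
    · show val β + x.length + 1 = 2 ^ β.length
      rw [hβ1]
      exact hβ2
    · show (pair g π).length = 2 * K * (List.replicate s true).length + (2 * K + 2)
      rw [hu]; simp
    · show (f2 (4 * K * s + (4 * K + 4))).length ≤ K3 * (List.replicate s true).length + K3
      have := hf2 n
      simpa using this
  · rintro ⟨z, h1, h2, h3, h4, h5, h6, h7, h8, h9, h10⟩ hxL
    obtain ⟨h11, h12⟩ := pair_injective h1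
    rw [← h11] at h2 h4 h10
    have h13 : (z 7).length = 4 * K * s + (4 * K + 4) := by
      rw [h8, length_pair, h3, h5, h2]
      ring
    have h14 : z 7 ∈ (WrongAdv p q L B)ᶜ := by
      rw [hU, Set.mem_ofPred_eq, h13, h12]
      exact h9
    refine h14 ⟨![z 3, z 4, z 5, z 6, x], ?_, h6, h4, ?_, hxL, h10⟩
    · exact h8
    · show x.length ^ p ≤ (z 7).length ^ q
      rw [h13]
      refine le_trans hsn (Nat.pow_le_pow_left ?_ q)
      have : 1 * s ≤ 4 * K * s := Nat.mul_le_mul_right s (by omega)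
      omega

theorem rpow_le_add_one {c : ℝ} (hc0 : 0 ≤ c) (hc1 : c ≤ 1) (n : ℕ) : (n : ℝ) ^ c ≤ n + 1 := by
  rcases Nat.eq_zero_or_pos n with rfl | hn
  · rw [Nat.cast_zero, zero_add]
    exact Real.rpow_le_one le_rfl (by norm_num) hc0
  · have h1 : (1 : ℝ) ≤ n := by exact_mod_cast hn
    have := Real.rpow_le_rpow_of_exponent_le h1 hc1
    rw [Real.rpow_one] at this
    linarith

/-- The law of the correct advice. -/
theorem enough_self {a b e b' d : ℝ} {p q : ℕ} (hp : 1 ≤ p) (hpq : p ≤ q) (ha : 0 < a)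
    (hab : a ≤ b) (he : 0 ≤ e) (heg : e ≤ (p : ℝ) / q) (hb' : 0 < b') (hd : 0 ≤ d) (hd1 : d ≤ 1)
    (h1 : Enough O a b e) (h2 : Enough O ((q : ℝ) / p * b) b' d) {m : ℝ} (hm1 : b ≤ m)
    (hm2 : (p : ℝ) / q * b' ≤ m) : Enough O a m ((p : ℝ) / q * d) := by
  have hq : 1 ≤ q := by omega
  have hp0 : (0 : ℝ) < p := by exact_mod_cast hp
  have hq0 : (0 : ℝ) < q := by exact_mod_cast hq
  have hr0 : 0 < (p : ℝ) / q := div_pos hp0 hq0
  have hb : 0 < b := by linarith
  intro L hL
  obtain ⟨B, hB, f, ⟨⟨C, hC⟩, -⟩, hLeq⟩ := h1 L hL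
  obtain ⟨B2, hB2, f2, hf2, hUeq⟩ := h2 _ (wrongAdv_mem hp hpq hb (ntLang_mono hab hL) hB)
  obtain ⟨⟨C2, hC2⟩, h0⟩ := id hf2
  set K := q + 1 + 2 * C with hK
  set K3 := C2 * (4 * K + 6) with hK3
  refine ⟨_, selfBack_mem hp hpq hb hb' K K3 hB hB2 hm1 hm2,
    fun n => f2 (4 * K * zt p q n + (4 * K + 4)), adv_comp hd hr0 hf2 (A := 8 * K + 4)
    (by positivity) (fun n => ?_), ?_⟩
  · have h3 := zt_le_pow (p := p) hq n
    have h4 : (0 : ℝ) ≤ (n : ℝ) ^ ((p : ℝ) / q) := by positivity
    have h5 : (0 : ℝ) ≤ K := by positivity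
    have h6 := mul_le_mul_of_nonneg_left h3 h5
    have h7 : 0 ≤ (K : ℝ) * (n : ℝ) ^ ((p : ℝ) / q) := by positivity
    push_cast
    nlinarith
  · refine Set.ext (self_iff hp hpq (by omega) hLeq hUeq (fun n => ?_) (fun n => ?_))
    · have h3 := hC n
      have h4 : (n : ℝ) ^ e ≤ (zt p q n : ℝ) + 1 := by
        rcases Nat.eq_zero_or_pos n with rfl | hn
        · have h5 : ((0 : ℕ) : ℝ) ^ e ≤ 1 := by
            rw [Nat.cast_zero]
            exact Real.rpow_le_one le_rfl (by norm_num) he
          have h6 := (zt p q 0).cast_nonneg (α := ℝ)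
          linarith
        · have h5 : (1 : ℝ) ≤ n := by exact_mod_cast hn
          have h6 := Real.rpow_le_rpow_of_exponent_le h5 heg
          have h7 := pow_le_zt (p := p) hq n
          linarith
      have h5 : ((f n).length : ℝ) ≤ ((K * zt p q n + K : ℕ) : ℝ) := by
        have h6 : (0 : ℝ) ≤ C := by positivity
        have h7 := mul_le_mul_of_nonneg_left h4 h6
        have h8 := (zt p q n).cast_nonneg (α := ℝ)
        have h9 : 0 ≤ (q : ℝ) * zt p q n := by positivity
        have h10 : 0 ≤ (C : ℝ) * zt p q n := by positivity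
        rw [hK]
        push_cast
        nlinarith
      exact_mod_cast h5
    · set M := 4 * K * zt p q n + (4 * K + 4) with hM
      have h3 := hC2 M
      have h4 := rpow_le_add_one hd hd1 M
      have h5 : ((f2 M).length : ℝ) ≤ ((C2 * (M + 2) : ℕ) : ℝ) := by
        have h6 : (0 : ℝ) ≤ C2 := by positivity
        have h7 := mul_le_mul_of_nonneg_left h4 h6
        push_cast
        nlinarith
      have h6 : (f2 M).length ≤ C2 * (M + 2) := by exact_mod_cast h5
      refine le_trans h6 ?_
      rw [hK3, hM]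
      have h7 : 4 * K * zt p q n + (4 * K + 4) + 2 ≤ (4 * K + 6) * zt p q n + (4 * K + 6) := by
        nlinarith [Nat.zero_le (zt p q n)]
      calc C2 * (4 * K * zt p q n + (4 * K + 4) + 2)
          ≤ C2 * ((4 * K + 6) * zt p q n + (4 * K + 6)) := Nat.mul_le_mul_left _ h7
        _ = C2 * (4 * K + 6) * zt p q n + C2 * (4 * K + 6) := by ring

end Pool.Agent.LibCL48
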