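import Pool.Agent.LibCL48.UnivMem

/-!
The universal simulation.
-/

namespace Pool.Agent.LibCL48

open Function Pool.Agent.LibNexp

variable {O : List Bool → Bool}

/-- Codes of programs. -/
def code : Prog → List Bool
  | .push r b => [false, false, false, b] ++ List.replicate r true
  | .pop r b => [false, false, true, b] ++ List.replicate r true
  | .query r b => [false, true, false, b] ++ List.replicate r true
  | .empty r => [false, true, true, false] ++ List.replicate r true
  | .seq p q => [true, false, false] ++ pair (code p) (code q)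
  | .alt p q => [true, false, true] ++ pair (code p) (code q)
  | .star p => [true, true] ++ code p

theorem code_seq {p : Prog} {X : List Bool} (h : code p = [true, false, false] ++ X) :
    ∃ p1 p2, p = .seq p1 p2 ∧ X = pair (code p1) (code p2) := by
  cases p <;> simp [code] at h
  exact ⟨_, _, rfl, h.symm⟩

theorem code_alt {p : Prog} {X : List Bool} (h : code p = [true, false, true] ++ X) :
    ∃ p1 p2, p = .alt p1 p2 ∧ X = pair (code p1) (code p2) := by
  cases p <;> simp [code] at h
  exact ⟨_, _, rfl, h.symm⟩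

theorem code_star {p : Prog} {X : List Bool} (h : code p = [true, true] ++ X) :
    ∃ p1, p = .star p1 ∧ X = code p1 := by
  cases p <;> simp [code] at h
  exact ⟨_, rfl, h.symm⟩

theorem code_push {p : Prog} {b : Bool} {X : List Bool} (h : code p = [false, false, false, b] ++ X) :
    ∃ r, p = .push r b ∧ X = List.replicate r true := by
  cases p <;> simp [code] at h
  obtain ⟨rfl, h⟩ := h
  exact ⟨_, rfl, h.symm⟩

theorem code_pop {p : Prog} {b : Bool} {X : List Bool} (h : code p = [false, false, true, b] ++ X) :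
    ∃ r, p = .pop r b ∧ X = List.replicate r true := by
  cases p <;> simp [code] at h
  obtain ⟨rfl, h⟩ := h
  exact ⟨_, rfl, h.symm⟩

theorem code_query {p : Prog} {b : Bool} {X : List Bool} (h : code p = [false, true, false, b] ++ X) :
    ∃ r, p = .query r b ∧ X = List.replicate r true := by
  cases p <;> simp [code] at h
  obtain ⟨rfl, h⟩ := h
  exact ⟨_, rfl, h.symm⟩

theorem code_empty {p : Prog} {X : List Bool} (h : code p = [false, true, true, false] ++ X) :
    ∃ r, p = .empty r ∧ X = List.replicate r true := by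
  cases p <;> simp [code] at h
  exact ⟨_, rfl, h.symm⟩

/-- The stacks below `m`. -/
def st (m : ℕ) (σ : State) : List (List Bool) := (List.range m).map σ

/-- The code of the stacks below `m`. -/
def encS (m : ℕ) (σ : State) : List Bool := (st m σ).flatMap hdr

/-- The code of a list of programs. -/
def encK (ps : List Prog) : List Bool := (ps.map code).flatMap hdr

theorem encK_cons (p : Prog) (ps : List Prog) : encK (p :: ps) = pair (code p) (encK ps) := by
  rw [pair_eq]
  rfl

theorem encK_nil : encK [] = [] := rfl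

theorem pair_ne_nil (x y : List Bool) : pair x y ≠ [] := by
  intro h
  have := congrArg List.length h
  rw [length_pair] at this
  simp at this

theorem encK_eq_nil {ps : List Prog} (h : encK ps = []) : ps = [] := by
  cases ps with
  | nil => rfl
  | cons p ps => exact absurd (encK_cons p ps ▸ h) (pair_ne_nil _ _)

/-- The code of a configuration. -/
def config (m : ℕ) (ps : List Prog) (σ : State) : List Bool := pair (encK ps) (encS m σ)

theorem st_update (m r : ℕ) (σ : State) (w : List Bool) :
    st m (update σ r w) = (st m σ).set r w := by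
  unfold st
  refine List.ext_getElem (by simp) fun i h1 h2 => ?_
  rw [List.getElem_map, List.getElem_range, List.getElem_set, List.getElem_map, List.getElem_range]
  by_cases h : r = i
  · subst h
    rw [update_self, if_pos rfl]
  · rw [update_of_ne (Ne.symm h), if_neg h]

theorem st_eq {m r : ℕ} {σ : State} {l1 l2 : List (List Bool)} {v : List Bool} (hr : l1.length = r)
    (h : st m σ = l1 ++ v :: l2) : v = σ r ∧ ∀ w, st m (update σ r w) = l1 ++ w :: l2 := by
  constructor
  · have h1 : r < (st m σ).length := by rw [h, List.length_append, List.length_cons]; omega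
    have h2 : (st m σ)[r] = σ r := by
      unfold st
      rw [List.getElem_map, List.getElem_range]
    have h3 : (st m σ)[r] = v := by
      simp only [h]
      rw [List.getElem_append_right (by omega)]
      simp [hr]
    rw [← h2, ← h3]
  · intro w
    rw [st_update, h, ← hr]
    simp

theorem st_split {m r : ℕ} (hr : r < m) (σ : State) : ∃ l1 l2, l1.length = r ∧
    st m σ = l1 ++ σ r :: l2 := by
  have h1 : (st m σ).length = m := by simp [st]
  refine ⟨(st m σ).take r, (st m σ).drop (r + 1), by rw [List.length_take, h1]; omega, ?_⟩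
  have h2 : (st m σ)[r]'(by omega) = σ r := by
    unfold st
    rw [List.getElem_map, List.getElem_range]
  rw [← h2, List.getElem_cons_drop, List.take_append_drop]

theorem hdrs_split : ∀ {l1 l : List (List Bool)} {v B : List Bool},
    l.flatMap hdr = l1.flatMap hdr ++ pair v B → ∃ l2, l = l1 ++ v :: l2 ∧ B = l2.flatMap hdr := by
  intro l1
  induction l1 with
  | nil =>
    intro l v B h
    cases l with
    | nil => exact absurd h.symm (pair_ne_nil _ _)
    | cons x l =>
      rw [List.flatMap_cons, List.flatMap_nil, List.nil_append, ← pair_eq] at h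
      obtain ⟨rfl, rfl⟩ := pair_injective h
      exact ⟨l, rfl, rfl⟩
  | cons y l1 ih =>
    intro l v B h
    cases l with
    | nil =>
      rw [List.flatMap_cons, List.append_assoc, ← pair_eq] at h
      exact absurd h.symm (pair_ne_nil _ _)
    | cons x l =>
      rw [List.flatMap_cons, List.flatMap_cons, List.append_assoc, ← pair_eq, ← pair_eq] at h
      obtain ⟨rfl, h1⟩ := pair_injective h
      obtain ⟨l2, rfl, rfl⟩ := ih h1
      exact ⟨l2, rfl, rfl⟩

/-- A list of programs can be executed to the end. -/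
def Ends (O : List Bool → Bool) : List Prog → State → Prop
  | [], _ => True
  | p :: ps, σ => ∃ t τ, Run O p t σ τ ∧ Ends O ps τ

theorem stepOp_config {m : ℕ} {p : Prog} {rest : List Prog} {σ : State} {s' τ : List Bool}
    {X : List Bool → List Bool → Prop}
    (h : StepOp τ X (config m (p :: rest) σ) s') : ∃ ρ v', code p = τ ++ ρ ∧
      X (σ ρ.length) v' ∧ s' = config m rest (update σ ρ.length v') := by
  obtain ⟨ρ, K, A, v, v', B, h1, ⟨l1, h2, rfl⟩, h3, h4⟩ := h
  unfold config at h1
  rw [encK_cons] at h1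
  obtain ⟨h5, h6⟩ := pair_injective h1
  obtain ⟨h7, h8⟩ := pair_injective h5
  obtain ⟨l2, h9, rfl⟩ := hdrs_split (h6 : (st m σ).flatMap hdr = _)
  obtain ⟨h10, h11⟩ := st_eq h2 h9
  subst h10
  refine ⟨ρ, v', h7, h3, ?_⟩
  rw [h4, ← h8]
  unfold config encS
  rw [h11]
  simp [pair_eq, List.flatMap_append, List.flatMap_cons]

theorem step_config {m : ℕ} {ps : List Prog} {σ : State} {s' : List Bool}
    (h : Step O (config m ps σ) s') : ∃ ps' σ', s' = config m ps' σ' ∧
      (Ends O ps' σ' → Ends O ps σ) := by
  cases ps with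
  | nil =>
    exfalso
    have key : ∀ {I K S : List Bool}, config m [] σ = pair (pair I K) S → False := by
      intro I K S h
      exact pair_ne_nil _ _ (pair_injective h).1.symm
    rcases h with (⟨_, _, _, _, h, -⟩ | ⟨_, _, _, _, h, -⟩ | ⟨_, _, _, h, -⟩) |
      ⟨_, _, _, _, _, _, _, h, -⟩ | ⟨_, _, _, _, _, _, _, h, -⟩ | ⟨_, _, _, _, _, _, _, h, -⟩ |
      ⟨_, _, _, _, _, _, h, -⟩ <;> exact key h
  | cons p rest =>
    rcases h with (⟨P, Q, K, S, h, h'⟩ | ⟨P, Q, K, S, h, h'⟩ | ⟨P, K, S, h, h'⟩) |
      ⟨b, h⟩ | ⟨b, h⟩ | ⟨b, h⟩ | h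
    · unfold config at h
      rw [encK_cons] at h
      obtain ⟨h1, h2⟩ := pair_injective h
      obtain ⟨h3, h4⟩ := pair_injective h1
      obtain ⟨p1, p2, rfl, h5⟩ := code_seq h3
      obtain ⟨rfl, rfl⟩ := pair_injective h5
      refine ⟨p1 :: p2 :: rest, σ, ?_, ?_⟩
      · unfold config
        rw [encK_cons, encK_cons, h', h2, h4]
      · rintro ⟨t1, τ1, h6, t2, τ2, h7, h8⟩
        exact ⟨t1 + t2, τ2, ⟨t1, t2, τ1, rfl, h6, h7⟩, h8⟩
    · unfold config at h
      rw [encK_cons] at h
      obtain ⟨h1, h2⟩ := pair_injective h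
      obtain ⟨h3, h4⟩ := pair_injective h1
      obtain ⟨p1, p2, rfl, h5⟩ := code_alt h3
      obtain ⟨rfl, rfl⟩ := pair_injective h5
      rcases h' with h' | h'
      · refine ⟨p1 :: rest, σ, ?_, ?_⟩
        · unfold config
          rw [encK_cons, h', h2, h4]
        · rintro ⟨t1, τ1, h6, h7⟩
          exact ⟨t1, τ1, Or.inl h6, h7⟩
      · refine ⟨p2 :: rest, σ, ?_, ?_⟩
        · unfold config
          rw [encK_cons, h', h2, h4]
        · rintro ⟨t1, τ1, h6, h7⟩
          exact ⟨t1, τ1, Or.inr h6, h7⟩
    · unfold config at h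
      rw [encK_cons] at h
      obtain ⟨h1, h2⟩ := pair_injective h
      obtain ⟨h3, h4⟩ := pair_injective h1
      obtain ⟨p1, rfl, rfl⟩ := code_star h3
      rcases h' with h' | h'
      · refine ⟨rest, σ, ?_, ?_⟩
        · unfold config
          rw [h', h2, h4]
        · intro h6
          exact ⟨0, σ, Iter.nil σ, h6⟩
      · refine ⟨p1 :: .star p1 :: rest, σ, ?_, ?_⟩
        · unfold config
          rw [encK_cons, encK_cons, h', h2, h4]
          rfl
        · rintro ⟨t1, τ1, h6, t2, τ2, h7, h8⟩
          exact ⟨t1 + t2, τ2, Iter.cons h6 h7, h8⟩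
    · obtain ⟨ρ, v', h1, h2, h3⟩ := stepOp_config h
      obtain ⟨r, rfl, rfl⟩ := code_push h1
      rw [List.length_replicate] at h2 h3
      exact ⟨rest, _, h3, fun h4 => ⟨1, _, ⟨rfl, by rw [h2]⟩, h4⟩⟩
    · obtain ⟨ρ, v', h1, h2, h3⟩ := stepOp_config h
      obtain ⟨r, rfl, rfl⟩ := code_pop h1
      rw [List.length_replicate] at h2 h3
      exact ⟨rest, _, h3, fun h4 => ⟨1, _, ⟨rfl, v', h2, rfl⟩, h4⟩⟩
    · obtain ⟨ρ, v', h1, ⟨h2, h2'⟩, h3⟩ := stepOp_config h
      obtain ⟨r, rfl, rfl⟩ := code_query h1
      rw [List.length_replicate] at h2 h2' h3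
      rw [← h2', update_eq_self] at h3
      exact ⟨rest, _, h3, fun h4 => ⟨1, _, ⟨rfl, h2, rfl⟩, h4⟩⟩
    · obtain ⟨ρ, v', h1, ⟨h2, h2'⟩, h3⟩ := stepOp_config h
      obtain ⟨r, rfl, rfl⟩ := code_empty h1
      rw [List.length_replicate] at h2 h3
      have h5 : update σ r v' = σ := by rw [h2', ← h2, update_eq_self]
      rw [h5] at h3
      exact ⟨rest, _, h3, fun h4 => ⟨1, _, ⟨rfl, h2, rfl⟩, h4⟩⟩

/-- Soundness of the simulation. -/
theorem univ_sound {m M N : ℕ} {s a : List Bool} (h : PathN (SM O M) N s a) (ha : Fin0 a) :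
    ∀ (ps : List Prog) (σ : State), s = config m ps σ → Ends O ps σ := by
  induction h with
  | nil a =>
    rintro ps σ rfl
    obtain ⟨S, hS⟩ := ha
    rw [encK_eq_nil (pair_injective hS).1]
    trivial
  | cons h1 _ ih =>
    rintro ps σ rfl
    obtain ⟨ps', σ', h2, h3⟩ := step_config h1.1
    exact h3 (ih ha ps' σ' h2)

end Pool.Agent.LibCL48
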