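import Pool.Agent.LibCL48.Sim

/-!
Completeness of the universal simulation.
-/

namespace Pool.Agent.LibCL48

open Function Pool.Agent.LibNexp

variable {O : List Bool → Bool}

theorem run_zero {p : Prog} : ∀ {t : ℕ} {σ σ' : State}, Run O p t σ σ' → t = 0 → σ' = σ := by
  induction p with
  | push r b => rintro t σ σ' ⟨rfl, -⟩ h; omega
  | pop r b => rintro t σ σ' ⟨rfl, -⟩ h; omega
  | empty r => rintro t σ σ' ⟨rfl, -⟩ h; omega
  | query r b => rintro t σ σ' ⟨rfl, -⟩ h; omega
  | seq p q ihp ihq =>
    rintro t σ σ' ⟨t1, t2, τ, rfl, h1, h2⟩ h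
    rw [ihq h2 (by omega), ihp h1 (by omega)]
  | alt p q ihp ihq =>
    rintro t σ σ' (h1 | h1) h
    · exact ihp h1 h
    · exact ihq h1 h
  | star p ih =>
    intro t σ σ' h h0
    change Iter (Run O p) t σ σ' at h
    induction h with
    | nil σ => rfl
    | cons h1 _ ih' => rw [ih' (by omega), ih h1 (by omega)]

theorem iter_pos {p : Prog} {t : ℕ} {σ σ' : State} (h : Iter (Run O p) t σ σ') :
    Iter (fun t σ σ' => 0 < t ∧ Run O p t σ σ') t σ σ' := by
  induction h with
  | nil σ => exact Iter.nil σ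
  | @cons t t' σ τ σ' h1 _ ih =>
    rcases Nat.eq_zero_or_pos t with h0 | h0
    · have := run_zero h1 h0
      subst h0
      rw [Nat.zero_add, ← this]
      exact ih
    · exact Iter.cons ⟨h0, h1⟩ ih

/-- The total length of the stacks below `m`. -/
def tot (m : ℕ) (σ : State) : ℕ := ∑ i ∈ Finset.range m, (σ i).length

theorem length_encS (m : ℕ) (σ : State) : (encS m σ).length = 2 * tot m σ + 2 * m := by
  unfold encS st tot
  induction m with
  | zero => rfl
  | succ m ih =>
    rw [List.range_succ, List.map_append, List.flatMap_append, List.length_append, ih,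
      Finset.sum_range_succ]
    simp only [List.map_cons, List.map_nil, List.flatMap_cons, List.flatMap_nil, List.append_nil,
      length_hdr]
    ring

theorem tot_update_le {m r : ℕ} {σ : State} {w : List Bool} (h : w.length ≤ (σ r).length + 1) :
    tot m (update σ r w) ≤ tot m σ + 1 := by
  unfold tot
  by_cases hr : r ∈ Finset.range m
  · rw [← Finset.add_sum_erase _ _ hr, ← Finset.add_sum_erase _ _ hr, update_self]
    have : ∑ i ∈ (Finset.range m).erase r, (update σ r w i).length =
        ∑ i ∈ (Finset.range m).erase r, (σ i).length := by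
      refine Finset.sum_congr rfl fun i hi => ?_
      rw [update_of_ne (Finset.ne_of_mem_erase hi)]
    omega
  · have : ∑ i ∈ Finset.range m, (update σ r w i).length =
        ∑ i ∈ Finset.range m, (σ i).length := by
      refine Finset.sum_congr rfl fun i hi => ?_
      rw [update_of_ne (by rintro rfl; exact hr hi)]
    omega

theorem tot_run {m : ℕ} {p : Prog} : ∀ {t : ℕ} {σ σ' : State}, Run O p t σ σ' →
    tot m σ' ≤ tot m σ + t := by
  induction p with
  | push r b =>
    rintro t σ σ' ⟨rfl, rfl⟩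
    exact tot_update_le (by simp)
  | pop r b =>
    rintro t σ σ' ⟨rfl, l, hl, rfl⟩
    exact tot_update_le (by rw [hl]; simp; omega)
  | empty r => rintro t σ σ' ⟨rfl, -, rfl⟩; omega
  | query r b => rintro t σ σ' ⟨rfl, -, rfl⟩; omega
  | seq p q ihp ihq =>
    rintro t σ σ' ⟨t1, t2, τ, rfl, h1, h2⟩
    have := ihp h1
    have := ihq h2
    omega
  | alt p q ihp ihq =>
    rintro t σ σ' (h1 | h1)
    · exact ihp h1
    · exact ihq h1
  | star p ih =>
    intro t σ σ' h
    change Iter (Run O p) t σ σ' at h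
    induction h with
    | nil σ => omega
    | cons h1 _ ih' => have := ih h1; omega

theorem stepOp_of {m r : ℕ} (hr : r < m) {τ K v' : List Bool} {X : List Bool → List Bool → Prop}
    {σ : State} (hX : X (σ r) v') :
    StepOp τ X (pair (pair (τ ++ List.replicate r true) K) (encS m σ))
      (pair K (encS m (update σ r v'))) := by
  obtain ⟨l1, l2, h1, h2⟩ := st_split hr σ
  have h3 := (st_eq h1 h2).2 v'
  refine ⟨List.replicate r true, K, l1.flatMap hdr, σ r, v', l2.flatMap hdr, ?_,
    ⟨l1, by simp [h1], rfl⟩, hX, ?_⟩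
  · unfold encS
    rw [h2]
    simp [pair_eq, List.flatMap_append, List.flatMap_cons]
  · unfold encS
    rw [h3]
    simp [pair_eq, List.flatMap_append, List.flatMap_cons]

/-- Completeness of the simulation. -/
theorem sim_complete {m : ℕ} (p : Prog) (hp : p.regs ≤ m) : ∃ D : ℕ, ∀ (t : ℕ) (σ σ' : State)
    (K : List Bool) (M : ℕ), Run O p t σ σ' →
    D * (K.length + (2 * tot m σ + 2 * m) + 2 * t + 1) < M →
    ∃ N ≤ D * (t + 1), PathN (SM O M) N (pair (pair (code p) K) (encS m σ)) (pair K (encS m σ')) := by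
  induction p with
  | push r b =>
    refine ⟨4, fun t σ σ' K M h hM => ?_⟩
    obtain ⟨rfl, rfl⟩ := h
    refine ⟨1, by omega, PathN.single ⟨Or.inr (Or.inl ⟨b, stepOp_of hp rfl⟩), ?_⟩⟩
    have := tot_update_le (m := m) (r := r) (σ := σ) (w := b :: σ r) (by simp)
    rw [length_pair, length_encS]
    omega
  | pop r b =>
    refine ⟨4, fun t σ σ' K M h hM => ?_⟩
    obtain ⟨rfl, l, hl, rfl⟩ := h
    refine ⟨1, by omega, PathN.single ⟨Or.inr (Or.inr (Or.inl ⟨b, stepOp_of hp hl⟩)), ?_⟩⟩
    have := tot_update_le (m := m) (r := r) (σ := σ) (w := l) (by rw [hl]; simp; omega)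
    rw [length_pair, length_encS]
    omega
  | query r b =>
    refine ⟨4, fun t σ σ' K M h hM => ?_⟩
    obtain ⟨rfl, hO, rfl⟩ := h
    have h1 := stepOp_of (m := m) (r := r) (τ := [false, true, false, b]) (K := K) (σ := σ')
      (X := fun v v' => O v = b ∧ v = v') (v' := σ' r) hp ⟨hO, rfl⟩
    rw [update_eq_self] at h1
    refine ⟨1, by omega, PathN.single ⟨Or.inr (Or.inr (Or.inr (Or.inl ⟨b, h1⟩))), ?_⟩⟩
    rw [length_pair, length_encS]
    omega
  | empty r =>
    refine ⟨4, fun t σ σ' K M h hM => ?_⟩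
    obtain ⟨rfl, h0, rfl⟩ := h
    have h1 := stepOp_of (m := m) (r := r) (τ := [false, true, true, false]) (K := K) (σ := σ')
      (X := fun v v' => v = [] ∧ v' = []) (v' := []) hp ⟨h0, rfl⟩
    have h2 : update σ' r [] = σ' := by rw [← h0, update_eq_self]
    rw [h2] at h1
    refine ⟨1, by omega, PathN.single ⟨Or.inr (Or.inr (Or.inr (Or.inr h1))), ?_⟩⟩
    rw [length_pair, length_encS]
    omega
  | seq p q ihp ihq =>
    simp only [Prog.regs, max_le_iff] at hp
    obtain ⟨Dp, hDp⟩ := ihp hp.1
    obtain ⟨Dq, hDq⟩ := ihq hp.2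
    refine ⟨4 * (code p).length + 4 * (code q).length + 12 + Dp * (2 * (code q).length + 3) + Dq,
      fun t σ σ' K M h hM => ?_⟩
    obtain ⟨t1, t2, τ, rfl, h1, h2⟩ := h
    set P := code p
    set Q := code q
    have htot := tot_run (m := m) h1
    have hM1 : Dp * ((pair Q K).length + (2 * tot m σ + 2 * m) + 2 * t1 + 1) < M := by
      refine lt_of_le_of_lt ?_ hM
      rw [length_pair]
      have e1 : 2 * Q.length + K.length + 2 + (2 * tot m σ + 2 * m) + 2 * t1 + 1 ≤
          (2 * Q.length + 3) * (K.length + (2 * tot m σ + 2 * m) + 2 * (t1 + t2) + 1) := by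
        nlinarith [Nat.zero_le (Q.length * (K.length + (2 * tot m σ + 2 * m) + 2 * (t1 + t2)))]
      have e2 := Nat.mul_le_mul_left Dp e1
      rw [← mul_assoc] at e2
      refine le_trans e2 (Nat.mul_le_mul_right _ ?_)
      omega
    have hM2 : Dq * (K.length + (2 * tot m τ + 2 * m) + 2 * t2 + 1) < M := by
      refine lt_of_le_of_lt (Nat.mul_le_mul ?_ ?_) hM
      · omega
      · omega
    obtain ⟨N1, g1, g2⟩ := hDp t1 σ τ (pair Q K) M h1 hM1
    obtain ⟨N2, g3, g4⟩ := hDq t2 τ σ' K M h2 hM2
    refine ⟨(1 + N1) + N2, ?_, ((PathN.single ⟨Or.inl (Or.inl ⟨P, Q, K, encS m σ, rfl, rfl⟩), ?_⟩).trans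
      g2).trans g4⟩
    · have e1 : Dp * (t1 + 1) ≤ Dp * (2 * Q.length + 3) * (t1 + t2 + 1) := by
        rw [mul_assoc]
        refine Nat.mul_le_mul_left Dp ?_
        nlinarith [Nat.zero_le (Q.length * (t1 + t2 + 1))]
      have e2 : Dq * (t2 + 1) ≤ Dq * (t1 + t2 + 1) := Nat.mul_le_mul_left Dq (by omega)
      have e3 : (4 * P.length + 4 * Q.length + 12 + Dp * (2 * Q.length + 3) + Dq) * (t1 + t2 + 1) =
        (4 * P.length + 4 * Q.length + 12) * (t1 + t2 + 1) +
          Dp * (2 * Q.length + 3) * (t1 + t2 + 1) + Dq * (t1 + t2 + 1) := by ring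
      have e4 : 12 * 1 ≤ (4 * P.length + 4 * Q.length + 12) * (t1 + t2 + 1) :=
        Nat.mul_le_mul (by omega) (by omega)
      omega
    · rw [length_pair, length_pair, length_pair, length_encS]
      refine lt_of_le_of_lt ?_ hM
      set X := K.length + (2 * tot m σ + 2 * m) + 2 * (t1 + t2) + 1 with hX
      have e1 : (4 * P.length + 4 * Q.length + 12) * X ≤
        (4 * P.length + 4 * Q.length + 12 + Dp * (2 * Q.length + 3) + Dq) * X :=
        Nat.mul_le_mul_right _ (by omega)
      have e2 : (4 * P.length + 4 * Q.length + 12) * X =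
        (4 * P.length + 4 * Q.length + 10) * X + 2 * X := by ring
      have e3 : (4 * P.length + 4 * Q.length + 10) * 1 ≤ (4 * P.length + 4 * Q.length + 10) * X :=
        Nat.mul_le_mul_left _ (by omega)
      omega
  | alt p q ihp ihq =>
    simp only [Prog.regs, max_le_iff] at hp
    obtain ⟨Dp, hDp⟩ := ihp hp.1
    obtain ⟨Dq, hDq⟩ := ihq hp.2
    refine ⟨4 * (code p).length + 4 * (code q).length + 12 + Dp + Dq,
      fun t σ σ' K M h hM => ?_⟩
    set P := code p
    set Q := code q
    set X := K.length + (2 * tot m σ + 2 * m) + 2 * t + 1 with hX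
    have e1 : (4 * P.length + 4 * Q.length + 12) * X ≤
      (4 * P.length + 4 * Q.length + 12 + Dp + Dq) * X := Nat.mul_le_mul_right _ (by omega)
    have e2 : (4 * P.length + 4 * Q.length + 12) * X =
      (4 * P.length + 4 * Q.length + 10) * X + 2 * X := by ring
    have e3 : (4 * P.length + 4 * Q.length + 10) * 1 ≤ (4 * P.length + 4 * Q.length + 10) * X :=
      Nat.mul_le_mul_left _ (by omega)
    have e4 : (4 * P.length + 4 * Q.length + 12 + Dp + Dq) * (t + 1) =
      (4 * P.length + 4 * Q.length + 12) * (t + 1) + Dp * (t + 1) + Dq * (t + 1) := by ring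
    have e5 : 12 * 1 ≤ (4 * P.length + 4 * Q.length + 12) * (t + 1) :=
      Nat.mul_le_mul (by omega) (by omega)
    rcases h with h | h
    · obtain ⟨N1, g1, g2⟩ := hDp t σ σ' K M h
        (lt_of_le_of_lt (Nat.mul_le_mul_right _ (by omega)) hM)
      refine ⟨1 + N1, by omega, (PathN.single ⟨Or.inl (Or.inr (Or.inl ⟨P, Q, K, encS m σ, rfl,
        Or.inl rfl⟩)), ?_⟩).trans g2⟩
      rw [length_pair, length_pair, length_encS]
      omega
    · obtain ⟨N1, g1, g2⟩ := hDq t σ σ' K M h
        (lt_of_le_of_lt (Nat.mul_le_mul_right _ (by omega)) hM)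
      refine ⟨1 + N1, by omega, (PathN.single ⟨Or.inl (Or.inr (Or.inl ⟨P, Q, K, encS m σ, rfl,
        Or.inr rfl⟩)), ?_⟩).trans g2⟩
      rw [length_pair, length_pair, length_encS]
      omega
  | star p ih =>
    simp only [Prog.regs] at hp
    obtain ⟨Dp, hDp⟩ := ih hp
    set P := code p with hP
    set D := 8 * P.length + 24 + Dp * (2 * P.length + 8) with hD
    refine ⟨D, fun t σ σ' K M h hM => ?_⟩
    change Iter (Run O p) t σ σ' at h
    have h' := iter_pos h
    suffices H : ∃ N ≤ (1 + 2 * Dp) * t + 1, PathN (SM O M) N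
        (pair (pair (code (.star p)) K) (encS m σ)) (pair K (encS m σ')) by
      obtain ⟨N, g1, g2⟩ := H
      refine ⟨N, le_trans g1 ?_, g2⟩
      have e1 : 2 * Dp * t ≤ Dp * (2 * P.length + 8) * (t + 1) := by
        have : 2 * Dp * t = Dp * (2 * t) := by ring
        rw [this, mul_assoc]
        refine Nat.mul_le_mul_left Dp ?_
        nlinarith [Nat.zero_le (P.length * (t + 1))]
      have e2 : D * (t + 1) = (8 * P.length + 24) * (t + 1) + Dp * (2 * P.length + 8) * (t + 1) := by
        rw [hD]; ring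
      have e3 : 24 * (t + 1) ≤ (8 * P.length + 24) * (t + 1) := Nat.mul_le_mul_right _ (by omega)
      have e4 : (1 + 2 * Dp) * t = t + 2 * Dp * t := by ring
      omega
    clear h
    induction h' with
    | nil σ =>
      refine ⟨1, by omega, PathN.single ⟨Or.inl (Or.inr (Or.inr ⟨P, K, encS m σ, rfl,
        Or.inl rfl⟩)), ?_⟩⟩
      rw [length_pair, length_encS]
      refine lt_of_le_of_lt ?_ hM
      have e3 : 24 * (K.length + (2 * tot m σ + 2 * m) + 2 * 0 + 1) ≤
          D * (K.length + (2 * tot m σ + 2 * m) + 2 * 0 + 1) := Nat.mul_le_mul_right _ (by omega)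
      omega
    | @cons t1 t2 σ τ σ' h1 _ ih' =>
      obtain ⟨h0, h1⟩ := h1
      have htot := tot_run (m := m) h1
      set X := K.length + (2 * tot m σ + 2 * m) + 2 * (t1 + t2) + 1 with hX
      obtain ⟨N2, g3, g4⟩ := ih' (lt_of_le_of_lt (Nat.mul_le_mul_left D (by omega)) hM)
      have hcl : (code (.star p)).length = P.length + 2 := by
        show ([true, true] ++ code p).length = _
        rw [List.length_append]
        simp [hP]
        omega
      have hM1 : Dp * ((pair (code (.star p)) K).length + (2 * tot m σ + 2 * m) + 2 * t1 + 1) < M := by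
        refine lt_of_le_of_lt ?_ hM
        rw [length_pair, hcl]
        have e1 : 2 * (P.length + 2) + K.length + 2 + (2 * tot m σ + 2 * m) + 2 * t1 + 1 ≤
            (2 * P.length + 8) * X := by
          nlinarith [Nat.zero_le (P.length * (K.length + (2 * tot m σ + 2 * m) + 2 * (t1 + t2)))]
        have e2 := Nat.mul_le_mul_left Dp e1
        rw [← mul_assoc] at e2
        refine le_trans e2 (Nat.mul_le_mul_right _ ?_)
        omega
      obtain ⟨N1, g1, g2⟩ := hDp t1 σ τ (pair (code (.star p)) K) M h1 hM1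
      refine ⟨(1 + N1) + N2, ?_, ((PathN.single ⟨Or.inl (Or.inr (Or.inr ⟨P, K, encS m σ, rfl,
        Or.inr rfl⟩)), ?_⟩).trans g2).trans g4⟩
      · have e1 : Dp * (t1 + 1) ≤ 2 * Dp * t1 := by
          have : 2 * Dp * t1 = Dp * (2 * t1) := by ring
          rw [this]
          exact Nat.mul_le_mul_left Dp (by omega)
        have e4 : (1 + 2 * Dp) * (t1 + t2) = t1 + 2 * Dp * t1 + (1 + 2 * Dp) * t2 := by ring
        omega
      · rw [length_pair, length_pair, length_encS]
        have e5 : (pair (code (.star p)) K).length = 2 * (P.length + 2) + K.length + 2 := by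
          rw [length_pair, hcl]
        rw [e5]
        refine lt_of_le_of_lt ?_ hM
        have e1 : (8 * P.length + 24) * X ≤ D * X := Nat.mul_le_mul_right _ (by omega)
        have e2 : (8 * P.length + 24) * X = (8 * P.length + 22) * X + 2 * X := by ring
        have e3 : (8 * P.length + 22) * 1 ≤ (8 * P.length + 22) * X :=
          Nat.mul_le_mul_left _ (by omega)
        omega

end Pool.Agent.LibCL48
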