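import Pool.Agent.LibCL48.Ptl

/-!
The step relation of the universal simulation is in nondeterministic polynomial time.
-/

namespace Pool.Agent.LibCL48

open Function Pool.Agent.LibNexp

variable {O : List Bool → Bool}

theorem pt_pair_mem {L : Lang} (h : PT O fun e : Fin 1 → List Bool => e 0 ∈ L) :
    PT O fun e : Fin 2 → List Bool => pair (e 0) (e 1) ∈ L := by
  have h1 : PT O fun e : Fin 2 → List Bool => ∃ z : List Bool, z = pair (e 0) (e 1) ∧ z ∈ L := by
    refine PT.ex (R := fun (e : Fin 2 → List Bool) z => z = pair (e 0) (e 1) ∧ z ∈ L)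
      (g := fun n => 3 * n + 2) ?_ (((PolyB.const 3).mul PolyB.id).add (PolyB.const 2)) ?_
    · exact ((pt_pairRel (O := O)).reindex (m := 3) ![0, 1, 2]).and (h.reindex (m := 3) ![2])
    · rintro e z ⟨h, -⟩
      have e0 := len_le_size e 0
      have e1 := len_le_size e 1
      rw [h, length_pair]
      show _ ≤ 3 * size e + 2
      omega
  refine h1.congr fun e => ⟨?_, fun h => ⟨_, rfl, h⟩⟩
  rintro ⟨z, rfl, h⟩
  exact h

theorem size_succ {k : ℕ} (e : Fin (k + 1) → List Bool) :
    size e = (e 0).length + size fun j : Fin k => e j.succ := by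
  unfold size
  rw [Fin.sum_univ_succ]

theorem size_zero (e : Fin 0 → List Bool) : size e = 0 := by simp [size]

theorem size_fifteen (e : Fin 15 → List Bool) : size e = (e 0).length + ((e 1).length +
    ((e 2).length + ((e 3).length + ((e 4).length + ((e 5).length + ((e 6).length + ((e 7).length +
    ((e 8).length + ((e 9).length + ((e 10).length + ((e 11).length + ((e 12).length +
    ((e 13).length + ((e 14).length + 0)))))))))))))) := by
  simp only [size_succ, size_zero]
  rfl

theorem size_twelve (e : Fin 12 → List Bool) : size e = (e 0).length + ((e 1).length +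
    ((e 2).length + ((e 3).length + ((e 4).length + ((e 5).length + ((e 6).length + ((e 7).length +
    ((e 8).length + ((e 9).length + ((e 10).length + ((e 11).length + 0))))))))))) := by
  simp only [size_succ, size_zero]
  rfl

theorem size_eleven (e : Fin 11 → List Bool) : size e = (e 0).length + ((e 1).length +
    ((e 2).length + ((e 3).length + ((e 4).length + ((e 5).length + ((e 6).length + ((e 7).length +
    ((e 8).length + ((e 9).length + ((e 10).length + 0)))))))))) := by
  simp only [size_succ, size_zero]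
  rfl

theorem size_nine' (e : Fin 9 → List Bool) : size e = (e 0).length + ((e 1).length +
    ((e 2).length + ((e 3).length + ((e 4).length + ((e 5).length + ((e 6).length + ((e 7).length +
    ((e 8).length + 0)))))))) := by
  simp only [size_succ, size_zero]
  rfl

theorem size_eight (e : Fin 8 → List Bool) : size e = (e 0).length + ((e 1).length +
    ((e 2).length + ((e 3).length + ((e 4).length + ((e 5).length + ((e 6).length + ((e 7).length +
    0))))))) := by
  simp only [size_succ, size_zero]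
  rfl

/-- A step acting on a stack. -/
def StepOp (τ : List Bool) (X : List Bool → List Bool → Prop) (s s' : List Bool) : Prop :=
  ∃ ρ K A v v' B, s = pair (pair (τ ++ ρ) K) (A ++ pair v B) ∧ Hdrs ρ A ∧ X v v' ∧
    s' = pair K (A ++ pair v' B)

theorem pt_stepOp (τ : List Bool) {X : List Bool → List Bool → Prop}
    (hX : PT O fun e : Fin 2 → List Bool => X (e 0) (e 1)) :
    PT O fun e : Fin 2 → List Bool => StepOp τ X (e 0) (e 1) := by
  have h := pt_exN (O := O) (w := 14) (R := fun w z => w = pair (z 0) (z 1) ∧ z 0 = pair (z 2) (z 3) ∧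
    z 2 = pair (z 4) (z 5) ∧ z 4 = τ ++ z 6 ∧ z 3 = z 7 ++ z 8 ∧ Hdrs (z 6) (z 7) ∧
    z 8 = pair (z 9) (z 10) ∧ X (z 9) (z 11) ∧ z 12 = pair (z 11) (z 10) ∧ z 13 = z 7 ++ z 12 ∧
    z 1 = pair (z 5) (z 13)) (g := fun n => 15 * n)
    (((pt_pairRel (O := O)).reindex (m := 15) ![1, 2, 0]).and
    (((pt_pairRel (O := O)).reindex (m := 15) ![3, 4, 1]).and
    (((pt_pairRel (O := O)).reindex (m := 15) ![5, 6, 3]).and
    (((pt_prefix (O := O) τ).reindex (m := 15) ![5, 7]).and
    (((pt_cat (O := O)).reindex (m := 15) ![8, 9, 4]).and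
    (((pt_hdrs (O := O)).reindex (m := 15) ![7, 8]).and
    (((pt_pairRel (O := O)).reindex (m := 15) ![10, 11, 9]).and
    ((hX.reindex (m := 15) ![10, 12]).and
    (((pt_pairRel (O := O)).reindex (m := 15) ![12, 11, 13]).and
    (((pt_cat (O := O)).reindex (m := 15) ![8, 13, 14]).and
    ((pt_pairRel (O := O)).reindex (m := 15) ![6, 14, 2])))))))))))
    ((PolyB.const 15).mul PolyB.id) (by
      rintro e ⟨h1, h2, h3, h4, h5, -, h6, -, h7, h8, h9⟩
      have h1' : e 0 = pair (e 1) (e 2) := h1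
      have h2' : e 1 = pair (e 3) (e 4) := h2
      have h3' : e 3 = pair (e 5) (e 6) := h3
      have h4' : e 5 = τ ++ e 7 := h4
      have h5' : e 4 = e 8 ++ e 9 := h5
      have h6' : e 9 = pair (e 10) (e 11) := h6
      have h7' : e 13 = pair (e 12) (e 11) := h7
      have h8' : e 14 = e 8 ++ e 13 := h8
      have h9' : e 2 = pair (e 6) (e 14) := h9
      have g1 := congrArg List.length h1'
      have g2 := congrArg List.length h2'
      have g3 := congrArg List.length h3'
      have g4 := congrArg List.length h4'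
      have g5 := congrArg List.length h5'
      have g6 := congrArg List.length h6'
      have g7 := congrArg List.length h7'
      have g8 := congrArg List.length h8'
      have g9 := congrArg List.length h9'
      rw [length_pair] at g1 g2 g3 g6 g7 g9
      rw [List.length_append] at g4 g5 g8
      rw [size_fifteen]
      show _ ≤ 15 * (e 0).length
      omega)
  refine (pt_pair_mem (L := {w | ∃ z : Fin 14 → List Bool, w = pair (z 0) (z 1) ∧ z 0 = pair (z 2) (z 3) ∧
    z 2 = pair (z 4) (z 5) ∧ z 4 = τ ++ z 6 ∧ z 3 = z 7 ++ z 8 ∧ Hdrs (z 6) (z 7) ∧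
    z 8 = pair (z 9) (z 10) ∧ X (z 9) (z 11) ∧ z 12 = pair (z 11) (z 10) ∧ z 13 = z 7 ++ z 12 ∧
    z 1 = pair (z 5) (z 13)}) h).congr fun e => ⟨?_, ?_⟩
  · rintro ⟨z, h1, h2, h3, h4, h5, h6, h7, h8, h9, h10, h11⟩
    obtain ⟨h12, h13⟩ := pair_injective h1
    exact ⟨z 6, z 5, z 7, z 9, z 11, z 10, by rw [h12, h2, h3, h4, h5, h7], h6, h8,
      by rw [h13, h11, h10, h9]⟩
  · rintro ⟨ρ, K, A, v, v', B, h1, h2, h3, h4⟩
    exact ⟨![e 0, e 1, pair (τ ++ ρ) K, A ++ pair v B, τ ++ ρ, K, ρ, A, pair v B, v, B, v',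
      pair v' B, A ++ pair v' B], rfl, h1, rfl, rfl, rfl, h2, rfl, h3, rfl, rfl, h4⟩

/-- The steps of a sequential composition. -/
def StepSeq (s s' : List Bool) : Prop :=
  ∃ P Q K S, s = pair (pair ([true, false, false] ++ pair P Q) K) S ∧
    s' = pair (pair P (pair Q K)) S

theorem pt_stepSeq : PT O fun e : Fin 2 → List Bool => StepSeq (e 0) (e 1) := by
  have h := pt_exN (O := O) (w := 11) (R := fun w z => w = pair (z 0) (z 1) ∧ z 0 = pair (z 2) (z 3) ∧
    z 2 = pair (z 4) (z 5) ∧ z 4 = [true, false, false] ++ z 6 ∧ z 6 = pair (z 7) (z 8) ∧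
    z 9 = pair (z 8) (z 5) ∧ z 10 = pair (z 7) (z 9) ∧ z 1 = pair (z 10) (z 3))
    (g := fun n => 12 * n)
    (((pt_pairRel (O := O)).reindex (m := 12) ![1, 2, 0]).and
    (((pt_pairRel (O := O)).reindex (m := 12) ![3, 4, 1]).and
    (((pt_pairRel (O := O)).reindex (m := 12) ![5, 6, 3]).and
    (((pt_prefix (O := O) [true, false, false]).reindex (m := 12) ![5, 7]).and
    (((pt_pairRel (O := O)).reindex (m := 12) ![8, 9, 7]).and
    (((pt_pairRel (O := O)).reindex (m := 12) ![9, 6, 10]).and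
    (((pt_pairRel (O := O)).reindex (m := 12) ![8, 10, 11]).and
    ((pt_pairRel (O := O)).reindex (m := 12) ![11, 4, 2]))))))))
    ((PolyB.const 12).mul PolyB.id) (by
      rintro e ⟨h1, h2, h3, h4, h5, h6, h7, h8⟩
      have g1 := congrArg List.length (show e 0 = pair (e 1) (e 2) from h1)
      have g2 := congrArg List.length (show e 1 = pair (e 3) (e 4) from h2)
      have g3 := congrArg List.length (show e 3 = pair (e 5) (e 6) from h3)
      have g4 := congrArg List.length (show e 5 = [true, false, false] ++ e 7 from h4)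
      have g5 := congrArg List.length (show e 7 = pair (e 8) (e 9) from h5)
      have g6 := congrArg List.length (show e 10 = pair (e 9) (e 6) from h6)
      have g7 := congrArg List.length (show e 11 = pair (e 8) (e 10) from h7)
      have g8 := congrArg List.length (show e 2 = pair (e 11) (e 4) from h8)
      rw [length_pair] at g1 g2 g3 g5 g6 g7 g8
      rw [List.length_append] at g4
      rw [size_twelve]
      show _ ≤ 12 * (e 0).length
      omega)
  refine (pt_pair_mem (L := {w | ∃ z : Fin 11 → List Bool, w = pair (z 0) (z 1) ∧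
    z 0 = pair (z 2) (z 3) ∧
    z 2 = pair (z 4) (z 5) ∧ z 4 = [true, false, false] ++ z 6 ∧ z 6 = pair (z 7) (z 8) ∧
    z 9 = pair (z 8) (z 5) ∧ z 10 = pair (z 7) (z 9) ∧ z 1 = pair (z 10) (z 3)}) h).congr
    fun e => ⟨?_, ?_⟩
  · rintro ⟨z, h1, h2, h3, h4, h5, h6, h7, h8⟩
    obtain ⟨h12, h13⟩ := pair_injective h1
    exact ⟨z 7, z 8, z 5, z 3, by rw [h12, h2, h3, h4, h5], by rw [h13, h8, h7, h6]⟩
  · rintro ⟨P, Q, K, S, h1, h2⟩
    exact ⟨![e 0, e 1, pair ([true, false, false] ++ pair P Q) K, S,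
      [true, false, false] ++ pair P Q, K, pair P Q, P, Q, pair Q K, pair P (pair Q K)],
      rfl, h1, rfl, rfl, rfl, rfl, rfl, h2⟩

/-- The steps of a choice. -/
def StepAlt (s s' : List Bool) : Prop :=
  ∃ P Q K S, s = pair (pair ([true, false, true] ++ pair P Q) K) S ∧
    (s' = pair (pair P K) S ∨ s' = pair (pair Q K) S)

theorem pt_stepAlt : PT O fun e : Fin 2 → List Bool => StepAlt (e 0) (e 1) := by
  have key : ∀ i : Fin 11, (i = 8 ∨ i = 9) → ∀ e : Fin 11 → List Bool,
      (e 0 = pair (e 1) (e 2) ∧ e 1 = pair (e 3) (e 4) ∧ e 3 = pair (e 5) (e 6) ∧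
        e 5 = [true, false, true] ++ e 7 ∧ e 7 = pair (e 8) (e 9) ∧ e 10 = pair (e i) (e 6) ∧
        e 2 = pair (e 10) (e 4)) → size e ≤ 11 * (e 0).length := by
    rintro i - e ⟨h1, h2, h3, h4, h5, h6, h7⟩
    have g1 := congrArg List.length h1
    have g2 := congrArg List.length h2
    have g3 := congrArg List.length h3
    have g4 := congrArg List.length h4
    have g5 := congrArg List.length h5
    have g6 := congrArg List.length h6
    have g7 := congrArg List.length h7
    rw [length_pair] at g1 g2 g3 g5 g6 g7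
    rw [List.length_append] at g4
    rw [size_eleven]
    omega
  have hL := pt_exN (O := O) (w := 10) (R := fun w z => w = pair (z 0) (z 1) ∧ z 0 = pair (z 2) (z 3) ∧
    z 2 = pair (z 4) (z 5) ∧ z 4 = [true, false, true] ++ z 6 ∧ z 6 = pair (z 7) (z 8) ∧
    z 9 = pair (z 7) (z 5) ∧ z 1 = pair (z 9) (z 3))
    (g := fun n => 11 * n)
    (((pt_pairRel (O := O)).reindex (m := 11) ![1, 2, 0]).and
    (((pt_pairRel (O := O)).reindex (m := 11) ![3, 4, 1]).and
    (((pt_pairRel (O := O)).reindex (m := 11) ![5, 6, 3]).and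
    (((pt_prefix (O := O) [true, false, true]).reindex (m := 11) ![5, 7]).and
    (((pt_pairRel (O := O)).reindex (m := 11) ![8, 9, 7]).and
    (((pt_pairRel (O := O)).reindex (m := 11) ![8, 6, 10]).and
    ((pt_pairRel (O := O)).reindex (m := 11) ![10, 4, 2])))))))
    ((PolyB.const 11).mul PolyB.id) (fun e he => key 8 (Or.inl rfl) e he)
  have hR := pt_exN (O := O) (w := 10) (R := fun w z => w = pair (z 0) (z 1) ∧ z 0 = pair (z 2) (z 3) ∧
    z 2 = pair (z 4) (z 5) ∧ z 4 = [true, false, true] ++ z 6 ∧ z 6 = pair (z 7) (z 8) ∧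
    z 9 = pair (z 8) (z 5) ∧ z 1 = pair (z 9) (z 3))
    (g := fun n => 11 * n)
    (((pt_pairRel (O := O)).reindex (m := 11) ![1, 2, 0]).and
    (((pt_pairRel (O := O)).reindex (m := 11) ![3, 4, 1]).and
    (((pt_pairRel (O := O)).reindex (m := 11) ![5, 6, 3]).and
    (((pt_prefix (O := O) [true, false, true]).reindex (m := 11) ![5, 7]).and
    (((pt_pairRel (O := O)).reindex (m := 11) ![8, 9, 7]).and
    (((pt_pairRel (O := O)).reindex (m := 11) ![9, 6, 10]).and
    ((pt_pairRel (O := O)).reindex (m := 11) ![10, 4, 2])))))))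
    ((PolyB.const 11).mul PolyB.id) (fun e he => key 9 (Or.inr rfl) e he)
  refine (pt_pair_mem (L := {w | (∃ z : Fin 10 → List Bool, w = pair (z 0) (z 1) ∧
    z 0 = pair (z 2) (z 3) ∧ z 2 = pair (z 4) (z 5) ∧ z 4 = [true, false, true] ++ z 6 ∧
    z 6 = pair (z 7) (z 8) ∧ z 9 = pair (z 7) (z 5) ∧ z 1 = pair (z 9) (z 3)) ∨
    (∃ z : Fin 10 → List Bool, w = pair (z 0) (z 1) ∧
    z 0 = pair (z 2) (z 3) ∧ z 2 = pair (z 4) (z 5) ∧ z 4 = [true, false, true] ++ z 6 ∧
    z 6 = pair (z 7) (z 8) ∧ z 9 = pair (z 8) (z 5) ∧ z 1 = pair (z 9) (z 3))}) (hL.or hR)).congr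
    fun e => ⟨?_, ?_⟩
  · rintro (⟨z, h1, h2, h3, h4, h5, h6, h7⟩ | ⟨z, h1, h2, h3, h4, h5, h6, h7⟩)
    · obtain ⟨h12, h13⟩ := pair_injective h1
      exact ⟨z 7, z 8, z 5, z 3, by rw [h12, h2, h3, h4, h5], Or.inl (by rw [h13, h7, h6])⟩
    · obtain ⟨h12, h13⟩ := pair_injective h1
      exact ⟨z 7, z 8, z 5, z 3, by rw [h12, h2, h3, h4, h5], Or.inr (by rw [h13, h7, h6])⟩
  · rintro ⟨P, Q, K, S, h1, h2 | h2⟩
    · exact Or.inl ⟨![e 0, e 1, pair ([true, false, true] ++ pair P Q) K, S,
        [true, false, true] ++ pair P Q, K, pair P Q, P, Q, pair P K],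
        rfl, h1, rfl, rfl, rfl, rfl, h2⟩
    · exact Or.inr ⟨![e 0, e 1, pair ([true, false, true] ++ pair P Q) K, S,
        [true, false, true] ++ pair P Q, K, pair P Q, P, Q, pair Q K],
        rfl, h1, rfl, rfl, rfl, rfl, h2⟩

/-- The steps of an iteration. -/
def StepStar (s s' : List Bool) : Prop :=
  ∃ P K S, s = pair (pair ([true, true] ++ P) K) S ∧
    (s' = pair K S ∨ s' = pair (pair P (pair ([true, true] ++ P) K)) S)

theorem pt_stepStar : PT O fun e : Fin 2 → List Bool => StepStar (e 0) (e 1) := by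
  have hL := pt_exN (O := O) (w := 7) (R := fun w z => w = pair (z 0) (z 1) ∧ z 0 = pair (z 2) (z 3) ∧
    z 2 = pair (z 4) (z 5) ∧ z 4 = [true, true] ++ z 6 ∧ z 1 = pair (z 5) (z 3))
    (g := fun n => 8 * n)
    (((pt_pairRel (O := O)).reindex (m := 8) ![1, 2, 0]).and
    (((pt_pairRel (O := O)).reindex (m := 8) ![3, 4, 1]).and
    (((pt_pairRel (O := O)).reindex (m := 8) ![5, 6, 3]).and
    (((pt_prefix (O := O) [true, true]).reindex (m := 8) ![5, 7]).and
    ((pt_pairRel (O := O)).reindex (m := 8) ![6, 4, 2])))))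
    ((PolyB.const 8).mul PolyB.id) (by
      rintro e ⟨h1, h2, h3, h4, h5⟩
      have g1 := congrArg List.length (show e 0 = pair (e 1) (e 2) from h1)
      have g2 := congrArg List.length (show e 1 = pair (e 3) (e 4) from h2)
      have g3 := congrArg List.length (show e 3 = pair (e 5) (e 6) from h3)
      have g4 := congrArg List.length (show e 5 = [true, true] ++ e 7 from h4)
      rw [length_pair] at g1 g2 g3
      rw [List.length_append] at g4
      rw [size_eight]
      show _ ≤ 8 * (e 0).length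
      omega)
  have hR := pt_exN (O := O) (w := 8) (R := fun w z => w = pair (z 0) (z 1) ∧ z 0 = pair (z 2) (z 3) ∧
    z 2 = pair (z 4) (z 5) ∧ z 4 = [true, true] ++ z 6 ∧ z 7 = pair (z 6) (z 2) ∧
    z 1 = pair (z 7) (z 3))
    (g := fun n => 9 * n)
    (((pt_pairRel (O := O)).reindex (m := 9) ![1, 2, 0]).and
    (((pt_pairRel (O := O)).reindex (m := 9) ![3, 4, 1]).and
    (((pt_pairRel (O := O)).reindex (m := 9) ![5, 6, 3]).and
    (((pt_prefix (O := O) [true, true]).reindex (m := 9) ![5, 7]).and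
    (((pt_pairRel (O := O)).reindex (m := 9) ![7, 3, 8]).and
    ((pt_pairRel (O := O)).reindex (m := 9) ![8, 4, 2]))))))
    ((PolyB.const 9).mul PolyB.id) (by
      rintro e ⟨h1, h2, h3, h4, h5, h6⟩
      have g1 := congrArg List.length (show e 0 = pair (e 1) (e 2) from h1)
      have g2 := congrArg List.length (show e 1 = pair (e 3) (e 4) from h2)
      have g3 := congrArg List.length (show e 3 = pair (e 5) (e 6) from h3)
      have g4 := congrArg List.length (show e 5 = [true, true] ++ e 7 from h4)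
      have g5 := congrArg List.length (show e 8 = pair (e 7) (e 3) from h5)
      have g6 := congrArg List.length (show e 2 = pair (e 8) (e 4) from h6)
      rw [length_pair] at g1 g2 g3 g5 g6
      rw [List.length_append] at g4
      rw [size_nine']
      show _ ≤ 9 * (e 0).length
      omega)
  refine (pt_pair_mem (L := {w | (∃ z : Fin 7 → List Bool, w = pair (z 0) (z 1) ∧
    z 0 = pair (z 2) (z 3) ∧ z 2 = pair (z 4) (z 5) ∧ z 4 = [true, true] ++ z 6 ∧
    z 1 = pair (z 5) (z 3)) ∨
    (∃ z : Fin 8 → List Bool, w = pair (z 0) (z 1) ∧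
    z 0 = pair (z 2) (z 3) ∧ z 2 = pair (z 4) (z 5) ∧ z 4 = [true, true] ++ z 6 ∧
    z 7 = pair (z 6) (z 2) ∧ z 1 = pair (z 7) (z 3))}) (hL.or hR)).congr
    fun e => ⟨?_, ?_⟩
  · rintro (⟨z, h1, h2, h3, h4, h5⟩ | ⟨z, h1, h2, h3, h4, h5, h6⟩)
    · obtain ⟨h12, h13⟩ := pair_injective h1
      exact ⟨z 6, z 5, z 3, by rw [h12, h2, h3, h4], Or.inl (by rw [h13, h5])⟩
    · obtain ⟨h12, h13⟩ := pair_injective h1
      exact ⟨z 6, z 5, z 3, by rw [h12, h2, h3, h4], Or.inr (by rw [h13, h6, h5, h3, h4])⟩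
  · rintro ⟨P, K, S, h1, h2 | h2⟩
    · exact Or.inl ⟨![e 0, e 1, pair ([true, true] ++ P) K, S, [true, true] ++ P, K, P],
        rfl, h1, rfl, rfl, h2⟩
    · exact Or.inr ⟨![e 0, e 1, pair ([true, true] ++ P) K, S, [true, true] ++ P, K, P,
        pair P (pair ([true, true] ++ P) K)], rfl, h1, rfl, rfl, rfl, h2⟩

end Pool.Agent.LibCL48
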