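import Pool.Agent.LibCL48.Loop

/-!
The universal language is in nondeterministic exponential time.
-/

namespace Pool.Agent.LibCL48

open Function Pool.Agent.LibNexp
open Pool.Agent.LibTA48 (size_one)

variable {O : List Bool → Bool}

theorem nexp_of_rec {L : Lang} {T : (Fin 1 → List Bool) → ℕ}
    (h : Rec O T fun e => e 0 ∈ L) {g : ℕ → ℕ} (hg : EP g)
    (hT : ∀ e : Fin 1 → List Bool, e 0 ∈ L → T e ≤ g (e 0).length) : L ∈ NEXPLang O := by
  obtain ⟨p, K, hp⟩ := h
  refine nexp_iff.2 ⟨fun n => K * (g n + n + 1), (EP.const K).mul ((hg.add (EP.of_poly PolyB.id)).add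
    (EP.const 1)), p, fun e => ⟨(hp e).1, fun he => ?_⟩⟩
  obtain ⟨t, σ', ht, h⟩ := (hp e).2 he
  refine ⟨t, σ', le_trans ht (Nat.mul_le_mul_left K ?_), h⟩
  have := hT e he
  rw [size_one]
  omega

theorem size_four (e : Fin 4 → List Bool) : size e = (e 0).length + ((e 1).length +
    ((e 2).length + ((e 3).length + 0))) := by
  simp only [size_succ, size_zero]
  rfl

theorem univ_mem (O : List Bool → Bool) : UnivLang O ∈ NEXPLang O := by
  obtain ⟨d, hd⟩ := rec_loop (O := O)
  obtain ⟨c1, h1⟩ := (pt_pairRel (O := O)).reindex (m := 4) ![1, 2, 0]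
  have hlen : PT O fun e : Fin 2 → List Bool => (e 1).length = 1 * (e 0).length + 0 :=
    ((pt_len (O := O) 1 1 0 0)).congr fun e => ⟨fun ⟨k, h1, h2⟩ => by omega,
      fun h => ⟨(e 0).length, by omega, by omega⟩⟩
  obtain ⟨c2, h2⟩ := hlen.reindex (m := 4) ![2, 3]
  have h3 := hd.reindex (m := 4) ![1, 2, 3]
  have hR := rec_exN (O := O) (w := 3) (R := fun w z => w = pair (z 0) (z 1) ∧
    (z 2).length = 1 * (z 1).length + 0 ∧ LoopRel O (z 0) (z 1) (z 2)) (h1.and (h2.and h3))
    (τ := fun w => (4 * w.length) ^ c1 + ((4 * w.length) ^ c2 +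
      2 ^ w.length * (3 * w.length + 2 ^ w.length + 1) ^ d) + 4 * w.length) (by
      rintro e ⟨g1, g2, -⟩
      have g1' := congrArg List.length (show e 0 = pair (e 1) (e 2) from g1)
      have g2' : (e 3).length = 1 * (e 2).length + 0 := g2
      rw [length_pair] at g1'
      have hs : size e ≤ 4 * (e 0).length := by
        rw [size_four]
        omega
      have k1 := Nat.pow_le_pow_left hs c1
      have k2 := Nat.pow_le_pow_left hs c2
      have k3 : 2 ^ (e 3).length * ((e 1).length + (e 2).length + (e 3).length +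
          2 ^ (e 2).length + 1) ^ d ≤ 2 ^ (e 0).length * (3 * (e 0).length + 2 ^ (e 0).length + 1) ^ d := by
        have m1 : 2 ^ (e 3).length ≤ 2 ^ (e 0).length := Nat.pow_le_pow_right (by norm_num) (by omega)
        have m2 : 2 ^ (e 2).length ≤ 2 ^ (e 0).length := Nat.pow_le_pow_right (by norm_num) (by omega)
        refine Nat.mul_le_mul m1 (Nat.pow_le_pow_left ?_ d)
        omega
      show (size e ^ c1 + (size e ^ c2 + 2 ^ (e 3).length * ((e 1).length + (e 2).length +
        (e 3).length + 2 ^ (e 2).length + 1) ^ d)) + size e ≤ _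
      exact Nat.add_le_add (Nat.add_le_add k1 (Nat.add_le_add k2 k3)) hs)
  have hR' : Rec O (fun e : Fin 1 → List Bool => (4 * (e 0).length) ^ c1 + ((4 * (e 0).length) ^ c2 +
      2 ^ (e 0).length * (3 * (e 0).length + 2 ^ (e 0).length + 1) ^ d) + 4 * (e 0).length)
      fun e => e 0 ∈ UnivLang O := by
    refine hR.congr fun e => ⟨?_, ?_⟩
    · rintro ⟨z, g1, g2, N, a, g3, g4, g5⟩
      refine ⟨z 0, z 1, g1, N, a, ?_, g4, g5⟩
      have g2' : (z 2).length = (z 1).length := by omega
      rw [g2'] at g3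
      omega
    · rintro ⟨s, u, g1, N, a, g3, g4, g5⟩
      refine ⟨![s, u, List.replicate u.length false], g1, ?_, N, a, ?_, g4, g5⟩
      · show (List.replicate u.length false).length = 1 * u.length + 0
        simp
      · show val (List.replicate u.length false) + N < 2 ^ (List.replicate u.length false).length
        have := val_false u.length []
        rw [List.append_nil] at this
        rw [this, List.length_replicate]
        show 2 ^ u.length * 0 + N < 2 ^ u.length
        omega
  refine nexp_of_rec hR' (g := fun n => (4 * n) ^ c1 + ((4 * n) ^ c2 +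
      2 ^ n * (3 * n + 2 ^ n + 1) ^ d) + 4 * n) ?_ fun e _ => le_rfl
  have hlin : ∀ k : ℕ, PolyB fun n => k * n := fun k => (PolyB.const k).mul PolyB.id
  have hpow2 : EP fun n => 2 ^ n := EP.pow2 PolyB.id
  have hpow : ∀ {f : ℕ → ℕ}, EP f → ∀ d : ℕ, EP fun n => f n ^ d := by
    intro f hf d
    induction d with
    | zero => simpa using EP.const 1
    | succ d ih => simpa [pow_succ] using ih.mul hf
  exact ((EP.of_poly ((hlin 4).pow c1)).add ((EP.of_poly ((hlin 4).pow c2)).add
    (hpow2.mul (hpow (((EP.of_poly (hlin 3)).add hpow2).add (EP.const 1)) d)))).add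
    (EP.of_poly (hlin 4))

end Pool.Agent.LibCL48
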