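import Pool.Agent.LibCL48.Sim2
import Pool.Agent.LibCL48.LawsFeas

/-!
Reductions to the universal language, and complementation of nondeterministic exponential time.
-/

namespace Pool.Agent.LibCL48

open Function Filter Pool.Agent.LibNexp
open Pool.Agent.LibTA48 (NTLang TB ntLang_of_tb ntLang_mono size_one)

variable {O : List Bool → Bool}

/-- Reductions to the universal language. -/
theorem univ_reduce {l : ℝ} (hl : 0 < l) {L : Lang} (hL : L ∈ NTLang O l) :
    ∃ (u E : List Bool) (C : ℕ), ∀ x w : List Bool, C * ⌈(x.length : ℝ) ^ l⌉₊ + C ≤ w.length →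
      (x ∈ L ↔ pair (pair u (pair x E)) w ∈ UnivLang O) := by
  obtain ⟨c, p, hp⟩ := hL
  obtain ⟨D, hD⟩ := sim_complete (O := O) (m := p.regs + 1) p (Nat.le_succ _)
  set m := p.regs + 1 with hm
  set T : ℕ → ℕ := fun n => 2 ^ (c * ⌈(n : ℝ) ^ l⌉₊ + c) with hT
  have hTB : TB l fun n => D * ((2 * n + 2 * m) + 2 * T n + 1) + D * (T n + 1) + 1 := by
    have h1 : TB l T := ⟨c, fun _ => le_rfl⟩
    have h2 : TB l fun n => 2 * T n := TB.mul (TB.const 2) h1
    have h3 : TB l fun n => D * ((2 * n + 2 * m) + 2 * T n + 1) :=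
      TB.mul (TB.const D) (((TB.lin' hl 2 (2 * m)).add h2).add (TB.const 1))
    have h4 : TB l fun n => D * (T n + 1) := TB.mul (TB.const D) (h1.add (TB.const 1))
    exact (h3.add h4).add (TB.const 1)
  obtain ⟨C, hC⟩ := hTB
  have hcfg : ∀ x : List Bool, config m [p] (init fun _ : Fin 1 => x) =
      pair (encK [p]) (pair x (((List.range p.regs).map fun _ => ([] : List Bool)).flatMap hdr)) := by
    intro x
    unfold config encS st
    congr 1
    rw [hm, List.range_succ_eq_map, List.map_cons, List.flatMap_cons, pair_eq]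
    congr 1
    rw [List.map_map]
    congr 1
  refine ⟨encK [p], ((List.range p.regs).map fun _ => ([] : List Bool)).flatMap hdr, C + 1,
    fun x w hw => ⟨fun hx => ?_, ?_⟩⟩
  · obtain ⟨t, σ', ht, h1⟩ := (hp fun _ => x).2 hx
    rw [size_one] at ht
    have ht' : t ≤ T x.length := ht
    have hpow : D * ((2 * x.length + 2 * m) + 2 * T x.length + 1) + D * (T x.length + 1) + 1 ≤
        2 ^ w.length :=
      le_trans (hC x.length) (Nat.pow_le_pow_right (by norm_num) (by nlinarith [Nat.zero_le ⌈(x.length : ℝ) ^ l⌉₊]))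
    have htot : tot m (init fun _ : Fin 1 => x) = x.length := by
      unfold tot
      rw [hm, Finset.sum_range_succ', init0]
      have : ∑ i ∈ Finset.range p.regs, (init (fun _ : Fin 1 => x) (i + 1)).length = 0 :=
        Finset.sum_eq_zero fun i _ => by rw [init_ge _ (by omega)]; rfl
      rw [this, Nat.zero_add]
    have hM : D * (([] : List Bool).length + (2 * tot m (init fun _ : Fin 1 => x) + 2 * m) + 2 * t + 1) <
        2 ^ w.length := by
      rw [htot, List.length_nil, Nat.zero_add]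
      have e1 : D * (2 * x.length + 2 * m + 2 * t + 1) ≤ D * ((2 * x.length + 2 * m) + 2 * T x.length + 1) :=
        Nat.mul_le_mul_left D (by omega)
      omega
    obtain ⟨N, g1, g2⟩ := hD t _ σ' [] (2 ^ w.length) h1 hM
    rw [← hcfg]
    refine ⟨_, _, rfl, N, _, ?_, g2, ⟨_, rfl⟩⟩
    have e2 : D * (t + 1) ≤ D * (T x.length + 1) := Nat.mul_le_mul_left D (by omega)
    omega
  · rintro ⟨s, v, h1, N, a, h2, h3, h4⟩
    obtain ⟨rfl, rfl⟩ := pair_injective h1
    obtain ⟨t, τ, h5, -⟩ := univ_sound h3 h4 [p] (init fun _ : Fin 1 => x) (hcfg x).symm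
    exact (hp fun _ => x).1 _ _ h5

theorem nexp_sub_ntLang {L : Lang} (hL : L ∈ NEXPLang O) : ∃ b : ℕ, 1 ≤ b ∧ L ∈ NTLang O b := by
  obtain ⟨c, hc⟩ := hL
  refine ⟨c + 1, by omega, c + 1, hc.mono fun n => Nat.pow_le_pow_right (by norm_num) ?_⟩
  have h1 : (n : ℝ) ^ (((c + 1 : ℕ) : ℝ)) = (n : ℝ) ^ (c + 1) := Real.rpow_natCast _ _
  rw [h1]
  have h2 : ⌈(n : ℝ) ^ (c + 1)⌉₊ = n ^ (c + 1) := by
    have : (n : ℝ) ^ (c + 1) = ((n ^ (c + 1) : ℕ) : ℝ) := by push_cast; ring
    rw [this, Nat.ceil_natCast]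
  rw [h2]
  have h3 := pow_le_pow_add_one (n := n) (show c ≤ c + 1 by omega)
  have h4 : 1 * n ^ (c + 1) ≤ (c + 1) * n ^ (c + 1) := Nat.mul_le_mul_right _ (by omega)
  omega

theorem ntLang_sub_nexp {l : ℝ} {L : Lang} (hL : L ∈ NTLang O l) : L ∈ NEXPLang O := by
  obtain ⟨c, hc⟩ := hL
  refine nexp_iff.2 ⟨_, ?_, hc⟩
  have h1 : PolyB fun n => ⌈(n : ℝ) ^ l⌉₊ := by
    refine ((PolyB.id.pow ⌈l⌉₊).add (PolyB.const 1)).mono fun n => ?_
    rcases Nat.eq_zero_or_pos n with rfl | hn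
    · have h2 : ((0 : ℕ) : ℝ) ^ l ≤ 1 := by
        rcases eq_or_ne l 0 with rfl | h0
        · simp
        · rw [Nat.cast_zero, Real.zero_rpow h0]
          norm_num
      have h3 : ⌈((0 : ℕ) : ℝ) ^ l⌉₊ ≤ 1 := Nat.ceil_le.2 (by simpa using h2)
      exact le_trans h3 (Nat.le_add_left _ _)
    · exact le_trans (ceil_rpow_le hn) (Nat.le_succ _)
  exact EP.pow2 (((PolyB.const c).mul h1).add (PolyB.const c))

/-- Recognition of the complement through the universal language. -/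
theorem univ_back_mem {b : ℝ} (hb : 0 < b) {B : Lang} (hB : B ∈ NTLang O b) (u E : List Bool)
    (C : ℕ) :
    {w | ∃ z : Fin 8 → List Bool, w = pair (z 0) (z 1) ∧ z 1 = [] ∧ (z 2).length = (z 0).length ^ 2 ∧
      (z 3).length = C * (z 2).length + C ∧ z 4 = E ∧ z 5 = pair (z 0) (z 4) ∧ z 6 = u ∧
      z 7 = pair (z 6) (z 5) ∧ pair (z 7) (z 3) ∈ B} ∈ NTLang O (2 * b) := by
  obtain ⟨C', hC'⟩ := rec_pair_mem hB
  obtain ⟨c1, h1⟩ := (pt_pairRel (O := O)).reindex (m := 9) ![1, 2, 0]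
  obtain ⟨c2, h2⟩ := (pt_const (O := O) []).reindex (m := 9) ![2]
  obtain ⟨c3, h3⟩ := (pt_pow (O := O) 2).reindex (m := 9) ![1, 3]
  obtain ⟨c4, h4⟩ := (pt_lineq (O := O) C C).reindex (m := 9) ![3, 4]
  obtain ⟨c5, h5⟩ := (pt_const (O := O) E).reindex (m := 9) ![5]
  obtain ⟨c6, h6⟩ := (pt_pairRel (O := O)).reindex (m := 9) ![1, 5, 6]
  obtain ⟨c7, h7⟩ := (pt_const (O := O) u).reindex (m := 9) ![7]
  obtain ⟨c8, h8⟩ := (pt_pairRel (O := O)).reindex (m := 9) ![7, 6, 8]
  have h9 := hC'.reindex (m := 9) ![8, 4]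
  have hRec := h1.and (h2.and (h3.and (h4.and (h5.and (h6.and (h7.and (h8.and h9)))))))
  have hsize : ∀ e : Fin 9 → List Bool, (e 0 = pair (e 1) (e 2) ∧ e 2 = [] ∧
      (e 3).length = (e 1).length ^ 2 ∧ (e 4).length = C * (e 3).length + C ∧ e 5 = E ∧
      e 6 = pair (e 1) (e 5) ∧ e 7 = u ∧ e 8 = pair (e 7) (e 6) ∧ pair (e 8) (e 4) ∈ B) →
      (size e : ℝ) ≤ (3 * C + 12 * E.length + 12 * u.length + 30 : ℕ) *
        (((e 0).length : ℝ) ^ (2 : ℝ) + 1) ∧
      ((pair (e 8) (e 4)).length : ℝ) ≤ (3 * C + 12 * E.length + 12 * u.length + 30 : ℕ) *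
        (((e 0).length : ℝ) ^ (2 : ℝ) + 1) := by
    rintro e ⟨g1, g2, g3, g4, g5, g6, g7, g8, -⟩
    have k0 : (e 0).length = 2 * (e 1).length + 0 + 2 := by rw [g1, length_pair, g2]; rfl
    have k2 : (e 2).length = 0 := by rw [g2]; rfl
    have k5 : (e 5).length = E.length := by rw [g5]
    have k6 : (e 6).length = 2 * (e 1).length + (e 5).length + 2 := by rw [g6, length_pair]
    have k7 : (e 7).length = u.length := by rw [g7]
    have k8 : (e 8).length = 2 * (e 7).length + (e 6).length + 2 := by rw [g8, length_pair]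
    have k9 : ((e 0).length : ℝ) ^ (2 : ℝ) = ((e 0).length ^ 2 : ℕ) := by
      rw [show (2 : ℝ) = ((2 : ℕ) : ℝ) by norm_num, Real.rpow_natCast]
      push_cast
      ring
    have k3 : (e 3).length ≤ (e 0).length ^ 2 := by
      rw [g3]
      exact Nat.pow_le_pow_left (by omega) 2
    have k10 : (e 0).length ≤ (e 0).length ^ 2 := Nat.le_self_pow (by norm_num) _
    rw [k9]
    set W := (e 0).length ^ 2 with hW
    have k11 : C * (e 3).length ≤ C * W := Nat.mul_le_mul_left C k3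
    have k12 : C * W ≤ (3 * C + 12 * E.length + 12 * u.length + 30) * W :=
      Nat.mul_le_mul_right _ (by omega)
    have k13 : (3 * C + 12 * E.length + 12 * u.length + 30) * (W + 1) =
      3 * (C * W) + 12 * (E.length * W) + 12 * (u.length * W) + 30 * W +
        (3 * C + 12 * E.length + 12 * u.length + 30) := by ring
    constructor
    · have : size e ≤ (3 * C + 12 * E.length + 12 * u.length + 30) * (W + 1) := by
        rw [size_nine', k13]
        omega
      exact_mod_cast this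
    · have : (pair (e 8) (e 4)).length ≤ (3 * C + 12 * E.length + 12 * u.length + 30) * (W + 1) := by
        rw [length_pair, k13]
        omega
      exact_mod_cast this
  have h2b : 0 < 2 * b := by linarith
  have hsz : BD (fun e : Fin 9 → List Bool => e 0 = pair (e 1) (e 2) ∧ e 2 = [] ∧
      (e 3).length = (e 1).length ^ 2 ∧ (e 4).length = C * (e 3).length + C ∧ e 5 = E ∧
      e 6 = pair (e 1) (e 5) ∧ e 7 = u ∧ e 8 = pair (e 7) (e 6) ∧ pair (e 8) (e 4) ∈ B)
      (fun e => ⌈((e 0).length : ℝ) ^ (2 * b)⌉₊) fun e => size e :=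
    bd_lin (m := fun e => size e) (n := fun e => (e 0).length) (r := 2) h2b _
      fun e he => (hsize e he).1
  refine ntLang_exN h2b (w := 8) (R := fun w z => w = pair (z 0) (z 1) ∧ z 1 = [] ∧
    (z 2).length = (z 0).length ^ 2 ∧
    (z 3).length = C * (z 2).length + C ∧ z 4 = E ∧ z 5 = pair (z 0) (z 4) ∧ z 6 = u ∧
    z 7 = pair (z 6) (z 5) ∧ pair (z 7) (z 3) ∈ B) hRec ?_ hsz
  refine (hsz.pow c1).add ((hsz.pow c2).add ((hsz.pow c3).add ((hsz.pow c4).add ((hsz.pow c5).add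
    ((hsz.pow c6).add ((hsz.pow c7).add ((hsz.pow c8).add (BD.add ?_ ?_))))))))
  · refine (((BD.const 2).mul hsz).pow C').mono (fun e he => he) fun e _ => ?_
    refine Nat.pow_le_pow_left ?_ C'
    have e0 := len_le_size e 8
    have e1 := len_le_size e 4
    rw [size_two]
    show (e 8).length + (e 4).length ≤ 2 * size e
    omega
  · exact bd_exp (m := fun e : Fin 9 → List Bool => (pair (e 8) (e 4)).length)
      (n := fun e => (e 0).length) (r := 2) hb _ (fun e he => (hsize e he).2) C'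

theorem ceil_sq (n : ℕ) : ⌈(n : ℝ) ^ (2 : ℝ)⌉₊ = n ^ 2 := by
  have h1 : (n : ℝ) ^ (2 : ℝ) = ((n ^ 2 : ℕ) : ℝ) := by
    rw [show (2 : ℝ) = ((2 : ℕ) : ℝ) by norm_num, Real.rpow_natCast]
    push_cast
    ring
  rw [h1, Nat.ceil_natCast]

/-- Complements without advice. -/
theorem compl_of_univ {b : ℝ} (hb : 0 < b) (h : (UnivLang O)ᶜ ∈ NTLang O b) :
    Enough O 2 (2 * b) 0 := by
  intro L hL
  obtain ⟨u, E, C, hC⟩ := univ_reduce (by norm_num) hL
  refine ⟨_, univ_back_mem hb h u E C, fun _ => [], ⟨⟨0, fun n => by simp⟩, fun _ _ => rfl⟩, ?_⟩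
  ext x
  rw [Set.mem_compl_iff]
  constructor
  · intro hx
    refine ⟨![x, [], List.replicate (x.length ^ 2) true,
      List.replicate (C * x.length ^ 2 + C) true, E, pair x E, u, pair u (pair x E)],
      rfl, rfl, ?_, ?_, rfl, rfl, rfl, rfl, ?_⟩
    · show (List.replicate (x.length ^ 2) true).length = x.length ^ 2
      simp
    · show (List.replicate (C * x.length ^ 2 + C) true).length =
        C * (List.replicate (x.length ^ 2) true).length + C
      simp
    · show ¬ pair (pair u (pair x E)) (List.replicate (C * x.length ^ 2 + C) true) ∈ UnivLang O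
      rw [← hC x _ (by rw [List.length_replicate, ceil_sq])]
      exact hx
  · rintro ⟨z, h1, h2, h3, h4, h5, h6, h7, h8, h9⟩
    obtain ⟨h10, -⟩ := pair_injective h1
    rw [h8, h7, h6, h5, ← h10] at h9
    rw [hC x (z 3) (by rw [h4, h3, ceil_sq, ← h10])]
    exact h9

theorem nexp_pairNil {B : Lang} (hB : B ∈ NEXPLang O) :
    ({x | pair x [] ∈ B} : Lang) ∈ NEXPLang O := by
  obtain ⟨T, hT, h⟩ := nexp_iff.1 hB
  refine nexp_iff.2 ⟨_, ?_, LibTA48.ntime_pairNil h⟩
  have h3 : EP fun n => T (2 * n + 2) := hT.comp (((PolyB.const 2).mul PolyB.id).add (PolyB.const 2))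
  have hlin : ∀ a b : ℕ, EP fun n => a * n + b := fun a b =>
    EP.of_poly (((PolyB.const a).mul PolyB.id).add (PolyB.const b))
  exact ((hlin 2 1).add ((EP.const 2).add (hlin 3 1))).add h3

/-- Nondeterministic exponential time is closed under complements if and only if
`(1, b, 0)` is feasible for some `b`. -/
theorem closed_iff (O : List Bool → Bool) :
    (∀ L ∈ NEXPLang O, Lᶜ ∈ NEXPLang O) ↔ ∃ b : ℝ, Feas O 1 b 0 := by
  constructor
  · intro h
    obtain ⟨b, hb1, hb⟩ := nexp_sub_ntLang (h _ (univ_mem O))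
    have hb0 : (1 : ℝ) ≤ b := by exact_mod_cast hb1
    exact ⟨2 * b + 1, by norm_num, by linarith, le_rfl, by norm_num, 2, 2 * b, 0, by norm_num,
      by linarith, le_rfl, Or.inr ⟨rfl, rfl⟩, compl_of_univ (by linarith) hb⟩
  · rintro ⟨b, h⟩ L hL
    obtain ⟨a', b', c', h5, h6, h7, h8, h9, h10⟩ := h.norm
    have hc : c' = 0 := by rcases h9 with h9 | ⟨h9, -⟩ <;> linarith
    subst hc
    obtain ⟨k, hk1, hk⟩ := nexp_sub_ntLang hL
    have hk0 : (1 : ℝ) ≤ k := by exact_mod_cast hk1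
    have h11 := enough_pad (p := k) (q := 1) le_rfl hk1 (show (0 : ℝ) < 1 by norm_num)
      (show 0 < b' by linarith) le_rfl (h10.mono h5.le le_rfl le_rfl le_rfl)
    rw [Nat.cast_one, div_one, mul_one, mul_zero] at h11
    obtain ⟨B, hB, f, ⟨-, hf⟩, heq⟩ := h11 L hk
    have h12 : Lᶜ = {x | pair x [] ∈ B} := by
      rw [heq]
      ext x
      rw [Set.mem_ofPred_eq, Set.mem_ofPred_eq, hf rfl]
    rw [h12]
    exact nexp_pairNil (ntLang_sub_nexp hB)

end Pool.Agent.LibCL48
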