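import Pool.Agent.LibCL48.Arith
import Pool.Agent.LibSpec4.Coding

/-!
Binary numbers.
-/

namespace Pool.Agent.LibCL48

open Function Pool.Agent.LibNexp

variable {O : List Bool → Bool}

theorem iter_popInc_complete : ∀ (x : List Bool) (σ : State), σ 1 = x → σ 4 = [] →
    val (σ 2) + x.length < 2 ^ (σ 2).length → ∃ t σ', t ≤ x.length * (4 * (σ 2).length + 4) ∧
      Iter (Run O (.seq (popAny 1) inc)) t σ σ' ∧ σ' 1 = [] ∧ val (σ' 2) = val (σ 2) + x.length ∧
      (σ' 2).length = (σ 2).length := by
  intro x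
  induction x with
  | nil => intro σ h1 _ _; exact ⟨0, σ, by simp, Iter.nil σ, h1, by simp, rfl⟩
  | cons b x ih =>
    intro σ h1 h4 h
    rw [List.length_cons] at h
    set τ := update σ 1 x with hτ
    have a1 : τ 1 = x := by rw [hτ, update_self]
    have a2 : τ 2 = σ 2 := by rw [hτ, update_of_ne (by norm_num)]
    have a4 : τ 4 = [] := by rw [hτ, update_of_ne (by norm_num), h4]
    obtain ⟨t1, ρ, ht1, h2⟩ := inc_complete (O := O) (σ := τ) a4 (by rw [a2]; omega)
    obtain ⟨b1, b2, b3, b4⟩ := inc_sound a4 h2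
    rw [a2] at b1 b2 ht1
    have h3 : Run O (popAny 1) 1 σ τ := run_popAny.2 ⟨b, x, h1, rfl, rfl⟩
    obtain ⟨t2, σ', ht2, h5, c1, c2, c3⟩ := ih ρ (by rw [b4 1 (by norm_num) (by norm_num), a1]) b3
      (by rw [b1, b2]; omega)
    refine ⟨(1 + t1) + t2, σ', ?_, Iter.cons ⟨1, t1, τ, rfl, h3, h2⟩ h5, c1, ?_, ?_⟩
    · rw [b2] at ht2
      rw [List.length_cons, Nat.succ_mul]
      omega
    · rw [c2, b1, List.length_cons]; ring
    · rw [c3, b2]

/-- The length of the second argument is coded in binary by the first argument. -/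
theorem pt_val : PT O fun e : Fin 2 → List Bool =>
    val (e 0) + (e 1).length + 1 = 2 ^ (e 0).length := by
  refine pt_of_prog (.seq (copy 0 2 3) (.seq (.star (.seq (popAny 1) inc)) (.seq (.empty 1)
    (.seq (.star (.pop 2 true)) (.empty 2)))))
    (T := fun n => (5 * n + 2) + (n * (4 * n + 4) + (n + 2)))
    ((((PolyB.const 5).mul PolyB.id).add (PolyB.const 2)).add
      ((PolyB.id.mul (((PolyB.const 4).mul PolyB.id).add (PolyB.const 4))).add
        (PolyB.id.add (PolyB.const 2)))) ?_ ?_
  · rintro e t σ' ⟨t1, t2, τ1, -, h1, t3, t4, τ2, -, h2, t5, t6, τ3, -, ⟨-, h3, rfl⟩,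
      t7, t8, τ4, -, h4, -, h5, rfl⟩
    rw [run_copy (by norm_num) (by norm_num) (by norm_num) (init_ge e (by norm_num))] at h1
    obtain ⟨-, rfl⟩ := h1
    have hinv := iter_inv (P := fun σ => σ 4 = [] ∧ (σ 2).length = (e 0).length ∧
      val (σ 2) + (σ 1).length = val (e 0) + (e 1).length) (by
        rintro t σ τ ⟨t1, t2, υ, -, h6, h7⟩ ⟨i1, i2, i3⟩
        obtain ⟨b, l, h8, -, rfl⟩ := run_popAny.1 h6
        obtain ⟨j1, j2, j3, j4⟩ := inc_sound (by rw [update_of_ne (by norm_num)]; exact i1) h7
        rw [update_of_ne (by norm_num)] at j1 j2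
        have j5 := j4 1 (by norm_num) (by norm_num)
        rw [update_self] at j5
        refine ⟨j3, by rw [j2, i2], ?_⟩
        rw [j1, j5]
        rw [h8, List.length_cons] at i3
        omega) h2 ⟨by rw [update_of_ne (by norm_num)]; exact init_ge e (by norm_num), by
          rw [update_self, init0, init_ge e (r := 2) le_rfl, List.append_nil], by
          rw [update_self, update_of_ne (by norm_num), init0, init1, init_ge e (r := 2) le_rfl,
            List.append_nil]⟩
    obtain ⟨i1, i2, i3⟩ := hinv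
    rw [h3, List.length_nil, add_zero] at i3
    obtain ⟨k, k1, -⟩ := pops_sound h4
    rw [h5, List.append_nil] at k1
    have e3 := val_true k []
    rw [List.append_nil, ← k1] at e3
    simp only [val, zero_add, mul_one] at e3
    have e4 : k = (e 0).length := by rw [← i2, k1, List.length_replicate]
    rw [← i3, e3, e4]
  · intro e he
    have h1 : Run O (copy 0 2 3) (5 * (e 0).length + 2) (init e) (update (init e) 2 (e 0)) :=
      (run_copy (by norm_num) (by norm_num) (by norm_num) (init_ge e (by norm_num))).2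
        ⟨by rw [init0], by rw [init0, init_ge e (r := 2) le_rfl, List.append_nil]⟩
    set τ1 := update (init e) 2 (e 0) with hτ1
    have a1 : τ1 1 = e 1 := by rw [hτ1, update_of_ne (by norm_num), init1]
    have a2 : τ1 2 = e 0 := by rw [hτ1, update_self]
    have a4 : τ1 4 = [] := by rw [hτ1, update_of_ne (by norm_num)]; exact init_ge e (by norm_num)
    obtain ⟨t2, τ2, ht2, h2, b1, b2, b3⟩ := iter_popInc_complete (O := O) (e 1) τ1 a1 a4
      (by rw [a2]; omega)
    rw [a2] at ht2 b2 b3
    have b4 : τ2 2 = List.replicate (e 0).length true := by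
      have := all_true (l := τ2 2) (by rw [b3, b2]; exact he)
      rwa [b3] at this
    have h3 := pops_complete (O := O) (r := 2) (b := true) (e 0).length τ2 b4
    refine ⟨(5 * (e 0).length + 2) + (t2 + (1 + ((e 0).length + 1))), _, ?_, _, _, _, rfl, h1,
      _, _, _, rfl, h2, _, _, _, rfl, ⟨rfl, b1, rfl⟩, _, _, _, rfl, h3, rfl, by rw [update_self], rfl⟩
    have e0 := len_le_size e 0
    have e1 := len_le_size e 1
    have e2 : (e 1).length * (4 * (e 0).length + 4) ≤ size e * (4 * size e + 4) :=
      Nat.mul_le_mul e1 (by omega)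
    show _ ≤ (5 * size e + 2) + (size e * (4 * size e + 4) + (size e + 2))
    omega

theorem val_dg : ∀ {m i : ℕ}, i < 2 ^ m → val (LibSpec4.dg m i) = i := by
  intro m
  induction m with
  | zero => intro i h; simp at h; subst h; rfl
  | succ m ih =>
    intro i h
    have h1 : i / 2 < 2 ^ m := by
      rw [pow_succ] at h
      omega
    show (decide (i % 2 = 1)).toNat + 2 * val (LibSpec4.dg m (i / 2)) = i
    rw [ih h1]
    rcases Nat.mod_two_eq_zero_or_one i with h2 | h2
    · rw [h2]; simp; omega
    · rw [h2]; simp; omega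

/-- Every length is coded. -/
theorem exists_val {n k : ℕ} (h : n < 2 ^ k) : ∃ β : List Bool, β.length = k ∧
    val β + n + 1 = 2 ^ k := by
  refine ⟨LibSpec4.dg k (2 ^ k - 1 - n), LibSpec4.length_dg _ _, ?_⟩
  rw [val_dg (by omega)]
  omega

end Pool.Agent.LibCL48
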