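import Pool.Agent.LibCL48.NT

/-!
Rational powers of lengths.
-/

namespace Pool.Agent.LibCL48

open Function Filter Pool.Agent.LibNexp

variable {O : List Bool → Bool}

/-- The least `k` with `n ^ p ≤ k ^ q`. -/
noncomputable def zt (p q n : ℕ) : ℕ := sInf {k | n ^ p ≤ k ^ q}

theorem zt_spec {p q : ℕ} (hq : 1 ≤ q) (n : ℕ) : n ^ p ≤ (zt p q n) ^ q :=
  Nat.sInf_mem (s := {k | n ^ p ≤ k ^ q}) ⟨n ^ p, Nat.le_self_pow (by omega) _⟩

theorem zt_le {p q n k : ℕ} (h : n ^ p ≤ k ^ q) : zt p q n ≤ k := Nat.sInf_le h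

theorem zt_iff {p q : ℕ} (hq : 1 ≤ q) (n k : ℕ) :
    k = zt p q n ↔ n ^ p ≤ k ^ q ∧ (k = 0 ∨ ∃ j, k = j + 1 ∧ j ^ q < n ^ p) := by
  constructor
  · rintro rfl
    refine ⟨zt_spec hq n, ?_⟩
    rcases Nat.eq_zero_or_pos (zt p q n) with h | h
    · exact Or.inl h
    · refine Or.inr ⟨zt p q n - 1, by omega, ?_⟩
      by_contra hcon
      have := zt_le (not_lt.1 hcon)
      omega
  · rintro ⟨h1, h2⟩
    refine le_antisymm ?_ (zt_le h1)
    rcases h2 with rfl | ⟨j, rfl, h2⟩
    · exact Nat.zero_le _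
    · by_contra hcon
      have h3 : zt p q n ≤ j := by omega
      have h4 := Nat.pow_le_pow_left h3 q
      have := zt_spec (p := p) hq n
      omega

theorem pow_le_zt {p q : ℕ} (hq : 1 ≤ q) (n : ℕ) : (n : ℝ) ^ ((p : ℝ) / q) ≤ zt p q n := by
  have h1 : ((n : ℝ) ^ p) ≤ (zt p q n : ℝ) ^ q := by exact_mod_cast zt_spec (p := p) hq n
  have hq0 : (0 : ℝ) < q := by exact_mod_cast hq
  have h2 : ((n : ℝ) ^ p) ^ (1 / (q : ℝ)) ≤ ((zt p q n : ℝ) ^ q) ^ (1 / (q : ℝ)) :=
    Real.rpow_le_rpow (by positivity) h1 (by positivity)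
  rw [← Real.rpow_natCast, ← Real.rpow_natCast, ← Real.rpow_mul (by positivity),
    ← Real.rpow_mul (by positivity), mul_one_div, mul_one_div, div_self hq0.ne', Real.rpow_one] at h2
  exact h2

theorem zt_le_pow {p q : ℕ} (hq : 1 ≤ q) (n : ℕ) : (zt p q n : ℝ) ≤ (n : ℝ) ^ ((p : ℝ) / q) + 1 := by
  have hq0 : (0 : ℝ) < q := by exact_mod_cast hq
  have hnn : (0 : ℝ) ≤ (n : ℝ) ^ ((p : ℝ) / q) := by positivity
  rcases ((zt_iff (p := p) hq n _).1 rfl).2 with h | ⟨j, h, h1⟩
  · rw [h, Nat.cast_zero]; linarith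
  · rw [h]
    have h2 : (j : ℝ) ^ q ≤ (n : ℝ) ^ p := by exact_mod_cast h1.le
    have h3 : ((j : ℝ) ^ q) ^ (1 / (q : ℝ)) ≤ ((n : ℝ) ^ p) ^ (1 / (q : ℝ)) :=
      Real.rpow_le_rpow (by positivity) h2 (by positivity)
    rw [← Real.rpow_natCast, ← Real.rpow_natCast, ← Real.rpow_mul (by positivity),
      ← Real.rpow_mul (by positivity), mul_one_div, mul_one_div, div_self hq0.ne', Real.rpow_one] at h3
    push_cast
    linarith

/-- The real form of the comparison of powers. -/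
theorem rpow_le_of_pow_le {p q n k : ℕ} (hq : 1 ≤ q) (h : n ^ p ≤ k ^ q) :
    (n : ℝ) ^ ((p : ℝ) / q) ≤ k :=
  le_trans (pow_le_zt hq n) (by exact_mod_cast zt_le h)

theorem pt_powle (p q : ℕ) : PT O fun e : Fin 2 → List Bool =>
    (e 0).length ^ p ≤ (e 1).length ^ q := by
  have h1 : PT O fun e : Fin 2 → List Bool => ∃ u : List Bool, ∃ v : List Bool, u.length = (e 0).length ^ p ∧
      v.length = (e 1).length ^ q ∧ u.length ≤ v.length := by
    refine PT.ex (R := fun e u => ∃ v : List Bool, u.length = (e 0).length ^ p ∧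
      v.length = (e 1).length ^ q ∧ u.length ≤ v.length) (g := fun n => n ^ p) ?_ (PolyB.id.pow p) ?_
    · refine PT.ex (R := fun (e : Fin 3 → List Bool) v => (e 2).length = (e 0).length ^ p ∧
        v.length = (e 1).length ^ q ∧ (e 2).length ≤ v.length) (g := fun n => n ^ q) ?_
        (PolyB.id.pow q) ?_
      · have h1 := ((pt_pow (O := O) p).reindex (m := 4) ![0, 2]).and
          (((pt_pow (O := O) q).reindex (m := 4) ![1, 3]).and ((pt_le (O := O)).reindex (m := 4) ![2, 3]))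
        exact h1
      · rintro e v ⟨-, h2, -⟩
        rw [h2]
        exact Nat.pow_le_pow_left (len_le_size e 1) q
    · rintro e u ⟨v, h2, -⟩
      rw [h2]
      exact Nat.pow_le_pow_left (len_le_size e 0) p
  refine h1.congr fun e => ⟨?_, fun h => ?_⟩
  · rintro ⟨u, v, h2, h3, h4⟩
    rwa [h2, h3] at h4
  · exact ⟨List.replicate ((e 0).length ^ p) true, List.replicate ((e 1).length ^ q) true, by simp,
      by simp, by simpa using h⟩

theorem pt_powlt (p q : ℕ) : PT O fun e : Fin 2 → List Bool =>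
    (e 0).length ^ p < (e 1).length ^ q := by
  have h1 : PT O fun e : Fin 2 → List Bool => ∃ u : List Bool, ∃ v : List Bool, u.length = (e 0).length ^ p ∧
      v.length = (e 1).length ^ q ∧ ∃ w : List Bool, (∃ k, u.length = 1 * k + 0 ∧
        w.length = 1 * k + 1) ∧ w.length ≤ v.length := by
    refine PT.ex (R := fun e u => ∃ v : List Bool, u.length = (e 0).length ^ p ∧
      v.length = (e 1).length ^ q ∧ ∃ w : List Bool, (∃ k, u.length = 1 * k + 0 ∧
        w.length = 1 * k + 1) ∧ w.length ≤ v.length) (g := fun n => n ^ p) ?_ (PolyB.id.pow p) ?_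
    · refine PT.ex (R := fun (e : Fin 3 → List Bool) v => (e 2).length = (e 0).length ^ p ∧
        v.length = (e 1).length ^ q ∧ ∃ w : List Bool, (∃ k, (e 2).length = 1 * k + 0 ∧
        w.length = 1 * k + 1) ∧ w.length ≤ v.length) (g := fun n => n ^ q) ?_
        (PolyB.id.pow q) ?_
      · refine ((pt_pow (O := O) p).reindex (m := 4) ![0, 2]).and
          (((pt_pow (O := O) q).reindex (m := 4) ![1, 3]).and ?_)
        refine PT.ex (R := fun (e : Fin 4 → List Bool) w => (∃ k, (e 2).length = 1 * k + 0 ∧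
          w.length = 1 * k + 1) ∧ w.length ≤ (e 3).length) (g := fun n => n) ?_ PolyB.id ?_
        · exact ((pt_len (O := O) 1 1 0 1).reindex (m := 5) ![2, 4]).and
            ((pt_le (O := O)).reindex (m := 5) ![4, 3])
        · rintro e w ⟨-, h2⟩
          exact le_trans h2 (len_le_size e 3)
      · rintro e v ⟨-, h2, -⟩
        rw [h2]
        exact Nat.pow_le_pow_left (len_le_size e 1) q
    · rintro e u ⟨v, h2, -⟩
      rw [h2]
      exact Nat.pow_le_pow_left (len_le_size e 0) p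
  refine h1.congr fun e => ⟨?_, fun h => ?_⟩
  · rintro ⟨u, v, h2, h3, w, ⟨k, h4, h5⟩, h6⟩
    omega
  · exact ⟨List.replicate ((e 0).length ^ p) true, List.replicate ((e 1).length ^ q) true, by simp,
      by simp, List.replicate ((e 0).length ^ p + 1) true, ⟨(e 0).length ^ p, by simp, by simp⟩,
      by simpa using h⟩

theorem pt_zt (p : ℕ) {q : ℕ} (hq : 1 ≤ q) : PT O fun e : Fin 2 → List Bool =>
    (e 1).length = zt p q (e 0).length := by
  have h1 : PT O fun e : Fin 2 → List Bool => ∃ y : List Bool, (∃ k, y.length = 1 * k + 0 ∧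
      (e 1).length = 1 * k + 1) ∧ y.length ^ q < (e 0).length ^ p := by
    refine PT.ex (R := fun (e : Fin 2 → List Bool) y => (∃ k, y.length = 1 * k + 0 ∧
      (e 1).length = 1 * k + 1) ∧ y.length ^ q < (e 0).length ^ p) (g := fun n => n) ?_ PolyB.id ?_
    · exact ((pt_len (O := O) 1 1 0 1).reindex (m := 3) ![2, 1]).and
        ((pt_powlt (O := O) q p).reindex (m := 3) ![2, 0])
    · rintro e y ⟨⟨k, h2, h3⟩, -⟩
      have := len_le_size e 1
      omega
  have h2 : PT O fun e : Fin 2 → List Bool => (e 1).length = 0 :=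
    ((pt_len (O := O) 0 0 0 0).reindex (m := 2) ![1, 1]).congr fun e => by simp
  refine ((pt_powle (O := O) p q).and (h2.or h1)).congr fun e => ?_
  rw [zt_iff hq]
  refine and_congr Iff.rfl (or_congr Iff.rfl ⟨?_, ?_⟩)
  · rintro ⟨y, ⟨k, h3, h4⟩, h5⟩
    exact ⟨y.length, by omega, h5⟩
  · rintro ⟨j, h3, h4⟩
    exact ⟨List.replicate j true, ⟨j, by simp, by omega⟩, by simpa using h4⟩

end Pool.Agent.LibCL48
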